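import Pool.Agent.Work.MP_b51559_nt.BG.C.Stmts

set_option autoImplicit false

/-! # Part C, item ADJ: two colourings are adhered to iff they are compatible and the join is -/

namespace MPb51559.BG

open Finset Filter Topology MeasureTheory
open scoped Classical

namespace XADJ

theorem eq_of_dvd {p n a b D0 : ℕ} (hp : D0 < p) (ha : a ≤ D0) (hb : b ≤ D0) (h1 : p ∣ n + a)
    (h2 : p ∣ n + b) : a = b := by
  have key : ∀ a b : ℕ, a ≤ b → b ≤ D0 → p ∣ n + a → p ∣ n + b → a = b := by
    intro a b hab hb h1 h2
    have h3 : p ∣ (n + b) - (n + a) := Nat.dvd_sub h2 h1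
    have h4 : (n + b) - (n + a) = b - a := by omega
    rw [h4] at h3
    rcases Nat.eq_zero_or_pos (b - a) with h | h
    · omega
    · have := Nat.le_of_dvd h h3
      omega
  rcases le_total a b with h | h
  · exact key a b h hb h1 h2
  · exact (key b a h ha h2 h1).symm

end XADJ

theorem prf_ADJ : C_ADJ := by
  intro D0 S k h hS hh hinj d e n
  constructor
  · rintro ⟨hd, he⟩
    refine ⟨fun p => ?_, fun p i hp => ?_⟩
    · rcases hdp : d p with _ | i
      · exact Or.inl rfl
      · rcases hep : e p with _ | j
        · exact Or.inr (Or.inl rfl)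
        · refine Or.inr (Or.inr ?_)
          have h1 := XADJ.eq_of_dvd (hS p p.2) (hh i) (hh j) (hd p i hdp) (he p j hep)
          rw [hinj h1]
    · unfold jn at hp
      split_ifs at hp with h1
      · exact he p i hp
      · exact hd p i hp
  · rintro ⟨hc, hj⟩
    refine ⟨fun p i hp => hj p i ?_, fun p i hp => hj p i ?_⟩
    · unfold jn
      rw [if_neg (by rw [hp]; simp)]
      exact hp
    · unfold jn
      rcases hc p with h1 | h1 | h1
      · rw [if_pos h1]
        exact hp
      · rw [h1] at hp
        exact absurd hp (by simp)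
      · rw [if_neg (by rw [h1, hp]; simp), h1]
        exact hp

end MPb51559.BG
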