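import Pool.Agent.Work.MP_b51559_nt.BG.C.Stmts2

set_option autoImplicit false

/-!
# Part C, item AL: the core inequality for a positive semidefinite form
-/

namespace MPb51559.BG

open Finset

namespace ALx

/-- Abel summation, partial form -/
theorem abel_aux (μ x : ℕ → ℝ) (e : ℝ) (L : ℕ) (hμ : ∀ i, i + 1 < L → μ (i + 1) ≤ μ i)
    (hx : ∀ n < L, ∑ i ∈ range (n + 1), x i ≤ e) :
    ∀ n < L, ∑ i ∈ range (n + 1), μ i * x i ≤
      (μ 0 - μ n) * e + μ n * ∑ i ∈ range (n + 1), x i := by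
  intro n
  induction n with
  | zero => intro _; simp
  | succ n ih =>
    intro hn
    have h1 := ih (by omega)
    have h2 := hμ n hn
    have h3 := hx n (by omega)
    rw [Finset.sum_range_succ _ (n + 1), Finset.sum_range_succ x (n + 1)]
    nlinarith [mul_le_mul_of_nonneg_left h3 (sub_nonneg.mpr h2)]

/-- Abel summation -/
theorem abel (μ x : ℕ → ℝ) (e : ℝ) (he : 0 ≤ e) (L : ℕ) (hμ : ∀ i, i + 1 < L → μ (i + 1) ≤ μ i)
    (hμ0 : ∀ i < L, 0 ≤ μ i) (hx : ∀ n < L, ∑ i ∈ range (n + 1), x i ≤ e) :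
    ∑ i ∈ range L, μ i * x i ≤ |μ 0| * e := by
  rcases Nat.eq_zero_or_pos L with h | h
  · subst h
    simp only [Finset.range_zero, Finset.sum_empty]
    positivity
  · obtain ⟨n, rfl⟩ : ∃ n, L = n + 1 := ⟨L - 1, by omega⟩
    have h1 := abel_aux μ x e (n + 1) hμ hx n (Nat.lt_succ_self n)
    have h2 := hx n (Nat.lt_succ_self n)
    have h3 := hμ0 n (Nat.lt_succ_self n)
    have h4 := le_abs_self (μ 0)
    nlinarith [mul_le_mul_of_nonneg_left h2 h3, mul_le_mul_of_nonneg_right h4 he]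

/-- almost diagonal quadratic forms -/
theorem quad (F : ℕ → ℕ → ℝ) (m x : ℕ → ℝ) (η X : ℝ) (n : ℕ) (hX : ∀ i < n, |x i| ≤ X)
    (hd : ∀ i < n, |F i i - m i| ≤ η) (ho : ∀ i < n, ∀ j < n, i ≠ j → |F i j| ≤ η) :
    |∑ i ∈ range n, ∑ j ∈ range n, x i * x j * F i j - ∑ i ∈ range n, x i ^ 2 * m i| ≤
      η * (n * X) ^ 2 := by
  have hsplit : ∑ i ∈ range n, ∑ j ∈ range n, x i * x j * F i j - ∑ i ∈ range n, x i ^ 2 * m i =
      ∑ i ∈ range n, ∑ j ∈ range n, x i * x j * (F i j - if i = j then m i else 0) := by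
    rw [← Finset.sum_sub_distrib]
    apply Finset.sum_congr rfl
    intro i hi
    have : x i ^ 2 * m i = ∑ j ∈ range n, x i * x j * (if i = j then m i else 0) := by
      rw [Finset.sum_eq_single i]
      · rw [if_pos rfl]; ring
      · intro j _ hj
        rw [if_neg (Ne.symm hj)]; ring
      · intro h; exact absurd hi h
    rw [this, ← Finset.sum_sub_distrib]
    apply Finset.sum_congr rfl
    intro j _
    ring
  rw [hsplit]
  have hD : ∀ i < n, ∀ j < n, |F i j - if i = j then m i else 0| ≤ η := by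
    intro i hi j hj
    by_cases h : i = j
    · subst h; rw [if_pos rfl]; exact hd i hi
    · rw [if_neg h, sub_zero]; exact ho i hi j hj h
  calc |∑ i ∈ range n, ∑ j ∈ range n, x i * x j * (F i j - if i = j then m i else 0)|
      ≤ ∑ i ∈ range n, |∑ j ∈ range n, x i * x j * (F i j - if i = j then m i else 0)| :=
        Finset.abs_sum_le_sum_abs _ _
    _ ≤ ∑ i ∈ range n, ∑ j ∈ range n, |x i * x j * (F i j - if i = j then m i else 0)| :=
        Finset.sum_le_sum (fun i _ => Finset.abs_sum_le_sum_abs _ _)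
    _ ≤ ∑ _i ∈ range n, ∑ _j ∈ range n, X * X * η := by
        apply Finset.sum_le_sum
        intro i hi
        apply Finset.sum_le_sum
        intro j hj
        rw [Finset.mem_range] at hi hj
        rw [abs_mul, abs_mul]
        have hX0 : 0 ≤ X := le_trans (abs_nonneg _) (hX i hi)
        apply mul_le_mul _ (hD i hi j hj) (abs_nonneg _) (by positivity)
        exact mul_le_mul (hX i hi) (hX j hj) (abs_nonneg _) hX0
    _ = η * (n * X) ^ 2 := by
        simp only [Finset.sum_const, Finset.card_range, nsmul_eq_mul]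
        ring

/-- a sum of products with small changes -/
theorem lin (x u v : ℕ → ℝ) (X ρ : ℝ) (n : ℕ) (hX : ∀ i < n, |x i| ≤ X)
    (huv : ∀ i < n, |u i - v i| ≤ ρ) :
    |∑ i ∈ range n, x i * u i - ∑ i ∈ range n, x i * v i| ≤ n * (X * ρ) := by
  rw [← Finset.sum_sub_distrib]
  calc |∑ i ∈ range n, (x i * u i - x i * v i)|
      ≤ ∑ i ∈ range n, |x i * u i - x i * v i| := Finset.abs_sum_le_sum_abs _ _
    _ ≤ ∑ _i ∈ range n, X * ρ := by
        apply Finset.sum_le_sum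
        intro i hi
        rw [Finset.mem_range] at hi
        rw [← mul_sub, abs_mul]
        exact mul_le_mul (hX i hi) (huv i hi) (abs_nonneg _) (le_trans (abs_nonneg _) (hX i hi))
    _ = n * (X * ρ) := by
        simp only [Finset.sum_const, Finset.card_range, nsmul_eq_mul]

/-- a short sum of small terms -/
theorem small (s : Finset ℕ) (L : ℕ) (u : ℕ → ℝ) (η : ℝ) (hη : 0 ≤ η) (hs : s.card ≤ L)
    (hu : ∀ i ∈ s, |u i| ≤ η) : |∑ i ∈ s, u i| ≤ L * η := by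
  calc |∑ i ∈ s, u i| ≤ ∑ i ∈ s, |u i| := Finset.abs_sum_le_sum_abs _ _
    _ ≤ ∑ _i ∈ s, η := Finset.sum_le_sum hu
    _ = s.card * η := by simp only [Finset.sum_const, nsmul_eq_mul]
    _ ≤ L * η := mul_le_mul_of_nonneg_right (by exact_mod_cast hs) hη

/-- the elementary inequality (2) -/
theorem elem (Lam m ε1 p : ℝ) (hL : 0 ≤ Lam) (hm : 0 ≤ m) (hε : 0 < ε1) :
    Lam / (1 + Lam) * m - ε1 - Lam * (p ^ 2 / (m + ε1)) ≤
      2 * (Lam / (1 + Lam) * (m + p)) - (Lam / (1 + Lam)) ^ 2 * m := by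
  have h1 : 0 < 1 + Lam := by linarith
  have h2 : 0 < m + ε1 := by linarith
  have key : 0 ≤ (Lam / (m + ε1)) * (p + (m + ε1) / (1 + Lam)) ^ 2 := by positivity
  have e1 : (Lam / (m + ε1)) * (p + (m + ε1) / (1 + Lam)) ^ 2 =
      Lam * (p ^ 2 / (m + ε1)) + 2 * (Lam / (1 + Lam)) * p +
        (Lam / (1 + Lam)) * (1 / (1 + Lam)) * (m + ε1) := by
    field_simp
    ring
  have hb0 : 0 ≤ Lam / (1 + Lam) := by positivity
  have hb1 : Lam / (1 + Lam) ≤ 1 := by rw [div_le_one h1]; linarith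
  have hc0 : 0 ≤ 1 / (1 + Lam) := by positivity
  have hc1 : 1 / (1 + Lam) ≤ 1 := by rw [div_le_one h1]; linarith
  have hbc : Lam / (1 + Lam) + 1 / (1 + Lam) = 1 := by field_simp; ring
  have hprod : (Lam / (1 + Lam)) * (1 / (1 + Lam)) ≤ 1 := by nlinarith
  have e2 : 2 * (Lam / (1 + Lam)) * m - (Lam / (1 + Lam)) ^ 2 * m -
      (Lam / (1 + Lam)) * (1 / (1 + Lam)) * m = (Lam / (1 + Lam)) * m := by
    have : 1 / (1 + Lam) = 1 - Lam / (1 + Lam) := by linarith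
    rw [this]; ring
  nlinarith [mul_le_mul_of_nonneg_right hprod hε.le]

section core

variable {E : Type} [AddCommGroup E] [Module ℝ E] (B : E →ₗ[ℝ] E →ₗ[ℝ] ℝ)

theorem exp_fv (f : ℕ → E) (x : ℕ → ℝ) (n : ℕ) (v : E) :
    B (∑ i ∈ range n, x i • f i) v = ∑ i ∈ range n, x i * B (f i) v := by
  simp only [map_sum, map_smul, LinearMap.coe_sum, Finset.sum_apply, LinearMap.smul_apply,
    smul_eq_mul]

theorem exp_vf (f : ℕ → E) (x : ℕ → ℝ) (n : ℕ) (v : E) :
    B v (∑ i ∈ range n, x i • f i) = ∑ i ∈ range n, x i * B v (f i) := by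
  simp only [map_sum, map_smul, smul_eq_mul]

theorem exp_ff (f : ℕ → E) (x : ℕ → ℝ) (n : ℕ) :
    B (∑ i ∈ range n, x i • f i) (∑ i ∈ range n, x i • f i) =
      ∑ i ∈ range n, ∑ j ∈ range n, x i * x j * B (f i) (f j) := by
  rw [exp_fv]
  apply Finset.sum_congr rfl
  intro i _
  rw [exp_vf, Finset.mul_sum]
  apply Finset.sum_congr rfl
  intro j _
  ring

/-- the hypotheses for `N = 1` -/
structure Hyp (L : ℕ) (K : ℕ → ℝ) (m0 : ℝ) (mm bb : ℕ → ℝ) (C0 η : ℝ) (f0 r : E)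
    (f o : ℕ → E) : Prop where
  sym : ∀ u v, B u v = B v u
  pos : ∀ v, 0 ≤ B v v
  h0 : |B f0 f0 - m0| ≤ η
  h1 : ∀ i < L, |B (f i) (f i) - mm i| ≤ η
  h2 : ∀ i < L, |B f0 (f i)| ≤ η
  h3 : |B f0 r| ≤ η
  h4 : ∀ i < L, |B f0 (o i)| ≤ η
  h5 : ∀ i < L, ∀ j < L, i ≠ j → |B (f i) (f j)| ≤ η
  h6 : ∀ i < L, |B (f i) r| ≤ η
  h7 : ∀ i < L, ∀ j < L, i < j → |B (f i) (o j)| ≤ η
  h8 : ∀ l < L, ∀ τ : ℕ → ℝ, (∀ i ≤ l, |τ i| ≤ C0) →
    B (∑ j ∈ range (l + 1), (o j + τ j • f j)) (∑ j ∈ range (l + 1), (o j + τ j • f j)) ≤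
      ∑ j ∈ range (l + 1), (bb j + τ j ^ 2 * (K j * mm j)) + η

variable {B}

/-- step (1): expansion of `B Y V` and `B Y Y` -/
theorem step1 {L : ℕ} {K : ℕ → ℝ} {m0 : ℝ} {mm bb : ℕ → ℝ} {C0 η : ℝ} {f0 r : E} {f o : ℕ → E}
    (H : Hyp B L K m0 mm bb C0 η f0 r f o) (hη : 0 ≤ η) (β : ℕ → ℝ) (hβ : ∀ i < L, |β i| ≤ 1) :
    m0 + ∑ i ∈ range L, (2 * (β i * (mm i + B (f i) (∑ j ∈ range (i + 1), o j))) -
      β i ^ 2 * mm i) -
      η * (2 * (2 + 2 * L + L * (3 + 2 * L)) + (1 + 2 * L + L ^ 2)) ≤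
      B (f0 + r + ∑ i ∈ range L, (f i + o i)) (f0 + r + ∑ i ∈ range L, (f i + o i)) := by
  set V := f0 + r + ∑ i ∈ range L, (f i + o i) with hV
  set Y := f0 + ∑ i ∈ range L, β i • f i with hY
  set P : ℕ → ℝ := fun i => B (f i) (∑ j ∈ range (i + 1), o j) with hP
  have hL0 : (0 : ℝ) ≤ L := Nat.cast_nonneg L
  -- B f0 V
  have a1 : |B f0 V - m0| ≤ (2 + 2 * L) * η := by
    have e : B f0 V - m0 = (B f0 f0 - m0) + B f0 r + ∑ i ∈ range L, B f0 (f i) +
        ∑ i ∈ range L, B f0 (o i) := by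
      rw [hV, map_add, map_add, map_sum]
      simp only [map_add, Finset.sum_add_distrib]
      ring
    have b1 := small (range L) L (fun i => B f0 (f i)) η hη (by simp)
      (fun i hi => H.h2 i (Finset.mem_range.mp hi))
    have b2 := small (range L) L (fun i => B f0 (o i)) η hη (by simp)
      (fun i hi => H.h4 i (Finset.mem_range.mp hi))
    have b3 := H.h0
    have b4 := H.h3
    rw [e]
    rw [abs_le] at *
    constructor <;> linarith [b1.1, b1.2, b2.1, b2.2, b3.1, b3.2, b4.1, b4.2]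
  -- B f_i V
  have a2 : ∀ i < L, |B (f i) V - (mm i + P i)| ≤ (3 + 2 * L) * η := by
    intro i hi
    have e0 : ∑ j ∈ range L, B (f i) (f j) = B (f i) (f i) +
        ∑ j ∈ (range L).erase i, B (f i) (f j) :=
      (Finset.add_sum_erase (range L) (fun j => B (f i) (f j)) (Finset.mem_range.mpr hi)).symm
    have e00 : ∑ j ∈ range L, B (f i) (o j) = P i + ∑ j ∈ Finset.Ico (i + 1) L, B (f i) (o j) := by
      rw [hP]
      simp only
      rw [map_sum, Finset.sum_range_add_sum_Ico _ (by omega)]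
    have e : B (f i) V - (mm i + P i) = B (f i) f0 + B (f i) r + (B (f i) (f i) - mm i) +
        ∑ j ∈ (range L).erase i, B (f i) (f j) + ∑ j ∈ Finset.Ico (i + 1) L, B (f i) (o j) := by
      rw [hV, map_add, map_add, map_sum]
      simp only [map_add, Finset.sum_add_distrib]
      rw [e0, e00]
      ring
    have b1 := small ((range L).erase i) L (fun j => B (f i) (f j)) η hη
      (by
        calc ((range L).erase i).card ≤ (range L).card := Finset.card_erase_le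
          _ = L := Finset.card_range L)
      (fun j hj => H.h5 i hi j (Finset.mem_range.mp (Finset.mem_of_mem_erase hj))
        (Ne.symm (Finset.ne_of_mem_erase hj)))
    have b2 := small (Finset.Ico (i + 1) L) L (fun j => B (f i) (o j)) η hη
      (by rw [Nat.card_Ico]; omega)
      (fun j hj => by
        rw [Finset.mem_Ico] at hj
        exact H.h7 i hi j hj.2 (by omega))
    have b3 := H.h1 i hi
    have b4 := H.h6 i hi
    have b5 := H.h2 i hi
    rw [H.sym f0 (f i)] at b5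
    rw [e]
    rw [abs_le] at *
    constructor <;> linarith [b1.1, b1.2, b2.1, b2.2, b3.1, b3.2, b4.1, b4.2, b5.1, b5.2]
  -- B Y V
  have a3 : B Y V = B f0 V + ∑ i ∈ range L, β i * B (f i) V := by
    have e : B Y = B f0 + B (∑ i ∈ range L, β i • f i) := by rw [hY, map_add]
    rw [e, LinearMap.add_apply, exp_fv]
  have a4 := lin β (fun i => B (f i) V) (fun i => mm i + P i) 1 ((3 + 2 * L) * η) L hβ a2
  -- B Y Y
  have a5 : B Y Y = B f0 f0 + 2 * ∑ i ∈ range L, β i * B f0 (f i) +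
      ∑ i ∈ range L, ∑ j ∈ range L, β i * β j * B (f i) (f j) := by
    rw [hY]
    simp only [map_add, LinearMap.add_apply]
    rw [exp_ff, H.sym (∑ i ∈ range L, β i • f i) f0, exp_vf]
    ring
  have a6 := lin β (fun i => B f0 (f i)) (fun _ => 0) 1 η L hβ
    (fun i hi => by simpa using H.h2 i hi)
  have a7 := quad (fun i j => B (f i) (f j)) mm β η 1 L hβ H.h1 H.h5
  have a8 := H.h0
  -- positivity
  have a9 : 0 ≤ B V V - 2 * B Y V + B Y Y := by
    have := H.pos (V - Y)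
    simp only [map_sub, LinearMap.sub_apply] at this
    rw [H.sym V Y] at this
    linarith
  have a10 : ∑ i ∈ range L, (2 * (β i * (mm i + P i)) - β i ^ 2 * mm i) =
      2 * ∑ i ∈ range L, β i * (mm i + P i) - ∑ i ∈ range L, β i ^ 2 * mm i := by
    rw [Finset.sum_sub_distrib, Finset.mul_sum]
  rw [a10]
  simp only [mul_zero, Finset.sum_const_zero, sub_zero] at a6
  rw [abs_le] at a1 a4 a6 a7 a8
  nlinarith [a1.1, a4.1, a6.2, a7.2, a8.2]

/-- steps (3): partial sums -/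
theorem step3 {L : ℕ} {K : ℕ → ℝ} {m0 : ℝ} {mm bb : ℕ → ℝ} {C0 η : ℝ} {f0 r : E} {f o : ℕ → E}
    (H : Hyp B L K m0 mm bb C0 η f0 r f o) (hη : 0 ≤ η) (hη1 : η ≤ 1)
    (hK : ∀ i < L, 1 < K i) (hm : ∀ i < L, 0 ≤ mm i) (hb : ∀ i < L, 0 ≤ bb i)
    (ε1 : ℝ) (hε1 : 0 < ε1) (hC0 : 0 ≤ C0)
    (hC : ∀ i < L, (1 + ∑ i ∈ range L, mm i + ∑ i ∈ range L, bb i) / ((K i - 1) * ε1) ≤ C0) :
    ∀ n < L, ∑ i ∈ range (n + 1), (K i / (K i - 1) *
        (B (f i) (∑ j ∈ range (i + 1), o j) ^ 2 / (mm i + ε1)) - bb i) ≤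
      η * (1 + 2 * (L * ((1 + ∑ i ∈ range L, mm i + ∑ i ∈ range L, bb i) / ε1 * L)) +
        (L * ((1 + ∑ i ∈ range L, mm i + ∑ i ∈ range L, bb i) / ε1)) ^ 2 +
        2 * (L * (C0 * L)) + (L * C0) ^ 2) := by
  set M0 := 1 + ∑ i ∈ range L, mm i + ∑ i ∈ range L, bb i with hM0
  set P : ℕ → ℝ := fun i => B (f i) (∑ j ∈ range (i + 1), o j) with hP
  have hL0 : (0 : ℝ) ≤ L := Nat.cast_nonneg L
  have hmS : 0 ≤ ∑ i ∈ range L, mm i :=
    Finset.sum_nonneg (fun i hi => hm i (Finset.mem_range.mp hi))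
  have hbS : 0 ≤ ∑ i ∈ range L, bb i :=
    Finset.sum_nonneg (fun i hi => hb i (Finset.mem_range.mp hi))
  have hM0p : 0 < M0 := by rw [hM0]; linarith
  -- the case `τ = 0`
  have hO : ∀ l < L, B (∑ j ∈ range (l + 1), o j) (∑ j ∈ range (l + 1), o j) ≤
      ∑ i ∈ range L, bb i + η := by
    intro l hl
    have h := H.h8 l hl (fun _ => 0) (fun i _ => by simpa using hC0)
    simp only [zero_smul, add_zero, ne_eq, OfNat.ofNat_ne_zero, not_false_eq_true, zero_pow,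
      zero_mul] at h
    have h2 : ∑ j ∈ range (l + 1), bb j ≤ ∑ i ∈ range L, bb i := by
      apply Finset.sum_le_sum_of_subset_of_nonneg
      · intro i hi
        rw [Finset.mem_range] at hi ⊢
        omega
      · intro i hi _
        exact hb i (Finset.mem_range.mp hi)
    linarith
  -- boundedness of `P`
  have hPb : ∀ i < L, |P i| ≤ M0 := by
    intro i hi
    have h1 := hO i hi
    have h2 := H.h1 i hi
    have h3 : mm i ≤ ∑ i ∈ range L, mm i :=
      Finset.single_le_sum (fun j hj => hm j (Finset.mem_range.mp hj)) (Finset.mem_range.mpr hi)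
    have p1 := H.pos (f i - ∑ j ∈ range (i + 1), o j)
    have p2 := H.pos (f i + ∑ j ∈ range (i + 1), o j)
    simp only [map_sub, LinearMap.sub_apply] at p1
    simp only [map_add, LinearMap.add_apply] at p2
    have h4 := H.sym (∑ j ∈ range (i + 1), o j) (f i)
    rw [h4] at p1 p2
    rw [abs_le] at h2
    rw [abs_le, hM0]
    simp only [hP]
    constructor <;> linarith [h2.1, h2.2]
  intro n hn
  set O := ∑ j ∈ range (n + 1), o j with hOdef
  have hsub : ∀ i < n + 1, i < L := fun i hi => by omega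
  have hnL : ((n + 1 : ℕ) : ℝ) ≤ L := by exact_mod_cast hn
  have hn0 : (0 : ℝ) ≤ ((n + 1 : ℕ) : ℝ) := Nat.cast_nonneg _
  -- `q i = B (f i) O`
  have hq : ∀ i < n + 1, |B (f i) O - P i| ≤ L * η := by
    intro i hi
    have e : B (f i) O - P i = ∑ j ∈ Finset.Ico (i + 1) (n + 1), B (f i) (o j) := by
      rw [hP, hOdef]
      simp only
      rw [map_sum, map_sum, ← Finset.sum_range_add_sum_Ico (fun j => B (f i) (o j))
        (by omega : i + 1 ≤ n + 1)]
      ring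
    rw [e]
    apply small _ _ _ _ hη
    · rw [Nat.card_Ico]; omega
    · intro j hj
      rw [Finset.mem_Ico] at hj
      exact H.h7 i (hsub i hi) j (hsub j hj.2) (by omega)
  -- the two vectors
  set γ : ℕ → ℝ := fun i => P i / (mm i + ε1) with hγ
  set τ : ℕ → ℝ := fun i => P i / ((K i - 1) * (mm i + ε1)) with hτ
  have hγb : ∀ i < n + 1, |γ i| ≤ M0 / ε1 := by
    intro i hi
    have hmi := hm i (hsub i hi)
    simp only [hγ]
    rw [abs_div, abs_of_pos (by linarith : 0 < mm i + ε1)]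
    exact div_le_div₀ hM0p.le (hPb i (hsub i hi)) hε1 (by linarith)
  have hτb : ∀ i < n + 1, |τ i| ≤ C0 := by
    intro i hi
    have hmi := hm i (hsub i hi)
    have hKi := hK i (hsub i hi)
    simp only [hτ]
    have hpos : 0 < (K i - 1) * (mm i + ε1) := mul_pos (by linarith) (by linarith)
    rw [abs_div, abs_of_pos hpos]
    refine le_trans ?_ (hC i (hsub i hi))
    apply div_le_div₀ hM0p.le (hPb i (hsub i hi)) (mul_pos (by linarith) hε1)
    exact mul_le_mul_of_nonneg_left (by linarith) (by linarith)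
  -- lower bound
  have hF1 : ∀ i < n + 1, |B (f i) (f i) - mm i| ≤ η := fun i hi => H.h1 i (hsub i hi)
  have hF2 : ∀ i < n + 1, ∀ j < n + 1, i ≠ j → |B (f i) (f j)| ≤ η :=
    fun i hi j hj hij => H.h5 i (hsub i hi) j (hsub j hj) hij
  have l1 : 0 ≤ B O O - 2 * ∑ i ∈ range (n + 1), γ i * B (f i) O +
      ∑ i ∈ range (n + 1), ∑ j ∈ range (n + 1), γ i * γ j * B (f i) (f j) := by
    have h := H.pos (O - ∑ i ∈ range (n + 1), γ i • f i)
    simp only [map_sub, LinearMap.sub_apply] at h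
    rw [H.sym O (∑ i ∈ range (n + 1), γ i • f i), exp_ff, exp_fv] at h
    linarith
  have l2 := quad (fun i j => B (f i) (f j)) mm γ η (M0 / ε1) (n + 1) hγb hF1 hF2
  have l3 := lin γ (fun i => B (f i) O) P (M0 / ε1) (L * η) (n + 1) hγb hq
  -- upper bound
  have u1 : B O O + 2 * ∑ i ∈ range (n + 1), τ i * B (f i) O +
      ∑ i ∈ range (n + 1), ∑ j ∈ range (n + 1), τ i * τ j * B (f i) (f j) ≤
      ∑ j ∈ range (n + 1), (bb j + τ j ^ 2 * (K j * mm j)) + η := by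
    have h := H.h8 n hn τ (fun i hi => hτb i (by omega))
    rw [Finset.sum_add_distrib] at h
    simp only [map_add, LinearMap.add_apply] at h
    rw [← hOdef, H.sym O (∑ i ∈ range (n + 1), τ i • f i), exp_ff, exp_fv] at h
    linarith
  have u2 := quad (fun i j => B (f i) (f j)) mm τ η C0 (n + 1) hτb hF1 hF2
  have u3 := lin τ (fun i => B (f i) O) P C0 (L * η) (n + 1) hτb hq
  -- termwise identity
  have tw : ∀ i ∈ range (n + 1), K i / (K i - 1) * (P i ^ 2 / (mm i + ε1)) - bb i ≤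
      2 * (γ i * P i) - γ i ^ 2 * mm i + 2 * (τ i * P i) + τ i ^ 2 * mm i -
        (bb i + τ i ^ 2 * (K i * mm i)) := by
    intro i hi
    have hi' := hsub i (Finset.mem_range.mp hi)
    have hmi := hm i hi'
    have hKi : 0 < K i - 1 := by linarith [hK i hi']
    have hmp : 0 < mm i + ε1 := by linarith
    have e1 : 2 * (γ i * P i) - γ i ^ 2 * (mm i + ε1) = P i ^ 2 / (mm i + ε1) := by
      simp only [hγ]; field_simp; ring
    have e2 : 2 * (τ i * P i) - τ i ^ 2 * ((K i - 1) * (mm i + ε1)) =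
        P i ^ 2 / ((K i - 1) * (mm i + ε1)) := by
      simp only [hτ]; field_simp; ring
    have e3 : K i / (K i - 1) * (P i ^ 2 / (mm i + ε1)) =
        P i ^ 2 / (mm i + ε1) + P i ^ 2 / ((K i - 1) * (mm i + ε1)) := by
      field_simp
      ring
    have e4 : 0 ≤ γ i ^ 2 * ε1 := by positivity
    have e5 : 0 ≤ τ i ^ 2 * ((K i - 1) * ε1) := by positivity
    rw [e3, ← e1, ← e2]
    nlinarith [e4, e5]
  refine le_trans (Finset.sum_le_sum tw) ?_
  have e6 : ∑ i ∈ range (n + 1), (2 * (γ i * P i) - γ i ^ 2 * mm i + 2 * (τ i * P i) +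
      τ i ^ 2 * mm i - (bb i + τ i ^ 2 * (K i * mm i))) =
      2 * ∑ i ∈ range (n + 1), γ i * P i - ∑ i ∈ range (n + 1), γ i ^ 2 * mm i +
      2 * ∑ i ∈ range (n + 1), τ i * P i + ∑ i ∈ range (n + 1), τ i ^ 2 * mm i -
      ∑ i ∈ range (n + 1), (bb i + τ i ^ 2 * (K i * mm i)) := by
    rw [Finset.sum_sub_distrib, Finset.sum_add_distrib, Finset.sum_add_distrib,
      Finset.sum_sub_distrib, Finset.mul_sum, Finset.mul_sum]
  rw [e6]
  have hG : 0 ≤ M0 / ε1 := by positivity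
  have v1 : ((n + 1 : ℕ) : ℝ) * (M0 / ε1 * (L * η)) ≤ L * (M0 / ε1 * (L * η)) :=
    mul_le_mul_of_nonneg_right hnL (by positivity)
  have v2 : ((n + 1 : ℕ) : ℝ) * (C0 * (L * η)) ≤ L * (C0 * (L * η)) :=
    mul_le_mul_of_nonneg_right hnL (by positivity)
  have v3 : η * (((n + 1 : ℕ) : ℝ) * (M0 / ε1)) ^ 2 ≤ η * (L * (M0 / ε1)) ^ 2 := by
    apply mul_le_mul_of_nonneg_left _ hη
    apply pow_le_pow_left₀ (by positivity)
    exact mul_le_mul_of_nonneg_right hnL hG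
  have v4 : η * (((n + 1 : ℕ) : ℝ) * C0) ^ 2 ≤ η * (L * C0) ^ 2 := by
    apply mul_le_mul_of_nonneg_left _ hη
    apply pow_le_pow_left₀ (by positivity)
    exact mul_le_mul_of_nonneg_right hnL hC0
  rw [abs_le] at l2 l3 u2 u3
  nlinarith [l2.1, l2.2, l3.1, l3.2, u2.1, u2.2, u3.1, u3.2]

/-- the inequality for `N = 1` -/
theorem main1 {L : ℕ} {K Lam : ℕ → ℝ} {m0 : ℝ} {mm bb : ℕ → ℝ} {C0 η : ℝ} {f0 r : E} {f o : ℕ → E}
    (H : Hyp B L K m0 mm bb C0 η f0 r f o) (hη : 0 ≤ η) (hη1 : η ≤ 1)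
    (hK : ∀ i < L, 1 < K i) (hLam : ∀ i < L, 0 ≤ Lam i) (hm : ∀ i < L, 0 ≤ mm i)
    (hb : ∀ i < L, 0 ≤ bb i)
    (hmono : ∀ i, i + 1 < L →
      Lam (i + 1) * ((K (i + 1) - 1) / K (i + 1)) ≤ Lam i * ((K i - 1) / K i))
    (ε1 : ℝ) (hε1 : 0 < ε1) (hC0 : 0 ≤ C0)
    (hC : ∀ i < L, (1 + ∑ i ∈ range L, mm i + ∑ i ∈ range L, bb i) / ((K i - 1) * ε1) ≤ C0) :
    m0 + ∑ i ∈ range L, (Lam i / (1 + Lam i) * mm i - Lam i * ((K i - 1) / K i) * bb i) -
      (L * ε1 + η * ((2 * (2 + 2 * L + L * (3 + 2 * L)) + (1 + 2 * L + L ^ 2)) +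
        |Lam 0 * ((K 0 - 1) / K 0)| *
        (1 + 2 * (L * ((1 + ∑ i ∈ range L, mm i + ∑ i ∈ range L, bb i) / ε1 * L)) +
        (L * ((1 + ∑ i ∈ range L, mm i + ∑ i ∈ range L, bb i) / ε1)) ^ 2 +
        2 * (L * (C0 * L)) + (L * C0) ^ 2))) ≤
      B (f0 + r + ∑ i ∈ range L, (f i + o i)) (f0 + r + ∑ i ∈ range L, (f i + o i)) := by
  have hβ : ∀ i < L, |Lam i / (1 + Lam i)| ≤ 1 := by
    intro i hi
    have h := hLam i hi
    rw [abs_of_nonneg (by positivity), div_le_one (by linarith)]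
    linarith
  have s1 := step1 H hη (fun i => Lam i / (1 + Lam i)) hβ
  have s3 := step3 H hη hη1 hK hm hb ε1 hε1 hC0 hC
  set CC := 1 + 2 * (L * ((1 + ∑ i ∈ range L, mm i + ∑ i ∈ range L, bb i) / ε1 * L)) +
        (L * ((1 + ∑ i ∈ range L, mm i + ∑ i ∈ range L, bb i) / ε1)) ^ 2 +
        2 * (L * (C0 * L)) + (L * C0) ^ 2 with hCC
  have hmS : 0 ≤ ∑ i ∈ range L, mm i :=
    Finset.sum_nonneg (fun i hi => hm i (Finset.mem_range.mp hi))
  have hbS : 0 ≤ ∑ i ∈ range L, bb i :=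
    Finset.sum_nonneg (fun i hi => hb i (Finset.mem_range.mp hi))
  have hCC0 : 0 ≤ CC := by
    rw [hCC]
    positivity
  have s4 := abel (fun i => Lam i * ((K i - 1) / K i))
    (fun i => K i / (K i - 1) *
        (B (f i) (∑ j ∈ range (i + 1), o j) ^ 2 / (mm i + ε1)) - bb i) (η * CC)
    (by positivity) L hmono
    (fun i hi => by
      have h1 := hLam i hi
      have h2 := hK i hi
      have h3 : 0 ≤ (K i - 1) / K i := div_nonneg (by linarith) (by linarith)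
      positivity)
    s3
  have s5 : ∑ i ∈ range L, (Lam i / (1 + Lam i) * mm i - ε1 -
      Lam i * (B (f i) (∑ j ∈ range (i + 1), o j) ^ 2 / (mm i + ε1))) ≤
      ∑ i ∈ range L, (2 * ((Lam i / (1 + Lam i)) * (mm i + B (f i) (∑ j ∈ range (i + 1), o j))) -
      (Lam i / (1 + Lam i)) ^ 2 * mm i) := by
    apply Finset.sum_le_sum
    intro i hi
    have hi' := Finset.mem_range.mp hi
    exact elem (Lam i) (mm i) ε1 _ (hLam i hi') (hm i hi') hε1
  have s6 : ∑ i ∈ range L, (Lam i * ((K i - 1) / K i)) * (K i / (K i - 1) *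
        (B (f i) (∑ j ∈ range (i + 1), o j) ^ 2 / (mm i + ε1)) - bb i) =
      ∑ i ∈ range L, Lam i * (B (f i) (∑ j ∈ range (i + 1), o j) ^ 2 / (mm i + ε1)) -
      ∑ i ∈ range L, Lam i * ((K i - 1) / K i) * bb i := by
    rw [← Finset.sum_sub_distrib]
    apply Finset.sum_congr rfl
    intro i hi
    have hKi := hK i (Finset.mem_range.mp hi)
    have h1 : K i ≠ 0 := by linarith
    have h2 : K i - 1 ≠ 0 := by linarith
    have h3 : Lam i * ((K i - 1) / K i) * (K i / (K i - 1)) = Lam i := by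
      field_simp
    rw [mul_sub, ← mul_assoc, h3]
  have s7 : ∑ i ∈ range L, (Lam i / (1 + Lam i) * mm i - ε1 -
      Lam i * (B (f i) (∑ j ∈ range (i + 1), o j) ^ 2 / (mm i + ε1))) =
      ∑ i ∈ range L, Lam i / (1 + Lam i) * mm i - L * ε1 -
      ∑ i ∈ range L, Lam i * (B (f i) (∑ j ∈ range (i + 1), o j) ^ 2 / (mm i + ε1)) := by
    rw [Finset.sum_sub_distrib, Finset.sum_sub_distrib]
    simp only [Finset.sum_const, Finset.card_range, nsmul_eq_mul]
  rw [s6] at s4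
  rw [s7] at s5
  rw [Finset.sum_sub_distrib]
  linarith

end core

end ALx

open ALx in
/-- Item AL. -/
theorem prf_AL : C_AL := by
  intro L K Lam m0 mm bb hm0 hyp hmono ε hε
  have hK : ∀ i < L, 1 < K i := fun i hi => (hyp i hi).1
  have hLam : ∀ i < L, 0 ≤ Lam i := fun i hi => (hyp i hi).2.1
  have hm : ∀ i < L, 0 ≤ mm i := fun i hi => (hyp i hi).2.2.1
  have hb : ∀ i < L, 0 ≤ bb i := fun i hi => (hyp i hi).2.2.2
  have hL0 : (0 : ℝ) ≤ L := Nat.cast_nonneg L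
  have hmS : 0 ≤ ∑ i ∈ range L, mm i :=
    Finset.sum_nonneg (fun i hi => hm i (Finset.mem_range.mp hi))
  have hbS : 0 ≤ ∑ i ∈ range L, bb i :=
    Finset.sum_nonneg (fun i hi => hb i (Finset.mem_range.mp hi))
  obtain ⟨ε1, hε1d⟩ : ∃ ε1 : ℝ, ε1 = ε / (2 * (L + 1)) := ⟨_, rfl⟩
  have hε1 : 0 < ε1 := by rw [hε1d]; positivity
  have hε1L : L * ε1 ≤ ε / 2 := by
    rw [hε1d]
    rw [mul_div_assoc', div_le_div_iff₀ (by positivity) (by norm_num)]
    nlinarith
  obtain ⟨M0, hM0⟩ : ∃ M0 : ℝ, M0 = 1 + ∑ i ∈ range L, mm i + ∑ i ∈ range L, bb i := ⟨_, rfl⟩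
  have hM0p : 0 < M0 := by rw [hM0]; linarith
  obtain ⟨C0, hC0d⟩ : ∃ C0 : ℝ, C0 = ∑ i ∈ range L, M0 / ((K i - 1) * ε1) := ⟨_, rfl⟩
  have hterm : ∀ i < L, 0 ≤ M0 / ((K i - 1) * ε1) := by
    intro i hi
    have h := hK i hi
    have : 0 < (K i - 1) * ε1 := mul_pos (by linarith) hε1
    positivity
  have hC0 : 0 ≤ C0 := by
    rw [hC0d]
    exact Finset.sum_nonneg (fun i hi => hterm i (Finset.mem_range.mp hi))
  have hC : ∀ i < L, (1 + ∑ i ∈ range L, mm i + ∑ i ∈ range L, bb i) / ((K i - 1) * ε1) ≤ C0 := by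
    intro i hi
    rw [← hM0, hC0d]
    exact Finset.single_le_sum (f := fun i => M0 / ((K i - 1) * ε1))
      (fun j hj => hterm j (Finset.mem_range.mp hj)) (Finset.mem_range.mpr hi)
  obtain ⟨D, hD⟩ : ∃ D : ℝ, D = ((2 * (2 + 2 * L + L * (3 + 2 * L)) + (1 + 2 * L + L ^ 2)) +
        |Lam 0 * ((K 0 - 1) / K 0)| *
        (1 + 2 * (L * ((1 + ∑ i ∈ range L, mm i + ∑ i ∈ range L, bb i) / ε1 * L)) +
        (L * ((1 + ∑ i ∈ range L, mm i + ∑ i ∈ range L, bb i) / ε1)) ^ 2 +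
        2 * (L * (C0 * L)) + (L * C0) ^ 2)) := ⟨_, rfl⟩
  have hD0 : 0 ≤ D := by
    rw [hD, ← hM0]
    positivity
  obtain ⟨η, hηd⟩ : ∃ η : ℝ, η = min 1 (ε / (2 * (D + 1))) := ⟨_, rfl⟩
  have hη : 0 < η := by rw [hηd]; positivity
  have hη1 : η ≤ 1 := by rw [hηd]; exact min_le_left _ _
  have hηD : η * D ≤ ε / 2 := by
    have h1 : η ≤ ε / (2 * (D + 1)) := by rw [hηd]; exact min_le_right _ _
    calc η * D ≤ ε / (2 * (D + 1)) * D := mul_le_mul_of_nonneg_right h1 hD0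
      _ ≤ ε / 2 := by
        rw [div_mul_eq_mul_div, div_le_div_iff₀ (by positivity) (by norm_num)]
        nlinarith
  refine ⟨η, C0, hη, hC0, ?_⟩
  intro E _ _ B hsym hpos N hN f0 r f o g0 g1 g2 g3 g4 g5 g6 g7 g8
  have hN' : 0 < N⁻¹ := inv_pos.mpr hN
  have hNN : N⁻¹ * N = 1 := inv_mul_cancel₀ hN.ne'
  have sc : ∀ u v, (N⁻¹ • B) u v = N⁻¹ * B u v := by
    intro u v
    simp only [LinearMap.smul_apply, smul_eq_mul]
  have sc1 : ∀ X : ℝ, |X| ≤ η * N → |N⁻¹ * X| ≤ η := by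
    intro X hX
    rw [abs_mul, abs_of_pos hN']
    calc N⁻¹ * |X| ≤ N⁻¹ * (η * N) := mul_le_mul_of_nonneg_left hX hN'.le
      _ = η * (N⁻¹ * N) := by ring
      _ = η := by rw [hNN, mul_one]
  have sc2 : ∀ X m : ℝ, |X - N * m| ≤ η * N → |N⁻¹ * X - m| ≤ η := by
    intro X m hX
    have h := sc1 _ hX
    have e : N⁻¹ * (X - N * m) = N⁻¹ * X - m := by
      rw [mul_sub, ← mul_assoc, hNN, one_mul]
    rwa [e] at h
  have H : Hyp (N⁻¹ • B) L K m0 mm bb C0 η f0 r f o := by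
    refine ⟨?_, ?_, ?_, ?_, ?_, ?_, ?_, ?_, ?_, ?_, ?_⟩
    · intro u v; rw [sc, sc, hsym]
    · intro v; rw [sc]; exact mul_nonneg hN'.le (hpos v)
    · rw [sc]; exact sc2 _ _ g0
    · intro i hi; rw [sc]; exact sc2 _ _ (g1 i hi)
    · intro i hi; rw [sc]; exact sc1 _ (g2 i hi)
    · rw [sc]; exact sc1 _ g3
    · intro i hi; rw [sc]; exact sc1 _ (g4 i hi)
    · intro i hi j hj hij; rw [sc]; exact sc1 _ (g5 i hi j hj hij)
    · intro i hi; rw [sc]; exact sc1 _ (g6 i hi)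
    · intro i hi j hj hij; rw [sc]; exact sc1 _ (g7 i hi j hj hij)
    · intro l hl τ hτ
      rw [sc]
      have h := g8 l hl τ hτ
      calc _ ≤ N⁻¹ * (N * (∑ j ∈ range (l + 1), (bb j + τ j ^ 2 * (K j * mm j)) + η)) :=
            mul_le_mul_of_nonneg_left h hN'.le
        _ = _ := by rw [← mul_assoc, hNN, one_mul]
  have fin := main1 H hη.le hη1 hK hLam hm hb hmono ε1 hε1 hC0 hC
  rw [← hD, sc] at fin
  have fin2 : m0 + ∑ i ∈ range L, (Lam i / (1 + Lam i) * mm i - Lam i * ((K i - 1) / K i) * bb i) -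
      ε ≤ N⁻¹ * B (f0 + r + ∑ i ∈ range L, (f i + o i)) (f0 + r + ∑ i ∈ range L, (f i + o i)) := by
    linarith
  calc _ ≤ N * (N⁻¹ * B (f0 + r + ∑ i ∈ range L, (f i + o i))
        (f0 + r + ∑ i ∈ range L, (f i + o i))) := mul_le_mul_of_nonneg_left fin2 hN.le
    _ = _ := by rw [← mul_assoc, mul_inv_cancel₀ hN.ne', one_mul]

end MPb51559.BG
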