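import Pool.Agent.Work.MP_b51559_nt.BG.C.Stmts2

set_option autoImplicit false

/-!
# Item ALD: the constants for small `δ`
-/

namespace MPb51559.BG

open Finset Filter Topology MeasureTheory

theorem ALD_z (P : Sl) (hP : P.Ok) : ∀ l, l ≤ P.L → 0 ≤ P.z l ∧ P.z l ≤ P.T - 1 := by
  have h1 : ∀ n l, l + n ≤ P.L → P.z l ≤ P.z (l + n) := by
    intro n
    induction n with
    | zero => intro l _; exact le_rfl
    | succ n ih =>
      intro l hl
      exact (ih l (by omega)).trans (hP.zmono (l + n) (by omega)).le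
  intro l hl
  constructor
  · have h2 := h1 l 0 (by omega)
    rw [hP.z0, zero_add] at h2
    exact h2
  · have h2 := h1 (P.L - l) l (by omega)
    rw [show l + (P.L - l) = P.L by omega] at h2
    exact h2.trans hP.zT

theorem ALD_frac {δ t K : ℝ} (hδ : 4 * δ < 1) (ht : 0 < t) (hK : K = 4 / (1 - 4 * δ) / t) :
    (K - 1) / K = (4 - t) / 4 + δ * t := by
  have h1 : 0 < 1 - 4 * δ := by linarith
  have h2 : K ≠ 0 := by rw [hK]; positivity
  rw [div_eq_iff h2, hK]
  field_simp
  ring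

theorem prf_ALD : C_ALD := by
  intro P hP bb hbb ε hε
  set G := ∑ l ∈ range P.L, P.Lam l * bb l with hS
  have hG : 0 ≤ G := Finset.sum_nonneg fun l hl =>
    mul_nonneg (hP.Lpos l (mem_range.1 hl)) (hbb l (mem_range.1 hl))
  refine ⟨min (1 / 16) (ε / (8 * (G + 1))), lt_min (by norm_num) (by positivity),
    (min_le_left _ _).trans_lt (by norm_num), ?_⟩
  intro δ hδ hδ1 K hK
  have hδ16 : δ ≤ 1 / 16 := hδ1.trans (min_le_left _ _)
  have hδε : δ ≤ ε / (8 * (G + 1)) := hδ1.trans (min_le_right _ _)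
  rw [le_div_iff₀ (by positivity)] at hδε
  have h4 : 4 * δ < 1 := by linarith
  have h4' : 0 < 1 - 4 * δ := by linarith
  have hz := ALD_z P hP
  have ht : ∀ l < P.L, 0 < P.T - P.z (l + 1) ∧ P.T - P.z (l + 1) < 2 := by
    intro l hl
    obtain ⟨h1, h2⟩ := hz (l + 1) (by omega)
    have := hP.hT2
    constructor <;> linarith
  have hfrac : ∀ l < P.L, (K l - 1) / K l =
      (4 - (P.T - P.z (l + 1))) / 4 + δ * (P.T - P.z (l + 1)) := fun l hl =>
    ALD_frac h4 (ht l hl).1 (hK l)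
  refine ⟨?_, ?_, ?_⟩
  · intro l hl
    obtain ⟨h1, h2⟩ := ht l hl
    rw [hK, lt_div_iff₀ h1, one_mul]
    have h3 : 4 ≤ 4 / (1 - 4 * δ) := by
      rw [le_div_iff₀ h4']
      nlinarith
    linarith
  · intro l hl
    rw [hfrac l (by omega), hfrac (l + 1) hl]
    have hm := hP.Lmono l hl
    have hLp := hP.Lpos l (by omega)
    have hLp1 := hP.Lpos (l + 1) hl
    have hzz := hP.zmono (l + 1) hl
    obtain ⟨h1, h2⟩ := ht (l + 1) hl
    obtain ⟨h1', h2'⟩ := ht l (by omega)
    have hT2 := hP.hT2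
    obtain ⟨hz0, _⟩ := hz (l + 1) (by omega)
    have e0 : l + 1 + 1 = l + 2 := rfl
    rw [e0] at h1 h2 hzz ⊢
    have hle : P.Lam (l + 1) ≤ P.Lam l := by
      have h5 : 0 < 4 - P.T + P.z (l + 1) := by linarith
      have h6 : P.Lam (l + 1) * (4 - P.T + P.z (l + 1)) ≤ P.Lam l * (4 - P.T + P.z (l + 1)) := by
        refine le_trans ?_ hm
        exact mul_le_mul_of_nonneg_left (by linarith) hLp1
      exact le_of_mul_le_mul_right h6 h5
    have h7 : P.Lam (l + 1) * (P.T - P.z (l + 2)) ≤ P.Lam l * (P.T - P.z (l + 1)) :=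
      mul_le_mul hle (by linarith) h1.le hLp
    have h8 : P.Lam (l + 1) * (4 - (P.T - P.z (l + 2))) ≤ P.Lam l * (4 - (P.T - P.z (l + 1))) := by
      have e1 : 4 - (P.T - P.z (l + 2)) = 4 - P.T + P.z (l + 2) := by ring
      have e2 : 4 - (P.T - P.z (l + 1)) = 4 - P.T + P.z (l + 1) := by ring
      rw [e1, e2]
      exact hm
    nlinarith
  · have hterm : ∀ l ∈ range P.L, P.Lam l * ((K l - 1) / K l) * (bb l / (1 - 4 * δ)) ≤
        P.Lam l * ((4 - P.T + P.z (l + 1)) / 4) * bb l + 8 * δ * (P.Lam l * bb l) := by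
      intro l hl
      rw [mem_range] at hl
      rw [hfrac l hl]
      have hLb : 0 ≤ P.Lam l * bb l := mul_nonneg (hP.Lpos l hl) (hbb l hl)
      have e1 : P.Lam l * ((4 - (P.T - P.z (l + 1))) / 4 + δ * (P.T - P.z (l + 1))) *
          (bb l / (1 - 4 * δ)) = P.Lam l * ((4 - P.T + P.z (l + 1)) / 4) * bb l +
            (4 * δ / (1 - 4 * δ)) * (P.Lam l * bb l) := by
        field_simp
        ring
      rw [e1]
      have h5 : 4 * δ / (1 - 4 * δ) ≤ 8 * δ := by
        rw [div_le_iff₀ h4']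
        nlinarith
      have := mul_le_mul_of_nonneg_right h5 hLb
      linarith
    refine (Finset.sum_le_sum hterm).trans ?_
    rw [Finset.sum_add_distrib, ← Finset.mul_sum, ← hS]
    nlinarith

end MPb51559.BG
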