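import Pool.Agent.Work.MP_b51559_nt.BG.C.Stmts

set_option autoImplicit false

/-!
# Part C, item APX: sums of functions close to a function of bounded variation
-/

namespace MPb51559.BG

open Finset Filter Topology MeasureTheory
open scoped Classical

theorem APX_and {P Q : ℕ → ℝ → Prop} (hP : Ev P) (hQ : Ev Q) : Ev fun D0 x => P D0 x ∧ Q D0 x := by
  obtain ⟨D1, h1⟩ := hP
  obtain ⟨D2, h2⟩ := hQ
  refine ⟨max D1 D2, fun D0 hD0 => ?_⟩
  obtain ⟨x1, h3⟩ := h1 D0 (le_trans (le_max_left _ _) hD0)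
  obtain ⟨x2, h4⟩ := h2 D0 (le_trans (le_max_right _ _) hD0)
  exact ⟨max x1 x2, fun x hx => ⟨h3 x (le_trans (le_max_left _ _) hx),
    h4 x (le_trans (le_max_right _ _) hx)⟩⟩

theorem APX_mono {P Q : ℕ → ℝ → Prop} (hP : Ev P) (D1 : ℕ) (x1 : ℝ)
    (h : ∀ D0 ≥ D1, ∀ x ≥ x1, P D0 x → Q D0 x) : Ev Q := by
  obtain ⟨D2, h2⟩ := hP
  refine ⟨max D1 D2, fun D0 hD0 => ?_⟩
  obtain ⟨x2, h4⟩ := h2 D0 (le_trans (le_max_right _ _) hD0)
  exact ⟨max x1 x2, fun x hx => h D0 (le_trans (le_max_left _ _) hD0) x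
    (le_trans (le_max_left _ _) hx) (h4 x (le_trans (le_max_right _ _) hx))⟩

theorem APX_prime {D0 : ℕ} {x : ℝ} : ∀ p ∈ Sx D0 x, p.Prime := fun p hp =>
  (Finset.mem_filter.1 hp).2.1

theorem APX_kap (D0 : ℕ) : 0 ≤ kap D0 := div_nonneg (Nat.cast_nonneg _) (Nat.cast_nonneg _)

theorem APX_logR {δ x : ℝ} (hx : 0 < x) : Real.log (Rx δ x) = (1 / 4 - δ) * Real.log x := by
  unfold Rx
  rw [Real.log_rpow hx]

theorem APX_kl {D0 : ℕ} {δ x : ℝ} (hδ : δ < 1 / 8) (hx : 1 ≤ x) :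
    0 ≤ kl D0 x ∧ kl D0 x ≤ 8 * lk D0 δ x ∧ 0 ≤ lk D0 δ x := by
  have hl : 0 ≤ Real.log x := Real.log_nonneg hx
  have hk := APX_kap D0
  have h0 : 0 ≤ kap D0 * Real.log x := mul_nonneg hk hl
  unfold kl lk
  rw [APX_logR (by linarith)]
  refine ⟨h0, ?_, ?_⟩
  · nlinarith
  · have : 0 ≤ (1 / 4 - δ) * Real.log x := mul_nonneg (by linarith) hl
    exact mul_nonneg hk this

/-- the size of the support -/
theorem APX_sz {D0 k : ℕ} {δ x : ℝ} (hδ0 : 0 < δ) (hδ : δ < 1 / 8) (hx : 1 < x)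
    (r : Co (Sx D0 x) k) (hpos : 0 < nrm r) (h : sz (Rx δ x) r ≤ 2) :
    (nrm r : ℝ) ≤ Real.sqrt x := by
  have hx0 : 0 < x := by linarith
  have hl : 0 < Real.log x := Real.log_pos hx
  have hR : 0 < Real.log (Rx δ x) := by
    rw [APX_logR hx0]
    exact mul_pos (by linarith) hl
  have hn : (0 : ℝ) < nrm r := by exact_mod_cast hpos
  unfold sz at h
  rw [div_le_iff₀ hR, APX_logR hx0] at h
  rw [Real.sqrt_eq_rpow, ← Real.log_le_log_iff hn (Real.rpow_pos_of_pos hx0 _), Real.log_rpow hx0]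
  nlinarith

theorem APX_tv {D0 k : ℕ} {x : ℝ} (R : ℝ) (m : Fin k) (r : Co (Sx D0 x) k) (h : NoC m r) :
    tv R r m = 0 := by
  have h1 : prt m r = 1 := by
    unfold prt
    refine Finset.prod_eq_one fun p _ => ?_
    rw [if_neg (h p)]
  unfold tv
  rw [h1, Nat.cast_one, Real.log_one, zero_div]

theorem prf_APX (hSUMN : C_SUMN) (hTOT : C_TOT) (hPERT : C_PERT) (hBAS : C_BAS) : C_APX := by
  intro k m T0 M C V δ hT1 hT2 hM hC hδ0 hδ ε hε
  set e1 : ℝ := ε / (4 * (C + 1) * 8 ^ (k - 1)) with he1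
  have hC1 : 0 < C + 1 := by linarith
  have he1p : 0 < e1 := by positivity
  refine ⟨e1, he1p, ?_⟩
  have hS := hSUMN k m T0 M V δ hT1 hT2 hM hδ0 hδ (ε / 2) (by positivity)
  have hP := hPERT k C hC e1 he1p
  have hT : Ev fun D0 x => ∀ m : Fin k, ∑ r ∈ univ.filter (fun r : Co (Sx D0 x) k => NoC m r ∧
      (nrm r : ℝ) ≤ Real.sqrt x), 1 / mw aF r ≤ kl D0 x ^ (k - 1) := by
    refine ⟨2, fun D0 hD0 => ?_⟩
    obtain ⟨x0, hx0⟩ := hTOT k D0 hD0
    exact ⟨x0, fun x hx => (hx0 x hx).2.2⟩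
  refine APX_mono (APX_and hS (APX_and hP hT)) 0 2 ?_
  rintro D0 - x hx2 ⟨hS', ⟨-, hP'⟩, hT'⟩ Φ f hΦ hBV hΦs hfs hclose
  have hx1 : 1 < x := by
    have : (2 : ℝ) ≤ x := hx2
    linarith
  obtain ⟨hkl0, hkl8, hlk0⟩ := APX_kl (D0 := D0) (δ := δ) hδ hx1.le
  have hS2 := hS' Φ hΦ hBV
  have hP2 := hP' m
  have hT2' := hT' m
  have hbas := hBAS (Sx D0 x) k APX_prime
  have hmw : ∀ r : Co (Sx D0 x) k, 0 < mw aF r := by
    intro r
    obtain ⟨-, h1, -, -, h2, -⟩ := hbas r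
    rw [h2]
    exact_mod_cast Nat.totient_pos.2 h1
  -- the difference is supported on small colourings
  have hzero : ∀ r : Co (Sx D0 x) k, NoC m r → ¬ (nrm r : ℝ) ≤ Real.sqrt x →
      f r - Φ (tv (Rx δ x) r) = 0 := by
    intro r hr hn
    obtain ⟨-, hpos, -, -, -, -, -, -, hsz, -⟩ := hbas r
    have h1 : ¬ sz (Rx δ x) r ≤ 2 := fun h => hn (APX_sz hδ0 hδ hx1 r hpos h)
    have h2 : f r = 0 := by
      by_contra h
      exact h1 (hfs r h)
    have h3 : Φ (tv (Rx δ x) r) = 0 := by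
      by_contra h
      have h4 := hΦs _ h
      apply h1
      rw [hsz (Rx δ x), ← Finset.add_sum_erase _ _ (Finset.mem_univ m),
        APX_tv (Rx δ x) m r hr, zero_add]
      exact h4
    rw [h2, h3, sub_zero]
  have hdiff : |∑ r ∈ univ.filter (fun r : Co (Sx D0 x) k => NoC m r), f r / mw aF r -
      ∑ r ∈ univ.filter (fun r : Co (Sx D0 x) k => NoC m r), Φ (tv (Rx δ x) r) / mw aF r| ≤
      ε / 2 * lk D0 δ x ^ (k - 1) := by
    rw [← Finset.sum_sub_distrib]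
    have h1 : ∑ r ∈ univ.filter (fun r : Co (Sx D0 x) k => NoC m r),
        (f r / mw aF r - Φ (tv (Rx δ x) r) / mw aF r) =
        ∑ r ∈ univ.filter (fun r : Co (Sx D0 x) k => NoC m r ∧ (nrm r : ℝ) ≤ Real.sqrt x),
          (f r - Φ (tv (Rx δ x) r)) / mw aF r := by
      symm
      refine Finset.sum_subset_zero_on_sdiff ?_ ?_ ?_
      · intro r hr
        rw [Finset.mem_filter] at hr ⊢
        exact ⟨hr.1, hr.2.1⟩
      · intro r hr
        rw [Finset.mem_sdiff, Finset.mem_filter, Finset.mem_filter] at hr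
        have h2 : ¬ (nrm r : ℝ) ≤ Real.sqrt x := fun h => hr.2 ⟨Finset.mem_univ _, hr.1.2, h⟩
        rw [← sub_div, hzero r hr.1.2 h2, zero_div]
      · intro r _
        rw [sub_div]
    rw [h1]
    refine (Finset.abs_sum_le_sum_abs _ _).trans ?_
    have h2 : ∑ r ∈ univ.filter (fun r : Co (Sx D0 x) k => NoC m r ∧ (nrm r : ℝ) ≤ Real.sqrt x),
        |(f r - Φ (tv (Rx δ x) r)) / mw aF r| ≤
        ∑ r ∈ univ.filter (fun r : Co (Sx D0 x) k => NoC m r ∧ (nrm r : ℝ) ≤ Real.sqrt x),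
          (C * e1 * (1 / mw aF r) +
            C * ((mw (fun p => 1 + C / ((p : ℝ) - 2)) r - 1) / mw aF r)) := by
      refine Finset.sum_le_sum fun r hr => ?_
      have hr' := (Finset.mem_filter.1 hr).2.1
      rw [abs_div, abs_of_pos (hmw r)]
      calc |f r - Φ (tv (Rx δ x) r)| / mw aF r
          ≤ C * (e1 + (mw (fun p => 1 + C / ((p : ℝ) - 2)) r - 1)) / mw aF r :=
            div_le_div_of_nonneg_right (hclose r hr') (hmw r).le
        _ = _ := by ring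
    refine h2.trans ?_
    rw [Finset.sum_add_distrib, ← Finset.mul_sum, ← Finset.mul_sum]
    have hk8 : kl D0 x ^ (k - 1) ≤ 8 ^ (k - 1) * lk D0 δ x ^ (k - 1) := by
      rw [← mul_pow]
      exact pow_le_pow_left₀ hkl0 hkl8 _
    have h3 : C * e1 * ∑ r ∈ univ.filter (fun r : Co (Sx D0 x) k => NoC m r ∧
        (nrm r : ℝ) ≤ Real.sqrt x), 1 / mw aF r ≤ C * e1 * kl D0 x ^ (k - 1) :=
      mul_le_mul_of_nonneg_left hT2' (mul_nonneg hC he1p.le)
    have h4 : C * ∑ r ∈ univ.filter (fun r : Co (Sx D0 x) k => NoC m r ∧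
        (nrm r : ℝ) ≤ Real.sqrt x), (mw (fun p => 1 + C / ((p : ℝ) - 2)) r - 1) / mw aF r ≤
        C * (e1 * kl D0 x ^ (k - 1)) :=
      mul_le_mul_of_nonneg_left hP2 hC
    have h5 : C * e1 * kl D0 x ^ (k - 1) + C * (e1 * kl D0 x ^ (k - 1)) ≤
        ε / 2 * lk D0 δ x ^ (k - 1) := by
      calc C * e1 * kl D0 x ^ (k - 1) + C * (e1 * kl D0 x ^ (k - 1))
          = 2 * C * e1 * kl D0 x ^ (k - 1) := by ring
        _ ≤ 2 * (C + 1) * e1 * (8 ^ (k - 1) * lk D0 δ x ^ (k - 1)) := by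
            gcongr
            linarith
        _ = ε / 2 * lk D0 δ x ^ (k - 1) := by
            rw [he1]
            field_simp
            ring
    linarith
  have htri := abs_sub_le
    (∑ r ∈ univ.filter (fun r : Co (Sx D0 x) k => NoC m r), f r / mw aF r)
    (∑ r ∈ univ.filter (fun r : Co (Sx D0 x) k => NoC m r), Φ (tv (Rx δ x) r) / mw aF r)
    (lk D0 δ x ^ (k - 1) * ∫ t, cutm m Φ t)
  calc _ ≤ _ := htri
    _ ≤ ε / 2 * lk D0 δ x ^ (k - 1) + ε / 2 * lk D0 δ x ^ (k - 1) := add_le_add hdiff hS2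
    _ = ε * lk D0 δ x ^ (k - 1) := by ring

end MPb51559.BG
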