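import Pool.Agent.Work.MP_b51559_nt.BG.C.Defs

set_option autoImplicit false

/-!
# Part C: statements, first part (algebra of colourings, counting, one dimensional sums)

Throughout `S` is a finite set of primes. All statements carry complete proofs in the docstrings.
-/

namespace MPb51559.BG

open Finset Filter Topology MeasureTheory
open scoped Classical

/-! ## Group 1: exact algebra of colourings.
Method for all items: a sum over colourings of a product over primes of local terms is the product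
over primes of the sum over the local colours (`Finset.prod_univ_sum`, `Fintype.piFinset_univ`). -/

/-- BAS: elementary facts for a set of primes. `nrm` is squarefree, its prime factors are the
coloured primes, `mw` of the standard functions. -/
def C_BAS : Prop := ∀ (S : Finset ℕ) (k : ℕ), (∀ p ∈ S, p.Prime) → ∀ r : Co S k,
  Squarefree (nrm r) ∧ 0 < nrm r ∧ (∀ p, p.Prime → (p ∣ nrm r ↔ ∃ h : p ∈ S, r ⟨p, h⟩ ≠ none)) ∧
  mw aP r = nrm r ∧ mw aF r = ((nrm r).totient : ℝ) ∧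
  (∀ c : ℝ, mw (fun _ => c) r = c ^ (nrm r).primeFactors.card) ∧
  nrm r = ∏ i, prt i r ∧ (∀ i, 0 < prt i r ∧ prt i r ∣ nrm r) ∧
  (∀ R : ℝ, sz R r = ∑ i, tv R r i) ∧
  (∀ e : Co S k, Le r e → nrm r ∣ nrm e) ∧
  (∀ e : Co S k, Cmp r e → nrm (jn r e) ∣ nrm r * nrm e)

/-- INV: the two transforms are inverse to each other. Proof: `ytr a (lam a y) r` equals the sum
over `u` of `y u` times the product over `p` of local factors: for (r,u) = (none, none): 1;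
(none, i): (1/(a-1)) (1 + (-1) a / a) = 0, from d in {none, i}; (i, i): (-1)(a-1)(-1) a/a/(a-1) = 1;
all other pairs 0. The other composition in the same way. -/
def C_INV : Prop := ∀ (S : Finset ℕ) (k : ℕ) (a : ℕ → ℝ), (∀ p ∈ S, a p ≠ 0 ∧ a p - 1 ≠ 0) →
  ∀ y : Co S k → ℝ, ytr a (lam a y) = y ∧ lam a (ytr a y) = y

/-- QF: diagonalisation of the quadratic form. Insert the definition of `lam`, exchange sums: the
coefficient of y r y' s / ((a-1)_r (a-1)_s) is the sum over compatible d ≤ r, e ≤ s of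
mu(d) mu(e) a_d a_e / a_(d v e), a product of local factors: (none,none): 1; (i,none): 1 - 1 = 0;
(i,j): 1 - 1 - 1 + a [i = j] = cloc. -/
def C_QF : Prop := ∀ (S : Finset ℕ) (k : ℕ) (a : ℕ → ℝ), (∀ p ∈ S, a p ≠ 0 ∧ a p - 1 ≠ 0) →
  ∀ y y' : Co S k → ℝ, Qf a (lam a y) (lam a y') =
    ∑ r, ∑ s, y r * y' s / (mw (fun p => a p - 1) r * mw (fun p => a p - 1) s) *
      ∏ p : {p // p ∈ S}, cloc (a p) (r p) (s p)

/-- QN: the form is almost the diagonal sum. From QF: the terms r = s give the diagonal sum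
(cloc (i,i) = a - 1). For the others |y r y s| ≤ (y r ^ 2 + y s ^ 2)/2 and symmetry, and for fixed r
the sum over s of the product of |cloc|/(a-1) is the product over the coloured p of
(1 + (k-1)/(a-1)). USES: C_QF. -/
def C_QN : Prop := ∀ (S : Finset ℕ) (k : ℕ) (a : ℕ → ℝ), (∀ p ∈ S, 1 < a p) →
  ∀ y : Co S k → ℝ, |Qf a (lam a y) (lam a y) - ∑ r, y r ^ 2 / mw (fun p => a p - 1) r| ≤
    ∑ r, y r ^ 2 / mw (fun p => a p - 1) r * (mw (fun p => 1 + (k : ℝ) / (a p - 1)) r - 1)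

/-- QO: pieces living on different supports are orthogonal (the product of cloc vanishes unless the
sets of coloured primes are equal). USES: C_QF. -/
def C_QO : Prop := ∀ (S : Finset ℕ) (k : ℕ) (a : ℕ → ℝ), (∀ p ∈ S, 1 < a p) →
  ∀ y y' : Co S k → ℝ, (∀ r s, (∀ p, r p = none ↔ s p = none) → y r * y' s = 0) →
  Qf a (lam a y) (lam a y') = 0

/-- SUP: supports. (Le d r gives nrm d ≤ nrm r because the members of S are at least 1; and if r has
no colour m then d has none.) -/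
def C_SUP : Prop := ∀ (S : Finset ℕ) (k : ℕ) (a : ℕ → ℝ), (∀ p ∈ S, 1 ≤ p) →
  ∀ (y : Co S k → ℝ), (∀ N : ℝ, (∀ r, y r ≠ 0 → (nrm r : ℝ) ≤ N) →
    (∀ d, lam a y d ≠ 0 → (nrm d : ℝ) ≤ N) ∧ (∀ d, ytr a y d ≠ 0 → (nrm d : ℝ) ≤ N)) ∧
  (∀ m : Fin k, (∀ r, y r ≠ 0 → NoC m r) →
    (∀ d, lam a y d ≠ 0 → NoC m d) ∧ (∀ d, ytr a y d ≠ 0 → NoC m d))

/-- TAU: divisor sums. The sum over colourings of the product of c/p is the sum over colourings with
c k colours of 1/nrm, and the map to the tuple of the c k parts is injective, every part is at most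
N: at most (sum_{n ≤ N} 1/n)^(c k). Second sum: 1 ≤ N / nrm. (Any other proof is fine.) -/
def C_TAU : Prop := ∀ (S : Finset ℕ) (k c : ℕ), (∀ p ∈ S, p.Prime) → ∀ N : ℕ, 1 ≤ N →
  ∑ r ∈ (univ : Finset (Co S k)).filter (fun r => nrm r ≤ N), mw (fun p => (c : ℝ) / p) r
    ≤ (1 + Real.log N) ^ (c * k) ∧
  ∑ r ∈ (univ : Finset (Co S k)).filter (fun r => nrm r ≤ N), mw (fun _ => (c : ℝ)) r
    ≤ N * (1 + Real.log N) ^ (c * k)

/-- SZ: size of the sieve weights. |lam a y d| ≤ mw (a/(a-1)) d M times the sum over v (disjoint from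
d, nrm v ≤ N) of 1/mw (a-1) v; a/(a-1) ≤ 2 and 1/(a-1) ≤ 2/p for p > 3 (a = p or p - 1); the sum is at
most (1 + log N)^(2k) by TAU with c = 2. (Map r ↦ r with the colours on the support of d
removed.) USES: C_TAU. -/
def C_SZ : Prop := ∀ (S : Finset ℕ) (k : ℕ), (∀ p ∈ S, p.Prime ∧ 3 < p) →
  ∀ a : ℕ → ℝ, a = aP ∨ a = aF →
  ∀ (y : Co S k → ℝ) (M : ℝ) (N : ℕ), 1 ≤ N → 0 ≤ M → (∀ r, |y r| ≤ M) →
  (∀ r, y r ≠ 0 → nrm r ≤ N) →
  ∀ d, |lam a y d| ≤ M * mw (fun _ => 2) d * (1 + Real.log N) ^ (2 * k)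

/-- CONV: conversion to direction m. Insert the definitions: the coefficient of y u is the product of
local factors mu(r) (p-2) sum over d with r ≤ d ≤ u, d /= m, of (mu(d) p/(p-1)) (1/(p-1) if u
coloured): (none,none): 1; (none,m): only d = none: 1/(p-1); (none,i), i /= m: (1/(p-1)) (1 - p/(p-1)) =
-1/(p-1)^2; (i,i), i /= m: p (p-2)/(p-1)^2 = 1 - 1/(p-1)^2. -/
def C_CONV : Prop := ∀ (S : Finset ℕ) (k : ℕ), (∀ p ∈ S, 2 < p) → ∀ (m : Fin k) (y : Co S k → ℝ)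
  (r : Co S k), NoC m r → ytr aF (rst m (lam aP y)) r =
    ∑ u, y u * ∏ p : {p // p ∈ S}, kloc m (p : ℝ) (r p) (u p)

/-- CONVB: conversion back. Local factors: (none,none): 1; (none,i): (1/(p-2)) (1 - (p-1)/p) =
1/(p(p-2)); (i,i): (p-1)(p-1)/(p (p-2)). -/
def C_CONVB : Prop := ∀ (S : Finset ℕ) (k : ℕ), (∀ p ∈ S, 2 < p) → ∀ (y : Co S k → ℝ)
  (r : Co S k), ytr aP (lam aF y) r = ∑ u, y u * ∏ p : {p // p ∈ S}, iloc (p : ℝ) (r p) (u p)

section
variable {S : Finset ℕ} {k : ℕ}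

/-- the normaliser of the extension -/
noncomputable def cpsi (m : Fin k) (Z : ℝ) (r : Co S k) : ℝ :=
  ∑ u ∈ univ.filter (fun u : Co S k => dl m u = r ∧ (nrm u : ℝ) ≤ Z), mw aF r / mw aF u

/-- the diagonal variables of the extended sieve weight (level `Z`) -/
noncomputable def yext (m : Fin k) (Z : ℝ) (l : Co S k → ℝ) (u : Co S k) : ℝ :=
  if (nrm u : ℝ) ≤ Z then ytr aP l (dl m u) / cpsi m Z (dl m u) else 0
end

/-- EXT: every weight without colour m extends. Put B = ytr aP l (it vanishes off NoC m and off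
nrm ≤ Z). For d in NoC m: Le d u iff Le d (dl m u), so lam aP (yext) d = mu(d) nrm(d) times the sum
over r = dl m u ≥ d of B r / (cpsi r mw aF r) times cpsi r = lam aP B d = l d (INV). If B r /= 0 then
nrm r ≤ Z and cpsi r ≥ 1 (the term u = r; all terms are positive). The last claim: cpsi ≥ 1 because
nrm (dl m u) ≤ nrm u ≤ Z. USES: C_INV, C_SUP. -/
def C_EXT : Prop := ∀ (S : Finset ℕ) (k : ℕ) (m : Fin k), (∀ p ∈ S, 2 < p) →
  ∀ (l : Co S k → ℝ) (Z : ℝ), (∀ d, l d ≠ 0 → NoC m d ∧ (nrm d : ℝ) ≤ Z) →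
  rst m (lam aP (yext m Z l)) = l ∧ ∀ u, |yext m Z l u| ≤ |ytr aP l (dl m u)|

/-- VLR: two inequalities for the coprime sums. Let r be a colouring without colour m, nrm r ≤ Z.
(a) (van Lint, Richert) Hs S (Z/nrm r) ≤ cpsi m Z r * mw (1 + 1/(p-1)) r: every n in SqF S z,
z = Z/nrm r, is n = l b with l = gcd(n, nrm r), b prime to nrm r; 1/phi(n) = 1/phi(l) 1/phi(b), b ≤ z,
and the sum over l | nrm r of 1/phi(l) is mw (1 + 1/(p-1)) r; the sum over b is cpsi (colour the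
primes of b by m: u with dl m u = r, nrm u = nrm r * b).
(b) the sum over u (dl m u = r, nrm u ≤ Z) of (mw aF r/mw aF u) mw (1 + k/(p-1)) u is at most
mw (1+k/(p-1)) r * prod_{p in S} (1 + k/(p-1)^2) * cpsi m Z r: expand mw (1+k/(p-1)) of the m part b
as the sum over l | b of k^omega(l)/phi(l), put b = l b', drop the condition coprime to l:
sum_l k^omega(l)/phi(l)^2 times cpsi. -/
def C_VLR : Prop := ∀ (S : Finset ℕ) (k : ℕ) (m : Fin k), (∀ p ∈ S, p.Prime ∧ 2 < p) →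
  ∀ (Z : ℝ) (r : Co S k), NoC m r → (nrm r : ℝ) ≤ Z →
  Hs S (Z / nrm r) ≤ cpsi m Z r * mw (fun p => 1 + 1 / ((p : ℝ) - 1)) r ∧
  ∑ u ∈ univ.filter (fun u : Co S k => dl m u = r ∧ (nrm u : ℝ) ≤ Z),
      mw aF r / mw aF u * mw (fun p => 1 + (k : ℝ) / ((p : ℝ) - 1)) u ≤
    mw (fun p => 1 + (k : ℝ) / ((p : ℝ) - 1)) r *
      (∏ p : {p // p ∈ S}, (1 + (k : ℝ) / ((p : ℝ) - 1) ^ 2)) * cpsi m Z r

/-- EXTQ: the form of the extension. By QN (a = aP): Qf ≤ sum_u y~^2/mw aF u * mw (1+k/(p-1)) u. Group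
by r = dl m u: y~ u = B r/cpsi r; by VLR (b) the inner sum is at most B r^2/(mw aF r cpsi r^2) *
mw(1+k/(p-1)) r * prod * cpsi r, and 1/cpsi r ≤ mw (1+1/(p-1)) r / Hs S (Z/nrm r) by VLR (a). USES: C_QF, C_QN, C_SUP, C_VLR. -/
def C_EXTQ : Prop := ∀ (S : Finset ℕ) (k : ℕ) (m : Fin k), (∀ p ∈ S, p.Prime ∧ 2 < p) →
  ∀ (l : Co S k → ℝ) (Z : ℝ), 1 ≤ Z → (∀ d, l d ≠ 0 → NoC m d ∧ (nrm d : ℝ) ≤ Z) →
  Qf aP (lam aP (yext m Z l)) (lam aP (yext m Z l)) ≤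
    (∏ p : {p // p ∈ S}, (1 + (k : ℝ) / ((p : ℝ) - 1) ^ 2)) *
    ∑ r ∈ univ.filter (fun r : Co S k => NoC m r ∧ (nrm r : ℝ) ≤ Z),
      ytr aP l r ^ 2 / (mw aF r * Hs S (Z / nrm r)) *
        mw (fun p => (1 + (k : ℝ) / ((p : ℝ) - 1)) * (1 + 1 / ((p : ℝ) - 1))) r

/-- CVA: the conversion of CONV, main part and rest. For r in NoC m the colourings u with nonzero
product of kloc extend r; u = r joined with v; split v into the part of colour m and the part v' of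
the other colours: v' empty gives mw (1 - 1/(p-1)^2) r times the sum over dl m u = r of
y u mw aF r/mw aF u; the others are bounded by M times (prod (1 + k/(p-1)^2) - 1) times the sum over
the m part (squarefree n ≤ N composed of primes of S) of 1/phi(n). USES: C_BAS. -/
def C_CVA : Prop := ∀ (S : Finset ℕ) (k : ℕ), (∀ p ∈ S, p.Prime ∧ 2 < p) → ∀ (m : Fin k)
  (y : Co S k → ℝ) (M N : ℝ) (r : Co S k), NoC m r → 0 ≤ M → (∀ u, |y u| ≤ M) →
  (∀ u, y u ≠ 0 → (nrm u : ℝ) ≤ N) →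
  |∑ u, y u * ∏ p : {p // p ∈ S}, kloc m (p : ℝ) (r p) (u p) -
    mw (fun p => 1 - 1 / ((p : ℝ) - 1) ^ 2) r *
      ∑ u ∈ univ.filter (fun u : Co S k => dl m u = r), y u * (mw aF r / mw aF u)| ≤
    M * ((∏ p : {p // p ∈ S}, (1 + (k : ℝ) / ((p : ℝ) - 1) ^ 2)) - 1) * Hs S N

/-- MSU: the sum over the part of colour m. u with dl m u = r corresponds to n = prt m u squarefree,
composed of primes of S, prime to nrm r, mw aF r/mw aF u = 1/phi(n), tv R u = update (tv R r) m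
(log n/log R). Dropping the coprimality costs at most M times the sum over p | nrm r of 1/(p-1) times
Hs, which is at most M Hs (mw (1 + 1/(p-1)) r - 1). f vanishes for arguments > N. USES: C_BAS. -/
def C_MSU : Prop := ∀ (S : Finset ℕ) (k : ℕ), (∀ p ∈ S, p.Prime ∧ 2 < p) → ∀ (m : Fin k)
  (f : ℕ → ℝ) (M N : ℝ) (r : Co S k), NoC m r → 0 ≤ M → (∀ n, |f n| ≤ M) →
  (∀ n : ℕ, f n ≠ 0 → (n : ℝ) ≤ N) →
  |∑ u ∈ univ.filter (fun u : Co S k => dl m u = r), f (prt m u) * (mw aF r / mw aF u) -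
    ∑ n ∈ SqF S N, f n / (n.totient : ℝ)| ≤
    M * Hs S N * (mw (fun p => 1 + 1 / ((p : ℝ) - 1)) r - 1) ∧
  ∀ (R : ℝ) (u : Co S k), dl m u = r →
    tv R u = Function.update (tv R r) m (Real.log (prt m u : ℝ) / Real.log R)

/-! ## Group 2: counting -/

/-- ADJ: two colourings are adhered to iff they are compatible and the join is adhered to. If
d p = some i, e p = some j then p divides n + h i and n + h j, so p | |h i - h j| ≤ D0 < p, i = j. -/
def C_ADJ : Prop := ∀ (D0 : ℕ) (S : Finset ℕ) (k : ℕ) (h : Fin k → ℕ), (∀ p ∈ S, D0 < p) →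
  (∀ i, h i ≤ D0) → Function.Injective h → ∀ (d e : Co S k) (n : ℕ),
  (Adh h d n ∧ Adh h e n) ↔ (Cmp d e ∧ Adh h (jn d e) n)

/-- CRT: the congruence conditions of a colouring and of v0 are one residue class (Chinese remainder
theorem for primorial D0 and the coloured primes, all coprime; n = - h i mod p has the solution
p * h i - h i or so in the naturals); and if colour m does not occur, a + h m is coprime to the modulus:
modulo W it is v0 + h m, modulo p of colour i it is h m - h i, not 0 as 0 < |h m - h i| ≤ D0 < p. -/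
def C_CRT : Prop := ∀ (D0 : ℕ) (S : Finset ℕ) (k : ℕ) (h : Fin k → ℕ),
  (∀ p ∈ S, p.Prime ∧ D0 < p) → (∀ i, h i ≤ D0) → Function.Injective h → ∀ v0 : ℕ,
  (∀ i, (v0 + h i).Coprime (primorial D0)) → ∀ u : Co S k, ∃ a : ℕ,
  (∀ n : ℕ, (n ≡ v0 [MOD primorial D0] ∧ Adh h u n) ↔ n ≡ a [MOD primorial D0 * nrm u]) ∧
  ∀ m, NoC m u → (a + h m).Coprime (primorial D0 * nrm u)

/-- V0: choice of v0 by the Chinese remainder theorem over the primes p ≤ D0. -/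
def C_V0 : Prop := ∀ (k : ℕ) (h : Fin k → ℕ), Adm h → ∀ D0 : ℕ, ∃ v0 : ℕ,
  ∀ i, (v0 + h i).Coprime (primorial D0)

/-- WPS: sums of the weight of S1 over progressions. wp w h x n = f(n/x), f(u) = max over m of
w(u + h m/x), f is Lipschitz with the constant of w, supported in [1,2] for x large, so the Riemann
sum argument of Wt_sum (BG/Wex.lean) gives |sum - x int f/q| ≤ C with C depending on the Lipschitz
constant only, and |int f - int w| ≤ C' max h/x. Fin k is nonempty and finite, the supremum is a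
maximum. -/
def C_WPS : Prop := ∀ w, Wt w → ∀ (k : ℕ) (h : Fin k → ℕ), 0 < k → ∃ C x0 : ℝ, ∀ x ≥ x0,
  (∀ n, 0 ≤ wp w h x n) ∧ ∀ q a : ℕ, 0 < q →
  |∑ n ∈ (range (⌊2 * x⌋₊ + 1)).filter (fun n => n ≡ a [MOD q]), wp w h x n -
    x * (∫ u, w u) / q| ≤ C

/-- S1E: expand the product of the two sieve sums, exchange: the coefficient of l d l' e is 0 if d, e
are not compatible and otherwise (ADJ, CRT) a sum of wp over one class modulo W nrm (jn d e)
= x int w/(W nrm (jn d e)) + O(C) by WPS; mw aP = nrm (BAS). USES: C_BAS, C_ADJ, C_CRT, C_WPS. -/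
def C_S1E : Prop := ∀ w, Wt w → ∀ (k : ℕ) (h : Fin k → ℕ), 0 < k → Function.Injective h →
  ∃ C x0 : ℝ, 0 ≤ C ∧ ∀ x ≥ x0, ∀ (D0 v0 : ℕ) (S : Finset ℕ), (∀ i, h i ≤ D0) →
  (∀ p ∈ S, p.Prime ∧ D0 < p) → (∀ i, (v0 + h i).Coprime (primorial D0)) →
  ∀ l l' : Co S k → ℝ,
  |S1 w h D0 v0 x l l' - x * (∫ u, w u) / (primorial D0 : ℝ) * Qf aP l l'| ≤
    C * (∑ d, |l d|) * (∑ d, |l' d|)

/-- TMS: the prime weight over a progression is thW: substitute p = n + h m; if w(p/x) /= 0 then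
9x/8 < p < 15x/8, so n = p - h m lies in the range for x large. -/
def C_TMS : Prop := ∀ w, Wt w → ∀ (k : ℕ) (h : Fin k → ℕ), ∃ x0 : ℝ, ∀ x ≥ x0,
  ∀ (m : Fin k) (q a : ℕ), 0 < q →
  ∑ n ∈ (range (⌊2 * x⌋₊ + 1)).filter (fun n => n ≡ a [MOD q]), tm w h x m n =
    thW w x q (a + h m)

/-- S2E: the same for the prime weight, colour m absent: coefficient of l d l' e = thW of one coprime
class modulo q = W nrm (jn d e) (CRT), = thW w x 1 0/phi(q) + error at most Eq1 w x q; phi(q) =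
phi(W) mw aF (jn d e) (BAS, coprimality). Eq1 is the supremum over the finite set of classes a ≤ q, and
thW depends on a mod q only. USES: C_BAS, C_ADJ, C_CRT, C_TMS. -/
def C_S2E : Prop := ∀ w, Wt w → ∀ (k : ℕ) (h : Fin k → ℕ), Function.Injective h →
  ∃ x0 : ℝ, ∀ x ≥ x0, ∀ (D0 v0 : ℕ) (S : Finset ℕ), (∀ i, h i ≤ D0) →
  (∀ p ∈ S, p.Prime ∧ D0 < p) → (∀ i, (v0 + h i).Coprime (primorial D0)) →
  ∀ (m : Fin k) (l l' : Co S k → ℝ), (∀ d, l d ≠ 0 → NoC m d) → (∀ d, l' d ≠ 0 → NoC m d) →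
  |S2 w h D0 v0 x m l l' - thW w x 1 0 / ((primorial D0).totient : ℝ) * Qf aF l l'| ≤
    ∑ d, ∑ e, if Cmp d e then |l d| * |l' e| * Eq1 w x (primorial D0 * nrm (jn d e)) else 0

/-- BVS: Bombieri Vinogradov for Eq1: for each q let a(q) ≤ q be the class where the supremum in Eq1
is attained (finite), apply BVE. USES: BVE. -/
def C_BVS : Prop := ∀ w, Wt w → ∀ δ : ℝ, 0 < δ → ∀ (c A : ℕ), ∃ x0 : ℝ, ∀ x ≥ x0,
  ∑ q ∈ Icc 1 ⌊x ^ (1 / 2 - δ)⌋₊, (c : ℝ) ^ q.primeFactors.card * Eq1 w x q ≤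
    x / Real.log x ^ A

/-- JCT: counting pairs: for every function E ≥ 0 on the naturals, the sum over compatible d, e with
nrm d * nrm e ≤ Z of 2^omega(d) 2^omega(e) E (W nrm (jn d e)) is at most the sum over n ≤ W Z of
(8 k)^omega(n) E n (each coloured prime of the join: k colours, and it is in d only (2), e only (2), or
both (4)), W coprime to the members of S. USES: C_BAS. -/
def C_JCT : Prop := ∀ (S : Finset ℕ) (k W : ℕ), 0 < k → 0 < W → (∀ p ∈ S, p.Prime ∧ p.Coprime W) →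
  ∀ (E : ℕ → ℝ), (∀ n, 0 ≤ E n) → ∀ Z : ℝ, 0 ≤ Z →
  (∑ d : Co S k, ∑ e : Co S k, if Cmp d e ∧ (nrm d : ℝ) * nrm e ≤ Z then
    mw (fun _ => 2) d * mw (fun _ => 2) e * E (W * nrm (jn d e)) else 0) ≤
  ∑ n ∈ Icc 1 ⌊(W : ℝ) * Z⌋₊, ((8 * k : ℕ) : ℝ) ^ n.primeFactors.card * E n

/-- S2B: the prime side for two pieces whose sizes add up to at most 2. Combine S2E, SZ (weights
bounded by log^2 x 2^omega(d) (1+log x)^(2k), N = floor(R^2) ≤ x), JCT with Z = R^2 = x^(1/2 - 2δ), and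
W R^2 ≤ x^(1/2-δ) for x large, BVS with c = 8k, A = 4k + 10. (nrm d nrm e ≤ R^s R^s' ≤ R^2 on the
supports, by SUP.) USES: C_BAS, C_SUP, C_TAU, C_SZ, C_S2E, C_BVS, C_JCT, BVE, C_ADJ, C_CRT, C_TMS. -/
def C_S2B : Prop := ∀ w, Wt w → ∀ (k : ℕ) (h : Fin k → ℕ), Function.Injective h → ∀ δ : ℝ, 0 < δ → δ < 1 / 8 →
  ∀ D0 : ℕ, 3 ≤ D0 → (∀ i, h i ≤ D0) → ∃ x0 : ℝ, ∀ x ≥ x0, ∀ v0 : ℕ,
  (∀ i, (v0 + h i).Coprime (primorial D0)) →
  ∀ (m : Fin k) (y y' : Co (Sx D0 x) k → ℝ) (s s' : ℝ), 0 ≤ s → 0 ≤ s' → s + s' ≤ 2 →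
  (∀ r, |y r| ≤ Real.log x ^ 2) → (∀ r, |y' r| ≤ Real.log x ^ 2) →
  (∀ r, y r ≠ 0 → NoC m r ∧ sz (Rx δ x) r ≤ s) →
  (∀ r, y' r ≠ 0 → NoC m r ∧ sz (Rx δ x) r ≤ s') →
  |S2 w h D0 v0 x m (lam aF y) (lam aF y') -
    thW w x 1 0 / ((primorial D0).totient : ℝ) * Qf aF (lam aF y) (lam aF y')| ≤ x / Real.log x

/-- RS: on n with n + h m prime (and weight not 0, so n + h m > 9x/8 > p for all p in Sx) no colouring
with colour m is adhered to: a prime p of colour m would divide the prime n + h m > p. -/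
def C_RS : Prop := ∀ w, Wt w → ∀ (k : ℕ) (h : Fin k → ℕ) (D0 v0 : ℕ) (x : ℝ), 1 ≤ x →
  ∀ (m : Fin k) (l l' : Co (Sx D0 x) k → ℝ),
  S2 w h D0 v0 x m l l' = S2 w h D0 v0 x m (rst m l) (rst m l')

/-- UPB: upper bound for the prime side by S1 of an extension: tm ≤ log(2x) wp on primes, and for l in
NoC m with extension l~ (rst m l~ = l) the two sieve sums agree at the n with n + h m prime (RS). USES: C_RS. -/
def C_UPB : Prop := ∀ w, Wt w → ∀ (k : ℕ) (h : Fin k → ℕ),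
  ∃ x0 : ℝ, ∀ x ≥ x0, ∀ (D0 v0 : ℕ) (m : Fin k) (l : Co (Sx D0 x) k → ℝ),
  S2 w h D0 v0 x m l l ≤ Real.log (2 * x) * S1 w h D0 v0 x l l ∧
  ∀ l' : Co (Sx D0 x) k → ℝ, rst m l' = l →
    S2 w h D0 v0 x m l l ≤ Real.log (2 * x) * S1 w h D0 v0 x l' l'

/-! ## Group 3: one dimensional sums -/

/-- ONA: sum of 1/m over m ≤ z prime to W = primorial D0 (residue classes modulo W, each class sum is
(1/W) log z + O(1); or Moebius over the divisors of W; harmonic sums in Mathlib). -/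
def C_ONA : Prop := ∀ D0 : ℕ, ∃ C : ℝ, ∀ z : ℝ, 1 ≤ z →
  |∑ m ∈ (Icc 1 ⌊z⌋₊).filter (fun m => m.Coprime (primorial D0)), 1 / (m : ℝ) -
    kap D0 * Real.log z| ≤ C

/-- ONB: the sum of 1/(c rad c) converges: c rad c is powerful (every exponent at least 2), hence
of the form a^2 b^3, and c ↦ c rad c is injective; or an Euler product. -/
def C_ONB : Prop := Summable (fun c : ℕ => 1 / ((c : ℝ) * ((∏ p ∈ c.primeFactors, p : ℕ) : ℝ)))

/-- ONE: sum of 1/phi over squarefree n ≤ z prime to W. Here Sx D0 x contains all primes in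
(D0, z] as z ≤ sqrt x. Lower bound: mu^2(n)/phi(n) = sum of 1/m over m with radical n, so
Hs ≥ sum over m ≤ z, (m,W) = 1, of 1/m ≥ kap log z - C_W. Upper bound: Hs - sum_{m ≤ z, (m,W)=1} 1/m =
sum over m = r c, r = rad m ≤ z < m, ≤ sum_c 1/(c rad c) min(1 + log c + 1, 1 + log z), and sum_c
1/(c rad c) converges (c rad c is powerful = a^2 b^3): split at c0, get ≤ C(c0) + eps(c0) (1 + log z);
and sum_{m ≤ z, (m,W)=1} 1/m ≤ kap log z + C_W (residue classes modulo W). For small z the trivial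
bound is enough since the error allowed is eta log x, x large. USES: C_ONA, C_ONB. -/
def C_ONE : Prop := ∀ D0 : ℕ, 2 ≤ D0 → ∀ η : ℝ, 0 < η → ∃ x0 : ℝ, ∀ x ≥ x0, ∀ z : ℝ, 1 ≤ z →
  z ≤ Real.sqrt x → |Hs (Sx D0 x) z - kap D0 * Real.log z| ≤ η * Real.log x

/-- TOT: total masses. prt i r ≤ nrm r ≤ sqrt x, 1/mw aF r = product of 1/phi(prt i r), and the map
to the tuple of parts is injective: at most Hs(sqrt x)^k ≤ (kap log x)^k by ONE with eta = kap/2. USES: C_BAS, C_ONE. -/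
def C_TOT : Prop := ∀ k D0 : ℕ, 2 ≤ D0 → ∃ x0 : ℝ, ∀ x ≥ x0,
  Hs (Sx D0 x) (Real.sqrt x) ≤ kl D0 x ∧
  ∑ r ∈ univ.filter (fun r : Co (Sx D0 x) k => (nrm r : ℝ) ≤ Real.sqrt x), 1 / mw aF r
    ≤ kl D0 x ^ k ∧
  ∀ m : Fin k, ∑ r ∈ univ.filter (fun r : Co (Sx D0 x) k => NoC m r ∧
    (nrm r : ℝ) ≤ Real.sqrt x), 1 / mw aF r ≤ kl D0 x ^ (k - 1)

/-- PERT: perturbation. mw (1 + c/(p-2)) r - 1 is the sum over nonempty v ≤ r of mw (c/(p-2)) v;
exchange, r = v u with u disjoint: total at most (prod_{p in S} (1 + k c/((p-1)(p-2))) - 1) times TOT,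
and the product over p > D0 is at most exp(k c/(D0 - 2)). Both sums (all colourings, and without
colour m). USES: C_BAS, C_TOT, C_ONE. -/
def C_PERT : Prop := ∀ (k : ℕ) (c : ℝ), 0 ≤ c → ∀ ε : ℝ, 0 < ε →
  Ev fun D0 x =>
  ∑ r ∈ univ.filter (fun r : Co (Sx D0 x) k => (nrm r : ℝ) ≤ Real.sqrt x),
    (mw (fun p => 1 + c / ((p : ℝ) - 2)) r - 1) / mw aF r ≤ ε * kl D0 x ^ k ∧
  ∀ m : Fin k, ∑ r ∈ univ.filter (fun r : Co (Sx D0 x) k => NoC m r ∧
    (nrm r : ℝ) ≤ Real.sqrt x), (mw (fun p => 1 + c / ((p : ℝ) - 2)) r - 1) / mw aF r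
      ≤ ε * kl D0 x ^ (k - 1)

/-- D1: one dimensional comparison for functions of bounded variation. f(s) = f(T0) + P(s) - N(s) on
[0,T0] with P, N ≥ 0 decreasing, P + N ≤ V. For a decreasing g ≥ 0 use the layer cake formula: the
set {g > c} in [0,T0] is [0,b) or [0,b], its mass differs from b by at most Δ (left limits), so the
difference is at most Δ sup g. -/
def C_D1 : Prop := ∀ (ι : Type) (A : Finset ι) (c t : ι → ℝ) (T0 Δ M : ℝ) (V : NNReal)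
  (f : ℝ → ℝ), 0 ≤ T0 → 0 ≤ Δ → (∀ a ∈ A, 0 ≤ c a ∧ 0 ≤ t a ∧ t a ≤ T0) →
  (∀ s, 0 ≤ s → s ≤ T0 → |∑ a ∈ A.filter (fun a => t a ≤ s), c a - s| ≤ Δ) →
  (∀ s, |f s| ≤ M) → eVariationOn f Set.univ ≤ V →
  |∑ a ∈ A, c a * f (t a) - ∫ s in (0)..T0, f s| ≤ 2 * (M + V) * Δ

/-- KD: several variables. Induction on k: for k + 1 write the sum over the first variable of the
k-dimensional sums (error by induction, mass at most T0 + Δ); the function s ↦ ∫ Φ(s, .) is bounded by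
M T0^k and has variation at most V T0^k (integrate the variation over the cube), apply D1; Fubini. USES: C_D1. -/
def C_KD : Prop := ∀ (k : ℕ) (ι : Type) (A : Finset ι) (c t : ι → ℝ) (T0 Δ M : ℝ)
  (V : NNReal), 0 ≤ T0 → 0 ≤ Δ → 0 ≤ M → (∀ a ∈ A, 0 ≤ c a ∧ 0 ≤ t a ∧ t a ≤ T0) →
  (∀ s, 0 ≤ s → s ≤ T0 → |∑ a ∈ A.filter (fun a => t a ≤ s), c a - s| ≤ Δ) →
  ∀ Φ : (Fin k → ℝ) → ℝ, BVk k T0 M V Φ →
  |∑ a ∈ Fintype.piFinset (fun _ : Fin k => A), (∏ i, c (a i)) * Φ (fun i => t (a i)) -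
    ∫ s, Φ s| ≤ k * (2 * (M + V) * Δ) * (T0 + Δ + 1) ^ k

/-- TUP: colourings are pairwise coprime tuples (r ↦ (prt i r)_i is a bijection onto the pairwise
coprime tuples of SqF S z when all parts are at most z); the tuples which are not pairwise coprime
have a common prime p in two places i < j: at most k^2 sum_p 1/(p-1)^2 Hs^k, because the sum of
1/phi(a), a in SqF S z, p | a, is at most Hs/(p-1). USES: C_BAS. -/
def C_TUP : Prop := ∀ (S : Finset ℕ) (k : ℕ), (∀ p ∈ S, p.Prime) → ∀ (z M : ℝ)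
  (f : (Fin k → ℕ) → ℝ), 1 ≤ z → (∀ a, |f a| ≤ M) →
  |∑ r ∈ univ.filter (fun r : Co S k => ∀ i, (prt i r : ℝ) ≤ z), f (fun i => prt i r) / mw aF r -
    ∑ a ∈ Fintype.piFinset (fun _ : Fin k => SqF S z), f a * ∏ i, 1 / ((a i).totient : ℝ)| ≤
    M * k ^ 2 * (∑ p ∈ S, 1 / ((p : ℝ) - 1) ^ 2) * Hs S z ^ k

/-- SUMK: k-dimensional sums. TUP with z = R^T0 ≤ sqrt x (f(a) = Φ(log a_i/log R)), KD with A = SqF S z,
c a = 1/(phi(a) lk), t a = log a/log R, Δ = eta log x/lk ≤ 8 eta/kap (ONE; the sum over t a ≤ s is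
Hs(R^s)/lk, and kap log(R^s)/lk = s), then multiply by lk^k; sum_{p > D0} 1/(p-1)^2 ≤ 1/(D0-1);
Hs(z) ≤ kl ≤ 8 lk. USES: C_BAS, C_ONE, C_D1, C_KD, C_TUP, C_TOT. -/
def C_SUMK : Prop := ∀ (k : ℕ) (T0 M : ℝ) (V : NNReal)
  (δ : ℝ), 0 < T0 → T0 ≤ 2 → 0 ≤ M → 0 < δ → δ < 1 / 8 → ∀ ε : ℝ, 0 < ε → Ev fun D0 x =>
  ∀ Φ : (Fin k → ℝ) → ℝ, BVk k T0 M V Φ →
  |∑ r : Co (Sx D0 x) k, Φ (tv (Rx δ x) r) / mw aF r - lk D0 δ x ^ k * ∫ t, Φ t| ≤
    ε * lk D0 δ x ^ k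

/-- a function of the variables other than m, cut to 0 ≤ t m < 1 -/
noncomputable def cutm {k : ℕ} (m : Fin k) (Φ : (Fin k → ℝ) → ℝ) (t : Fin k → ℝ) : ℝ :=
  if 0 ≤ t m ∧ t m < 1 then Φ t else 0

/-- SUMN: the same without colour m. The colourings without colour m correspond to Co S (k-1) by
Fin.succAbove m (k ≥ 1), with the same mw and tv; apply SUMK for k - 1 to t' ↦ Φ(insertNth m 0 t'),
whose integral is the integral of cutm m Φ (Fubini, `volume_preserving_piFinSuccAbove`). USES: C_SUMK, C_BAS, C_ONE, C_D1, C_KD, C_TUP, C_TOT. -/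
def C_SUMN : Prop := ∀ (k : ℕ) (m : Fin k)
  (T0 M : ℝ) (V : NNReal) (δ : ℝ),
  1 ≤ T0 → T0 ≤ 2 → 0 ≤ M → 0 < δ → δ < 1 / 8 → ∀ ε : ℝ, 0 < ε → Ev fun D0 x =>
  ∀ Φ : (Fin k → ℝ) → ℝ, (∀ t s, Φ (Function.update t m s) = Φ t) → BVk k T0 M V (cutm m Φ) →
  |∑ r ∈ univ.filter (fun r : Co (Sx D0 x) k => NoC m r), Φ (tv (Rx δ x) r) / mw aF r -
    lk D0 δ x ^ (k - 1) * ∫ t, cutm m Φ t| ≤ ε * lk D0 δ x ^ (k - 1)

/-- APX: sums of functions close to Φ(tv r). The difference f r - Φ(tv r) vanishes for nrm r > R^2 and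
is at most C(ε1 + (mw - 1)): TOT and PERT (kl ≤ 8 lk), then SUMN. USES: C_SUMN, C_TOT, C_PERT, C_BAS, C_ONE, C_D1, C_KD, C_TUP, C_SUMK. -/
def C_APX : Prop := ∀ (k : ℕ) (m : Fin k) (T0 M C : ℝ) (V : NNReal) (δ : ℝ), 1 ≤ T0 → T0 ≤ 2 → 0 ≤ M → 0 ≤ C →
  0 < δ → δ < 1 / 8 → ∀ ε : ℝ, 0 < ε → ∃ ε1 : ℝ, 0 < ε1 ∧ Ev fun D0 x =>
  ∀ (Φ : (Fin k → ℝ) → ℝ) (f : Co (Sx D0 x) k → ℝ), (∀ t s, Φ (Function.update t m s) = Φ t) →
  BVk k T0 M V (cutm m Φ) → (∀ t, Φ t ≠ 0 → ∑ j ∈ univ.erase m, t j ≤ 2) →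
  (∀ r, f r ≠ 0 → sz (Rx δ x) r ≤ 2) →
  (∀ r, NoC m r → |f r - Φ (tv (Rx δ x) r)| ≤
    C * (ε1 + (mw (fun p => 1 + C / ((p : ℝ) - 2)) r - 1))) →
  |∑ r ∈ univ.filter (fun r : Co (Sx D0 x) k => NoC m r), f r / mw aF r -
    lk D0 δ x ^ (k - 1) * ∫ t, cutm m Φ t| ≤ ε * lk D0 δ x ^ (k - 1)

end MPb51559.BG
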