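import Mathlib
import Pool.Agent.Work.MP_b51559_nt.BG.C.Stmts

set_option autoImplicit false

/-!
# Part C, item BAS: elementary facts on colourings
-/

namespace MPb51559.BG

open Finset Filter Topology MeasureTheory
open scoped Classical

namespace IBAS

variable {S : Finset ℕ} {k : ℕ}

/-- the coloured primes -/
noncomputable def cp (r : Co S k) : Finset ℕ :=
  (univ.filter (fun p : {p // p ∈ S} => r p ≠ none)).map (Function.Embedding.subtype _)

theorem mem_cp (r : Co S k) (p : ℕ) : p ∈ cp r ↔ ∃ h : p ∈ S, r ⟨p, h⟩ ≠ none := by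
  unfold cp
  rw [Finset.mem_map]
  constructor
  · rintro ⟨⟨q, hq⟩, h1, h2⟩
    subst h2
    exact ⟨hq, (Finset.mem_filter.1 h1).2⟩
  · rintro ⟨h, h1⟩
    exact ⟨⟨p, h⟩, Finset.mem_filter.2 ⟨mem_univ _, h1⟩, rfl⟩

theorem prod_cp (r : Co S k) {M : Type} [CommMonoid M] (f : ℕ → M) :
    ∏ p, (if r p = none then 1 else f (p : ℕ)) = ∏ p ∈ cp r, f p := by
  unfold cp
  rw [Finset.prod_map, Finset.prod_filter]
  refine Finset.prod_congr rfl fun p _ => ?_
  by_cases h : r p = none
  · rw [if_pos h, if_neg (not_not.2 h)]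
  · rw [if_neg h, if_pos h]
    rfl

theorem nrm_cp (r : Co S k) : nrm r = ∏ p ∈ cp r, p := prod_cp r fun p => p

end IBAS

open IBAS in
theorem prf_BAS : C_BAS := by
  intro S k hS r
  have hcp : ∀ r : Co S k, ∀ p ∈ cp r, p.Prime := fun r p hp => by
    obtain ⟨h, -⟩ := (mem_cp r p).1 hp
    exact hS p h
  have hpf : (nrm r).primeFactors = cp r := by
    rw [nrm_cp]
    exact Nat.primeFactors_prod (hcp r)
  have hpos : 0 < nrm r := by
    rw [nrm_cp]
    exact Finset.prod_pos fun p hp => (hcp r p hp).pos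
  have hprt : ∀ i, 0 < prt i r := by
    intro i
    unfold prt
    refine Finset.prod_pos fun p _ => ?_
    split_ifs
    · exact (hS _ p.2).pos
    · exact one_pos
  have hprod : nrm r = ∏ i, prt i r := by
    unfold nrm prt
    rw [Finset.prod_comm]
    refine Finset.prod_congr rfl fun p _ => ?_
    rcases h : r p with _ | j
    · simp
    · simp [Finset.prod_ite_eq]
  refine ⟨?_, hpos, ?_, ?_, ?_, ?_, hprod, ?_, ?_, ?_, ?_⟩
  · rw [Nat.squarefree_iff_prime_squarefree]
    intro q hq hqq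
    have h1 := hqq
    rw [nrm_cp] at h1
    have hqd : q ∣ ∏ p ∈ cp r, p := dvd_trans (dvd_mul_right q q) h1
    obtain ⟨p, hp, hqp⟩ := (Nat.prime_iff.1 hq).exists_mem_finset_dvd hqd
    have hqp' : q = p := (Nat.prime_dvd_prime_iff_eq hq (hcp r p hp)).1 hqp
    subst hqp'
    rw [← Finset.mul_prod_erase _ _ hp] at h1
    have h2 : q ∣ ∏ p ∈ (cp r).erase q, p := Nat.dvd_of_mul_dvd_mul_left hq.pos h1
    obtain ⟨p', hp', hqp2⟩ := (Nat.prime_iff.1 hq).exists_mem_finset_dvd h2
    have h3 := (Nat.prime_dvd_prime_iff_eq hq (hcp r p' (Finset.mem_of_mem_erase hp'))).1 hqp2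
    exact (Finset.ne_of_mem_erase hp') h3.symm
  · intro p hp
    rw [← mem_cp, ← hpf, Nat.mem_primeFactors]
    exact ⟨fun h => ⟨hp, h, hpos.ne'⟩, fun h => h.2.1⟩
  · unfold mw aP nrm
    push_cast
    rfl
  · have h1 : mw aF r = ∏ p ∈ cp r, ((p : ℝ) - 1) := prod_cp r fun p => ((p : ℝ) - 1)
    have h2 := Nat.totient_mul_prod_primeFactors (nrm r)
    rw [hpf, ← nrm_cp, mul_comm] at h2
    have h3 := Nat.eq_of_mul_eq_mul_left hpos h2
    rw [h1, h3]
    push_cast
    refine Finset.prod_congr rfl fun p hp => ?_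
    rw [Nat.cast_sub (hcp r p hp).one_lt.le]
    simp
  · intro c
    have h1 : mw (fun _ => c) r = ∏ p ∈ cp r, c := prod_cp r fun _ => c
    rw [h1, hpf, Finset.prod_const]
  · intro i
    refine ⟨hprt i, ?_⟩
    unfold prt nrm
    refine Finset.prod_dvd_prod_of_dvd _ _ fun p _ => ?_
    by_cases h : r p = some i
    · rw [if_pos h, if_neg (by rw [h]; simp)]
    · rw [if_neg h]
      exact one_dvd _
  · intro R
    unfold sz tv
    rw [hprod, ← Finset.sum_div]
    congr 1
    push_cast
    rw [Real.log_prod]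
    intro i _
    exact_mod_cast (hprt i).ne'
  · intro e he
    unfold nrm
    refine Finset.prod_dvd_prod_of_dvd _ _ fun p _ => ?_
    rcases he p with h | h
    · rw [if_pos h]
      exact one_dvd _
    · rw [h]
  · intro e _
    unfold nrm jn
    rw [← Finset.prod_mul_distrib]
    refine Finset.prod_dvd_prod_of_dvd _ _ fun p _ => ?_
    by_cases h : r p = none
    · simp only [if_pos h, one_mul]
      exact dvd_rfl
    · simp only [if_neg h]
      exact dvd_mul_right _ _

end MPb51559.BG
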