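import Pool.Agent.Work.MP_b51559_nt.BG.C.Stmts2

set_option autoImplicit false

/-!
# Item BST: conversion back is almost the identity
-/

namespace MPb51559.BG

open Finset Filter Topology MeasureTheory
open scoped Classical

namespace BSTl

/-- telescoping -/
theorem tele (D N : ℕ) (hN : D ≤ N) :
    ∑ n ∈ Ioc D N, (1 / ((n : ℝ) - 2) - 1 / ((n : ℝ) - 1)) = 1 / ((D : ℝ) - 1) - 1 / ((N : ℝ) - 1) := by
  induction N, hN using Nat.le_induction with
  | base => simp
  | succ N hN ih =>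
    rw [Finset.sum_Ioc_succ_top hN, ih]
    push_cast
    have e : (N : ℝ) + 1 - 2 = N - 1 := by ring
    rw [e]
    ring

theorem sum_le (D : ℕ) (hD : 2 ≤ D) (S : Finset ℕ) (hS : ∀ p ∈ S, D < p) :
    ∑ p : {p // p ∈ S}, 1 / (((p : ℕ) : ℝ) * (((p : ℕ) : ℝ) - 2)) ≤ 1 / ((D : ℝ) - 1) := by
  rw [Finset.sum_coe_sort S (fun p : ℕ => 1 / ((p : ℝ) * ((p : ℝ) - 2)))]
  have hD' : (2 : ℝ) ≤ D := by exact_mod_cast hD
  have h1 : ∀ p ∈ S, 1 / ((p : ℝ) * ((p : ℝ) - 2)) ≤ 1 / ((p : ℝ) - 2) - 1 / ((p : ℝ) - 1) := by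
    intro p hp
    have hp' : (D : ℝ) + 1 ≤ p := by exact_mod_cast hS p hp
    have a1 : (0 : ℝ) < p - 2 := by linarith
    have a2 : (0 : ℝ) < p - 1 := by linarith
    have a3 : (0 : ℝ) < p := by linarith
    rw [div_sub_div _ _ a1.ne' a2.ne']
    have e : (1 : ℝ) * (p - 1) - (p - 2) * 1 = 1 := by ring
    rw [e]
    refine one_div_le_one_div_of_le (mul_pos a1 a2) ?_
    nlinarith
  obtain ⟨N, hN⟩ : ∃ N : ℕ, D ≤ N ∧ S ⊆ Ioc D N := by
    refine ⟨max D (S.sup id), le_max_left _ _, fun p hp => ?_⟩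
    rw [Finset.mem_Ioc]
    exact ⟨hS p hp, (Finset.le_sup (f := id) hp).trans (le_max_right _ _)⟩
  calc ∑ p ∈ S, 1 / ((p : ℝ) * ((p : ℝ) - 2))
      ≤ ∑ p ∈ S, (1 / ((p : ℝ) - 2) - 1 / ((p : ℝ) - 1)) := Finset.sum_le_sum h1
    _ ≤ ∑ p ∈ Ioc D N, (1 / ((p : ℝ) - 2) - 1 / ((p : ℝ) - 1)) := by
        refine Finset.sum_le_sum_of_subset_of_nonneg hN.2 ?_
        intro p hp _
        have hp' : (D : ℝ) + 1 ≤ p := by exact_mod_cast (Finset.mem_Ioc.1 hp).1
        have a1 : (0 : ℝ) < p - 2 := by linarith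
        rw [sub_nonneg]
        exact one_div_le_one_div_of_le a1 (by linarith)
    _ = 1 / ((D : ℝ) - 1) - 1 / ((N : ℝ) - 1) := tele D N hN.1
    _ ≤ 1 / ((D : ℝ) - 1) := by
        have : (D : ℝ) ≤ N := by exact_mod_cast hN.1
        have : 0 ≤ 1 / ((N : ℝ) - 1) := by
          apply div_nonneg zero_le_one
          linarith
        linarith

theorem prod_le_exp {ι : Type} [Fintype ι] (f : ι → ℝ) (hf : ∀ i, 0 ≤ f i) :
    ∏ i, (1 + f i) ≤ Real.exp (∑ i, f i) := by
  rw [Real.exp_sum]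
  refine Finset.prod_le_prod (fun i _ => by linarith [hf i]) (fun i _ => ?_)
  rw [add_comm]
  exact Real.add_one_le_exp _

section
variable {S : Finset ℕ} {k : ℕ}

theorem sum_prod (f : {p // p ∈ S} → Option (Fin k) → ℝ) :
    ∑ u : Co S k, ∏ p, f p (u p) = ∏ p, ∑ c, f p c := by
  rw [Finset.prod_univ_sum, Fintype.piFinset_univ]

/-- the local sum -/
theorem loc (p : ℝ) (c : Option (Fin k)) :
    ∑ u, iloc p c u = if c = none then 1 + (k : ℝ) * (1 / (p * (p - 2))) else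
      (p - 1) ^ 2 / (p * (p - 2)) := by
  rw [Fintype.sum_option]
  unfold iloc
  cases c with
  | none =>
    simp
  | some j =>
    simp

end

end BSTl

open BSTl in
theorem prf_BST (hC : C_CONVB) : C_BST := by
  intro k
  refine ⟨Real.exp (k + 1), (Real.exp_pos _).le, ?_⟩
  intro ε hε
  -- choice of D1
  obtain ⟨N, hN⟩ : ∃ N : ℕ, 1 ≤ N ∧ Real.exp ((k : ℝ) * (1 / (N : ℝ))) - 1 ≤ ε := by
    have h1 : Tendsto (fun N : ℕ => Real.exp ((k : ℝ) * (1 / (N : ℝ))) - 1) atTop
        (𝓝 (Real.exp ((k : ℝ) * 0) - 1)) := by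
      refine Tendsto.sub_const ?_ _
      refine (Real.continuous_exp.tendsto _).comp ?_
      exact tendsto_one_div_atTop_nhds_zero_nat.const_mul _
    rw [mul_zero, Real.exp_zero, sub_self] at h1
    have h2 := (h1.eventually (gt_mem_nhds hε)).and (eventually_ge_atTop 1)
    obtain ⟨N, hN⟩ := h2.exists
    exact ⟨N, hN.2, hN.1.le⟩
  refine ⟨N + 1, ?_⟩
  intro D0 hD0 S hS y B hB r
  have hD2 : 2 ≤ D0 := by omega
  have hDr : (N : ℝ) + 1 ≤ D0 := by exact_mod_cast hD0
  have hN1 : (1 : ℝ) ≤ N := by exact_mod_cast hN.1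
  have hB0 : 0 ≤ B := (abs_nonneg _).trans (hB r)
  have hp : ∀ p : {p // p ∈ S}, (3 : ℝ) ≤ ((p : ℕ) : ℝ) := by
    intro p
    have := (hS p p.2).2
    exact_mod_cast (by omega : 3 ≤ (p : ℕ))
  rw [hC S k (fun p h => by have := (hS p h).2; omega) y r]
  let a : {p // p ∈ S} → ℝ := fun p => 1 / (((p : ℕ) : ℝ) * (((p : ℕ) : ℝ) - 2))
  have ha0 : ∀ p, 0 ≤ a p := by
    intro p
    have := hp p
    exact div_nonneg zero_le_one (mul_nonneg (by linarith) (by linarith))
  have hsum : ∑ p, a p ≤ 1 / ((D0 : ℝ) - 1) := sum_le D0 hD2 S (fun p h => (hS p h).2)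
  have hsum1 : ∑ p, a p ≤ 1 := by
    refine hsum.trans ?_
    rw [div_le_one (by linarith)]
    linarith
  have hsumN : ∑ p, a p ≤ 1 / (N : ℝ) := by
    refine hsum.trans ?_
    exact one_div_le_one_div_of_le (by linarith) (by linarith)
  have hX : ∀ p : {p // p ∈ S}, (((p : ℕ) : ℝ) - 1) ^ 2 / (((p : ℕ) : ℝ) * (((p : ℕ) : ℝ) - 2)) =
      1 + a p := by
    intro p
    have := hp p
    have b1 : ((p : ℕ) : ℝ) ≠ 0 := by linarith
    have b2 : ((p : ℕ) : ℝ) - 2 ≠ 0 := by linarith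
    change _ = 1 + 1 / (((p : ℕ) : ℝ) * (((p : ℕ) : ℝ) - 2))
    field_simp
    ring
  have hil : ∀ (p : {p // p ∈ S}) (c u : Option (Fin k)), 0 ≤ iloc ((p : ℕ) : ℝ) c u := by
    intro p c u
    have := ha0 p
    unfold iloc
    split_ifs
    · exact zero_le_one
    · exact this
    · rw [hX]
      linarith
    · exact le_rfl
  let w : Co S k → ℝ := fun u => ∏ p : {p // p ∈ S}, iloc ((p : ℕ) : ℝ) (r p) (u p)
  have hw0 : ∀ u, 0 ≤ w u := fun u => Finset.prod_nonneg fun p _ => hil p _ _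
  let M : ℝ := ∏ p : {p // p ∈ S}, (if r p = none then 1 else 1 + a p)
  have hwr : w r = M := by
    refine Finset.prod_congr rfl fun p _ => ?_
    by_cases h : r p = none
    · rw [iloc, if_pos h, if_pos h, if_pos h]
    · rw [iloc, if_neg h, if_pos rfl, if_neg h]
      exact hX p
  let T : ℝ := ∑ u, w u
  have hT : T = ∏ p : {p // p ∈ S}, (if r p = none then 1 + (k : ℝ) * a p else 1 + a p) := by
    change ∑ u : Co S k, ∏ p : {p // p ∈ S}, iloc ((p : ℕ) : ℝ) (r p) (u p) = _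
    rw [sum_prod (fun p c => iloc ((p : ℕ) : ℝ) (r p) c)]
    refine Finset.prod_congr rfl fun p _ => ?_
    rw [loc, hX]
  have hE : ∏ p : {p // p ∈ S}, (1 + (k : ℝ) * a p) ≤ Real.exp ((k : ℝ) * ∑ p, a p) := by
    rw [Finset.mul_sum]
    exact prod_le_exp _ fun p => mul_nonneg (Nat.cast_nonneg k) (ha0 p)
  have hM1 : 1 ≤ M := by
    refine Finset.one_le_prod fun p _ => ?_
    split_ifs
    · exact le_rfl
    · linarith [ha0 p]
  have hMe : M ≤ Real.exp 1 := by
    calc M ≤ ∏ p : {p // p ∈ S}, (1 + a p) := by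
          refine Finset.prod_le_prod (fun p _ => ?_) fun p _ => ?_
          · split_ifs
            · exact zero_le_one
            · linarith [ha0 p]
          · split_ifs
            · linarith [ha0 p]
            · exact le_rfl
      _ ≤ Real.exp (∑ p, a p) := prod_le_exp _ ha0
      _ ≤ Real.exp 1 := Real.exp_le_exp.2 hsum1
  have hTM : T ≤ M * ∏ p : {p // p ∈ S}, (1 + (k : ℝ) * a p) := by
    rw [hT, ← Finset.prod_mul_distrib]
    refine Finset.prod_le_prod (fun p _ => ?_) fun p _ => ?_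
    · have := mul_nonneg (Nat.cast_nonneg (α := ℝ) k) (ha0 p)
      split_ifs
      · linarith
      · linarith [ha0 p]
    · have := mul_nonneg (Nat.cast_nonneg (α := ℝ) k) (ha0 p)
      split_ifs
      · linarith
      · nlinarith [ha0 p]
  have hTC : T ≤ Real.exp (k + 1) := by
    refine hTM.trans ?_
    rw [add_comm, Real.exp_add]
    refine mul_le_mul hMe (hE.trans (Real.exp_le_exp.2 ?_)) ?_ (Real.exp_pos _).le
    · nlinarith [Nat.cast_nonneg (α := ℝ) k]
    · exact Finset.prod_nonneg fun p _ => by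
        have := mul_nonneg (Nat.cast_nonneg (α := ℝ) k) (ha0 p)
        linarith
  have hTM2 : T - M ≤ Real.exp (k + 1) * ε := by
    have e1 : ∏ p : {p // p ∈ S}, (1 + (k : ℝ) * a p) ≤ 1 + ε := by
      refine hE.trans ((Real.exp_le_exp.2 ?_).trans (by linarith [hN.2] :
        Real.exp ((k : ℝ) * (1 / (N : ℝ))) ≤ 1 + ε))
      exact mul_le_mul_of_nonneg_left hsumN (Nat.cast_nonneg k)
    have e2 : T ≤ M * (1 + ε) := hTM.trans (mul_le_mul_of_nonneg_left e1 (by linarith))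
    have e3 : M ≤ Real.exp (k + 1) := hMe.trans (Real.exp_le_exp.2 (by
      linarith [Nat.cast_nonneg (α := ℝ) k]))
    nlinarith
  have hsplit : T = w r + ∑ u ∈ univ.erase r, w u := by
    rw [Finset.add_sum_erase _ _ (Finset.mem_univ r)]
  have hsplit2 : ∑ u, y u * w u = y r * w r + ∑ u ∈ univ.erase r, y u * w u := by
    rw [Finset.add_sum_erase _ (fun u => y u * w u) (Finset.mem_univ r)]
  have hoth : |∑ u ∈ univ.erase r, y u * w u| ≤ B * (T - M) := by
    refine (Finset.abs_sum_le_sum_abs _ _).trans ?_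
    rw [hsplit, hwr, add_sub_cancel_left, Finset.mul_sum]
    refine Finset.sum_le_sum fun u _ => ?_
    rw [abs_mul, abs_of_nonneg (hw0 u)]
    exact mul_le_mul_of_nonneg_right (hB u) (hw0 u)
  have hMm : M ≤ mw (fun p => 1 + Real.exp (k + 1) / ((p : ℝ) - 2)) r := by
    unfold mw
    refine Finset.prod_le_prod (fun p _ => ?_) fun p _ => ?_
    · split_ifs
      · exact zero_le_one
      · linarith [ha0 p]
    · split_ifs
      · exact le_rfl
      · have h3 := hp p
        have : a p ≤ Real.exp (k + 1) / (((p : ℕ) : ℝ) - 2) := by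
          change 1 / (((p : ℕ) : ℝ) * (((p : ℕ) : ℝ) - 2)) ≤ _
          rw [div_le_div_iff₀ (mul_pos (by linarith) (by linarith)) (by linarith)]
          have h4 : 1 ≤ Real.exp (k + 1) := Real.one_le_exp (by positivity)
          nlinarith [mul_nonneg (by linarith : (0 : ℝ) ≤ ((p : ℕ) : ℝ) - 1)
            (by linarith : (0 : ℝ) ≤ ((p : ℕ) : ℝ) - 2), mul_nonneg (by linarith : (0 : ℝ) ≤
            Real.exp (k + 1) - 1) (mul_nonneg (by linarith : (0 : ℝ) ≤ ((p : ℕ) : ℝ))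
            (by linarith : (0 : ℝ) ≤ ((p : ℕ) : ℝ) - 2))]
        linarith
  constructor
  · calc |∑ u, y u * w u| ≤ ∑ u, |y u * w u| := Finset.abs_sum_le_sum_abs _ _
      _ ≤ ∑ u, B * w u := by
          refine Finset.sum_le_sum fun u _ => ?_
          rw [abs_mul, abs_of_nonneg (hw0 u)]
          exact mul_le_mul_of_nonneg_right (hB u) (hw0 u)
      _ = B * T := by rw [← Finset.mul_sum]
      _ ≤ Real.exp (k + 1) * B := by
          rw [mul_comm]
          exact mul_le_mul_of_nonneg_right hTC hB0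
  · change |∑ u, y u * w u - y r| ≤ _
    rw [hsplit2, hwr]
    have e1 : y r * M + ∑ u ∈ univ.erase r, y u * w u - y r =
        y r * (M - 1) + ∑ u ∈ univ.erase r, y u * w u := by ring
    rw [e1]
    refine (abs_add_le _ _).trans ?_
    rw [abs_mul, abs_of_nonneg (by linarith : 0 ≤ M - 1)]
    have h1 : |y r| * (M - 1) ≤ B * (M - 1) := mul_le_mul_of_nonneg_right (hB r) (by linarith)
    have h2 : B * (T - M) ≤ B * (Real.exp (k + 1) * ε) := mul_le_mul_of_nonneg_left hTM2 hB0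
    have h4 : 1 ≤ Real.exp (k + 1) := Real.one_le_exp (by positivity)
    have h5 : B * (M - 1) ≤ Real.exp (k + 1) * B *
        (mw (fun p => 1 + Real.exp (k + 1) / ((p : ℝ) - 2)) r - 1) := by
      have h6 : B * (M - 1) ≤ B * (mw (fun p => 1 + Real.exp (k + 1) / ((p : ℝ) - 2)) r - 1) :=
        mul_le_mul_of_nonneg_left (by linarith) hB0
      refine h6.trans ?_
      have h7 : 0 ≤ B * (mw (fun p => 1 + Real.exp (k + 1) / ((p : ℝ) - 2)) r - 1) :=
        mul_nonneg hB0 (by linarith)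
      nlinarith
    calc |y r| * (M - 1) + |∑ u ∈ univ.erase r, y u * w u|
        ≤ Real.exp (k + 1) * B * (mw (fun p => 1 + Real.exp (k + 1) / ((p : ℝ) - 2)) r - 1) +
          B * (Real.exp (k + 1) * ε) := add_le_add (h1.trans h5) (hoth.trans h2)
      _ = Real.exp (k + 1) * B * (ε +
          (mw (fun p => 1 + Real.exp (k + 1) / ((p : ℝ) - 2)) r - 1)) := by ring

end MPb51559.BG
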