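import Pool.Agent.Work.MP_b51559_nt.BG.C.Stmts

set_option autoImplicit false

/-!
# Part C, item BVS (helper35): Bombieri Vinogradov for the worst residue class
-/

namespace MPb51559.BG

open Finset Filter Topology MeasureTheory
open scoped Classical

theorem prf_BVS (h : BVE) : C_BVS := by
  intro w hw δ hδ c A
  obtain ⟨x0, hx0⟩ := h w hw δ hδ c A
  refine ⟨x0, fun x hx => ?_⟩
  have hex : ∀ q : ℕ, ∃ a : ℕ, (if a.Coprime q then
      |thW w x q a - thW w x 1 0 / (q.totient : ℝ)| else 0) = Eq1 w x q := by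
    intro q
    obtain ⟨i, hi⟩ := exists_eq_ciSup_of_finite (f := fun a : Fin (q + 1) =>
      if (a : ℕ).Coprime q then |thW w x q a - thW w x 1 0 / (q.totient : ℝ)| else 0)
    exact ⟨i, hi⟩
  choose a ha using hex
  refine le_trans (le_of_eq ?_) (hx0 x hx a)
  rw [Finset.sum_filter]
  apply Finset.sum_congr rfl
  intro q _
  rw [← ha q]
  split_ifs
  · rfl
  · rw [mul_zero]

end MPb51559.BG
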