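import Pool.Agent.Work.MP_b51559_nt.BG.C.Stmts

set_option autoImplicit false

/-!
# Part C, item CONVB: conversion from `aF` to `aP`
-/

namespace MPb51559.BG

open Finset Filter Topology MeasureTheory
open scoped Classical

section
variable {S : Finset ℕ} {k : ℕ}

/-- sums over colourings of products of local terms -/
theorem CONVB_core (g : {p // p ∈ S} → Option (Fin k) → ℝ) :
    ∑ d : Co S k, ∏ p, g p (d p) = ∏ p, ∑ c, g p c := by
  rw [Finset.prod_univ_sum, Fintype.piFinset_univ]

/-- the indicator of `Le` is a product -/
theorem CONVB_ind (r d : Co S k) :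
    (∏ p : {p // p ∈ S}, if r p = none ∨ r p = d p then (1 : ℝ) else 0) =
      if Le r d then 1 else 0 := by
  by_cases h : Le r d
  · rw [if_pos h]
    exact Finset.prod_eq_one fun p _ => if_pos (h p)
  · rw [if_neg h]
    unfold Le at h
    push Not at h
    obtain ⟨p, hp1, hp2⟩ := h
    refine Finset.prod_eq_zero (Finset.mem_univ p) (if_neg ?_)
    rintro (h | h)
    · exact hp1 h
    · exact hp2 h

/-- the local term -/
noncomputable def CONVB_loc (p : ℝ) (ρ υ c : Option (Fin k)) : ℝ :=
  (if ρ = none ∨ ρ = c then 1 else 0) * (if c = none ∨ c = υ then 1 else 0) *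
    (if ρ = none then 1 else -1) * (if ρ = none then 1 else p - 1) *
    (if c = none then 1 else -1) * (if c = none then 1 else p - 1) /
    (if υ = none then 1 else p - 1 - 1) / (if c = none then 1 else p)

/-- the local sum -/
theorem CONVB_sum (p : ℝ) (hp : 2 < p) (ρ υ : Option (Fin k)) :
    ∑ c, CONVB_loc p ρ υ c = iloc p ρ υ := by
  have h0 : p ≠ 0 := by linarith
  have h1 : p - 1 - 1 ≠ 0 := by
    have : 0 < p - 1 - 1 := by linarith
    exact this.ne'
  have h2 : p - 2 ≠ 0 := by
    have : 0 < p - 2 := by linarith
    exact this.ne'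
  rw [Fintype.sum_option]
  rcases ρ with _ | i
  · rcases υ with _ | j
    · simp [CONVB_loc, iloc]
    · have h3 : ∀ i : Fin k, CONVB_loc p none (some j) (some i) =
          if i = j then -(p - 1) / (p - 1 - 1) / p else 0 := by
        intro i
        by_cases h : i = j
        · subst h
          simp [CONVB_loc]
        · simp [CONVB_loc, h]
      rw [Finset.sum_congr rfl (fun i _ => h3 i), Finset.sum_ite_eq' Finset.univ j,
        if_pos (Finset.mem_univ j)]
      simp only [CONVB_loc, iloc, true_or, if_true, reduceCtorEq, if_false]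
      field_simp
      ring
  · rcases υ with _ | j
    · simp [CONVB_loc, iloc]
    · have h3 : ∀ l : Fin k, CONVB_loc p (some i) (some j) (some l) =
          if l = j then (if i = j then (p - 1) * (p - 1) / (p - 1 - 1) / p else 0) else 0 := by
        intro l
        by_cases h : l = j
        · subst h
          by_cases h' : i = l
          · subst h'
            simp [CONVB_loc]
          · simp [CONVB_loc, h']
        · simp [CONVB_loc, h]
      rw [Finset.sum_congr rfl (fun i _ => h3 i), Finset.sum_ite_eq' Finset.univ j,
        if_pos (Finset.mem_univ j)]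
      by_cases h : i = j
      · subst h
        simp only [CONVB_loc, iloc, if_true, reduceCtorEq, if_false, or_self]
        have h4 : p - 1 - 1 = p - 2 := by ring
        rw [h4]
        field_simp
        ring
      · simp [CONVB_loc, iloc, h]

end

theorem prf_CONVB : C_CONVB := by
  intro S k hS y r
  have key : ∀ u : Co S k, (∏ p : {p // p ∈ S}, iloc (p : ℝ) (r p) (u p)) =
      ∑ d : Co S k, ∏ p : {p // p ∈ S}, CONVB_loc (p : ℝ) (r p) (u p) (d p) := by
    intro u
    rw [CONVB_core (fun p c => CONVB_loc (p : ℝ) (r p) (u p) c)]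
    refine Finset.prod_congr rfl fun p _ => (CONVB_sum _ ?_ _ _).symm
    exact_mod_cast hS p p.2
  have hloc : ∀ u d : Co S k, ∏ p : {p // p ∈ S}, CONVB_loc (p : ℝ) (r p) (u p) (d p) =
      (if Le r d then 1 else 0) * (if Le d u then 1 else 0) * mw (fun _ => -1) r *
        mw (fun p => aP p - 1) r * mw (fun _ => -1) d * mw aF d / mw (fun p => aF p - 1) u /
          mw aP d := by
    intro u d
    unfold CONVB_loc
    simp only [Finset.prod_div_distrib, Finset.prod_mul_distrib]
    rw [CONVB_ind r d, CONVB_ind d u]
    rfl
  unfold ytr lam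
  rw [Finset.sum_filter, Finset.mul_sum]
  simp only [key, hloc, Finset.mul_sum]
  rw [Finset.sum_comm]
  refine Finset.sum_congr rfl fun d _ => ?_
  by_cases h : Le r d
  · rw [if_pos h, Finset.sum_filter, Finset.sum_div, Finset.mul_sum]
    refine Finset.sum_congr rfl fun u _ => ?_
    by_cases h' : Le d u
    · simp only [if_pos h, if_pos h']
      ring
    · simp only [if_pos h, if_neg h']
      ring
  · simp only [if_neg h, zero_mul, mul_zero, zero_div, Finset.sum_const_zero]

end MPb51559.BG
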