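import Pool.Agent.Work.MP_b51559_nt.BG.C.Stmts

set_option autoImplicit false

/-!
# Part C, item CRT
-/

namespace MPb51559.BG

open Finset Filter Topology MeasureTheory
open scoped Classical

theorem CRT_all {ι : Type} [Fintype ι] (s : ι → ℕ)
    (hco : ∀ i j, i ≠ j → (s i).Coprime (s j)) (n a : ℕ) :
    n ≡ a [MOD ∏ i, s i] ↔ ∀ i, n ≡ a [MOD s i] := by
  constructor
  · intro h i
    exact h.of_dvd (Finset.dvd_prod_of_mem s (Finset.mem_univ i))
  · intro h
    rw [Nat.modEq_iff_dvd]
    push_cast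
    apply Finset.prod_dvd_of_coprime
    · intro i _ j _ hij
      exact (Nat.isCoprime_iff_coprime).2 (hco i j hij)
    · intro i _
      exact (Nat.modEq_iff_dvd).1 (h i)

theorem prf_CRT : C_CRT := by
  intro D0 S k h hS hh hinj v0 hv0 u
  -- the moduli
  have hpr : ∀ p : {p // p ∈ S}, (p : ℕ).Prime := fun p => (hS p p.2).1
  have hD : ∀ p : {p // p ∈ S}, D0 < (p : ℕ) := fun p => (hS p p.2).2
  obtain ⟨s, hs⟩ : ∃ s : {p // p ∈ S} → ℕ, ∀ p, s p = if u p = none then 1 else (p : ℕ) :=
    ⟨_, fun _ => rfl⟩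
  have hnrm : nrm u = ∏ p, s p := by
    unfold nrm
    exact Finset.prod_congr rfl fun p _ => (hs p).symm
  have hco : ∀ p q, p ≠ q → (s p).Coprime (s q) := by
    intro p q hpq
    rw [hs, hs]
    split_ifs
    · exact Nat.coprime_one_left _
    · exact Nat.coprime_one_left _
    · exact Nat.coprime_one_right _
    · exact (Nat.coprime_primes (hpr p) (hpr q)).2 fun h => hpq (Subtype.ext h)
  have hs0 : ∀ p, s p ≠ 0 := by
    intro p
    rw [hs]
    split_ifs
    · exact one_ne_zero
    · exact (hpr p).ne_zero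
  -- the residues
  obtain ⟨b, hb⟩ : ∃ b : {p // p ∈ S} → ℕ, ∀ p i, u p = some i → b p = ((p : ℕ) - 1) * h i := by
    refine ⟨fun p => match u p with | none => 0 | some i => ((p : ℕ) - 1) * h i, ?_⟩
    intro p i hi
    simp only [hi]
  obtain ⟨a1, ha1⟩ := Nat.chineseRemainderOfFinset b s Finset.univ (fun i _ => hs0 i)
    (fun p _ q _ hpq => hco p q hpq)
  have hcop : (primorial D0).Coprime (nrm u) := by
    rw [hnrm]
    apply Nat.Coprime.prod_right
    intro p _
    rw [hs]
    split_ifs
    · exact Nat.coprime_one_right _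
    · rw [Nat.coprime_comm, (hpr p).coprime_iff_not_dvd, (hpr p).dvd_primorial_iff]
      exact not_le.2 (hD p)
  obtain ⟨a, ha, ha'⟩ := Nat.chineseRemainder hcop v0 a1
  have hres : ∀ (n : ℕ) (p : {p // p ∈ S}) (i : Fin k), u p = some i →
      (n ≡ b p [MOD s p] ↔ (p : ℕ) ∣ n + h i) := by
    intro n p i hi
    have h1 : s p = p := by
      rw [hs, if_neg]
      rw [hi]
      exact Option.some_ne_none i
    have h2 : b p + h i = p * h i := by
      rw [hb p i hi]
      have h3 := (hpr p).one_lt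
      obtain ⟨t, ht⟩ : ∃ t, (p : ℕ) = t + 1 := ⟨(p : ℕ) - 1, by omega⟩
      rw [ht, Nat.add_sub_cancel]
      ring
    rw [h1]
    constructor
    · intro h3
      have h4 : n + h i ≡ b p + h i [MOD (p : ℕ)] := h3.add_right _
      rw [h2] at h4
      exact (Nat.modEq_zero_iff_dvd).1 (h4.trans ((Nat.modEq_zero_iff_dvd).2 (dvd_mul_right _ _)))
    · intro h3
      have h4 : n + h i ≡ b p + h i [MOD (p : ℕ)] := by
        rw [h2]
        exact ((Nat.modEq_zero_iff_dvd).2 h3).trans
          ((Nat.modEq_zero_iff_dvd).2 (dvd_mul_right _ _)).symm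
      exact Nat.ModEq.add_right_cancel' _ h4
  have hAdh : ∀ n : ℕ, Adh h u n ↔ n ≡ a1 [MOD nrm u] := by
    intro n
    rw [hnrm, CRT_all s hco]
    constructor
    · intro hn p
      rcases hu : u p with _ | i
      · rw [hs, if_pos hu]
        exact Nat.modEq_one
      · exact ((hres n p i hu).2 (hn p i hu)).trans (ha1 p (Finset.mem_univ p)).symm
    · intro hn p i hu
      exact (hres n p i hu).1 ((hn p).trans (ha1 p (Finset.mem_univ p)))
  have hiff : ∀ n : ℕ, (n ≡ v0 [MOD primorial D0] ∧ Adh h u n) ↔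
      n ≡ a [MOD primorial D0 * nrm u] := by
    intro n
    rw [← Nat.modEq_and_modEq_iff_modEq_mul hcop, hAdh]
    constructor
    · rintro ⟨h1, h2⟩
      exact ⟨h1.trans ha.symm, h2.trans ha'.symm⟩
    · rintro ⟨h1, h2⟩
      exact ⟨h1.trans ha, h2.trans ha'⟩
  refine ⟨a, hiff, ?_⟩
  intro m hm
  obtain ⟨h1, h2⟩ := (hiff a).2 (Nat.ModEq.refl a)
  apply Nat.Coprime.mul_right
  · have h3 : a + h m ≡ v0 + h m [MOD primorial D0] := h1.add_right _
    have h4 := hv0 m
    rw [Nat.coprime_iff_gcd_eq_one] at h4 ⊢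
    rw [h3.gcd_eq, h4]
  · rw [hnrm]
    apply Nat.Coprime.prod_right
    intro p _
    rw [hs]
    split_ifs with hu
    · exact Nat.coprime_one_right _
    · rw [Nat.coprime_comm, (hpr p).coprime_iff_not_dvd]
      intro hdvd
      obtain ⟨i, hi⟩ := Option.ne_none_iff_exists'.1 hu
      have h3 := h2 p i hi
      have hne : h i ≠ h m := by
        intro he
        have := hinj he
        rw [this] at hi
        exact hm p hi
      have h5 := hh i
      have h6 := hh m
      have h7 := hD p
      rcases lt_or_gt_of_ne hne with hlt | hgt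
      · have h8 : (p : ℕ) ∣ (a + h m) - (a + h i) := Nat.dvd_sub hdvd h3
        have h9 := Nat.le_of_dvd (by omega) h8
        omega
      · have h8 : (p : ℕ) ∣ (a + h i) - (a + h m) := Nat.dvd_sub h3 hdvd
        have h9 := Nat.le_of_dvd (by omega) h8
        omega

end MPb51559.BG
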