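import Pool.Agent.Work.MP_b51559_nt.BG.C.Stmts

set_option autoImplicit false

/-!
# Item CVA
-/

namespace MPb51559.BG

open Finset Filter Topology MeasureTheory
open scoped Classical

namespace CVA

variable {S : Finset ℕ} {k : ℕ}

/-- the part of colour `m` outside of `r` -/
noncomputable def pa (m : Fin k) (r u : Co S k) : Co S k :=
  fun p => if r p = none ∧ u p = some m then some m else none

/-- the part of the other colours outside of `r` -/
noncomputable def pb (m : Fin k) (r u : Co S k) : Co S k :=
  fun p => if r p = none ∧ u p ≠ some m then u p else none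

theorem sum_mw (f : ℕ → ℝ) :
    ∑ b : Co S k, mw f b = ∏ p : {p // p ∈ S}, (1 + (k : ℝ) * f p) := by
  have h1 : ∀ p : {p // p ∈ S}, (1 + (k : ℝ) * f p) =
      ∑ o : Option (Fin k), (if o = none then 1 else f p) := by
    intro p
    rw [Fintype.sum_option]
    simp
  rw [Finset.prod_congr rfl (fun p _ => h1 p), Finset.prod_univ_sum, Fintype.piFinset_univ]
  rfl

theorem mw_none (f : ℕ → ℝ) : mw f (fun _ => none : Co S k) = 1 := by
  simp [mw]

theorem mw_nonneg (f : ℕ → ℝ) (hf : ∀ p ∈ S, 0 ≤ f p) (r : Co S k) : 0 ≤ mw f r := by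
  unfold mw
  refine Finset.prod_nonneg fun p _ => ?_
  split_ifs
  · exact zero_le_one
  · exact hf p p.2

/-- main terms -/
theorem main_term (hS : ∀ p ∈ S, p.Prime ∧ 2 < p) (m : Fin k) (r u : Co S k) (hr : NoC m r)
    (hu : dl m u = r) :
    ∏ p : {p // p ∈ S}, kloc m (p : ℝ) (r p) (u p) =
      mw (fun p => 1 - 1 / ((p : ℝ) - 1) ^ 2) r * (mw aF r / mw aF u) := by
  unfold mw
  rw [← Finset.prod_div_distrib, ← Finset.prod_mul_distrib]
  refine Finset.prod_congr rfl fun p _ => ?_
  have hp : (2 : ℝ) < (p : ℝ) := by exact_mod_cast (hS p p.2).2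
  have hp1 : (p : ℝ) - 1 ≠ 0 := by linarith
  have hup : dl m u p = r p := congrFun hu p
  have hrp : r p ≠ some m := hr p
  unfold dl at hup
  unfold kloc aF
  by_cases h1 : u p = some m
  · rw [if_pos h1] at hup
    rw [← hup, h1]
    simp
  · rw [if_neg h1] at hup
    rw [← hup]
    by_cases h2 : u p = none
    · rw [h2]
      simp
    · have h3 : u p ≠ some m := h1
      simp only [h2, h3, if_false, ne_eq, not_false_eq_true, and_self, if_true]
      field_simp

/-- the other terms -/
theorem rest_term (hS : ∀ p ∈ S, p.Prime ∧ 2 < p) (m : Fin k) (r u : Co S k) :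
    |∏ p : {p // p ∈ S}, kloc m (p : ℝ) (r p) (u p)| ≤
      1 / mw aF (pa m r u) * mw (fun p => 1 / ((p : ℝ) - 1) ^ 2) (pb m r u) := by
  unfold mw
  rw [one_div, ← Finset.prod_inv_distrib, ← Finset.prod_mul_distrib, Finset.abs_prod]
  refine Finset.prod_le_prod (fun p _ => abs_nonneg _) fun p _ => ?_
  have hp : (2 : ℝ) < (p : ℝ) := by exact_mod_cast (hS p p.2).2
  have hp1 : 1 < (p : ℝ) - 1 := by linarith
  have hp2 : 0 < (p : ℝ) - 1 := by linarith
  have hsq : 0 < ((p : ℝ) - 1) ^ 2 := by positivity
  have hq1 : 1 / ((p : ℝ) - 1) ^ 2 ≤ 1 := by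
    rw [div_le_one hsq]
    nlinarith
  have hq0 : 0 ≤ 1 / ((p : ℝ) - 1) ^ 2 := by positivity
  unfold kloc pa pb aF
  by_cases h1 : r p = none
  · by_cases h2 : u p = none
    · simp [h1, h2]
    · by_cases h3 : u p = some m
      · simp only [h1, h3, if_true, and_self, reduceCtorEq, if_false, ne_eq, not_true_eq_false,
          and_false, mul_one]
        rw [abs_of_pos (by positivity), one_div]
      · simp only [h1, h2, h3, if_true, and_false, if_false, ne_eq, not_false_eq_true, and_self,
          inv_one, one_mul]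
        rw [neg_div, abs_neg, abs_of_nonneg hq0]
  · simp only [h1, if_false, false_and, if_true, inv_one, mul_one]
    split_ifs
    · rw [abs_le]
      constructor <;> linarith
    · simp

/-- the vanishing terms -/
theorem zero_term (m : Fin k) (r u : Co S k) (h : ∃ p, r p ≠ none ∧ u p ≠ r p) :
    ∏ p : {p // p ∈ S}, kloc m (p : ℝ) (r p) (u p) = 0 := by
  obtain ⟨p, h1, h2⟩ := h
  refine Finset.prod_eq_zero (Finset.mem_univ p) ?_
  unfold kloc
  rw [if_neg h1, if_neg]
  intro h3
  exact h2 h3.1.symm

theorem pa_le (m : Fin k) (r u : Co S k) : Le (pa m r u) u := by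
  intro p
  unfold pa
  by_cases h : r p = none ∧ u p = some m
  · right
    rw [if_pos h, h.2]
  · left
    rw [if_neg h]

end CVA

open CVA in
theorem prf_CVA (hBAS : C_BAS) : C_CVA := by
  intro S k hS m y M N r hr hM hy hN
  have hSp : ∀ p ∈ S, p.Prime := fun p hp => (hS p hp).1
  set K : Co S k → ℝ := fun u => ∏ p : {p // p ∈ S}, kloc m (p : ℝ) (r p) (u p) with hK
  set c : ℝ := mw (fun p => 1 - 1 / ((p : ℝ) - 1) ^ 2) r with hc
  -- difference
  have h1 : ∑ u, y u * K u - c * ∑ u ∈ univ.filter (fun u : Co S k => dl m u = r),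
      y u * (mw aF r / mw aF u) = ∑ u ∈ univ.filter (fun u : Co S k => ¬ dl m u = r), y u * K u := by
    rw [← Finset.sum_filter_add_sum_filter_not univ (fun u : Co S k => dl m u = r)
      (fun u => y u * K u), Finset.mul_sum]
    have h2 : ∑ u ∈ univ.filter (fun u : Co S k => dl m u = r), y u * K u =
        ∑ u ∈ univ.filter (fun u : Co S k => dl m u = r), c * (y u * (mw aF r / mw aF u)) := by
      refine Finset.sum_congr rfl fun u hu => ?_
      have h3 : K u = c * (mw aF r / mw aF u) :=
        main_term hS m r u hr (Finset.mem_filter.1 hu).2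
      rw [h3]
      ring
    rw [h2]
    ring
  rw [h1]
  -- the set of relevant colourings
  set U : Finset (Co S k) := univ.filter (fun u : Co S k => (∀ p, r p ≠ none → u p = r p) ∧
    ¬ dl m u = r ∧ (nrm u : ℝ) ≤ N) with hU
  set G : Co S k → ℝ := fun u => 1 / mw aF (pa m r u) *
    mw (fun p => 1 / ((p : ℝ) - 1) ^ 2) (pb m r u) with hG
  have hG0 : ∀ u, 0 ≤ G u := by
    intro u
    refine mul_nonneg (one_div_nonneg.2 (mw_nonneg _ ?_ _)) (mw_nonneg _ ?_ _)
    · intro p hp
      have : (2 : ℝ) < (p : ℝ) := by exact_mod_cast (hS p hp).2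
      unfold aF
      linarith
    · intro p hp
      positivity
  have h4 : |∑ u ∈ univ.filter (fun u : Co S k => ¬ dl m u = r), y u * K u| ≤
      M * ∑ u ∈ U, G u := by
    calc |∑ u ∈ univ.filter (fun u : Co S k => ¬ dl m u = r), y u * K u|
        ≤ ∑ u ∈ univ.filter (fun u : Co S k => ¬ dl m u = r), |y u * K u| :=
          Finset.abs_sum_le_sum_abs _ _
      _ ≤ ∑ u ∈ univ.filter (fun u : Co S k => ¬ dl m u = r), (if u ∈ U then M * G u else 0) := by
          refine Finset.sum_le_sum fun u hu => ?_
          have hu' := (Finset.mem_filter.1 hu).2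
          by_cases hy0 : y u = 0
          · rw [hy0, zero_mul, abs_zero]
            split_ifs
            · exact mul_nonneg hM (hG0 u)
            · exact le_refl _
          · by_cases hext : ∀ p, r p ≠ none → u p = r p
            · have huU : u ∈ U := by
                rw [hU, Finset.mem_filter]
                exact ⟨Finset.mem_univ _, hext, hu', hN u hy0⟩
              rw [if_pos huU, abs_mul]
              exact mul_le_mul (hy u) (rest_term hS m r u) (abs_nonneg _) hM
            · have h0 : K u = 0 := by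
                push Not at hext
                obtain ⟨p, hp1, hp2⟩ := hext
                exact zero_term m r u ⟨p, hp1, hp2⟩
              rw [h0, mul_zero, abs_zero]
              split_ifs
              · exact mul_nonneg hM (hG0 u)
              · exact le_refl _
      _ ≤ ∑ u, (if u ∈ U then M * G u else 0) := by
          refine Finset.sum_le_sum_of_subset_of_nonneg (Finset.filter_subset _ _) fun u _ _ => ?_
          split_ifs
          · exact mul_nonneg hM (hG0 u)
          · exact le_refl _
      _ = M * ∑ u ∈ U, G u := by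
          rw [Finset.mul_sum, Finset.sum_ite_mem, Finset.univ_inter]
  -- injection
  set Φ : Co S k → ℕ × Co S k := fun u => (nrm (pa m r u), pb m r u) with hΦ
  set F : ℕ × Co S k → ℝ := fun x => 1 / (x.1.totient : ℝ) *
    mw (fun p => 1 / ((p : ℝ) - 1) ^ 2) x.2 with hF
  have hGF : ∀ u, G u = F (Φ u) := by
    intro u
    rw [hG, hF, hΦ]
    simp only
    rw [(hBAS S k hSp (pa m r u)).2.2.2.2.1]
  have hinj : Set.InjOn Φ (U : Set (Co S k)) := by
    intro u hu v hv huv
    rw [Finset.mem_coe, hU, Finset.mem_filter] at hu hv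
    have e1 : nrm (pa m r u) = nrm (pa m r v) := congrArg Prod.fst huv
    have e2 : pb m r u = pb m r v := congrArg Prod.snd huv
    have key : ∀ p : {p // p ∈ S}, pa m r u p ≠ none ↔ pa m r v p ≠ none := by
      intro p
      have b1 := (hBAS S k hSp (pa m r u)).2.2.1 p (hSp p p.2)
      have b2 := (hBAS S k hSp (pa m r v)).2.2.1 p (hSp p p.2)
      rw [e1] at b1
      constructor
      · intro h
        obtain ⟨_, h'⟩ := b2.1 (b1.2 ⟨p.2, h⟩)
        exact h'
      · intro h
        obtain ⟨_, h'⟩ := b1.1 (b2.2 ⟨p.2, h⟩)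
        exact h'
    funext p
    by_cases hrp : r p = none
    · by_cases hup : u p = some m
      · have h5 : pa m r u p ≠ none := by
          unfold pa
          rw [if_pos ⟨hrp, hup⟩]
          simp
        have h6 := (key p).1 h5
        unfold pa at h6
        by_cases h7 : r p = none ∧ v p = some m
        · rw [hup, h7.2]
        · rw [if_neg h7] at h6
          exact absurd rfl h6
      · have h5 : ¬ v p = some m := by
          intro h6
          have h7 : pa m r v p ≠ none := by
            unfold pa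
            rw [if_pos ⟨hrp, h6⟩]
            simp
          have h8 := (key p).2 h7
          unfold pa at h8
          rw [if_neg (fun h => hup h.2)] at h8
          exact absurd rfl h8
        have h9 := congrFun e2 p
        unfold pb at h9
        rw [if_pos ⟨hrp, hup⟩, if_pos ⟨hrp, h5⟩] at h9
        exact h9
    · rw [hu.2.1 p hrp, hv.2.1 p hrp]
  have hmaps : ∀ u ∈ U, Φ u ∈ SqF S N ×ˢ (univ.erase (fun _ => none : Co S k)) := by
    intro u hu
    rw [hU, Finset.mem_filter] at hu
    obtain ⟨-, hext, hne, hnu⟩ := hu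
    have hb := hBAS S k hSp (pa m r u)
    have hbu := hBAS S k hSp u
    rw [Finset.mem_product]
    refine ⟨?_, ?_⟩
    · show nrm (pa m r u) ∈ SqF S N
      unfold SqF
      rw [Finset.mem_filter, Finset.mem_Icc]
      refine ⟨⟨hb.2.1, ?_⟩, hb.1, ?_⟩
      · refine Nat.le_floor ?_
        have h5 : nrm (pa m r u) ∣ nrm u :=
          hb.2.2.2.2.2.2.2.2.2.1 u (pa_le m r u)
        have h6 : nrm (pa m r u) ≤ nrm u := Nat.le_of_dvd hbu.2.1 h5
        exact le_trans (by exact_mod_cast h6) hnu
      · intro p hp hpd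
        obtain ⟨h, -⟩ := (hb.2.2.1 p hp).1 hpd
        exact h
    · show pb m r u ∈ univ.erase (fun _ => none : Co S k)
      rw [Finset.mem_erase]
      refine ⟨?_, Finset.mem_univ _⟩
      intro h5
      apply hne
      funext p
      unfold dl
      by_cases hrp : r p = none
      · by_cases hup : u p = some m
        · rw [if_pos hup, hrp]
        · have h6 := congrFun h5 p
          unfold pb at h6
          rw [if_pos ⟨hrp, hup⟩] at h6
          rw [if_neg hup, h6, hrp]
      · have h6 := hext p hrp
        have h7 : u p ≠ some m := by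
          rw [h6]
          exact hr p
        rw [if_neg h7, h6]
  have h5 : ∑ u ∈ U, G u ≤ ∑ x ∈ SqF S N ×ˢ (univ.erase (fun _ => none : Co S k)), F x := by
    calc ∑ u ∈ U, G u = ∑ u ∈ U, F (Φ u) := Finset.sum_congr rfl fun u _ => hGF u
      _ = ∑ x ∈ U.image Φ, F x := (Finset.sum_image hinj).symm
      _ ≤ _ := by
          refine Finset.sum_le_sum_of_subset_of_nonneg ?_ ?_
          · intro x hx
            obtain ⟨u, hu, rfl⟩ := Finset.mem_image.1 hx
            exact hmaps u hu
          · intro x _ _
            refine mul_nonneg (by positivity) (mw_nonneg _ ?_ _)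
            intro p hp
            positivity
  have h6 : ∑ x ∈ SqF S N ×ˢ (univ.erase (fun _ => none : Co S k)), F x =
      ((∏ p : {p // p ∈ S}, (1 + (k : ℝ) / ((p : ℝ) - 1) ^ 2)) - 1) * Hs S N := by
    have h7 : ∑ b ∈ univ.erase (fun _ => none : Co S k), mw (fun p => 1 / ((p : ℝ) - 1) ^ 2) b =
        (∏ p : {p // p ∈ S}, (1 + (k : ℝ) / ((p : ℝ) - 1) ^ 2)) - 1 := by
      have h8 := Finset.add_sum_erase univ (fun b : Co S k => mw (fun p => 1 / ((p : ℝ) - 1) ^ 2) b)
        (Finset.mem_univ (fun _ => none : Co S k))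
      rw [sum_mw] at h8
      simp only [mw_none] at h8
      have h9 : ∏ p : {p // p ∈ S}, (1 + (k : ℝ) * (1 / ((p : ℝ) - 1) ^ 2)) =
          ∏ p : {p // p ∈ S}, (1 + (k : ℝ) / ((p : ℝ) - 1) ^ 2) :=
        Finset.prod_congr rfl fun p _ => by rw [mul_one_div]
      rw [h9] at h8
      linarith
    rw [Finset.sum_product, hF]
    simp only
    rw [← h7, Hs, mul_comm, Finset.sum_mul_sum]
  calc |∑ u ∈ univ.filter (fun u : Co S k => ¬ dl m u = r), y u * K u|
      ≤ M * ∑ u ∈ U, G u := h4
    _ ≤ M * ∑ x ∈ SqF S N ×ˢ (univ.erase (fun _ => none : Co S k)), F x :=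
        mul_le_mul_of_nonneg_left h5 hM
    _ = _ := by rw [h6, ← mul_assoc]

end MPb51559.BG
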