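import Mathlib
import Pool.Agent.Work.MP_b51559_nt.BG.C.Stmts

set_option autoImplicit false

/-!
# Part C, item D1: one dimensional comparison for functions of bounded variation
-/

namespace MPb51559.BG

open Finset Filter Topology MeasureTheory

namespace D1

/-- upper step function -/
theorem upper {g : ℝ → ℝ} (hg : Antitone g) (s : ℕ → ℝ) (hs : Monotone s) (m : ℕ) {t : ℝ}
    (h0 : s 0 ≤ t) (h1 : t ≤ s (m + 1)) :
    g t ≤ g (s m) + ∑ i ∈ range m, (if t ≤ s (i + 1) then g (s i) - g (s (i + 1)) else 0) := by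
  induction m with
  | zero => simpa using hg h0
  | succ m ih =>
    by_cases h : t ≤ s (m + 1)
    · have := ih h
      rw [Finset.sum_range_succ, if_pos h]
      linarith
    · push Not at h
      have hz : ∑ i ∈ range (m + 1), (if t ≤ s (i + 1) then g (s i) - g (s (i + 1)) else 0) = 0 := by
        refine Finset.sum_eq_zero fun i hi => ?_
        have hi' : s (i + 1) ≤ s (m + 1) := hs (by have := Finset.mem_range.1 hi; omega)
        rw [if_neg (by linarith)]
      rw [hz, add_zero]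
      exact hg h.le

/-- lower step function -/
theorem lower {g : ℝ → ℝ} (hg : Antitone g) (s : ℕ → ℝ) (hs : Monotone s) (m : ℕ) {t : ℝ}
    (h1 : t ≤ s m) :
    g (s m) + ∑ i ∈ range m, (if t ≤ s i then g (s i) - g (s (i + 1)) else 0) ≤ g t := by
  induction m with
  | zero => simpa using hg h1
  | succ m ih =>
    by_cases h : t ≤ s m
    · have := ih h
      rw [Finset.sum_range_succ, if_pos h]
      linarith
    · push Not at h
      have hz : ∑ i ∈ range (m + 1), (if t ≤ s i then g (s i) - g (s (i + 1)) else 0) = 0 := by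
        refine Finset.sum_eq_zero fun i hi => ?_
        have hi' : s i ≤ s m := hs (by have := Finset.mem_range.1 hi; omega)
        rw [if_neg (by linarith)]
      rw [hz, add_zero]
      exact hg h1

/-- summation by parts, upper sums -/
theorem parts_upper (g : ℝ → ℝ) (h : ℝ) (m : ℕ) :
    g (m * h) * ((m + 1) * h) + ∑ i ∈ range m,
      (g ((i : ℕ) * h) - g (((i + 1 : ℕ) : ℝ) * h)) * (((i + 1 : ℕ) : ℝ) * h) =
      h * ∑ i ∈ range (m + 1), g ((i : ℕ) * h) := by
  induction m with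
  | zero => simp; ring
  | succ m ih =>
    rw [Finset.sum_range_succ, Finset.sum_range_succ (fun i => g ((i : ℕ) * h)) (m + 1), mul_add,
      ← ih]
    push_cast
    ring

/-- summation by parts, lower sums -/
theorem parts_lower (g : ℝ → ℝ) (h : ℝ) (m : ℕ) :
    g (m * h) * (m * h) + ∑ i ∈ range m,
      (g ((i : ℕ) * h) - g (((i + 1 : ℕ) : ℝ) * h)) * ((i : ℕ) * h) =
      h * ∑ i ∈ range m, g (((i + 1 : ℕ) : ℝ) * h) := by
  induction m with
  | zero => simp
  | succ m ih =>
    rw [Finset.sum_range_succ, Finset.sum_range_succ (fun i => g (((i + 1 : ℕ) : ℝ) * h)) m,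
      mul_add, ← ih]
    push_cast
    ring

/-- telescoping -/
theorem tele (g : ℝ → ℝ) (h : ℝ) (m : ℕ) :
    g (m * h) + ∑ i ∈ range m, (g ((i : ℕ) * h) - g (((i + 1 : ℕ) : ℝ) * h)) = g 0 := by
  induction m with
  | zero => simp
  | succ m ih =>
    rw [Finset.sum_range_succ]
    push_cast at ih ⊢
    linarith

section

variable {ι : Type} (A : Finset ι) (c t : ι → ℝ) (T0 Δ : ℝ)

/-- the inner sums -/
theorem swap_sum (g : ℝ → ℝ) (s : ℕ → ℝ) (m : ℕ) (k : ℕ → ℕ) :
    ∑ a ∈ A, c a * ∑ i ∈ range m, (if t a ≤ s (k i) then g (s i) - g (s (i + 1)) else 0) =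
      ∑ i ∈ range m, (g (s i) - g (s (i + 1))) * ∑ a ∈ A.filter (fun a => t a ≤ s (k i)), c a := by
  simp_rw [Finset.mul_sum, Finset.sum_filter]
  rw [Finset.sum_comm]
  refine Finset.sum_congr rfl fun i _ => Finset.sum_congr rfl fun a _ => ?_
  by_cases h : t a ≤ s (k i)
  · rw [if_pos h, if_pos h]
    ring
  · rw [if_neg h, if_neg h]
    ring

theorem anti (hT : 0 ≤ T0) (hA : ∀ a ∈ A, 0 ≤ c a ∧ 0 ≤ t a ∧ t a ≤ T0)
    (hF : ∀ s, 0 ≤ s → s ≤ T0 → |∑ a ∈ A.filter (fun a => t a ≤ s), c a - s| ≤ Δ)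
    {g : ℝ → ℝ} (hg : Antitone g) (hg0 : 0 ≤ g T0) :
    |∑ a ∈ A, c a * g (t a) - ∫ s in (0 : ℝ)..T0, g s| ≤ Δ * g 0 := by
  have hg00 : 0 ≤ g 0 := hg0.trans (hg hT)
  have key : ∀ m : ℕ, |∑ a ∈ A, c a * g (t a) - ∫ s in (0 : ℝ)..T0, g s| ≤
      Δ * g 0 + (T0 * g 0) * (1 / ((m : ℝ) + 1)) := by
    intro m
    obtain ⟨h, hh⟩ : ∃ h : ℝ, h = T0 / ((m : ℝ) + 1) := ⟨_, rfl⟩
    have hm1 : (0 : ℝ) < (m : ℝ) + 1 := by positivity
    have hh0 : 0 ≤ h := by rw [hh]; positivity
    have hmh : ((m : ℝ) + 1) * h = T0 := by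
      rw [hh]
      field_simp
    obtain ⟨s, hs⟩ : ∃ s : ℕ → ℝ, s = fun i : ℕ => ((i : ℕ) : ℝ) * h := ⟨_, rfl⟩
    have hsi : ∀ i : ℕ, s i = (i : ℝ) * h := fun i => by rw [hs]
    have hmono : Monotone s := by
      intro i j hij
      rw [hsi, hsi]
      exact mul_le_mul_of_nonneg_right (by exact_mod_cast hij) hh0
    have hs0 : s 0 = 0 := by rw [hsi]; simp
    have hsT : s (m + 1) = T0 := by rw [hsi]; push_cast; exact hmh
    have hrange : ∀ i ≤ m + 1, 0 ≤ s i ∧ s i ≤ T0 := by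
      intro i hi
      refine ⟨?_, ?_⟩
      · rw [← hs0]
        exact hmono (Nat.zero_le i)
      · rw [← hsT]
        exact hmono hi
    have hFi : ∀ i ≤ m + 1, |∑ a ∈ A.filter (fun a => t a ≤ s i), c a - s i| ≤ Δ := fun i hi =>
      hF (s i) (hrange i hi).1 (hrange i hi).2
    have hall : ∑ a ∈ A.filter (fun a => t a ≤ s (m + 1)), c a = ∑ a ∈ A, c a := by
      rw [Finset.filter_true_of_mem]
      intro a ha
      rw [hsT]
      exact (hA a ha).2.2
    have hdiff : ∀ i : ℕ, 0 ≤ g (s i) - g (s (i + 1)) := fun i =>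
      sub_nonneg.2 (hg (hmono (Nat.le_succ i)))
    have hgs : ∀ i ≤ m + 1, 0 ≤ g (s i) := fun i hi => hg0.trans (hg (hrange i hi).2)
    -- the integral
    have hint : ∫ x in (0 : ℝ)..T0, g x = h * ∫ x in (0 : ℝ)..(0 + ((m + 1 : ℕ) : ℝ)), g (h * x) := by
      have e := intervalIntegral.smul_integral_comp_mul_left (a := 0)
        (b := 0 + ((m + 1 : ℕ) : ℝ)) (f := g) h
      rw [smul_eq_mul] at e
      rw [e]
      congr 1
      · ring
      · push_cast
        linarith
    have hanti : AntitoneOn (fun x => g (h * x)) (Set.Icc (0 : ℝ) (0 + ((m + 1 : ℕ) : ℝ))) := by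
      intro x _ y _ hxy
      exact hg (mul_le_mul_of_nonneg_left hxy hh0)
    have hup := hanti.integral_le_sum
    have hlo := hanti.sum_le_integral
    have e1 : ∑ i ∈ range (m + 1), g (h * (0 + (i : ℝ))) = ∑ i ∈ range (m + 1), g ((i : ℝ) * h) :=
      Finset.sum_congr rfl fun i _ => by rw [zero_add, mul_comm]
    have e2 : ∑ i ∈ range (m + 1), g (h * (0 + ((i + 1 : ℕ) : ℝ))) =
        ∑ i ∈ range (m + 1), g (((i + 1 : ℕ) : ℝ) * h) :=
      Finset.sum_congr rfl fun i _ => by rw [zero_add, mul_comm]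
    have hup' : ∫ x in (0 : ℝ)..T0, g x ≤ h * ∑ i ∈ range (m + 1), g ((i : ℝ) * h) := by
      rw [hint, ← e1]
      exact mul_le_mul_of_nonneg_left hup hh0
    have hlo' : h * ∑ i ∈ range (m + 1), g (((i + 1 : ℕ) : ℝ) * h) ≤ ∫ x in (0 : ℝ)..T0, g x := by
      rw [hint, ← e2]
      exact mul_le_mul_of_nonneg_left hlo hh0
    have htel : ∑ i ∈ range (m + 1), g ((i : ℝ) * h) =
        ∑ i ∈ range (m + 1), g (((i + 1 : ℕ) : ℝ) * h) + (g 0 - g (s (m + 1))) := by
      have := tele g h (m + 1)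
      rw [Finset.sum_sub_distrib] at this
      rw [hsi]
      linarith
    -- upper bound
    have hU : ∑ a ∈ A, c a * g (t a) ≤ Δ * g 0 + h * ∑ i ∈ range (m + 1), g ((i : ℝ) * h) := by
      have a1 : ∑ a ∈ A, c a * g (t a) ≤ ∑ a ∈ A, c a * (g (s m) +
          ∑ i ∈ range m, (if t a ≤ s (i + 1) then g (s i) - g (s (i + 1)) else 0)) := by
        refine Finset.sum_le_sum fun a ha => mul_le_mul_of_nonneg_left ?_ (hA a ha).1
        exact upper hg s hmono m (by rw [hs0]; exact (hA a ha).2.1)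
          (by rw [hsT]; exact (hA a ha).2.2)
      have a2 : ∑ a ∈ A, c a * (g (s m) +
          ∑ i ∈ range m, (if t a ≤ s (i + 1) then g (s i) - g (s (i + 1)) else 0)) =
          g (s m) * ∑ a ∈ A.filter (fun a => t a ≤ s (m + 1)), c a + ∑ i ∈ range m,
            (g (s i) - g (s (i + 1))) * ∑ a ∈ A.filter (fun a => t a ≤ s (i + 1)), c a := by
        simp_rw [mul_add]
        rw [Finset.sum_add_distrib, swap_sum A c t g s m (fun i => i + 1), hall,
          ← Finset.sum_mul, mul_comm]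
      have a3 : g (s m) * ∑ a ∈ A.filter (fun a => t a ≤ s (m + 1)), c a ≤
          g (s m) * (s (m + 1) + Δ) := by
        refine mul_le_mul_of_nonneg_left ?_ (hgs m (Nat.le_succ m))
        have := abs_le.1 (hFi (m + 1) le_rfl)
        linarith [this.2]
      have a4 : ∑ i ∈ range m, (g (s i) - g (s (i + 1))) *
          ∑ a ∈ A.filter (fun a => t a ≤ s (i + 1)), c a ≤
          ∑ i ∈ range m, (g (s i) - g (s (i + 1))) * (s (i + 1) + Δ) := by
        refine Finset.sum_le_sum fun i hi => mul_le_mul_of_nonneg_left ?_ (hdiff i)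
        have := abs_le.1 (hFi (i + 1) (by have := Finset.mem_range.1 hi; omega))
        linarith [this.2]
      have a5 := parts_upper g h m
      have a6 := tele g h m
      have a7 : g (s m) * (s (m + 1) + Δ) +
          ∑ i ∈ range m, (g (s i) - g (s (i + 1))) * (s (i + 1) + Δ) =
          Δ * g 0 + h * ∑ i ∈ range (m + 1), g ((i : ℝ) * h) := by
        rw [← a5, ← a6]
        simp_rw [mul_add]
        rw [Finset.sum_add_distrib, ← Finset.sum_mul]
        simp_rw [hsi]
        push_cast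
        ring
      rw [a2] at a1
      linarith
    -- lower bound
    have hL : h * ∑ i ∈ range (m + 1), g (((i + 1 : ℕ) : ℝ) * h) - Δ * g 0 ≤
        ∑ a ∈ A, c a * g (t a) := by
      have a1 : ∑ a ∈ A, c a * (g (s (m + 1)) +
          ∑ i ∈ range (m + 1), (if t a ≤ s i then g (s i) - g (s (i + 1)) else 0)) ≤
          ∑ a ∈ A, c a * g (t a) := by
        refine Finset.sum_le_sum fun a ha => mul_le_mul_of_nonneg_left ?_ (hA a ha).1
        exact lower hg s hmono (m + 1) (by rw [hsT]; exact (hA a ha).2.2)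
      have a2 : ∑ a ∈ A, c a * (g (s (m + 1)) +
          ∑ i ∈ range (m + 1), (if t a ≤ s i then g (s i) - g (s (i + 1)) else 0)) =
          g (s (m + 1)) * ∑ a ∈ A.filter (fun a => t a ≤ s (m + 1)), c a +
            ∑ i ∈ range (m + 1),
            (g (s i) - g (s (i + 1))) * ∑ a ∈ A.filter (fun a => t a ≤ s i), c a := by
        simp_rw [mul_add]
        rw [Finset.sum_add_distrib, swap_sum A c t g s (m + 1) (fun i => i), hall,
          ← Finset.sum_mul, mul_comm]
      have a3 : g (s (m + 1)) * (s (m + 1) - Δ) ≤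
          g (s (m + 1)) * ∑ a ∈ A.filter (fun a => t a ≤ s (m + 1)), c a := by
        refine mul_le_mul_of_nonneg_left ?_ (hgs (m + 1) le_rfl)
        have := abs_le.1 (hFi (m + 1) le_rfl)
        linarith [this.1]
      have a4 : ∑ i ∈ range (m + 1), (g (s i) - g (s (i + 1))) * (s i - Δ) ≤
          ∑ i ∈ range (m + 1), (g (s i) - g (s (i + 1))) *
            ∑ a ∈ A.filter (fun a => t a ≤ s i), c a := by
        refine Finset.sum_le_sum fun i hi => mul_le_mul_of_nonneg_left ?_ (hdiff i)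
        have := abs_le.1 (hFi i (by have := Finset.mem_range.1 hi; omega))
        linarith [this.1]
      have a5 := parts_lower g h (m + 1)
      have a6 := tele g h (m + 1)
      have a7 : g (s (m + 1)) * (s (m + 1) - Δ) +
          ∑ i ∈ range (m + 1), (g (s i) - g (s (i + 1))) * (s i - Δ) =
          h * ∑ i ∈ range (m + 1), g (((i + 1 : ℕ) : ℝ) * h) - Δ * g 0 := by
        rw [← a5, ← a6]
        simp_rw [mul_sub]
        rw [Finset.sum_sub_distrib, ← Finset.sum_mul]
        simp_rw [hsi]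
        push_cast
        ring
      rw [a2] at a1
      linarith
    have hlast : h * (g 0 - g (s (m + 1))) ≤ (T0 * g 0) * (1 / ((m : ℝ) + 1)) := by
      have b1 : h * (g 0 - g (s (m + 1))) ≤ h * g 0 :=
        mul_le_mul_of_nonneg_left (by linarith [hgs (m + 1) le_rfl]) hh0
      have b2 : h * g 0 = (T0 * g 0) * (1 / ((m : ℝ) + 1)) := by
        rw [hh]
        ring
      linarith
    have hsplit : h * ∑ i ∈ range (m + 1), g ((i : ℝ) * h) =
        h * ∑ i ∈ range (m + 1), g (((i + 1 : ℕ) : ℝ) * h) + h * (g 0 - g (s (m + 1))) := by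
      rw [htel, mul_add]
    rw [abs_le]
    constructor <;> linarith
  refine ge_of_tendsto' (f := fun m : ℕ => Δ * g 0 + (T0 * g 0) * (1 / ((m : ℝ) + 1)))
    (x := atTop) ?_ key
  have := (tendsto_one_div_add_atTop_nhds_zero_nat (𝕜 := ℝ)).const_mul (T0 * g 0)
  have h2 := this.const_add (Δ * g 0)
  rw [mul_zero, add_zero] at h2
  exact h2

end

end D1

open D1

theorem prf_D1 : C_D1 := by
  intro ι A c t T0 Δ M V f hT hΔ hA hF hM hV
  have hfin : BoundedVariationOn f Set.univ := ne_top_of_le_ne_top ENNReal.coe_ne_top hV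
  have hlb : LocallyBoundedVariationOn f Set.univ := hfin.locallyBoundedVariationOn
  obtain ⟨v, hv⟩ : ∃ v : ℝ → ℝ, v = variationOnFromTo f Set.univ 0 := ⟨_, rfl⟩
  have hvar : ∀ x y : ℝ, x ≤ y → |f y - f x| ≤ v y - v x := by
    intro x y hxy
    rw [hv]
    exact variationOnFromTo.abs_sub_le_sub_of_le hlb (Set.mem_univ _) (Set.mem_univ _)
      (Set.mem_univ _) hxy
  have hv0 : v 0 = 0 := by rw [hv]; exact variationOnFromTo.self f Set.univ 0
  have hvT : v T0 ≤ V := by
    have h1 := variationOnFromTo.abs_le_eVariationOn hfin (a := 0) (b := T0)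
    have h2 : (eVariationOn f Set.univ).toReal ≤ V := by
      have := ENNReal.toReal_mono ENNReal.coe_ne_top hV
      simpa using this
    rw [hv]
    exact (le_abs_self _).trans (h1.trans h2)
  obtain ⟨P, hP⟩ : ∃ P : ℝ → ℝ, P = fun s => (v T0 - v s + (f s - f T0)) / 2 := ⟨_, rfl⟩
  obtain ⟨N, hN⟩ : ∃ N : ℝ → ℝ, N = fun s => (v T0 - v s - (f s - f T0)) / 2 := ⟨_, rfl⟩
  have hPs : ∀ s, P s = (v T0 - v s + (f s - f T0)) / 2 := fun s => by rw [hP]
  have hNs : ∀ s, N s = (v T0 - v s - (f s - f T0)) / 2 := fun s => by rw [hN]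
  have hPa : Antitone P := by
    intro x y hxy
    have := abs_le.1 (hvar x y hxy)
    rw [hPs, hPs]
    linarith [this.1, this.2]
  have hNa : Antitone N := by
    intro x y hxy
    have := abs_le.1 (hvar x y hxy)
    rw [hNs, hNs]
    linarith [this.1, this.2]
  have hPT : P T0 = 0 := by rw [hPs]; ring
  have hNT : N T0 = 0 := by rw [hNs]; ring
  have e0 : ∀ s, f s = f T0 + P s - N s := by
    intro s
    rw [hPs, hNs]
    ring
  have h1 := anti A c t T0 Δ hT hA hF hPa hPT.ge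
  have h2 := anti A c t T0 Δ hT hA hF hNa hNT.ge
  have h3 : |∑ a ∈ A, c a - T0| ≤ Δ := by
    have := hF T0 hT le_rfl
    rw [Finset.filter_true_of_mem (fun a ha => (hA a ha).2.2)] at this
    exact this
  have e1 : ∑ a ∈ A, c a * f (t a) = f T0 * ∑ a ∈ A, c a + ∑ a ∈ A, c a * P (t a) -
      ∑ a ∈ A, c a * N (t a) := by
    rw [Finset.mul_sum, ← Finset.sum_add_distrib, ← Finset.sum_sub_distrib]
    refine Finset.sum_congr rfl fun a _ => ?_
    rw [e0 (t a)]
    ring
  have e2 : ∫ s in (0 : ℝ)..T0, f s = f T0 * T0 + (∫ s in (0 : ℝ)..T0, P s) -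
      ∫ s in (0 : ℝ)..T0, N s := by
    have i1 : IntervalIntegrable P volume 0 T0 := hPa.intervalIntegrable
    have i2 : IntervalIntegrable N volume 0 T0 := hNa.intervalIntegrable
    have i0 : IntervalIntegrable (fun _ : ℝ => f T0) volume 0 T0 := intervalIntegrable_const
    have e3 : ∫ s in (0 : ℝ)..T0, f s = ∫ s in (0 : ℝ)..T0, ((f T0 + P s) - N s) :=
      intervalIntegral.integral_congr fun s _ => e0 s
    rw [e3, intervalIntegral.integral_sub (i0.add i1) i2, intervalIntegral.integral_add i0 i1,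
      intervalIntegral.integral_const]
    simp only [sub_zero, smul_eq_mul]
    ring
  have hsum : P 0 + N 0 ≤ V := by
    rw [hPs, hNs, hv0]
    linarith
  have hM0 : 0 ≤ M := (abs_nonneg _).trans (hM 0)
  have h4 : |f T0 * (∑ a ∈ A, c a - T0)| ≤ M * Δ := by
    rw [abs_mul]
    exact mul_le_mul (hM T0) h3 (abs_nonneg _) hM0
  have e5 : ∑ a ∈ A, c a * f (t a) - ∫ s in (0 : ℝ)..T0, f s = f T0 * (∑ a ∈ A, c a - T0) +
      (∑ a ∈ A, c a * P (t a) - ∫ s in (0 : ℝ)..T0, P s) -
      (∑ a ∈ A, c a * N (t a) - ∫ s in (0 : ℝ)..T0, N s) := by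
    rw [e1, e2]
    ring
  rw [e5]
  have h6 : Δ * (P 0 + N 0) ≤ Δ * V := mul_le_mul_of_nonneg_left hsum hΔ
  have h7 : 0 ≤ Δ * V := mul_nonneg hΔ V.2
  have h8 : 0 ≤ Δ * M := mul_nonneg hΔ hM0
  have g1 := abs_le.1 h1
  have g2 := abs_le.1 h2
  have g4 := abs_le.1 h4
  rw [abs_le]
  constructor
  · nlinarith [g1.1, g1.2, g2.1, g2.2, g4.1, g4.2]
  · nlinarith [g1.1, g1.2, g2.1, g2.2, g4.1, g4.2]

end MPb51559.BG
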