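import Pool.Agent.Work.MP_b51559_nt.BG.C.Stmts2

set_option autoImplicit false

namespace MPb51559.BG

open Finset

/-- indicator of `s ≤ c` -/
noncomputable def DEC_u (s c : ℝ) : ℝ := by
  classical
  exact if s ≤ c then 1 else 0

lemma DEC_slc {S : Finset ℕ} {k : ℕ} (R a b : ℝ) (hab : a ≤ b) (y : Co S k → ℝ) (r : Co S k) :
    slc R (Set.Ioc a b) y r = (DEC_u (sz R r) b - DEC_u (sz R r) a) * y r := by
  unfold slc DEC_u
  by_cases h1 : sz R r ≤ a
  · have h2 : sz R r ≤ b := h1.trans hab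
    have h3 : sz R r ∉ Set.Ioc a b := fun h => absurd h.1 (not_lt.mpr h1)
    rw [if_neg h3, if_pos h1, if_pos h2]
    ring
  · by_cases h2 : sz R r ≤ b
    · have h3 : sz R r ∈ Set.Ioc a b := ⟨not_le.mp h1, h2⟩
      rw [if_pos h3, if_neg h1, if_pos h2]
      ring
    · have h3 : sz R r ∉ Set.Ioc a b := fun h => h2 h.2
      rw [if_neg h3, if_neg h1, if_neg h2]
      ring

theorem prf_DEC : C_DEC := by
  intro S k P hP R y hy
  funext r
  have hz0 : ∀ l, l ≤ P.L → 0 ≤ P.z l := by
    intro l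
    induction l with
    | zero => intro _; rw [hP.z0]
    | succ l ih =>
      intro hl
      have := hP.zmono l (by omega)
      have := ih (by omega)
      linarith
  have hT1 := hP.hT1
  have hT2 := hP.hT2
  have hzT := hP.zT
  simp only [Pi.add_apply, Finset.sum_apply]
  rw [DEC_slc R (-1) (2 - P.T) (by linarith), DEC_slc R _ _ (by linarith)]
  have hsum : ∑ l ∈ range P.L, (slc R (Set.Ioc (2 - P.T + P.z l) (2 - P.T + P.z (l + 1))) y r +
      slc R (Set.Ioc (P.T - P.z (l + 1)) (P.T - P.z l)) y r) =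
      ∑ l ∈ range P.L, (((DEC_u (sz R r) (2 - P.T + P.z (l + 1)) - DEC_u (sz R r) (P.T - P.z (l + 1))) -
        (DEC_u (sz R r) (2 - P.T + P.z l) - DEC_u (sz R r) (P.T - P.z l))) * y r) := by
    apply Finset.sum_congr rfl
    intro l hl
    have h := hP.zmono l (Finset.mem_range.mp hl)
    rw [DEC_slc R _ _ (by linarith), DEC_slc R _ _ (by linarith)]
    ring
  rw [hsum, ← Finset.sum_mul, Finset.sum_range_sub
    (fun l => DEC_u (sz R r) (2 - P.T + P.z l) - DEC_u (sz R r) (P.T - P.z l)), hP.z0]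
  by_cases h0 : y r = 0
  · rw [h0]; ring
  · obtain ⟨h1, h2⟩ := hy r h0
    have e1 : DEC_u (sz R r) (-1) = 0 := by
      unfold DEC_u
      rw [if_neg]
      linarith
    have e2 : DEC_u (sz R r) (P.T - 0) = 1 := by
      unfold DEC_u
      rw [if_pos]
      linarith
    rw [e1, e2, add_zero]
    ring

end MPb51559.BG
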