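import Pool.Agent.Work.MP_b51559_nt.BG.C.Stmts

/-!
# Part C, item EXT: extension of a weight without colour `m`
-/

set_option autoImplicit false

namespace MPb51559.BG

open Finset Filter Topology MeasureTheory
open scoped Classical

namespace IEXT

variable {S : Finset ℕ} {k : ℕ}

theorem dl_eq {m : Fin k} {r : Co S k} (h : NoC m r) : dl m r = r := by
  funext p
  unfold dl
  rw [if_neg (h p)]

theorem noC_dl (m : Fin k) (r : Co S k) : NoC m (dl m r) := by
  intro p
  unfold dl
  split_ifs with h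
  · simp
  · exact h

theorem dl_dl (m : Fin k) (r : Co S k) : dl m (dl m r) = dl m r := dl_eq (noC_dl m r)

theorem le_dl {m : Fin k} {d u : Co S k} (hd : NoC m d) : Le d u ↔ Le d (dl m u) := by
  unfold Le
  refine forall_congr' fun p => ?_
  unfold dl
  split_ifs with h
  · constructor
    · rintro (h1 | h1)
      · exact Or.inl h1
      · exact absurd (h1.trans h) (hd p)
    · rintro (h1 | h1)
      · exact Or.inl h1
      · exact Or.inl h1
  · exact Iff.rfl

theorem nrm_dl (hS : ∀ p ∈ S, 2 < p) (m : Fin k) (u : Co S k) : nrm (dl m u) ≤ nrm u := by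
  unfold nrm
  refine Finset.prod_le_prod' fun p _ => ?_
  have hp : 1 ≤ (p : ℕ) := by have := hS p p.2; omega
  by_cases h1 : u p = none
  · have h2 : dl m u p = none := by
      unfold dl
      rw [h1]
      simp
    rw [if_pos h1, if_pos h2]
  · rw [if_neg h1]
    split_ifs
    · exact hp
    · exact le_rfl

theorem mw_pos (hS : ∀ p ∈ S, 2 < p) (u : Co S k) : 0 < mw aF u := by
  unfold mw
  refine Finset.prod_pos fun p _ => ?_
  split_ifs
  · exact one_pos
  · have h1 : (2 : ℝ) < (p : ℕ) := by exact_mod_cast hS p p.2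
    unfold aF
    linarith

theorem one_le_cpsi (hS : ∀ p ∈ S, 2 < p) (m : Fin k) (Z : ℝ) (r : Co S k) (hr : dl m r = r)
    (hZ : (nrm r : ℝ) ≤ Z) : 1 ≤ cpsi m Z r := by
  unfold cpsi
  have h1 : mw aF r / mw aF r = 1 := div_self (mw_pos hS r).ne'
  rw [← h1]
  refine Finset.single_le_sum (f := fun u => mw aF r / mw aF u)
    (fun u _ => (div_pos (mw_pos hS r) (mw_pos hS u)).le) ?_
  rw [mem_filter]
  exact ⟨mem_univ _, hr, hZ⟩

theorem inner (hS : ∀ p ∈ S, 2 < p) (m : Fin k) (l : Co S k → ℝ) (Z : ℝ) (r : Co S k)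
    (hB : ytr aP l r ≠ 0 → dl m r = r ∧ (nrm r : ℝ) ≤ Z) :
    ∑ u ∈ univ.filter (fun u : Co S k => dl m u = r), yext m Z l u / mw aF u =
      ytr aP l r / mw aF r := by
  have h1 : ∑ u ∈ univ.filter (fun u : Co S k => dl m u = r), yext m Z l u / mw aF u =
      ∑ u ∈ univ.filter (fun u : Co S k => dl m u = r ∧ (nrm u : ℝ) ≤ Z),
        ytr aP l r / cpsi m Z r / mw aF r * (mw aF r / mw aF u) := by
    rw [← Finset.filter_filter, Finset.sum_filter (fun u : Co S k => (nrm u : ℝ) ≤ Z)]
    refine Finset.sum_congr rfl fun u hu => ?_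
    rw [mem_filter] at hu
    unfold yext
    rw [hu.2]
    have h2 := (mw_pos hS r).ne'
    have h3 := (mw_pos hS u).ne'
    split_ifs
    · field_simp
    · simp
  rw [h1, ← Finset.mul_sum]
  change ytr aP l r / cpsi m Z r / mw aF r * cpsi m Z r = _
  by_cases h0 : ytr aP l r = 0
  · rw [h0]; simp
  · obtain ⟨h2, h3⟩ := hB h0
    have h4 : cpsi m Z r ≠ 0 := (lt_of_lt_of_le one_pos (one_le_cpsi hS m Z r h2 h3)).ne'
    have h5 := (mw_pos hS r).ne'
    field_simp

theorem key (hS : ∀ p ∈ S, 2 < p) (m : Fin k) (l : Co S k → ℝ) (Z : ℝ)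
    (hB : ∀ r, ytr aP l r ≠ 0 → dl m r = r ∧ (nrm r : ℝ) ≤ Z) (d : Co S k) (hd : NoC m d) :
    lam aP (yext m Z l) d = lam aP (ytr aP l) d := by
  unfold lam
  congr 1
  change ∑ r ∈ univ.filter (fun r => Le d r), yext m Z l r / mw aF r =
    ∑ r ∈ univ.filter (fun r => Le d r), ytr aP l r / mw aF r
  rw [← Finset.sum_fiberwise_of_maps_to (g := dl m)
    (s := univ.filter (fun r : Co S k => Le d r)) (t := univ.filter (fun r : Co S k => Le d r))]
  · refine Finset.sum_congr rfl fun r hr => ?_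
    rw [mem_filter] at hr
    rw [← inner hS m l Z r (hB r)]
    refine Finset.sum_congr ?_ fun _ _ => rfl
    ext u
    simp only [mem_filter, mem_univ, true_and]
    constructor
    · exact fun h => h.2
    · intro h
      refine ⟨?_, h⟩
      rw [le_dl hd, h]
      exact hr.2
  · intro u hu
    rw [mem_filter] at hu ⊢
    exact ⟨mem_univ _, (le_dl hd).1 hu.2⟩

end IEXT

theorem prf_EXT (hI : C_INV) (hSup : C_SUP) : C_EXT := by
  intro S k m hS l Z hl
  have hS1 : ∀ p ∈ S, 1 ≤ p := fun p hp => by have := hS p hp; omega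
  obtain ⟨hN, hC⟩ := hSup S k aP hS1 l
  have hB1 := (hN Z fun r hr => (hl r hr).2).2
  have hB2 := (hC m fun r hr => (hl r hr).1).2
  have ha : ∀ p ∈ S, aP p ≠ 0 ∧ aP p - 1 ≠ 0 := by
    intro p hp
    have h1 : (2 : ℝ) < (p : ℕ) := by exact_mod_cast hS p hp
    unfold aP
    constructor
    · linarith
    · intro h
      linarith
  constructor
  · funext d
    unfold rst
    split_ifs with hd
    · rw [IEXT.key hS m l Z (fun r hr => ⟨IEXT.dl_eq (hB2 r hr), hB1 r hr⟩) d hd,
        (hI S k aP ha l).2]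
    · by_contra h
      exact hd (hl d (Ne.symm h)).1
  · intro u
    unfold yext
    split_ifs with h
    · rw [abs_div]
      have h1 : 1 ≤ cpsi m Z (dl m u) := IEXT.one_le_cpsi hS m Z _ (IEXT.dl_dl m u)
        (le_trans (by exact_mod_cast IEXT.nrm_dl hS m u) h)
      have h2 : 1 ≤ |cpsi m Z (dl m u)| := h1.trans (le_abs_self _)
      exact div_le_self (abs_nonneg _) h2
    · rw [abs_zero]
      exact abs_nonneg _

end MPb51559.BG
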