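import Pool.Agent.Work.MP_b51559_nt.BG.C.Stmts

set_option autoImplicit false

/-!
# Part C, item EXTQ: the form of the extension
-/

namespace MPb51559.BG

open Finset Filter Topology MeasureTheory
open scoped Classical

section
variable {S : Finset ℕ} {k : ℕ}

theorem EXTQ_mw_mul (f g : ℕ → ℝ) (r : Co S k) :
    mw (fun p => f p * g p) r = mw f r * mw g r := by
  unfold mw
  rw [← Finset.prod_mul_distrib]
  refine Finset.prod_congr rfl fun p _ => ?_
  split_ifs <;> simp

theorem EXTQ_mw_pos {f : ℕ → ℝ} (hf : ∀ p ∈ S, 0 < f p) (r : Co S k) : 0 < mw f r := by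
  unfold mw
  refine Finset.prod_pos fun p _ => ?_
  split_ifs
  · exact one_pos
  · exact hf p p.2

theorem EXTQ_Hs_pos {z : ℝ} (hz : 1 ≤ z) : 0 < Hs S z := by
  unfold Hs
  refine Finset.sum_pos' (fun n _ => by positivity) ⟨1, ?_, by simp⟩
  unfold SqF
  rw [Finset.mem_filter, Finset.mem_Icc]
  refine ⟨⟨le_rfl, Nat.le_floor (by simpa using hz)⟩, squarefree_one, fun p hp hd => ?_⟩
  exact absurd (Nat.dvd_one.1 hd) hp.one_lt.ne'

theorem EXTQ_fin {b A c H mk m1 C0 : ℝ} (hA : 0 < A) (hc : 0 < c) (hH : 0 < H) (hmk : 0 < mk)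
    (hC0 : 0 ≤ C0) (h : H ≤ c * m1) :
    (b / c) ^ 2 / A * (mk * C0 * c) ≤ C0 * (b ^ 2 / (A * H) * (mk * m1)) := by
  have e1 : (b / c) ^ 2 / A * (mk * C0 * c) = C0 * (b ^ 2 * mk / A * (1 / c)) := by
    field_simp
  have e2 : C0 * (b ^ 2 / (A * H) * (mk * m1)) = C0 * (b ^ 2 * mk / A * (m1 / H)) := by
    field_simp
  rw [e1, e2]
  have e3 : 1 / c ≤ m1 / H := by
    rw [div_le_div_iff₀ hc hH]
    linarith
  have e4 : 0 ≤ b ^ 2 * mk / A := by positivity
  exact mul_le_mul_of_nonneg_left (mul_le_mul_of_nonneg_left e3 e4) hC0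

end

theorem prf_EXTQ (h1 : C_QN) (h2 : C_SUP) (h3 : C_VLR) : C_EXTQ := by
  intro S k m hS l Z hZ hl
  have hB : ∀ r, ytr aP l r ≠ 0 → NoC m r ∧ (nrm r : ℝ) ≤ Z := by
    intro r hr
    obtain ⟨e1, e2⟩ := h2 S k aP (fun p hp => by have := (hS p hp).2; omega) l
    exact ⟨(e2 m (fun r hr => (hl r hr).1)).2 r hr, (e1 Z (fun r hr => (hl r hr).2)).2 r hr⟩
  have hpos : ∀ p ∈ S, 0 < aF p := by
    intro p hp
    have h := (hS p hp).2
    have : (2 : ℝ) < (p : ℝ) := by exact_mod_cast h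
    show 0 < (p : ℝ) - 1
    linarith
  have hmk : ∀ u : Co S k, 0 < mw (fun p => 1 + (k : ℝ) / ((p : ℝ) - 1)) u := by
    intro u
    refine EXTQ_mw_pos (fun p hp => ?_) u
    have h : 0 < (p : ℝ) - 1 := hpos p hp
    positivity
  have hA : ∀ u : Co S k, 0 < mw aF u := fun u => EXTQ_mw_pos hpos u
  have hC0 : 0 ≤ ∏ p : {p // p ∈ S}, (1 + (k : ℝ) / ((p : ℝ) - 1) ^ 2) :=
    Finset.prod_nonneg fun p _ => by positivity
  have hQN := h1 S k aP (fun p hp => by
    have h : 0 < (p : ℝ) - 1 := hpos p hp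
    show 1 < (p : ℝ)
    linarith) (yext m Z l)
  have hQ : Qf aP (lam aP (yext m Z l)) (lam aP (yext m Z l)) ≤
      ∑ u : Co S k, yext m Z l u ^ 2 / mw aF u * mw (fun p => 1 + (k : ℝ) / ((p : ℝ) - 1)) u := by
    have e1 := (abs_le.1 hQN).2
    have e2 : ∑ u : Co S k, yext m Z l u ^ 2 / mw aF u *
        mw (fun p => 1 + (k : ℝ) / ((p : ℝ) - 1)) u =
        (∑ r : Co S k, yext m Z l r ^ 2 / mw (fun p => aP p - 1) r) +
        ∑ r : Co S k, yext m Z l r ^ 2 / mw (fun p => aP p - 1) r *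
          (mw (fun p => 1 + (k : ℝ) / (aP p - 1)) r - 1) := by
      rw [← Finset.sum_add_distrib]
      refine Finset.sum_congr rfl fun r _ => ?_
      have a1 : (fun p => aP p - 1) = aF := rfl
      have a2 : (fun p => 1 + (k : ℝ) / (aP p - 1)) = fun p : ℕ => 1 + (k : ℝ) / ((p : ℝ) - 1) :=
        rfl
      rw [a1, a2]
      ring
    rw [e2]
    linarith
  refine hQ.trans ?_
  rw [← Finset.sum_fiberwise univ (dl m), Finset.mul_sum, Finset.sum_filter]
  refine Finset.sum_le_sum fun r _ => ?_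
  by_cases hr : NoC m r ∧ (nrm r : ℝ) ≤ Z
  · rw [if_pos hr]
    obtain ⟨v1, v2⟩ := h3 S k m hS Z r hr.1 hr.2
    have hn0 : (0 : ℝ) < nrm r := by
      have : 0 < nrm r := by
        unfold nrm
        refine Finset.prod_pos fun p _ => ?_
        split_ifs
        · exact one_pos
        · exact (hS p p.2).1.pos
      exact_mod_cast this
    have hH : 0 < Hs S (Z / nrm r) := EXTQ_Hs_pos (by rw [le_div_iff₀ hn0]; linarith [hr.2])
    have hm1 : 0 < mw (fun p => 1 + 1 / ((p : ℝ) - 1)) r := by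
      refine EXTQ_mw_pos (fun p hp => ?_) r
      have h : 0 < (p : ℝ) - 1 := hpos p hp
      positivity
    have hc : 0 < cpsi m Z r := by
      by_contra hcon
      push Not at hcon
      have : cpsi m Z r * mw (fun p => 1 + 1 / ((p : ℝ) - 1)) r ≤ 0 :=
        mul_nonpos_of_nonpos_of_nonneg hcon hm1.le
      linarith
    have e1 : ∑ u ∈ univ.filter (fun u : Co S k => dl m u = r), yext m Z l u ^ 2 / mw aF u *
        mw (fun p => 1 + (k : ℝ) / ((p : ℝ) - 1)) u =
        (ytr aP l r / cpsi m Z r) ^ 2 / mw aF r *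
        ∑ u ∈ univ.filter (fun u : Co S k => dl m u = r ∧ (nrm u : ℝ) ≤ Z),
          mw aF r / mw aF u * mw (fun p => 1 + (k : ℝ) / ((p : ℝ) - 1)) u := by
      rw [Finset.mul_sum, Finset.sum_filter, Finset.sum_filter]
      refine Finset.sum_congr rfl fun u _ => ?_
      by_cases hu : dl m u = r
      · rw [if_pos hu]
        by_cases hZu : (nrm u : ℝ) ≤ Z
        · rw [if_pos ⟨hu, hZu⟩]
          unfold yext
          rw [if_pos hZu, hu]
          have a1 := (hA r).ne'
          have a2 := (hA u).ne'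
          field_simp
        · rw [if_neg (fun h => hZu h.2)]
          unfold yext
          rw [if_neg hZu]
          simp
      · rw [if_neg hu, if_neg (fun h => hu h.1)]
    rw [e1]
    have e2 : mw (fun p => (1 + (k : ℝ) / ((p : ℝ) - 1)) * (1 + 1 / ((p : ℝ) - 1))) r =
        mw (fun p => 1 + (k : ℝ) / ((p : ℝ) - 1)) r * mw (fun p => 1 + 1 / ((p : ℝ) - 1)) r :=
      EXTQ_mw_mul _ _ r
    rw [e2]
    refine (mul_le_mul_of_nonneg_left v2 (by have := (hA r).le; positivity)).trans ?_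
    exact EXTQ_fin (hA r) hc hH (hmk r) hC0 v1
  · rw [if_neg hr]
    have hB0 : ytr aP l r = 0 := by
      by_contra hne
      exact hr (hB r hne)
    refine le_of_eq (Finset.sum_eq_zero fun u hu => ?_)
    rw [Finset.mem_filter] at hu
    unfold yext
    rw [hu.2, hB0]
    simp

end MPb51559.BG
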