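import Pool.Agent.Work.MP_b51559_nt.BG.C.Stmts2

/-!
# Part C, item GII: integrals of step multiples over disjoint intervals
-/

set_option autoImplicit false

namespace MPb51559.BG

open Finset Filter Topology MeasureTheory
open scoped Classical

namespace IGII

lemma integrable_box {k : ℕ} {T B : ℝ} {G : (Fin k → ℝ) → ℝ} (hG : Measurable G)
    (hB : ∀ t, |G t| ≤ B) (hs : ∀ t, G t ≠ 0 → ∀ j, 0 ≤ t j ∧ t j ≤ T) : Integrable G := by
  have h1 : IntegrableOn G (Set.Icc (fun _ => (0 : ℝ)) (fun _ => T)) := by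
    refine Measure.integrableOn_of_bounded (M := B) ?_ hG.aestronglyMeasurable ?_
    · exact (isCompact_Icc.measure_lt_top).ne
    · exact Eventually.of_forall (fun t => by simpa using hB t)
  refine (integrableOn_iff_integrable_of_support_subset ?_).1 h1
  intro t ht
  exact ⟨fun j => (hs t ht j).1, fun j => (hs t ht j).2⟩

lemma measurable_so {k : ℕ} (m : Fin k) : Measurable (so m) :=
  Finset.measurable_sum _ (fun j _ => measurable_pi_apply j)

lemma measurable_cutm {k : ℕ} (m : Fin k) {Φ : (Fin k → ℝ) → ℝ} (h : Measurable Φ) :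
    Measurable (cutm m Φ) := by
  unfold cutm
  refine Measurable.ite ?_ h measurable_const
  exact (measurableSet_le measurable_const (measurable_pi_apply m)).inter
    (measurableSet_lt (measurable_pi_apply m) measurable_const)

/-- the piece -/
noncomputable def pc {k : ℕ} (F : (Fin k → ℝ) → ℝ) (m : Fin k) (w : ℝ → ℝ) (a b : ℝ) :
    (Fin k → ℝ) → ℝ :=
  cutm m (fun t => if a < so m t ∧ so m t ≤ b then marg F m t ^ 2 * w (so m t) else 0)

lemma pc_integrable {k : ℕ} {T : ℝ} {F : (Fin k → ℝ) → ℝ} (hT : 1 < T) {M : ℝ} (hM : 0 ≤ M)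
    (m : Fin k) (h1 : Measurable (marg F m)) (h2 : ∀ t, |marg F m t| ≤ M)
    (h4 : ∀ t, marg F m t ≠ 0 → (∀ j, j ≠ m → 0 ≤ t j) ∧ ∑ j ∈ univ.erase m, t j ≤ T)
    {w : ℝ → ℝ} {K : ℝ} (hw : Measurable w) (hK : ∀ s, s ≤ T → |w s| ≤ K) (a b : ℝ) :
    Integrable (pc F m w a b) := by
  have hK0 : 0 ≤ K := (abs_nonneg _).trans (hK T le_rfl)
  refine integrable_box (T := T) (B := M ^ 2 * K) ?_ ?_ ?_
  · refine measurable_cutm m ?_
    refine Measurable.ite ?_ ((h1.pow_const 2).mul (hw.comp (measurable_so m))) measurable_const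
    exact (measurableSet_lt measurable_const (measurable_so m)).inter
      (measurableSet_le (measurable_so m) measurable_const)
  · intro t
    have hB0 : 0 ≤ M ^ 2 * K := by positivity
    unfold pc cutm
    by_cases hc : 0 ≤ t m ∧ t m < 1
    · simp only [hc, and_self, if_true]
      by_cases hd : a < so m t ∧ so m t ≤ b
      · rw [if_pos hd]
        by_cases hz : marg F m t = 0
        · rw [hz]; simpa using hB0
        · have hs : so m t ≤ T := (h4 t hz).2
          rw [abs_mul, abs_pow]
          exact mul_le_mul (pow_le_pow_left₀ (abs_nonneg _) (h2 t) 2) (hK _ hs) (abs_nonneg _)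
            (by positivity)
      · rw [if_neg hd]; simpa using hB0
    · rw [if_neg hc]; simpa using hB0
  · intro t ht j
    unfold pc cutm at ht
    by_cases hc : 0 ≤ t m ∧ t m < 1
    · rw [if_pos hc] at ht
      beta_reduce at ht
      by_cases hd : a < so m t ∧ so m t ≤ b
      · rw [if_pos hd] at ht
        have hz : marg F m t ≠ 0 := by
          intro hz
          apply ht
          rw [hz]; simp
        obtain ⟨hp, hs⟩ := h4 t hz
        by_cases hj : j = m
        · subst hj
          exact ⟨hc.1, by linarith [hc.2]⟩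
        · refine ⟨hp j hj, ?_⟩
          refine le_trans ?_ hs
          exact Finset.single_le_sum (f := fun j => t j)
            (fun i hi => hp i (Finset.ne_of_mem_erase hi))
            (Finset.mem_erase.2 ⟨hj, Finset.mem_univ j⟩)
      · rw [if_neg hd] at ht
        exact absurd rfl ht
    · rw [if_neg hc] at ht
      exact absurd rfl ht

lemma stp_sq (J : ℕ) (a b c : ℕ → ℝ) (hd : ∀ i < J, ∀ j < J, i ≠ j →
    Disjoint (Set.Ioc (a i) (b i)) (Set.Ioc (a j) (b j))) (s : ℝ) :
    stp J a b c s ^ 2 = ∑ j ∈ range J, c j ^ 2 * (if a j < s ∧ s ≤ b j then 1 else 0) := by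
  unfold stp
  by_cases h : ∃ i < J, a i < s ∧ s ≤ b i
  · obtain ⟨i, hi, his⟩ := h
    have hne : ∀ j ∈ range J, j ≠ i → ¬ (a j < s ∧ s ≤ b j) := by
      intro j hj hji hjs
      exact (Set.disjoint_left.1 (hd j (Finset.mem_range.1 hj) i hi hji)) hjs his
    rw [Finset.sum_eq_single i (fun j hj hji => by rw [if_neg (hne j hj hji), mul_zero])
        (fun h => absurd (Finset.mem_range.2 hi) h),
      Finset.sum_eq_single i (fun j hj hji => by rw [if_neg (hne j hj hji), mul_zero])
        (fun h => absurd (Finset.mem_range.2 hi) h), if_pos his]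
    ring
  · push Not at h
    have hne : ∀ j ∈ range J, ¬ (a j < s ∧ s ≤ b j) := by
      intro j hj hjs
      exact absurd hjs.2 (not_le.2 (h j (Finset.mem_range.1 hj) hjs.1))
    rw [Finset.sum_eq_zero (fun j hj => by rw [if_neg (hne j hj), mul_zero]),
      Finset.sum_eq_zero (fun j hj => by rw [if_neg (hne j hj), mul_zero])]
    simp

lemma main_sum {k : ℕ} {T : ℝ} {F : (Fin k → ℝ) → ℝ} (hT : 1 < T) {M : ℝ} (hM : 0 ≤ M)
    (m : Fin k) (h1 : Measurable (marg F m)) (h2 : ∀ t, |marg F m t| ≤ M)
    (h4 : ∀ t, marg F m t ≠ 0 → (∀ j, j ≠ m → 0 ≤ t j) ∧ ∑ j ∈ univ.erase m, t j ≤ T)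
    {w : ℝ → ℝ} {K : ℝ} (hw : Measurable w) (hK : ∀ s, s ≤ T → |w s| ≤ K)
    (J : ℕ) (a b c : ℕ → ℝ) (hd : ∀ i < J, ∀ j < J, i ≠ j →
    Disjoint (Set.Ioc (a i) (b i)) (Set.Ioc (a j) (b j))) :
    ∫ t, cutm m (fun t => stp J a b c (so m t) ^ 2 * marg F m t ^ 2 * w (so m t)) t =
      ∑ j ∈ range J, c j ^ 2 * ∫ t, pc F m w (a j) (b j) t := by
  have hp : ∀ t, cutm m (fun t => stp J a b c (so m t) ^ 2 * marg F m t ^ 2 * w (so m t)) t =
      ∑ j ∈ range J, c j ^ 2 * pc F m w (a j) (b j) t := by
    intro t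
    unfold pc cutm
    by_cases hc : 0 ≤ t m ∧ t m < 1
    · simp only [hc, and_self, if_true]
      rw [stp_sq J a b c hd, Finset.sum_mul, Finset.sum_mul]
      refine Finset.sum_congr rfl fun j _ => ?_
      by_cases hj : a j < so m t ∧ so m t ≤ b j
      · rw [if_pos hj, if_pos hj]; ring
      · rw [if_neg hj, if_neg hj]; ring
    · simp only [if_neg hc, mul_zero, Finset.sum_const_zero]
  rw [integral_congr_ae (Eventually.of_forall hp), integral_finsetSum]
  · refine Finset.sum_congr rfl fun j _ => ?_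
    rw [integral_const_mul]
  · intro j _
    exact (pc_integrable hT hM m h1 h2 h4 hw hK (a j) (b j)).const_mul _

end IGII

open IGII in
theorem prf_GII (hMG : C_MG) : C_GII := by
  intro k T F hT1 hT2 hF m
  obtain ⟨M, V, hM, hm⟩ := hMG k T F (by linarith) hF
  obtain ⟨h1, h2, -, h4, -⟩ := hm m
  have hw1 : Measurable (fun _ : ℝ => (1 : ℝ)) := measurable_const
  have hK1 : ∀ s : ℝ, s ≤ T → |(1 : ℝ)| ≤ 1 := fun s _ => by simp
  have hw2 : Measurable (fun s : ℝ => 4 / (2 - s)) :=
    measurable_const.div (measurable_const.sub measurable_id)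
  have hK2 : ∀ s : ℝ, s ≤ T → |4 / (2 - s)| ≤ 4 / (2 - T) := by
    intro s hs
    rw [abs_of_pos (div_pos (by norm_num) (by linarith))]
    exact div_le_div_of_nonneg_left (by norm_num) (by linarith) (by linarith)
  have hGI : ∀ a b, GI F m a b = ∫ t, pc F m (fun _ => 1) a b t := by
    intro a b
    unfold GI pc
    simp only [mul_one]
  have hGK : ∀ a b, GK F m a b = ∫ t, pc F m (fun s => 4 / (2 - s)) a b t := fun a b => rfl
  refine ⟨fun a b => ⟨?_, ?_, ?_⟩, ?_⟩
  · unfold GI
    refine integral_nonneg fun t => ?_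
    unfold cutm
    split_ifs <;> positivity
  · intro hb
    unfold GK
    refine integral_nonneg fun t => ?_
    unfold cutm
    by_cases hc : 0 ≤ t m ∧ t m < 1
    · rw [if_pos hc]
      beta_reduce
      by_cases hd : a < so m t ∧ so m t ≤ b
      · rw [if_pos hd]
        have : 0 < 2 - so m t := by linarith [hd.2]
        simp only [Pi.zero_apply]
        positivity
      · rw [if_neg hd]
        exact le_rfl
    · rw [if_neg hc]
      exact le_rfl
  · intro hb
    rw [hGI, hGK, ← integral_const_mul]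
    refine integral_mono (pc_integrable hT1 hM m h1 h2 h4 hw2 hK2 a b)
      ((pc_integrable hT1 hM m h1 h2 h4 hw1 hK1 a b).const_mul _) ?_
    intro t
    change pc F m (fun s => 4 / (2 - s)) a b t ≤ 4 / (2 - b) * pc F m (fun _ => 1) a b t
    unfold pc cutm
    by_cases hc : 0 ≤ t m ∧ t m < 1
    · rw [if_pos hc, if_pos hc]
      beta_reduce
      by_cases hd : a < so m t ∧ so m t ≤ b
      · rw [if_pos hd, if_pos hd, mul_one, mul_comm]
        refine mul_le_mul_of_nonneg_right ?_ (by positivity)
        exact div_le_div_of_nonneg_left (by norm_num) (by linarith) (by linarith [hd.2])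
      · rw [if_neg hd, if_neg hd, mul_zero]
    · rw [if_neg hc, if_neg hc, mul_zero]
  · intro J a b c hd
    constructor
    · have h := main_sum hT1 hM m h1 h2 h4 hw1 hK1 J a b c hd
      simp only [mul_one] at h
      rw [h]
      refine Finset.sum_congr rfl fun j _ => ?_
      rw [hGI]
    · have h := main_sum hT1 hM m h1 h2 h4 hw2 hK2 J a b c hd
      rw [← integral_const_mul]
      have he : ∀ t, 4 * cutm m (fun t => stp J a b c (so m t) ^ 2 * marg F m t ^ 2 /
          (2 - so m t)) t =
          cutm m (fun t => stp J a b c (so m t) ^ 2 * marg F m t ^ 2 * (4 / (2 - so m t))) t := by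
        intro t
        unfold cutm
        by_cases hc : 0 ≤ t m ∧ t m < 1
        · rw [if_pos hc, if_pos hc]; ring
        · rw [if_neg hc, if_neg hc, mul_zero]
      rw [integral_congr_ae (Eventually.of_forall he)]
      exact h

end MPb51559.BG
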