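import Pool.Agent.Work.MP_b51559_nt.BG.C.Stmts2

set_option autoImplicit false

/-!
# Part C, item GRA: norm of a step multiple of slices on the prime side
-/

namespace MPb51559.BG

open Finset Filter Topology MeasureTheory
open scoped Classical

/-! ### eventually in `D0`, then in `x` -/

theorem GRA_Ev_and {P Q : ℕ → ℝ → Prop} (hP : Ev P) (hQ : Ev Q) :
    Ev (fun D0 x => P D0 x ∧ Q D0 x) := by
  obtain ⟨D1, h1⟩ := hP
  obtain ⟨D2, h2⟩ := hQ
  refine ⟨max D1 D2, fun D0 hD => ?_⟩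
  obtain ⟨x1, h3⟩ := h1 D0 ((le_max_left _ _).trans hD)
  obtain ⟨x2, h4⟩ := h2 D0 ((le_max_right _ _).trans hD)
  exact ⟨max x1 x2, fun x hx => ⟨h3 x ((le_max_left _ _).trans hx), h4 x ((le_max_right _ _).trans hx)⟩⟩

theorem GRA_Ev_mono {P Q : ℕ → ℝ → Prop} (hP : Ev P) (h : ∀ D0 x, P D0 x → Q D0 x) : Ev Q := by
  obtain ⟨D1, h1⟩ := hP
  refine ⟨D1, fun D0 hD => ?_⟩
  obtain ⟨x1, h3⟩ := h1 D0 hD
  exact ⟨x1, fun x hx => h D0 x (h3 x hx)⟩

theorem GRA_Ev_D (n : ℕ) : Ev (fun D0 _ => n ≤ D0) := ⟨n, fun _ hD => ⟨0, fun _ _ => hD⟩⟩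

theorem GRA_Ev_x (c : ℝ) : Ev (fun _ x => c ≤ x) := ⟨0, fun _ _ => ⟨c, fun _ hx => hx⟩⟩

theorem GRA_Ev_all {k : ℕ} {P : Fin k → ℕ → ℝ → Prop} (h : ∀ m, Ev (P m)) :
    Ev (fun D0 x => ∀ m, P m D0 x) := by
  choose D1 hD1 using h
  refine ⟨univ.sup D1, fun D0 hD => ?_⟩
  have h1 : ∀ m, ∃ x0 : ℝ, ∀ x ≥ x0, P m D0 x := fun m =>
    hD1 m D0 ((Finset.le_sup (mem_univ m)).trans hD)
  choose x0 hx0 using h1
  refine ⟨∑ m, |x0 m|, fun x hx m => hx0 m x ?_⟩
  have h2 : |x0 m| ≤ ∑ m, |x0 m| :=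
    Finset.single_le_sum (f := fun m => |x0 m|) (fun i _ => abs_nonneg _) (mem_univ m)
  exact (le_abs_self _).trans (h2.trans hx)

/-! ### multiplicative weights -/

section
variable {S : Finset ℕ} {k : ℕ}

theorem GRA_mw_pos {f : ℕ → ℝ} (hf : ∀ p ∈ S, 0 < f p) (r : Co S k) : 0 < mw f r := by
  unfold mw
  refine Finset.prod_pos fun p _ => ?_
  split_ifs
  · exact one_pos
  · exact hf p p.2

theorem GRA_mw_mono {f g : ℕ → ℝ} (hf : ∀ p ∈ S, 0 ≤ f p) (hfg : ∀ p ∈ S, f p ≤ g p)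
    (r : Co S k) : mw f r ≤ mw g r := by
  unfold mw
  refine Finset.prod_le_prod (fun p _ => ?_) fun p _ => ?_
  · split_ifs
    · exact zero_le_one
    · exact hf p p.2
  · split_ifs
    · exact le_rfl
    · exact hfg p p.2

theorem GRA_mw_one (r : Co S k) : mw (fun _ => 1) r = 1 := by
  unfold mw
  refine Finset.prod_eq_one fun p _ => ?_
  split_ifs <;> rfl

theorem GRA_one_le_mw {f : ℕ → ℝ} (hf : ∀ p ∈ S, 1 ≤ f p) (r : Co S k) : 1 ≤ mw f r := by
  rw [← GRA_mw_one r]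
  exact GRA_mw_mono (fun _ _ => zero_le_one) hf r

theorem GRA_mw_mul (f g : ℕ → ℝ) (r : Co S k) : mw f r * mw g r = mw (fun p => f p * g p) r := by
  unfold mw
  rw [← Finset.prod_mul_distrib]
  refine Finset.prod_congr rfl fun p _ => ?_
  split_ifs
  · exact one_mul 1
  · rfl

theorem GRA_mw_congr {f g : ℕ → ℝ} (hfg : ∀ p ∈ S, f p = g p) (r : Co S k) : mw f r = mw g r := by
  unfold mw
  refine Finset.prod_congr rfl fun p _ => ?_
  rw [hfg p p.2]

theorem GRA_tv_zero {R : ℝ} {m : Fin k} {r : Co S k} (h : NoC m r) : tv R r m = 0 := by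
  have h1 : prt m r = 1 := by
    unfold prt
    refine Finset.prod_eq_one fun p _ => ?_
    rw [if_neg (h p)]
  unfold tv
  rw [h1, Nat.cast_one, Real.log_one, zero_div]

end

/-! ### the step multiplier -/

theorem GRA_stp (J : ℕ) (a b c : ℕ → ℝ) (s : ℝ) : |stp J a b c s| ≤ ∑ j ∈ range J, |c j| := by
  unfold stp
  refine (Finset.abs_sum_le_sum_abs _ _).trans (Finset.sum_le_sum fun j _ => ?_)
  rw [abs_mul]
  split_ifs
  · rw [abs_one, mul_one]
  · rw [abs_zero, mul_zero]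
    exact abs_nonneg _

theorem GRA_real (s Y g A B B' CY Mg S0 e C' : ℝ) (hs : |s| ≤ S0) (hY : |Y| ≤ CY)
    (hYg : |Y - g| ≤ CY * (e + (B - 1))) (hg : |g| ≤ Mg) (hA1 : 1 ≤ A) (hAB : A ≤ B')
    (hB1 : 1 ≤ B) (hBB : B ≤ B') (he : 0 ≤ e)
    (hC : S0 ^ 2 * (CY ^ 2 + CY * (CY + Mg)) ≤ C') :
    |(s * Y) ^ 2 * A - s ^ 2 * g ^ 2| ≤ C' * (e + (B' - 1)) := by
  have hS0 : 0 ≤ S0 := (abs_nonneg _).trans hs
  have hCY : 0 ≤ CY := (abs_nonneg _).trans hY
  have hMg : 0 ≤ Mg := (abs_nonneg _).trans hg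
  have hX : 0 ≤ e + (B' - 1) := by linarith
  have e1 : (s * Y) ^ 2 * A - s ^ 2 * g ^ 2 = s ^ 2 * (Y ^ 2 * (A - 1) + (Y - g) * (Y + g)) := by
    ring
  have h1 : |Y ^ 2 * (A - 1)| ≤ CY ^ 2 * (e + (B' - 1)) := by
    rw [abs_mul, abs_of_nonneg (by linarith : 0 ≤ A - 1), abs_pow]
    exact mul_le_mul (pow_le_pow_left₀ (abs_nonneg _) hY 2) (by linarith) (by linarith)
      (by positivity)
  have h2 : |(Y - g) * (Y + g)| ≤ CY * (CY + Mg) * (e + (B' - 1)) := by
    rw [abs_mul]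
    have h3 : |Y + g| ≤ CY + Mg := (abs_add_le _ _).trans (add_le_add hY hg)
    have h4 : |Y - g| ≤ CY * (e + (B' - 1)) :=
      hYg.trans (mul_le_mul_of_nonneg_left (by linarith) hCY)
    calc |Y - g| * |Y + g| ≤ (CY * (e + (B' - 1))) * (CY + Mg) :=
          mul_le_mul h4 h3 (abs_nonneg _) (by positivity)
      _ = _ := by ring
  have h5 : s ^ 2 ≤ S0 ^ 2 := by
    rw [← sq_abs s]
    exact pow_le_pow_left₀ (abs_nonneg _) hs 2
  rw [e1, abs_mul, abs_of_nonneg (sq_nonneg s)]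
  calc s ^ 2 * |Y ^ 2 * (A - 1) + (Y - g) * (Y + g)|
      ≤ S0 ^ 2 * (CY ^ 2 * (e + (B' - 1)) + CY * (CY + Mg) * (e + (B' - 1))) :=
        mul_le_mul h5 ((abs_add_le _ _).trans (add_le_add h1 h2)) (abs_nonneg _) (by positivity)
    _ = S0 ^ 2 * (CY ^ 2 + CY * (CY + Mg)) * (e + (B' - 1)) := by ring
    _ ≤ C' * (e + (B' - 1)) := mul_le_mul_of_nonneg_right hC hX

/-! ### sizes -/

theorem GRA_kap_pos (D0 : ℕ) : 0 < kap D0 := by
  unfold kap
  apply div_pos
  · exact_mod_cast Nat.totient_pos.2 (primorial_pos D0)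
  · exact_mod_cast primorial_pos D0

theorem GRA_logR {δ x : ℝ} (hx : 1 < x) : Real.log (Rx δ x) = (1 / 4 - δ) * Real.log x := by
  unfold Rx
  rw [Real.log_rpow (by linarith)]

theorem GRA_lk_pos (D0 : ℕ) {δ x : ℝ} (hδ : δ < 1 / 8) (hx : 1 < x) : 0 < lk D0 δ x := by
  unfold lk
  rw [GRA_logR hx]
  have h1 := Real.log_pos hx
  have h2 := GRA_kap_pos D0
  have h3 : 0 < 1 / 4 - δ := by linarith
  positivity

theorem GRA_kl_le (D0 : ℕ) {δ x : ℝ} (hδ : δ < 1 / 8) (hx : 1 < x) :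
    0 ≤ kl D0 x ∧ kl D0 x ≤ 8 * lk D0 δ x := by
  unfold kl lk
  rw [GRA_logR hx]
  have h1 := Real.log_pos hx
  have h2 := GRA_kap_pos D0
  refine ⟨by positivity, ?_⟩
  have h3 : 0 ≤ kap D0 * Real.log x * (8 * (1 / 4 - δ) - 1) := by
    apply mul_nonneg (by positivity)
    linarith
  nlinarith

theorem GRA_nrm_le {S : Finset ℕ} {k : ℕ} (r : Co S k) (hr : 0 < nrm r) {δ x : ℝ} (hδ0 : 0 < δ)
    (hδ : δ < 1 / 8) (hx : 1 < x) (h : sz (Rx δ x) r ≤ 2) : (nrm r : ℝ) ≤ Real.sqrt x := by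
  have h1 := Real.log_pos hx
  have h2 : 0 < Real.log (Rx δ x) := by
    rw [GRA_logR hx]
    have h3 : 0 < 1 / 4 - δ := by linarith
    positivity
  unfold sz at h
  rw [div_le_iff₀ h2, GRA_logR hx] at h
  have h4 : Real.log (nrm r : ℝ) ≤ Real.log (Real.sqrt x) := by
    rw [Real.log_sqrt (by linarith)]
    nlinarith
  have h5 : (0 : ℝ) < nrm r := by exact_mod_cast hr
  exact (Real.log_le_log_iff h5 (Real.sqrt_pos.2 (by linarith))).1 h4

/-! ### the main estimate for one direction -/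

theorem GRA_one (hBAS : C_BAS) (hQN : C_QN) (hYM : C_YM) (hMG : C_MG) (hPH : C_PH)
    (hAPX : C_APX) (hPERT : C_PERT) (k : ℕ) (T : ℝ) (F : (Fin k → ℝ) → ℝ) (hT1 : 1 < T)
    (hT2 : T < 2) (hF : Tst k T F) (δ : ℝ) (hδ0 : 0 < δ) (hδ : δ < 1 / 8) (J : ℕ)
    (a b c : ℕ → ℝ) (ε : ℝ) (hε : 0 < ε) (m : Fin k) :
    Ev fun D0 x => ∀ y : Co (Sx D0 x) k → ℝ,
      (∀ r, y r = stp J a b c (sz (Rx δ x) r) * ym (Rx δ x) F m r) →
      |Qf aF (lam aF y) (lam aF y) - lk D0 δ x ^ (k + 1) *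
        ∫ t, cutm m (fun t => stp J a b c (so m t) ^ 2 * marg F m t ^ 2) t| ≤
        ε * lk D0 δ x ^ (k + 1) := by
  obtain ⟨CY, hCY0, hCY⟩ := hYM k T F hT1 hT2 hF δ hδ0 hδ
  obtain ⟨Mg, Vg, -, hmg⟩ := hMG k T F (by linarith) hF
  obtain ⟨-, hmgb, hmgu, hmgs, -⟩ := hmg m
  set S0 : ℝ := ∑ j ∈ range J, |c j| with hS0
  have hS00 : 0 ≤ S0 := Finset.sum_nonneg fun _ _ => abs_nonneg _
  have hMg0 : 0 ≤ Mg := (abs_nonneg _).trans (hmgb 0)
  obtain ⟨M, V, hM0, hPHm⟩ := hPH k T F hT1 hT2 hF S0 J a b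
  have hc : ∀ j < J, |c j| ≤ S0 := fun j hj =>
    Finset.single_le_sum (f := fun j => |c j|) (fun i _ => abs_nonneg _) (mem_range.2 hj)
  have hBV := (hPHm m c hc).1
  set C' : ℝ := 1 + CY + S0 ^ 2 * (CY ^ 2 + CY * (CY + Mg)) with hC'
  have hS1 : 0 ≤ S0 ^ 2 * (CY ^ 2 + CY * (CY + Mg)) := by positivity
  have hC'0 : 0 ≤ C' := by linarith
  obtain ⟨ε1, hε1, hA⟩ := hAPX k m T M C' V δ hT1.le hT2.le hM0 hC'0 hδ0 hδ (ε / 2) (by linarith)
  -- the constant of the perturbation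
  set K1 : ℝ := S0 ^ 2 * CY ^ 2 * 8 ^ (k - 1) + 1 with hK1
  have hK1p : 0 < K1 := by positivity
  have hP := hPERT k (2 * k + 1) (by positivity) (ε / (2 * K1)) (by positivity)
  refine GRA_Ev_mono (GRA_Ev_and (GRA_Ev_and hA (hCY ε1 hε1))
    (GRA_Ev_and hP (GRA_Ev_and (GRA_Ev_D 2) (GRA_Ev_x 2)))) ?_
  rintro D0 x ⟨⟨h1, h2⟩, h3, hD, hx⟩ y hy
  have hx1 : 1 < x := by linarith
  have hS : ∀ p ∈ Sx D0 x, p.Prime ∧ D0 < p := by
    intro p hp
    unfold Sx at hp
    exact (mem_filter.1 hp).2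
  have hS3 : ∀ p ∈ Sx D0 x, (3 : ℝ) ≤ p := by
    intro p hp
    have h4 : 3 ≤ p := by
      have := (hS p hp).2
      omega
    exact_mod_cast h4
  have hlk : 0 < lk D0 δ x := GRA_lk_pos D0 hδ hx1
  obtain ⟨hkl0, hkl⟩ := GRA_kl_le D0 hδ hx1
  have hk1 : 0 < k := Fin.pos m
  -- size of `y`
  have hst : ∀ r : Co (Sx D0 x) k, |stp J a b c (sz (Rx δ x) r)| ≤ S0 := fun r =>
    GRA_stp J a b c _
  have hyb : ∀ r, |y r| ≤ S0 * (CY * lk D0 δ x) := by
    intro r
    rw [hy, abs_mul]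
    exact mul_le_mul (hst r) (h2 m r).1 (abs_nonneg _) hS00
  have hys : ∀ r, y r ≠ 0 → NoC m r ∧ sz (Rx δ x) r ≤ T := by
    intro r hr
    rw [hy] at hr
    exact (h2 m r).2.1 (right_ne_zero_of_mul hr)
  -- the weights
  set A : Co (Sx D0 x) k → ℝ := fun r => mw (fun p => 1 + 1 / ((p : ℝ) - 2)) r with hAdef
  have hA1 : ∀ r, 1 ≤ A r := fun r => GRA_one_le_mw (fun p hp => by
    have h4 := hS3 p hp
    have h5 : 0 < (p : ℝ) - 2 := by linarith
    have h6 : 0 < 1 / ((p : ℝ) - 2) := by positivity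
    linarith) r
  have hFp : ∀ r : Co (Sx D0 x) k, 0 < mw aF r := fun r => GRA_mw_pos (fun p hp => by
    have h4 := hS3 p hp
    unfold aF
    linarith) r
  have hF1p : ∀ r : Co (Sx D0 x) k, 0 < mw (fun p => aF p - 1) r := fun r =>
    GRA_mw_pos (fun p hp => by
      have h4 := hS3 p hp
      unfold aF
      linarith) r
  have hAF : ∀ r : Co (Sx D0 x) k, mw (fun p => aF p - 1) r * A r = mw aF r := by
    intro r
    rw [hAdef]
    simp only
    rw [GRA_mw_mul]
    refine GRA_mw_congr (fun p hp => ?_) r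
    have h4 := hS3 p hp
    have h5 : (p : ℝ) - 2 ≠ 0 := by linarith
    unfold aF
    field_simp
    ring
  have hinv : ∀ r : Co (Sx D0 x) k, 1 / mw (fun p => aF p - 1) r = A r / mw aF r := by
    intro r
    rw [← hAF r]
    have h4 := (hF1p r).ne'
    have h5 : A r ≠ 0 := by linarith [hA1 r]
    field_simp
  -- the diagonal sum
  set D : ℝ := ∑ r, y r ^ 2 / mw (fun p => aF p - 1) r with hDdef
  have hQ := hQN (Sx D0 x) k aF (fun p hp => by
    have h4 := hS3 p hp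
    unfold aF
    linarith) y
  -- the error term
  have hErr : ∑ r, y r ^ 2 / mw (fun p => aF p - 1) r *
      (mw (fun p => 1 + (k : ℝ) / (aF p - 1)) r - 1) ≤ ε / 2 * lk D0 δ x ^ (k + 1) := by
    have hBk : ∀ r : Co (Sx D0 x) k, 1 ≤ mw (fun p => 1 + (k : ℝ) / (aF p - 1)) r := fun r =>
      GRA_one_le_mw (fun p hp => by
        have h4 := hS3 p hp
        have h5 : 0 ≤ (k : ℝ) / (aF p - 1) := by
          apply div_nonneg (Nat.cast_nonneg k)
          unfold aF
          linarith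
        linarith) r
    have hterm : ∀ r : Co (Sx D0 x) k, y r ^ 2 / mw (fun p => aF p - 1) r *
        (mw (fun p => 1 + (k : ℝ) / (aF p - 1)) r - 1) ≤
        (S0 * (CY * lk D0 δ x)) ^ 2 *
          ((mw (fun p => 1 + (2 * k + 1 : ℝ) / ((p : ℝ) - 2)) r - 1) / mw aF r) := by
      intro r
      have e1 : y r ^ 2 / mw (fun p => aF p - 1) r = y r ^ 2 * (A r / mw aF r) := by
        rw [← hinv, mul_one_div]
      rw [e1]
      have e2 : y r ^ 2 * (A r / mw aF r) * (mw (fun p => 1 + (k : ℝ) / (aF p - 1)) r - 1) =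
          y r ^ 2 * (A r * (mw (fun p => 1 + (k : ℝ) / (aF p - 1)) r - 1) / mw aF r) := by
        ring
      rw [e2]
      have h4 : y r ^ 2 ≤ (S0 * (CY * lk D0 δ x)) ^ 2 := by
        rw [← sq_abs (y r)]
        exact pow_le_pow_left₀ (abs_nonneg _) (hyb r) 2
      have h5 : A r * mw (fun p => 1 + (k : ℝ) / (aF p - 1)) r ≤
          mw (fun p => 1 + (2 * k + 1 : ℝ) / ((p : ℝ) - 2)) r := by
        rw [hAdef]
        simp only
        rw [GRA_mw_mul]
        refine GRA_mw_mono (fun p hp => ?_) (fun p hp => ?_) r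
        · have h6 := hS3 p hp
          have h7 : 0 < (p : ℝ) - 2 := by linarith
          have h8 : aF p - 1 = (p : ℝ) - 2 := by
            unfold aF
            ring
          rw [h8]
          positivity
        · have h6 := hS3 p hp
          have h7 : 1 ≤ (p : ℝ) - 2 := by linarith
          have h8 : aF p - 1 = (p : ℝ) - 2 := by
            unfold aF
            ring
          rw [h8]
          have h9 : 0 < (p : ℝ) - 2 := by linarith
          have h10 : (k : ℝ) / ((p : ℝ) - 2) / ((p : ℝ) - 2) ≤ (k : ℝ) / ((p : ℝ) - 2) :=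
            div_le_self (by positivity) h7
          have e3 : (1 + 1 / ((p : ℝ) - 2)) * (1 + (k : ℝ) / ((p : ℝ) - 2)) =
              1 + (k + 1 : ℝ) / ((p : ℝ) - 2) + (k : ℝ) / ((p : ℝ) - 2) / ((p : ℝ) - 2) := by
            field_simp
            ring
          have e4 : 1 + (2 * k + 1 : ℝ) / ((p : ℝ) - 2) =
              1 + (k + 1 : ℝ) / ((p : ℝ) - 2) + (k : ℝ) / ((p : ℝ) - 2) := by
            field_simp
            ring
          rw [e3, e4]
          linarith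
      have h6 : A r * (mw (fun p => 1 + (k : ℝ) / (aF p - 1)) r - 1) ≤
          mw (fun p => 1 + (2 * k + 1 : ℝ) / ((p : ℝ) - 2)) r - 1 := by
        have h7 := hA1 r
        nlinarith
      have h7 : 0 ≤ A r * (mw (fun p => 1 + (k : ℝ) / (aF p - 1)) r - 1) := by
        apply mul_nonneg
        · linarith [hA1 r]
        · linarith [hBk r]
      refine mul_le_mul h4 (div_le_div_of_nonneg_right h6 (hFp r).le) ?_ (sq_nonneg _)
      exact div_nonneg h7 (hFp r).le
    have hz : ∀ r : Co (Sx D0 x) k, r ∉ univ.filter (fun r : Co (Sx D0 x) k => NoC m r ∧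
        (nrm r : ℝ) ≤ Real.sqrt x) → y r ^ 2 / mw (fun p => aF p - 1) r *
        (mw (fun p => 1 + (k : ℝ) / (aF p - 1)) r - 1) = 0 := by
      intro r hr
      have h4 : y r = 0 := by
        by_contra h5
        apply hr
        rw [mem_filter]
        refine ⟨mem_univ _, (hys r h5).1, ?_⟩
        exact GRA_nrm_le r ((hBAS (Sx D0 x) k (fun p hp => (hS p hp).1) r).2.1) hδ0 hδ hx1
          ((hys r h5).2.trans hT2.le)
      rw [h4]
      ring
    have h4 : ∑ r, y r ^ 2 / mw (fun p => aF p - 1) r *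
        (mw (fun p => 1 + (k : ℝ) / (aF p - 1)) r - 1) =
        ∑ r ∈ univ.filter (fun r : Co (Sx D0 x) k => NoC m r ∧ (nrm r : ℝ) ≤ Real.sqrt x),
          y r ^ 2 / mw (fun p => aF p - 1) r *
          (mw (fun p => 1 + (k : ℝ) / (aF p - 1)) r - 1) := by
      symm
      exact Finset.sum_subset (filter_subset _ _) fun r _ hr => hz r hr
    rw [h4]
    have h5 := h3.2 m
    have h6 : kl D0 x ^ (k - 1) ≤ 8 ^ (k - 1) * lk D0 δ x ^ (k - 1) := by
      rw [← mul_pow]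
      exact pow_le_pow_left₀ hkl0 hkl _
    calc ∑ r ∈ univ.filter (fun r : Co (Sx D0 x) k => NoC m r ∧ (nrm r : ℝ) ≤ Real.sqrt x),
          y r ^ 2 / mw (fun p => aF p - 1) r * (mw (fun p => 1 + (k : ℝ) / (aF p - 1)) r - 1)
        ≤ ∑ r ∈ univ.filter (fun r : Co (Sx D0 x) k => NoC m r ∧ (nrm r : ℝ) ≤ Real.sqrt x),
          (S0 * (CY * lk D0 δ x)) ^ 2 *
            ((mw (fun p => 1 + (2 * k + 1 : ℝ) / ((p : ℝ) - 2)) r - 1) / mw aF r) :=
          Finset.sum_le_sum fun r _ => hterm r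
      _ = (S0 * (CY * lk D0 δ x)) ^ 2 *
          ∑ r ∈ univ.filter (fun r : Co (Sx D0 x) k => NoC m r ∧ (nrm r : ℝ) ≤ Real.sqrt x),
            (mw (fun p => 1 + (2 * k + 1 : ℝ) / ((p : ℝ) - 2)) r - 1) / mw aF r :=
          (Finset.mul_sum _ _ _).symm
      _ ≤ (S0 * (CY * lk D0 δ x)) ^ 2 * (ε / (2 * K1) * kl D0 x ^ (k - 1)) :=
          mul_le_mul_of_nonneg_left h5 (sq_nonneg _)
      _ ≤ (S0 * (CY * lk D0 δ x)) ^ 2 * (ε / (2 * K1) * (8 ^ (k - 1) * lk D0 δ x ^ (k - 1))) :=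
          mul_le_mul_of_nonneg_left (mul_le_mul_of_nonneg_left h6 (by positivity)) (sq_nonneg _)
      _ = (S0 ^ 2 * CY ^ 2 * 8 ^ (k - 1)) * (ε / (2 * K1)) * lk D0 δ x ^ (k + 1) := by
          have e1 : k + 1 = (k - 1) + 2 := by omega
          rw [e1, pow_add (lk D0 δ x)]
          ring
      _ ≤ K1 * (ε / (2 * K1)) * lk D0 δ x ^ (k + 1) := by
          apply mul_le_mul_of_nonneg_right _ (by positivity)
          apply mul_le_mul_of_nonneg_right _ (by positivity)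
          linarith
      _ = ε / 2 * lk D0 δ x ^ (k + 1) := by
          have h7 := hK1p.ne'
          field_simp
  -- the main term
  have hMain : |D - lk D0 δ x ^ (k + 1) *
      ∫ t, cutm m (fun t => stp J a b c (so m t) ^ 2 * marg F m t ^ 2) t| ≤
      ε / 2 * lk D0 δ x ^ (k + 1) := by
    have h4 := h1 (fun t => stp J a b c (so m t) ^ 2 * marg F m t ^ 2)
      (fun r => (y r / lk D0 δ x) ^ 2 * A r)
      (fun t s => by
        have h5 : so m (Function.update t m s) = so m t := by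
          unfold so
          refine Finset.sum_congr rfl fun j hj => ?_
          rw [Function.update_of_ne (ne_of_mem_erase hj)]
        simp only [h5, hmgu])
      hBV
      (fun t ht => by
        have h5 : marg F m t ≠ 0 := by
          intro h6
          apply ht
          simp only [h6]
          ring
        exact (hmgs t h5).2.trans hT2.le)
      (fun r hr => by
        have h5 : y r ≠ 0 := by
          intro h6
          apply hr
          simp only [h6]
          ring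
        exact (hys r h5).2.trans hT2.le)
      (fun r hr => by
        obtain ⟨h5, -, h6⟩ := h2 m r
        have h7 := h6 hr
        have hsz : sz (Rx δ x) r = so m (tv (Rx δ x) r) := by
          rw [(hBAS (Sx D0 x) k (fun p hp => (hS p hp).1) r).2.2.2.2.2.2.2.2.1]
          unfold so
          rw [← Finset.add_sum_erase univ _ (mem_univ m), GRA_tv_zero hr, zero_add]
        have e1 : y r / lk D0 δ x = stp J a b c (so m (tv (Rx δ x) r)) *
            (ym (Rx δ x) F m r / lk D0 δ x) := by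
          rw [hy, hsz, mul_div_assoc]
        rw [e1]
        have h8 : |ym (Rx δ x) F m r / lk D0 δ x| ≤ CY := by
          rw [abs_div, abs_of_pos hlk, div_le_iff₀ hlk]
          exact h5
        have h9 : |ym (Rx δ x) F m r / lk D0 δ x - marg F m (tv (Rx δ x) r)| ≤
            CY * (ε1 + (mw (fun p => 1 + CY / ((p : ℝ) - 2)) r - 1)) := by
          have e2 : ym (Rx δ x) F m r / lk D0 δ x - marg F m (tv (Rx δ x) r) =
              (ym (Rx δ x) F m r - lk D0 δ x * marg F m (tv (Rx δ x) r)) / lk D0 δ x := by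
            field_simp
          rw [e2, abs_div, abs_of_pos hlk, div_le_iff₀ hlk, mul_comm _ (lk D0 δ x)]
          exact h7
        have hsub : ∀ c1 : ℝ, 0 ≤ c1 → c1 ≤ C' →
            mw (fun p => 1 + c1 / ((p : ℝ) - 2)) r ≤ mw (fun p => 1 + C' / ((p : ℝ) - 2)) r := by
          intro c1 hc1 hc2
          refine GRA_mw_mono (fun p hp => ?_) (fun p hp => ?_) r
          · have h10 := hS3 p hp
            have h11 : 0 < (p : ℝ) - 2 := by linarith
            positivity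
          · have h10 := hS3 p hp
            have h11 : 0 < (p : ℝ) - 2 := by linarith
            have h12 := div_le_div_of_nonneg_right hc2 h11.le
            linarith
        refine GRA_real _ _ _ _ (mw (fun p => 1 + CY / ((p : ℝ) - 2)) r) _ CY Mg S0 ε1 C'
          (GRA_stp J a b c _) h8 h9 (hmgb _) (hA1 r) ?_ ?_ ?_ hε1.le (by linarith)
        · exact hsub 1 zero_le_one (by linarith)
        · refine GRA_one_le_mw (fun p hp => ?_) r
          have h10 := hS3 p hp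
          have h11 : 0 < (p : ℝ) - 2 := by linarith
          have h12 : 0 ≤ CY / ((p : ℝ) - 2) := by positivity
          linarith
        · exact hsub CY hCY0 (by linarith))
    have h5 : D = lk D0 δ x ^ 2 * ∑ r ∈ univ.filter (fun r : Co (Sx D0 x) k => NoC m r),
        (y r / lk D0 δ x) ^ 2 * A r / mw aF r := by
      have h6 : ∑ r ∈ univ.filter (fun r : Co (Sx D0 x) k => NoC m r),
          (y r / lk D0 δ x) ^ 2 * A r / mw aF r =
          ∑ r, (y r / lk D0 δ x) ^ 2 * A r / mw aF r := by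
        refine Finset.sum_subset (filter_subset _ _) fun r _ hr => ?_
        have h7 : y r = 0 := by
          by_contra h8
          exact hr (mem_filter.2 ⟨mem_univ _, (hys r h8).1⟩)
        rw [h7]
        ring
      rw [h6, hDdef, Finset.mul_sum]
      refine Finset.sum_congr rfl fun r _ => ?_
      have e1 : y r ^ 2 / mw (fun p => aF p - 1) r = y r ^ 2 * (A r / mw aF r) := by
        rw [← hinv, mul_one_div]
      rw [e1, div_pow]
      have h7 := hlk.ne'
      field_simp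
    have e1 : k + 1 = (k - 1) + 2 := by omega
    rw [h5, e1, pow_add (lk D0 δ x)]
    have e2 : lk D0 δ x ^ 2 * ∑ r ∈ univ.filter (fun r : Co (Sx D0 x) k => NoC m r),
        (y r / lk D0 δ x) ^ 2 * A r / mw aF r - lk D0 δ x ^ (k - 1) * lk D0 δ x ^ 2 *
        ∫ t, cutm m (fun t => stp J a b c (so m t) ^ 2 * marg F m t ^ 2) t =
        lk D0 δ x ^ 2 * (∑ r ∈ univ.filter (fun r : Co (Sx D0 x) k => NoC m r),
        (y r / lk D0 δ x) ^ 2 * A r / mw aF r - lk D0 δ x ^ (k - 1) *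
        ∫ t, cutm m (fun t => stp J a b c (so m t) ^ 2 * marg F m t ^ 2) t) := by
      ring
    rw [e2, abs_mul, abs_of_nonneg (by positivity)]
    calc _ ≤ lk D0 δ x ^ 2 * (ε / 2 * lk D0 δ x ^ (k - 1)) :=
          mul_le_mul_of_nonneg_left h4 (by positivity)
      _ = _ := by ring
  have hsplit : Qf aF (lam aF y) (lam aF y) - lk D0 δ x ^ (k + 1) *
      ∫ t, cutm m (fun t => stp J a b c (so m t) ^ 2 * marg F m t ^ 2) t =
      (Qf aF (lam aF y) (lam aF y) - D) + (D - lk D0 δ x ^ (k + 1) *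
      ∫ t, cutm m (fun t => stp J a b c (so m t) ^ 2 * marg F m t ^ 2) t) := by
    ring
  rw [hsplit]
  refine (abs_add_le _ _).trans ?_
  have h9 := add_le_add (hQ.trans hErr) hMain
  refine h9.trans (le_of_eq ?_)
  ring

theorem prf_GRA (hBAS : C_BAS) (hQN : C_QN) (hYM : C_YM) (hMG : C_MG) (hPH : C_PH)
    (hAPX : C_APX) (hPERT : C_PERT) : C_GRA := by
  intro k T F hT1 hT2 hF δ hδ0 hδ J a b c ε hε
  exact GRA_Ev_all fun m => GRA_one hBAS hQN hYM hMG hPH hAPX hPERT k T F hT1 hT2 hF δ hδ0 hδ J a b c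
    ε hε m

end MPb51559.BG
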