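import Pool.Agent.Work.MP_b51559_nt.BG.C.Stmts

set_option autoImplicit false

/-! Item INV of part C: the two transforms are inverse to each other. -/

namespace MPb51559.BG

open Finset
open scoped Classical

section
variable {S : Finset ℕ} {k : ℕ}

/-- local factor of `lam` -/
noncomputable def INV_gl (a : ℝ) (u v : Option (Fin k)) : ℝ :=
  if u = none ∨ u = v then (if u = none then 1 else -a) * (if v = none then 1 else (a - 1)⁻¹) else 0

/-- local factor of `ytr` -/
noncomputable def INV_gy (a : ℝ) (u v : Option (Fin k)) : ℝ :=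
  if u = none ∨ u = v then (if u = none then 1 else -(a - 1)) * (if v = none then 1 else a⁻¹) else 0

/-- product form of the factors of a pair of colourings -/
theorem INV_prod (b c : {p // p ∈ S} → ℝ) (d r : Co S k) :
    (∏ p, if d p = none ∨ d p = r p then
      (if d p = none then 1 else b p) * (if r p = none then 1 else c p) else (0 : ℝ)) =
    if Le d r then (∏ p, if d p = none then 1 else b p) * ∏ p, (if r p = none then 1 else c p)
      else 0 := by
  split_ifs with h
  · rw [← Finset.prod_mul_distrib]
    refine Finset.prod_congr rfl fun p _ => ?_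
    rw [if_pos (h p)]
  · unfold Le at h
    push Not at h
    obtain ⟨p, hp⟩ := h
    refine Finset.prod_eq_zero (Finset.mem_univ p) ?_
    rw [if_neg]
    rintro (h1 | h1)
    · exact hp.1 h1
    · exact hp.2 h1

theorem INV_lam (a : ℕ → ℝ) (y : Co S k → ℝ) (d : Co S k) :
    lam a y d = ∑ r, y r * ∏ p : {p // p ∈ S}, INV_gl (a p) (d p) (r p) := by
  unfold lam
  rw [Finset.mul_sum, Finset.sum_filter]
  refine Finset.sum_congr rfl fun r _ => ?_
  have h := INV_prod (fun p : {p // p ∈ S} => -a p) (fun p : {p // p ∈ S} => (a p - 1)⁻¹) d r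
  have h2 : ∏ p : {p // p ∈ S}, INV_gl (a p) (d p) (r p) =
      ∏ p : {p // p ∈ S}, if d p = none ∨ d p = r p then
      (if d p = none then 1 else -a p) * (if r p = none then 1 else (a p - 1)⁻¹) else (0 : ℝ) := rfl
  rw [h2, h]
  split_ifs with h3
  · have e1 : mw (fun _ => -1) d * mw a d = ∏ p : {p // p ∈ S}, if d p = none then 1 else -a p := by
      unfold mw
      rw [← Finset.prod_mul_distrib]
      refine Finset.prod_congr rfl fun p _ => ?_
      split_ifs <;> ring
    have e2 : (mw (fun p => a p - 1) r)⁻¹ =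
        ∏ p : {p // p ∈ S}, if r p = none then 1 else (a p - 1)⁻¹ := by
      unfold mw
      rw [← Finset.prod_inv_distrib]
      refine Finset.prod_congr rfl fun p _ => ?_
      split_ifs
      · exact inv_one
      · rfl
    rw [e1, div_eq_mul_inv, e2]
    ring
  · ring

theorem INV_ytr (a : ℕ → ℝ) (y : Co S k → ℝ) (d : Co S k) :
    ytr a y d = ∑ r, y r * ∏ p : {p // p ∈ S}, INV_gy (a p) (d p) (r p) := by
  unfold ytr
  rw [Finset.mul_sum, Finset.sum_filter]
  refine Finset.sum_congr rfl fun r _ => ?_
  have h := INV_prod (fun p : {p // p ∈ S} => -(a p - 1)) (fun p : {p // p ∈ S} => (a p)⁻¹) d r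
  have h2 : ∏ p : {p // p ∈ S}, INV_gy (a p) (d p) (r p) =
      ∏ p : {p // p ∈ S}, if d p = none ∨ d p = r p then
      (if d p = none then 1 else -(a p - 1)) * (if r p = none then 1 else (a p)⁻¹) else (0 : ℝ) := rfl
  rw [h2, h]
  split_ifs with h3
  · have e1 : mw (fun _ => -1) d * mw (fun p => a p - 1) d =
        ∏ p : {p // p ∈ S}, if d p = none then 1 else -(a p - 1) := by
      unfold mw
      rw [← Finset.prod_mul_distrib]
      refine Finset.prod_congr rfl fun p _ => ?_
      split_ifs <;> ring
    have e2 : (mw a r)⁻¹ = ∏ p : {p // p ∈ S}, if r p = none then 1 else (a p)⁻¹ := by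
      unfold mw
      rw [← Finset.prod_inv_distrib]
      refine Finset.prod_congr rfl fun p _ => ?_
      split_ifs
      · exact inv_one
      · rfl
    rw [e1, div_eq_mul_inv, e2]
    ring
  · ring

/-- composition of two product kernels -/
theorem INV_comp (g h : {p // p ∈ S} → Option (Fin k) → Option (Fin k) → ℝ) (y : Co S k → ℝ)
    (r : Co S k)
    (H : ∀ p u v, ∑ c, g p u c * h p c v = if u = v then 1 else 0) :
    ∑ u : Co S k, (∑ v : Co S k, y v * ∏ p, h p (u p) (v p)) * ∏ p, g p (r p) (u p) = y r := by
  have e1 : ∀ u : Co S k, (∑ v : Co S k, y v * ∏ p, h p (u p) (v p)) * ∏ p, g p (r p) (u p) =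
      ∑ v : Co S k, y v * ∏ p, g p (r p) (u p) * h p (u p) (v p) := by
    intro u
    rw [Finset.sum_mul]
    refine Finset.sum_congr rfl fun v _ => ?_
    rw [Finset.prod_mul_distrib]
    ring
  rw [Finset.sum_congr rfl fun u _ => e1 u, Finset.sum_comm]
  have e2 : ∀ v : Co S k, ∑ u : Co S k, y v * ∏ p, g p (r p) (u p) * h p (u p) (v p) =
      y v * ∏ p, (if r p = v p then (1 : ℝ) else 0) := by
    intro v
    rw [← Finset.mul_sum]
    congr 1
    have h1 := Finset.prod_univ_sum (fun _ : {p // p ∈ S} => (univ : Finset (Option (Fin k))))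
      (fun p c => g p (r p) c * h p c (v p))
    rw [Fintype.piFinset_univ] at h1
    rw [← h1]
    exact Finset.prod_congr rfl fun p _ => H p (r p) (v p)
  rw [Finset.sum_congr rfl fun v _ => e2 v, Finset.sum_eq_single r]
  · rw [Finset.prod_congr rfl (fun p _ => if_pos rfl), Finset.prod_const_one, mul_one]
  · intro v _ hv
    have : ∃ p, r p ≠ v p := by
      by_contra hc
      push Not at hc
      exact hv (funext fun p => (hc p).symm)
    obtain ⟨p, hp⟩ := this
    rw [Finset.prod_eq_zero (Finset.mem_univ p) (if_neg hp), mul_zero]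
  · intro hr
    exact absurd (Finset.mem_univ r) hr

theorem INV_loc1 (a : ℝ) (h1 : a ≠ 0) (h2 : a - 1 ≠ 0) (u v : Option (Fin k)) :
    ∑ c, INV_gy a u c * INV_gl a c v = if u = v then 1 else 0 := by
  rw [Fintype.sum_option]
  rcases u with _ | i
  · rcases v with _ | j
    · simp [INV_gy, INV_gl]
    · simp [INV_gy, INV_gl]
      field_simp
      ring
  · rcases v with _ | j
    · simp [INV_gy, INV_gl]
    · by_cases hij : i = j
      · subst hij
        simp [INV_gy, INV_gl]
        field_simp
        ring
      · simp [INV_gy, INV_gl, hij]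

theorem INV_loc2 (a : ℝ) (h1 : a ≠ 0) (h2 : a - 1 ≠ 0) (u v : Option (Fin k)) :
    ∑ c, INV_gl a u c * INV_gy a c v = if u = v then 1 else 0 := by
  rw [Fintype.sum_option]
  rcases u with _ | i
  · rcases v with _ | j
    · simp [INV_gy, INV_gl]
    · simp [INV_gy, INV_gl]
      field_simp
      ring
  · rcases v with _ | j
    · simp [INV_gy, INV_gl]
    · by_cases hij : i = j
      · subst hij
        simp [INV_gy, INV_gl]
        field_simp
        ring
      · simp [INV_gy, INV_gl, hij]

end

theorem prf_INV : C_INV := by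
  intro S k a ha y
  constructor
  · funext r
    rw [INV_ytr]
    have h := INV_comp (S := S) (k := k) (fun p => INV_gy (a p)) (fun p => INV_gl (a p)) y r
      (fun p u v => INV_loc1 (a p) (ha p p.2).1 (ha p p.2).2 u v)
    refine Eq.trans ?_ h
    refine Finset.sum_congr rfl fun u _ => ?_
    rw [INV_lam]
  · funext r
    rw [INV_lam]
    have h := INV_comp (S := S) (k := k) (fun p => INV_gl (a p)) (fun p => INV_gy (a p)) y r
      (fun p u v => INV_loc2 (a p) (ha p p.2).1 (ha p p.2).2 u v)
    refine Eq.trans ?_ h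
    refine Finset.sum_congr rfl fun u _ => ?_
    rw [INV_ytr]

end MPb51559.BG
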