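import Pool.Agent.Work.MP_b51559_nt.BG.C.Stmts

set_option autoImplicit false

/-!
# Part C, item JCT: counting pairs of compatible colourings
-/

namespace MPb51559.BG

open Finset Filter Topology MeasureTheory
open scoped Classical

section JCT
variable {S : Finset ℕ} {k : ℕ}

/-- the local weight of a coloured prime -/
noncomputable def JCT_g (u v : Option (Fin k)) : ℝ :=
  if (u = none ∨ v = none ∨ u = v) ∧ ¬ (u = none ∧ v = none) then
    (if u = none then 1 else 2) * (if v = none then 1 else 2) else 0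

theorem JCT_g_sum : ∑ u : Option (Fin k), ∑ v : Option (Fin k), JCT_g u v = ((8 * k : ℕ) : ℝ) := by
  simp only [Fintype.sum_option, JCT_g]
  have h1 : ∀ i : Fin k, ∑ j : Fin k,
      (if ((some i : Option (Fin k)) = none ∨ (some j : Option (Fin k)) = none ∨
        (some i : Option (Fin k)) = some j) ∧
        ¬ ((some i : Option (Fin k)) = none ∧ (some j : Option (Fin k)) = none) then
        (if (some i : Option (Fin k)) = none then (1 : ℝ) else 2) *
          (if (some j : Option (Fin k)) = none then 1 else 2) else 0) = 4 := by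
    intro i
    have h2 : ∀ j : Fin k,
        (if ((some i : Option (Fin k)) = none ∨ (some j : Option (Fin k)) = none ∨
        (some i : Option (Fin k)) = some j) ∧
        ¬ ((some i : Option (Fin k)) = none ∧ (some j : Option (Fin k)) = none) then
        (if (some i : Option (Fin k)) = none then (1 : ℝ) else 2) *
          (if (some j : Option (Fin k)) = none then 1 else 2) else 0) =
        if i = j then 4 else 0 := by
      intro j
      by_cases hij : i = j
      · subst hij
        simp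
        norm_num
      · simp [hij]
    rw [Finset.sum_congr rfl fun j _ => h2 j]
    simp
  simp only [h1]
  simp
  ring

/-- the local weight with prescribed support -/
noncomputable def JCT_h (T : Finset {p // p ∈ S}) (p : {p // p ∈ S}) (u v : Option (Fin k)) : ℝ :=
  if p ∈ T then JCT_g u v else if u = none ∧ v = none then 1 else 0

theorem JCT_g_nonneg (u v : Option (Fin k)) : 0 ≤ JCT_g u v := by
  unfold JCT_g
  split_ifs <;> norm_num

theorem JCT_h_nonneg (T : Finset {p // p ∈ S}) (p : {p // p ∈ S}) (u v : Option (Fin k)) :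
    0 ≤ JCT_h T p u v := by
  unfold JCT_h
  split_ifs
  · exact JCT_g_nonneg u v
  · exact zero_le_one
  · exact le_refl _

theorem JCT_h_sum (T : Finset {p // p ∈ S}) (p : {p // p ∈ S}) :
    ∑ u : Option (Fin k), ∑ v : Option (Fin k), JCT_h T p u v =
      if p ∈ T then ((8 * k : ℕ) : ℝ) else 1 := by
  unfold JCT_h
  split_ifs with h
  · exact JCT_g_sum
  · simp only [Fintype.sum_option]
    simp

theorem JCT_prod (T : Finset {p // p ∈ S}) :
    ∑ d : Co S k, ∑ e : Co S k, ∏ p, JCT_h T p (d p) (e p) = ((8 * k : ℕ) : ℝ) ^ T.card := by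
  have h1 : ∀ d : Co S k, ∑ e : Co S k, ∏ p, JCT_h T p (d p) (e p) =
      ∏ p, ∑ v : Option (Fin k), JCT_h T p (d p) v := by
    intro d
    rw [Finset.prod_univ_sum, Fintype.piFinset_univ]
  rw [Finset.sum_congr rfl fun d _ => h1 d]
  have h2 : ∑ d : Co S k, ∏ p, ∑ v : Option (Fin k), JCT_h T p (d p) v =
      ∏ p, ∑ u : Option (Fin k), ∑ v : Option (Fin k), JCT_h T p u v := by
    rw [Finset.prod_univ_sum, Fintype.piFinset_univ]
  rw [h2, Finset.prod_congr rfl fun p _ => JCT_h_sum T p, Finset.prod_ite_mem, Finset.univ_inter,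
    Finset.prod_const]

/-- the support of the join -/
noncomputable def JCT_T (d e : Co S k) : Finset {p // p ∈ S} :=
  univ.filter (fun p => ¬ (d p = none ∧ e p = none))

/-- the product of a set of members -/
noncomputable def JCT_n (T : Finset {p // p ∈ S}) : ℕ := ∏ p ∈ T, (p : ℕ)

theorem JCT_nrm (d e : Co S k) : nrm (jn d e) = JCT_n (JCT_T d e) := by
  unfold nrm JCT_n JCT_T
  rw [Finset.prod_filter]
  refine Finset.prod_congr rfl fun p _ => ?_
  unfold jn
  by_cases h1 : d p = none
  · by_cases h2 : e p = none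
    · simp [h1, h2]
    · simp [h1, h2]
  · simp [h1]

theorem JCT_wt (d e : Co S k) (h : Cmp d e) :
    ∏ p, JCT_h (JCT_T d e) p (d p) (e p) = mw (fun _ => 2) d * mw (fun _ => 2) e := by
  unfold mw
  rw [← Finset.prod_mul_distrib]
  refine Finset.prod_congr rfl fun p _ => ?_
  have hT : p ∈ JCT_T d e ↔ ¬ (d p = none ∧ e p = none) := by
    unfold JCT_T
    rw [Finset.mem_filter]
    exact ⟨fun h => h.2, fun h => ⟨Finset.mem_univ p, h⟩⟩
  unfold JCT_h JCT_g
  simp only [hT]
  have hp := h p
  by_cases h1 : d p = none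
  · by_cases h2 : e p = none
    · simp [h1, h2]
    · simp [h1, h2]
  · by_cases h2 : e p = none
    · simp [h1, h2]
    · have h3 : d p = e p := by
        rcases hp with hp | hp | hp
        · exact absurd hp h1
        · exact absurd hp h2
        · exact hp
      simp [h2, h3]

theorem JCT_le (hS : ∀ p ∈ S, p.Prime) (d e : Co S k) :
    nrm (jn d e) ≤ nrm d * nrm e := by
  unfold nrm
  rw [← Finset.prod_mul_distrib]
  refine Finset.prod_le_prod' fun p _ => ?_
  have hp : 1 ≤ (p : ℕ) := (hS p p.2).one_lt.le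
  unfold jn
  by_cases h1 : d p = none
  · simp [h1]
  · by_cases h2 : e p = none
    · simp [h1, h2]
    · simp only [h1, h2, if_false]
      nlinarith

theorem JCT_dvd (hS : ∀ p ∈ S, p.Prime) (T : Finset {p // p ∈ S}) (p : {p // p ∈ S}) :
    (p : ℕ) ∣ JCT_n T ↔ p ∈ T := by
  constructor
  · intro h
    obtain ⟨q, hq, hpq⟩ := ((hS p p.2).prime.dvd_finsetProd_iff _).1 h
    have h1 : (p : ℕ) = q := ((Nat.prime_dvd_prime_iff_eq (hS p p.2) (hS q q.2)).1 hpq)
    rw [Subtype.ext h1]
    exact hq
  · intro h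
    exact Finset.dvd_prod_of_mem _ h

theorem JCT_pos (hS : ∀ p ∈ S, p.Prime) (T : Finset {p // p ∈ S}) : 0 < JCT_n T :=
  Finset.prod_pos fun p _ => (hS p p.2).pos

theorem JCT_inj (hS : ∀ p ∈ S, p.Prime) {T T' : Finset {p // p ∈ S}} (h : JCT_n T = JCT_n T') :
    T = T' := by
  ext p
  rw [← JCT_dvd hS, ← JCT_dvd hS, h]

theorem JCT_card (hS : ∀ p ∈ S, p.Prime) (W : ℕ) (hW : 0 < W) (T : Finset {p // p ∈ S}) :
    T.card ≤ (W * JCT_n T).primeFactors.card := by
  rw [← Finset.card_image_of_injective T Subtype.val_injective]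
  refine Finset.card_le_card fun q hq => ?_
  obtain ⟨p, hp, rfl⟩ := Finset.mem_image.1 hq
  rw [Nat.mem_primeFactors]
  exact ⟨hS p p.2, ((JCT_dvd hS T p).2 hp).mul_left W, (Nat.mul_pos hW (JCT_pos hS T)).ne'⟩

end JCT

theorem prf_JCT : C_JCT := by
  intro S k W hk hW hSW E hE Z hZ
  have hS : ∀ p ∈ S, p.Prime := fun p hp => (hSW p hp).1
  have h1 : ∀ d e : Co S k, (if Cmp d e ∧ (nrm d : ℝ) * nrm e ≤ Z then
      mw (fun _ => 2) d * mw (fun _ => 2) e * E (W * nrm (jn d e)) else 0) ≤
      ∑ T : Finset {p // p ∈ S}, (if (JCT_n T : ℝ) ≤ Z then E (W * JCT_n T) else 0) *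
        ∏ p, JCT_h T p (d p) (e p) := by
    intro d e
    have hnn : ∀ T ∈ (univ : Finset (Finset {p // p ∈ S})),
        0 ≤ (if (JCT_n T : ℝ) ≤ Z then E (W * JCT_n T) else 0) *
        ∏ p, JCT_h T p (d p) (e p) := by
      intro T _
      refine mul_nonneg ?_ (Finset.prod_nonneg fun p _ => JCT_h_nonneg T p _ _)
      split_ifs
      · exact hE _
      · exact le_refl _
    split_ifs with h
    · obtain ⟨hc, hz⟩ := h
      refine le_trans (le_of_eq ?_) (Finset.single_le_sum hnn (Finset.mem_univ (JCT_T d e)))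
      have h2 : ((JCT_n (JCT_T d e) : ℕ) : ℝ) ≤ Z := by
        rw [← JCT_nrm]
        refine le_trans ?_ hz
        exact_mod_cast JCT_le hS d e
      rw [if_pos h2, JCT_wt d e hc, JCT_nrm]
      ring
    · exact Finset.sum_nonneg hnn
  calc (∑ d : Co S k, ∑ e : Co S k, if Cmp d e ∧ (nrm d : ℝ) * nrm e ≤ Z then
      mw (fun _ => 2) d * mw (fun _ => 2) e * E (W * nrm (jn d e)) else 0)
      ≤ ∑ d : Co S k, ∑ e : Co S k, ∑ T : Finset {p // p ∈ S},
        (if (JCT_n T : ℝ) ≤ Z then E (W * JCT_n T) else 0) * ∏ p, JCT_h T p (d p) (e p) :=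
        Finset.sum_le_sum fun d _ => Finset.sum_le_sum fun e _ => h1 d e
    _ = ∑ T : Finset {p // p ∈ S}, (if (JCT_n T : ℝ) ≤ Z then E (W * JCT_n T) else 0) *
        ((8 * k : ℕ) : ℝ) ^ T.card := by
        have h2 : ∀ d : Co S k, ∑ e : Co S k, ∑ T : Finset {p // p ∈ S},
            (if (JCT_n T : ℝ) ≤ Z then E (W * JCT_n T) else 0) * ∏ p, JCT_h T p (d p) (e p) =
            ∑ T : Finset {p // p ∈ S}, ∑ e : Co S k,
            (if (JCT_n T : ℝ) ≤ Z then E (W * JCT_n T) else 0) * ∏ p, JCT_h T p (d p) (e p) :=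
          fun d => Finset.sum_comm
        rw [Finset.sum_congr rfl fun d _ => h2 d, Finset.sum_comm]
        refine Finset.sum_congr rfl fun T _ => ?_
        rw [← JCT_prod T, Finset.mul_sum]
        refine Finset.sum_congr rfl fun d _ => ?_
        rw [Finset.mul_sum]
    _ ≤ ∑ T ∈ (univ : Finset (Finset {p // p ∈ S})).filter (fun T => (JCT_n T : ℝ) ≤ Z),
        ((8 * k : ℕ) : ℝ) ^ (W * JCT_n T).primeFactors.card * E (W * JCT_n T) := by
        rw [Finset.sum_filter]
        refine Finset.sum_le_sum fun T _ => ?_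
        split_ifs with h
        · rw [mul_comm]
          refine mul_le_mul_of_nonneg_right ?_ (hE _)
          refine pow_le_pow_right₀ ?_ (JCT_card hS W hW T)
          have : 1 ≤ 8 * k := by omega
          exact_mod_cast this
        · rw [zero_mul]
    _ = ∑ n ∈ ((univ : Finset (Finset {p // p ∈ S})).filter (fun T => (JCT_n T : ℝ) ≤ Z)).image
          (fun T => W * JCT_n T), ((8 * k : ℕ) : ℝ) ^ n.primeFactors.card * E n := by
        rw [Finset.sum_image]
        intro T _ T' _ hTT
        exact JCT_inj hS (Nat.eq_of_mul_eq_mul_left hW hTT)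
    _ ≤ ∑ n ∈ Icc 1 ⌊(W : ℝ) * Z⌋₊, ((8 * k : ℕ) : ℝ) ^ n.primeFactors.card * E n := by
        refine Finset.sum_le_sum_of_subset_of_nonneg ?_ fun n _ _ =>
          mul_nonneg (pow_nonneg (Nat.cast_nonneg _) _) (hE n)
        intro n hn
        obtain ⟨T, hT, rfl⟩ := Finset.mem_image.1 hn
        rw [Finset.mem_filter] at hT
        rw [Finset.mem_Icc]
        refine ⟨Nat.mul_pos hW (JCT_pos hS T), Nat.le_floor ?_⟩
        push_cast
        exact mul_le_mul_of_nonneg_left hT.2 (Nat.cast_nonneg W)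

end MPb51559.BG
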