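import Pool.Agent.Work.MP_b51559_nt.BG.C.Stmts2

set_option autoImplicit false

/-!
# Item JD: decomposition of the prime form
-/

namespace MPb51559.BG

open Finset Filter Topology MeasureTheory
open scoped Classical

theorem JD_int {k : ℕ} (T B : ℝ) (G : (Fin k → ℝ) → ℝ) (hm : Measurable G) (hB : ∀ t, |G t| ≤ B)
    (hs : ∀ t, G t ≠ 0 → ∀ i, 0 ≤ t i ∧ t i ≤ T) : Integrable G := by
  have h1 : IntegrableOn G (Set.pi Set.univ (fun _ : Fin k => Set.Icc (0 : ℝ) T)) := by
    refine Measure.integrableOn_of_bounded (M := B) ?_ hm.aestronglyMeasurable ?_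
    · rw [volume_pi_pi]
      simp only [Real.volume_Icc]
      apply ne_of_lt
      apply ENNReal.prod_lt_top
      intro i _
      exact ENNReal.ofReal_lt_top
    · filter_upwards with t
      rw [Real.norm_eq_abs]
      exact hB t
  rw [integrableOn_iff_integrable_of_support_subset] at h1
  · exact h1
  · intro t ht
    rw [Function.mem_support] at ht
    rw [Set.mem_univ_pi]
    intro i
    exact hs t ht i

theorem JD_somes {k : ℕ} (m : Fin k) : Measurable (fun t : Fin k → ℝ => so m t) := by
  unfold so
  fun_prop

theorem JD_cut {k : ℕ} (m : Fin k) (Φ : (Fin k → ℝ) → ℝ) (hΦ : Measurable Φ) :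
    Measurable (cutm m Φ) := by
  unfold cutm
  apply Measurable.ite _ hΦ measurable_const
  have h1 : MeasurableSet {t : Fin k → ℝ | 0 ≤ t m} :=
    measurableSet_le measurable_const (measurable_pi_apply m)
  have h2 : MeasurableSet {t : Fin k → ℝ | t m < 1} :=
    measurableSet_lt (measurable_pi_apply m) measurable_const
  exact h1.inter h2

theorem JD_slab {k : ℕ} (m : Fin k) (a b : ℝ) (Φ : (Fin k → ℝ) → ℝ) (hΦ : Measurable Φ) :
    Measurable (fun t => if a < so m t ∧ so m t ≤ b then Φ t else 0) := by
  apply Measurable.ite _ hΦ measurable_const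
  have h1 : MeasurableSet {t : Fin k → ℝ | a < so m t} :=
    measurableSet_lt measurable_const (JD_somes m)
  have h2 : MeasurableSet {t : Fin k → ℝ | so m t ≤ b} :=
    measurableSet_le (JD_somes m) measurable_const
  exact h1.inter h2

theorem prf_JD (hMG : C_MG) : C_JD := by
  intro k P F hP hF m
  have hT1 := hP.hT1
  have hT2 := hP.hT2
  obtain ⟨M, V, hM0, hMm⟩ := hMG k P.T F (by linarith) hF
  obtain ⟨hmeas, hbd, -, hsupp, -⟩ := hMm m
  -- monotonicity of the depths
  have hz : ∀ l ≤ P.L, 0 ≤ P.z l := by
    intro l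
    induction l with
    | zero => intro _; rw [hP.z0]
    | succ l ih =>
      intro hl
      have h1 := ih (by omega)
      have h2 := hP.zmono l (by omega)
      linarith
  have hzT' : ∀ d l : ℕ, l + d = P.L → P.z l ≤ P.T - 1 := by
    intro d
    induction d with
    | zero =>
      intro l hl
      have h1 : l = P.L := hl
      rw [h1]
      exact hP.zT
    | succ d ih =>
      intro l hl
      have h1 := ih (l + 1) (by omega)
      have h2 := hP.zmono l (by omega)
      linarith
  have hzT : ∀ l ≤ P.L, P.z l ≤ P.T - 1 := by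
    intro l hl
    exact hzT' (P.L - l) l (by omega)
  -- supports
  have hsp : ∀ (Φ : (Fin k → ℝ) → ℝ) (t : Fin k → ℝ), (∀ t, Φ t ≠ 0 → marg F m t ≠ 0) →
      cutm m Φ t ≠ 0 → ∀ i, 0 ≤ t i ∧ t i ≤ P.T := by
    intro Φ t hΦ ht
    unfold cutm at ht
    by_cases hc : 0 ≤ t m ∧ t m < 1
    · rw [if_pos hc] at ht
      obtain ⟨h1, h2⟩ := hsupp t (hΦ t ht)
      intro i
      by_cases hi : i = m
      · rw [hi]
        exact ⟨hc.1, by linarith [hc.2]⟩
      · refine ⟨h1 i hi, ?_⟩
        have h3 : t i ≤ ∑ j ∈ univ.erase m, t j := by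
          apply Finset.single_le_sum (f := fun j => t j) (s := univ.erase m)
          · intro j hj
            exact h1 j (Finset.ne_of_mem_erase hj)
          · rw [Finset.mem_erase]
            exact ⟨hi, Finset.mem_univ _⟩
        linarith
    · rw [if_neg hc] at ht
      exact absurd rfl ht
  have hsq : ∀ t, marg F m t ^ 2 ≤ M ^ 2 := by
    intro t
    rw [← sq_abs (marg F m t)]
    exact pow_le_pow_left₀ (abs_nonneg _) (hbd t) 2
  have hI : ∀ a b : ℝ, Integrable (cutm m (fun t => if a < so m t ∧ so m t ≤ b then
      marg F m t ^ 2 else 0)) := by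
    intro a b
    refine JD_int P.T (M ^ 2) _ (JD_cut m _ (JD_slab m a b _ (hmeas.pow_const 2))) ?_ ?_
    · intro t
      have h1 := hsq t
      have h2 : 0 ≤ marg F m t ^ 2 := sq_nonneg _
      have h3 : 0 ≤ M ^ 2 := sq_nonneg _
      simp only [cutm]
      split_ifs
      · rw [abs_of_nonneg h2]; exact h1
      · rw [abs_zero]; exact h3
      · rw [abs_zero]; exact h3
    · intro t ht
      refine hsp _ t ?_ ht
      intro t ht h0
      apply ht
      rw [h0]
      simp
  have hK : ∀ a b : ℝ, b ≤ P.T → Integrable (cutm m (fun t => if a < so m t ∧ so m t ≤ b then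
      marg F m t ^ 2 * (4 / (2 - so m t)) else 0)) := by
    intro a b hb
    refine JD_int P.T (M ^ 2 * (4 / (2 - P.T))) _ (JD_cut m _ (JD_slab m a b _ ?_)) ?_ ?_
    · exact (hmeas.pow_const 2).mul (measurable_const.div (measurable_const.sub (JD_somes m)))
    · intro t
      have h1 := hsq t
      have h2 : 0 ≤ marg F m t ^ 2 := sq_nonneg _
      have h3 : 0 ≤ M ^ 2 := sq_nonneg _
      have h4 : 0 < 2 - P.T := by linarith
      have h5 : 0 ≤ M ^ 2 * (4 / (2 - P.T)) := by positivity
      simp only [cutm]
      split_ifs with hc1 hc2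
      · have h6 : 0 < 2 - so m t := by linarith [hc2.2]
        rw [abs_of_nonneg (by positivity)]
        have h7 : 4 / (2 - so m t) ≤ 4 / (2 - P.T) := by
          apply div_le_div_of_nonneg_left (by norm_num) h4
          linarith [hc2.2]
        exact mul_le_mul h1 h7 (by positivity) h3
      · rw [abs_zero]; exact h5
      · rw [abs_zero]; exact h5
    · intro t ht
      refine hsp _ t ?_ ht
      intro t ht h0
      apply ht
      rw [h0]
      simp
  -- the pointwise identity
  have hpt : ∀ t : Fin k → ℝ, cutm m (fun t => P.rho (so m t) * marg F m t ^ 2) t =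
      cutm m (fun t => if (-1) < so m t ∧ so m t ≤ 2 - P.T then marg F m t ^ 2 else 0) t +
      ∑ l ∈ range P.L, (P.Lam l / (1 + P.Lam l) * cutm m (fun t =>
          if 2 - P.T + P.z l < so m t ∧ so m t ≤ 2 - P.T + P.z (l + 1) then
            marg F m t ^ 2 else 0) t -
        P.Lam l * ((4 - P.T + P.z (l + 1)) / 4) * cutm m (fun t =>
          if P.T - P.z (l + 1) < so m t ∧ so m t ≤ P.T - P.z l then
            marg F m t ^ 2 * (4 / (2 - so m t)) else 0) t) := by
    intro t
    by_cases hc : 0 ≤ t m ∧ t m < 1
    · unfold cutm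
      simp only [hc, if_true, and_self]
      by_cases hg : marg F m t = 0
      · rw [hg]
        simp
      · obtain ⟨h1, h2⟩ := hsupp t hg
        have hs0 : 0 ≤ so m t := by
          unfold so
          apply Finset.sum_nonneg
          intro j hj
          exact h1 j (Finset.ne_of_mem_erase hj)
        unfold Sl.rho
        by_cases hs : so m t ≤ 2 - P.T
        · rw [if_pos hs, if_pos ⟨by linarith, hs⟩]
          rw [Finset.sum_eq_zero, one_mul, add_zero]
          intro l hl
          rw [Finset.mem_range] at hl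
          have h3 := hz l hl.le
          have h4 := hzT (l + 1) hl
          rw [if_neg (by rintro ⟨h5, _⟩; linarith), if_neg (by rintro ⟨h5, _⟩; linarith)]
          ring
        · rw [if_neg hs, if_neg (fun h => hs h.2), zero_add, Finset.sum_mul]
          apply Finset.sum_congr rfl
          intro l _
          rw [sub_mul]
          congr 1
          · split_ifs
            · rfl
            · ring
          · split_ifs
            · ring
            · ring
    · unfold cutm
      simp [hc]
  have hA : MeasurableSet {t : Fin k → ℝ | 0 ≤ t m ∧ t m < 1} := by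
    have h1 : MeasurableSet {t : Fin k → ℝ | 0 ≤ t m} :=
      measurableSet_le measurable_const (measurable_pi_apply m)
    have h2 : MeasurableSet {t : Fin k → ℝ | t m < 1} :=
      measurableSet_lt (measurable_pi_apply m) measurable_const
    exact h1.inter h2
  have hJ : Jm P F m = ∫ t, cutm m (fun t => P.rho (so m t) * marg F m t ^ 2) t := by
    unfold Jm
    rw [← integral_indicator hA]
    congr 1
    funext t
    unfold cutm
    by_cases hc : 0 ≤ t m ∧ t m < 1
    · rw [Set.indicator_of_mem (show t ∈ {t : Fin k → ℝ | 0 ≤ t m ∧ t m < 1} from hc), if_pos hc]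
      rfl
    · rw [Set.indicator_of_notMem (show t ∉ {t : Fin k → ℝ | 0 ≤ t m ∧ t m < 1} from hc),
        if_neg hc]
  rw [hJ]
  have hfun : (fun t => cutm m (fun t => P.rho (so m t) * marg F m t ^ 2) t) = fun t =>
      cutm m (fun t => if (-1) < so m t ∧ so m t ≤ 2 - P.T then marg F m t ^ 2 else 0) t +
      ∑ l ∈ range P.L, (P.Lam l / (1 + P.Lam l) * cutm m (fun t =>
          if 2 - P.T + P.z l < so m t ∧ so m t ≤ 2 - P.T + P.z (l + 1) then
            marg F m t ^ 2 else 0) t -
        P.Lam l * ((4 - P.T + P.z (l + 1)) / 4) * cutm m (fun t =>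
          if P.T - P.z (l + 1) < so m t ∧ so m t ≤ P.T - P.z l then
            marg F m t ^ 2 * (4 / (2 - so m t)) else 0) t) := funext hpt
  rw [hfun]
  have hterm : ∀ l ∈ range P.L, Integrable (fun t => (P.Lam l / (1 + P.Lam l) * cutm m (fun t =>
          if 2 - P.T + P.z l < so m t ∧ so m t ≤ 2 - P.T + P.z (l + 1) then
            marg F m t ^ 2 else 0) t -
        P.Lam l * ((4 - P.T + P.z (l + 1)) / 4) * cutm m (fun t =>
          if P.T - P.z (l + 1) < so m t ∧ so m t ≤ P.T - P.z l then
            marg F m t ^ 2 * (4 / (2 - so m t)) else 0) t)) := by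
    intro l hl
    rw [Finset.mem_range] at hl
    have h3 := hz l hl.le
    exact ((hI _ _).const_mul _).sub ((hK _ _ (by linarith)).const_mul _)
  rw [integral_add (hI _ _) (integrable_finsetSum _ hterm), integral_finsetSum _ hterm]
  congr 1
  apply Finset.sum_congr rfl
  intro l hl
  rw [Finset.mem_range] at hl
  have h3 := hz l hl.le
  rw [integral_sub ((hI _ _).const_mul _) ((hK _ _ (by linarith)).const_mul _),
    integral_const_mul, integral_const_mul]
  rfl

end MPb51559.BG
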