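import Pool.Agent.Work.MP_b51559_nt.BG.C.Stmts2

set_option autoImplicit false

/-! # Part C, item KB: the upper bound for step multiples of slices on the prime side -/

namespace MPb51559.BG

open Finset Filter Topology MeasureTheory
open scoped Classical

theorem KB_int {k : ℕ} (T0 M : ℝ) (V : NNReal) (Φ : (Fin k → ℝ) → ℝ) (hT : 0 ≤ T0)
    (h : BVk k T0 M V Φ) : |∫ t, Φ t| ≤ M * T0 ^ k := by
  have h1 : ∫ t in Set.Icc (fun _ : Fin k => (0 : ℝ)) (fun _ => T0), Φ t = ∫ t, Φ t := by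
    refine setIntegral_eq_integral_of_forall_compl_eq_zero (fun t ht => ?_)
    by_contra hc
    exact ht ⟨fun i => (h.supp t hc i).1, fun i => (h.supp t hc i).2⟩
  rw [← h1, ← Real.norm_eq_abs]
  have h2 := norm_setIntegral_le_of_norm_le_const (μ := (volume : Measure (Fin k → ℝ)))
    (s := Set.Icc (fun _ : Fin k => (0 : ℝ)) (fun _ => T0)) (f := Φ) (C := M) (by
      rw [Real.volume_Icc_pi]
      exact ENNReal.prod_lt_top (fun i _ => ENNReal.ofReal_lt_top)) (fun t _ => h.bdd t)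
  refine h2.trans (le_of_eq ?_)
  rw [Measure.real, Real.volume_Icc_pi_toReal (fun _ => hT)]
  simp

theorem KB_stp (J : ℕ) (a b c : ℕ → ℝ) (C0 : ℝ) (hc : ∀ j < J, |c j| ≤ C0) (s : ℝ) :
    |stp J a b c s| ≤ J * |C0| := by
  unfold stp
  refine (Finset.abs_sum_le_sum_abs _ _).trans ?_
  have h1 : ∀ j ∈ range J, |c j * (if a j < s ∧ s ≤ b j then (1 : ℝ) else 0)| ≤ |C0| := by
    intro j hj
    have h2 := (hc j (Finset.mem_range.1 hj)).trans (le_abs_self C0)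
    split_ifs
    · simpa using h2
    · simp
  refine (Finset.sum_le_sum h1).trans (le_of_eq ?_)
  rw [Finset.sum_const, Finset.card_range, nsmul_eq_mul]

theorem KB_kap (D0 : ℕ) : 0 < kap D0 ∧ kap D0 ≤ 1 := by
  unfold kap
  have h1 : (0 : ℝ) < primorial D0 := by exact_mod_cast primorial_pos D0
  have h2 : (0 : ℝ) < (primorial D0).totient := by
    exact_mod_cast Nat.totient_pos.2 (primorial_pos D0)
  refine ⟨div_pos h2 h1, (div_le_one h1).2 ?_⟩
  exact_mod_cast Nat.totient_le _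

theorem KB_pos {S : Finset ℕ} {k : ℕ} (hS : ∀ p ∈ S, p.Prime) (r : Co S k) : 0 < nrm r := by
  unfold nrm
  refine Finset.prod_pos (fun p _ => ?_)
  split_ifs
  · exact one_pos
  · exact (hS p.1 p.2).pos

theorem KB_size {S : Finset ℕ} {k : ℕ} (hS : ∀ p ∈ S, p.Prime) (r : Co S k) (R T : ℝ)
    (hR : 1 < R) (hT : T ≤ 2) (h : sz R r ≤ T) : (nrm r : ℝ) ≤ R ^ 2 := by
  have hn : (0 : ℝ) < nrm r := by exact_mod_cast KB_pos hS r
  have hL : 0 < Real.log R := Real.log_pos hR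
  unfold sz at h
  rw [div_le_iff₀ hL] at h
  have h1 : Real.log (nrm r) ≤ Real.log (R ^ 2) := by
    rw [Real.log_pow]
    refine h.trans ?_
    push_cast
    exact mul_le_mul_of_nonneg_right hT hL.le
  exact (Real.log_le_log_iff hn (by positivity)).1 h1

theorem KB_log (c s : ℝ) (n : ℕ) (hc : 0 < c) (hs : 0 < s) (A : ℝ) :
    ∀ᶠ x : ℝ in atTop, A * Real.log x ^ n ≤ x ^ s * c := by
  have h1 := (isLittleO_log_rpow_rpow_atTop (n : ℝ) hs).bound
    (show (0 : ℝ) < c / (|A| + 1) by positivity)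
  filter_upwards [h1, eventually_ge_atTop (1 : ℝ)] with x hx hx1
  have hl : 0 ≤ Real.log x := Real.log_nonneg hx1
  have hx0 : 0 ≤ x ^ s := Real.rpow_nonneg (by linarith) s
  rw [Real.rpow_natCast, Real.norm_of_nonneg (by positivity), Real.norm_of_nonneg hx0] at hx
  have h2 : A * Real.log x ^ n ≤ (|A| + 1) * Real.log x ^ n :=
    mul_le_mul_of_nonneg_right (by linarith [le_abs_self A]) (by positivity)
  refine h2.trans ?_
  have h3 := mul_le_mul_of_nonneg_left hx (show (0 : ℝ) ≤ |A| + 1 by positivity)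
  refine h3.trans (le_of_eq ?_)
  have : (|A| + 1) ≠ 0 := by positivity
  field_simp

/-- the final computation -/
theorem KB_calc (A lkk Lg lx l2x l2 Iv Im ε ε' δ Q S1v S2v CE Sl xt P : ℝ) (hδ : δ < 1 / 8)
    (hε : 0 < ε) (hA : 0 ≤ A) (hlkk : 1 ≤ lkk) (hLg : 1 ≤ Lg)
    (hLx : Lg = (1 - 4 * δ) / 4 * lx) (hl2x : l2x = l2 + lx) (hl2 : 0 ≤ l2) (hl2' : l2 ≤ lx)
    (hI : |Iv| ≤ Im)
    (hε' : ε' = ε * (1 - 4 * δ) / 16) (hQ : Q ≤ lkk * (Iv + ε'))
    (h1 : |S1v - A * Q| ≤ CE * Sl * Sl) (h2 : S2v ≤ l2x * S1v) (hCE : 0 ≤ CE) (hSl : 0 ≤ Sl)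
    (hSl' : Sl ≤ xt * P) (hxt : 0 ≤ xt) (hP : 0 ≤ P)
    (hbig1 : l2 * (Im + ε') ≤ Lg * (ε / 4))
    (hbig2 : 2 * CE * (lx * (xt * xt * (P * P))) ≤ A * (ε / 2)) :
    S2v ≤ A * lkk * Lg * (4 / (1 - 4 * δ) * Iv + ε) := by
  have hd : 0 < 1 - 4 * δ := by linarith
  have hlx : lx = 4 / (1 - 4 * δ) * Lg := by
    rw [hLx]
    field_simp
  have hlx0 : 0 ≤ lx := by linarith
  have hl2x0 : 0 ≤ l2x := by linarith
  have hl2x2 : l2x ≤ 2 * lx := by linarith
  have h3 : S1v ≤ A * Q + CE * Sl * Sl := by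
    have := (abs_le.1 h1).2
    linarith
  have h4 : CE * Sl * Sl ≤ CE * (xt * xt * (P * P)) := by
    have : Sl * Sl ≤ (xt * P) * (xt * P) :=
      mul_le_mul hSl' hSl' hSl (mul_nonneg hxt hP)
    calc CE * Sl * Sl = CE * (Sl * Sl) := by ring
      _ ≤ CE * ((xt * P) * (xt * P)) := mul_le_mul_of_nonneg_left this hCE
      _ = CE * (xt * xt * (P * P)) := by ring
  have h5 : S2v ≤ l2x * (A * (lkk * (Iv + ε')) + CE * (xt * xt * (P * P))) := by
    refine h2.trans (mul_le_mul_of_nonneg_left ?_ hl2x0)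
    have := mul_le_mul_of_nonneg_left hQ hA
    linarith
  have h6 : l2x * (CE * (xt * xt * (P * P))) ≤ A * (ε / 2) := by
    refine le_trans ?_ hbig2
    have h7 : 0 ≤ CE * (xt * xt * (P * P)) := by positivity
    have := mul_le_mul_of_nonneg_right hl2x2 h7
    linarith
  have h8 : A * (ε / 2) ≤ A * lkk * Lg * (ε / 2) := by
    have h9 : 1 ≤ lkk * Lg := by nlinarith
    have h10 : 0 ≤ A * (ε / 2) := by positivity
    nlinarith
  have h11 : l2x * (Iv + ε') ≤ Lg * (4 / (1 - 4 * δ) * Iv + ε / 2) := by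
    have h12 : lx * Iv = Lg * (4 / (1 - 4 * δ) * Iv) := by rw [hlx]; ring
    have h13 : lx * ε' = Lg * (ε / 4) := by
      rw [hlx, hε']
      field_simp
      ring
    have h14 : l2 * (Iv + ε') ≤ l2 * (Im + ε') :=
      mul_le_mul_of_nonneg_left (by linarith [le_abs_self Iv]) hl2
    rw [hl2x]
    have h15 : (l2 + lx) * (Iv + ε') = l2 * (Iv + ε') + lx * Iv + lx * ε' := by ring
    rw [h15, h12, h13]
    have h16 : Lg * (4 / (1 - 4 * δ) * Iv + ε / 2) =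
      Lg * (ε / 4) + Lg * (4 / (1 - 4 * δ) * Iv) + Lg * (ε / 4) := by ring
    linarith
  have h17 : 0 ≤ A * lkk := by positivity
  have h18 := mul_le_mul_of_nonneg_left h11 h17
  have h19 : S2v ≤ A * lkk * (l2x * (Iv + ε')) + l2x * (CE * (xt * xt * (P * P))) := by
    refine h5.trans (le_of_eq ?_)
    ring
  have h20 : A * lkk * Lg * (4 / (1 - 4 * δ) * Iv + ε) =
      A * lkk * (Lg * (4 / (1 - 4 * δ) * Iv + ε / 2)) + A * lkk * Lg * (ε / 2) := by ring
  rw [h20]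
  linarith

theorem KB_Sx (D0 : ℕ) (x : ℝ) : ∀ p ∈ Sx D0 x, p.Prime ∧ D0 < p := by
  intro p hp
  exact (Finset.mem_filter.1 hp).2

theorem prf_KB (hSUP : C_SUP) (hYM : C_YM) (hBST : C_BST) (hEXT : C_EXT) (hPH : C_PH)
    (hKBQ : C_KBQ) (hL1S : C_L1S) (hS1E : C_S1E) (hUPB : C_UPB) : C_KB := by
  intro w hw k h hk hinj T F hT1 hT2 hF δ hδ hδ' C0 J a b ε hε
  have hd : 0 < 1 - 4 * δ := by linarith
  obtain ⟨CY, hCY, hY⟩ := hYM k T F hT1 hT2 hF δ hδ hδ'
  obtain ⟨DY, hY⟩ := hY 1 one_pos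
  obtain ⟨CB, hCB, hB⟩ := hBST k
  obtain ⟨DB, hB⟩ := hB 1 one_pos
  obtain ⟨MP, VP, hMP, hP⟩ := hPH k T F hT1 hT2 hF C0 J a b
  obtain ⟨DK, hK⟩ := hKBQ k T F hT1 hT2 hF δ hδ hδ' C0 J a b (ε * (1 - 4 * δ) / 16)
    (by positivity)
  obtain ⟨CE, xE, hCE, hE⟩ := hS1E w hw k h hk hinj
  obtain ⟨xU, hU⟩ := hUPB w hw k h
  obtain ⟨xL, hL⟩ := hL1S k
  refine ⟨DY + DB + DK + 3 + ∑ i, h i, fun D0 hD0 => ?_⟩
  obtain ⟨xY, hY⟩ := hY D0 (by omega)
  have hB := hB D0 (by omega)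
  obtain ⟨xK, hK⟩ := hK D0 (by omega)
  have hh : ∀ i, h i ≤ D0 := by
    intro i
    have := Finset.single_le_sum (f := h) (fun j _ => Nat.zero_le _) (Finset.mem_univ i)
    omega
  have hkap := KB_kap D0
  have hW : (0 : ℝ) < primorial D0 := by exact_mod_cast primorial_pos D0
  have hwpos := hw.pos
  rw [← Filter.eventually_atTop (p := fun x => _)]
  have c1 := Real.tendsto_log_atTop.eventually_ge_atTop (CB * (J * |C0| * CY))
  have c2 := Real.tendsto_log_atTop.eventually_ge_atTop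
    ((Real.log 2 * (MP * T ^ k + ε * (1 - 4 * δ) / 16)) / (ε / 4) / ((1 - 4 * δ) / 4))
  have c3 := Real.tendsto_log_atTop.eventually_ge_atTop (1 / (kap D0 * ((1 - 4 * δ) / 4)))
  have c4 := KB_log ((∫ u, w u) / (primorial D0 : ℝ) * (ε / 2)) (4 * δ)
    (1 + 2 * (4 * k + 8)) (by positivity) (by positivity) (2 * CE)
  have c5 := Real.tendsto_log_atTop.eventually_ge_atTop (J * |C0| * CY)
  filter_upwards [c1, c2, c3, c4, c5, eventually_ge_atTop xY, eventually_ge_atTop xK,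
    eventually_ge_atTop xE, eventually_ge_atTop xU, eventually_ge_atTop xL,
    eventually_ge_atTop (2 : ℝ)] with x d1 d2 d3 d4 d5 dY dK dE dU dL dx v0 hv0 m c hc y hy
  have hx0 : 0 < x := by linarith
  have hlx2 : Real.log 2 ≤ Real.log x := Real.log_le_log (by norm_num) dx
  have hl2 : 0 < Real.log 2 := Real.log_pos (by norm_num)
  have hlx : 0 < Real.log x := lt_of_lt_of_le hl2 hlx2
  have hLg : Real.log (Rx δ x) = (1 - 4 * δ) / 4 * Real.log x := by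
    unfold Rx
    rw [Real.log_rpow hx0]
    ring
  have hRx1 : 1 < Rx δ x := Real.one_lt_rpow (by linarith) (by linarith)
  have hlk1 : 1 ≤ lk D0 δ x := by
    unfold lk
    rw [hLg]
    have h1 : 0 < kap D0 * ((1 - 4 * δ) / 4) := mul_pos hkap.1 (by linarith)
    rw [div_le_iff₀ h1] at d3
    linarith
  have hLg1 : 1 ≤ Real.log (Rx δ x) := by
    refine hlk1.trans ?_
    unfold lk
    have h1 : 0 ≤ Real.log (Rx δ x) := (Real.log_pos hRx1).le
    nlinarith [hkap.2]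
  have hlkx : lk D0 δ x ≤ Real.log x := by
    unfold lk
    rw [hLg]
    have h1 : (1 - 4 * δ) / 4 * Real.log x ≤ Real.log x := by nlinarith
    have h2 : 0 ≤ (1 - 4 * δ) / 4 * Real.log x := by positivity
    nlinarith [hkap.2, hkap.1]
  set l := lam aF y with hl
  set Z := Rx δ x ^ 2 with hZ
  -- bounds for y
  have hyb : ∀ r, |y r| ≤ J * |C0| * CY * lk D0 δ x := by
    intro r
    rw [hy r, abs_mul]
    have h1 := KB_stp J a b c C0 hc (sz (Rx δ x) r)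
    have h2 := (hY x dY m r).1
    calc |stp J a b c (sz (Rx δ x) r)| * |ym (Rx δ x) F m r|
        ≤ (J * |C0|) * (CY * lk D0 δ x) :=
          mul_le_mul h1 h2 (abs_nonneg _) (by positivity)
      _ = J * |C0| * CY * lk D0 δ x := by ring
  have hys : ∀ r, y r ≠ 0 → NoC m r ∧ (nrm r : ℝ) ≤ Z := by
    intro r hr
    have h1 : ym (Rx δ x) F m r ≠ 0 := by
      intro h0
      rw [hy r, h0, mul_zero] at hr
      exact hr rfl
    obtain ⟨h2, h3⟩ := (hY x dY m r).2.1 h1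
    exact ⟨h2, KB_size (fun p hp => (KB_Sx D0 x p hp).1) r _ T hRx1 hT2.le h3⟩
  have hS1 : ∀ p ∈ Sx D0 x, 1 ≤ p := fun p hp => (KB_Sx D0 x p hp).1.one_lt.le
  have hls : ∀ d, l d ≠ 0 → NoC m d ∧ (nrm d : ℝ) ≤ Z := by
    intro d hdd
    have h1 := (hSUP (Sx D0 x) k aF hS1 y).1 Z (fun r hr => (hys r hr).2)
    have h2 := (hSUP (Sx D0 x) k aF hS1 y).2 m (fun r hr => (hys r hr).1)
    exact ⟨h2.1 d hdd, h1.1 d hdd⟩
  have hS2 : ∀ p ∈ Sx D0 x, 2 < p := by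
    intro p hp
    have := (KB_Sx D0 x p hp).2
    omega
  obtain ⟨hx1, hx2⟩ := hEXT (Sx D0 x) k m hS2 l Z hls
  have hyx : ∀ u, |yext m Z l u| ≤ Real.log x ^ 2 := by
    intro u
    have h1 := (hB (Sx D0 x) (KB_Sx D0 x) y _ hyb (dl m u)).1
    refine (hx2 u).trans (h1.trans ?_)
    have h2 : CB * (J * |C0| * CY * lk D0 δ x) = CB * (J * |C0| * CY) * lk D0 δ x := by ring
    rw [h2, pow_two]
    have h3 : 0 ≤ lk D0 δ x := by linarith
    exact mul_le_mul d1 hlkx h3 hlx.le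
  have hyxs : ∀ u, yext m Z l u ≠ 0 → (nrm u : ℝ) ≤ x ^ (2 * (1 / 4 - δ)) := by
    intro u hu
    have h1 : (nrm u : ℝ) ≤ Z := by
      by_contra hcc
      apply hu
      unfold yext
      rw [if_neg hcc]
    refine h1.trans (le_of_eq ?_)
    rw [hZ]
    unfold Rx
    rw [← Real.rpow_natCast, ← Real.rpow_mul hx0.le]
    congr 1
    push_cast
    ring
  have hsum := hL x dL D0 (by omega) (2 * (1 / 4 - δ)) (by linarith) (by linarith)
    (yext m Z l) hyx hyxs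
  have hE' := hE x dE D0 v0 (Sx D0 x) hh (KB_Sx D0 x) hv0 (lam aP (yext m Z l))
    (lam aP (yext m Z l))
  have hU' := (hU x dU D0 v0 m l).2 (lam aP (yext m Z l)) hx1
  have hK' := hK x dK m c hc y hy
  have hI := KB_int T MP VP _ (by linarith) (hP m c hc).2
  have hlog2x : Real.log (2 * x) = Real.log 2 + Real.log x :=
    Real.log_mul (by norm_num) hx0.ne'
  unfold Nn
  refine KB_calc (x * (∫ u, w u) / (primorial D0 : ℝ)) (lk D0 δ x ^ k) (Real.log (Rx δ x))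
    (Real.log x) (Real.log (2 * x)) (Real.log 2) _ (MP * T ^ k) ε (ε * (1 - 4 * δ) / 16) δ
    (Qf aP (lam aP (yext m Z l)) (lam aP (yext m Z l)))
    (S1 w h D0 v0 x (lam aP (yext m Z l)) (lam aP (yext m Z l))) _ CE
    (∑ d, |lam aP (yext m Z l) d|) (x ^ (2 * (1 / 4 - δ))) (Real.log x ^ (4 * k + 8)) hδ' hε
    (by positivity) (one_le_pow₀ hlk1) hLg1 hLg hlog2x hl2.le hlx2 hI rfl hK' hE' hU' hCE
    (Finset.sum_nonneg (fun _ _ => abs_nonneg _)) hsum (Real.rpow_nonneg hx0.le _)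
    (by positivity) ?_ ?_
  · rw [div_div, div_le_iff₀ (by positivity)] at d2
    rw [hLg]
    linarith
  · have h1 : x ^ (2 * (1 / 4 - δ)) * x ^ (2 * (1 / 4 - δ)) * x ^ (4 * δ) = x := by
      rw [← Real.rpow_add hx0, ← Real.rpow_add hx0]
      have : 2 * (1 / 4 - δ) + 2 * (1 / 4 - δ) + 4 * δ = 1 := by ring
      rw [this, Real.rpow_one]
    have h2 : 0 ≤ x ^ (2 * (1 / 4 - δ)) * x ^ (2 * (1 / 4 - δ)) := by positivity
    have h3 := mul_le_mul_of_nonneg_left d4 h2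
    have h4 : 2 * CE * (Real.log x * (x ^ (2 * (1 / 4 - δ)) * x ^ (2 * (1 / 4 - δ)) *
        (Real.log x ^ (4 * k + 8) * Real.log x ^ (4 * k + 8)))) =
        x ^ (2 * (1 / 4 - δ)) * x ^ (2 * (1 / 4 - δ)) *
          (2 * CE * Real.log x ^ (1 + 2 * (4 * k + 8))) := by
      have h5 : 1 + 2 * (4 * k + 8) = 1 + ((4 * k + 8) + (4 * k + 8)) := by ring
      rw [h5, pow_add (Real.log x) 1, pow_one, pow_add (Real.log x) (4 * k + 8)]
      ring
    rw [h4]
    refine h3.trans (le_of_eq ?_)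
    calc x ^ (2 * (1 / 4 - δ)) * x ^ (2 * (1 / 4 - δ)) *
        (x ^ (4 * δ) * ((∫ u, w u) / (primorial D0 : ℝ) * (ε / 2)))
        = (x ^ (2 * (1 / 4 - δ)) * x ^ (2 * (1 / 4 - δ)) * x ^ (4 * δ)) *
          ((∫ u, w u) / (primorial D0 : ℝ) * (ε / 2)) := by ring
      _ = x * (∫ u, w u) / (primorial D0 : ℝ) * (ε / 2) := by rw [h1]; ring

end MPb51559.BG
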