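import Pool.Agent.Work.MP_b51559_nt.BG.C.Stmts

set_option autoImplicit false

/-!
# Part C: small common lemmas
-/

namespace MPb51559.BG.U

open Finset Filter Topology MeasureTheory MPb51559.BG
open scoped Classical

section
variable {S : Finset ℕ} {k : ℕ}

theorem mw_nonneg {f : ℕ → ℝ} (r : Co S k) (hf : ∀ p ∈ S, 0 ≤ f p) : 0 ≤ mw f r := by
  unfold mw
  refine prod_nonneg fun p _ => ?_
  split_ifs
  · exact zero_le_one
  · exact hf _ p.2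

theorem mw_pos {f : ℕ → ℝ} (r : Co S k) (hf : ∀ p ∈ S, 0 < f p) : 0 < mw f r := by
  unfold mw
  refine prod_pos fun p _ => ?_
  split_ifs
  · exact zero_lt_one
  · exact hf _ p.2

theorem one_le_mw {f : ℕ → ℝ} (r : Co S k) (hf : ∀ p ∈ S, 1 ≤ f p) : 1 ≤ mw f r := by
  unfold mw
  have h := Finset.prod_le_prod (s := (univ : Finset {p // p ∈ S})) (f := fun _ => (1 : ℝ))
    (g := fun p => if r p = none then 1 else f p) (fun p _ => zero_le_one) fun p _ => by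
      split_ifs
      · exact le_rfl
      · exact hf _ p.2
  simpa using h

theorem mw_le_mw {f g : ℕ → ℝ} (r : Co S k) (hf : ∀ p ∈ S, 0 ≤ f p) (hfg : ∀ p ∈ S, f p ≤ g p) :
    mw f r ≤ mw g r := by
  unfold mw
  refine prod_le_prod (fun p _ => ?_) fun p _ => ?_
  · split_ifs
    · exact zero_le_one
    · exact hf _ p.2
  · split_ifs
    · exact le_rfl
    · exact hfg _ p.2

theorem mw_mul (f g : ℕ → ℝ) (r : Co S k) : mw (fun p => f p * g p) r = mw f r * mw g r := by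
  unfold mw
  rw [← prod_mul_distrib]
  refine prod_congr rfl fun p _ => ?_
  split_ifs <;> simp

theorem mw_div (f g : ℕ → ℝ) (r : Co S k) : mw (fun p => f p / g p) r = mw f r / mw g r := by
  unfold mw
  rw [← prod_div_distrib]
  refine prod_congr rfl fun p _ => ?_
  split_ifs <;> simp

/-- 1 - prod (1 - a) ≤ prod (1 + b) - 1 for 0 ≤ a ≤ b, a ≤ 1 -/
theorem one_sub_mw_le {a b : ℕ → ℝ} (r : Co S k) (ha : ∀ p ∈ S, 0 ≤ a p) (ha1 : ∀ p ∈ S, a p ≤ 1)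
    (hab : ∀ p ∈ S, a p ≤ b p) :
    1 - mw (fun p => 1 - a p) r ≤ mw (fun p => 1 + b p) r - 1 := by
  have key : ∀ s : Finset {p // p ∈ S},
      1 - ∏ p ∈ s, (if r p = none then (1 : ℝ) else 1 - a p) ≤
        ∏ p ∈ s, (if r p = none then (1 : ℝ) else 1 + b p) - 1 ∧
      0 ≤ ∏ p ∈ s, (if r p = none then (1 : ℝ) else 1 - a p) ∧
      ∏ p ∈ s, (if r p = none then (1 : ℝ) else 1 - a p) ≤ 1 ∧
      1 ≤ ∏ p ∈ s, (if r p = none then (1 : ℝ) else 1 + b p) := by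
    intro s
    induction s using Finset.induction_on with
    | empty => simp
    | insert q s hq ih =>
      rw [prod_insert hq, prod_insert hq]
      obtain ⟨h1, h2, h3, h4⟩ := ih
      set A := ∏ p ∈ s, (if r p = none then (1 : ℝ) else 1 - a p)
      set B := ∏ p ∈ s, (if r p = none then (1 : ℝ) else 1 + b p)
      by_cases h : r q = none
      · simp only [h, if_true, one_mul]
        exact ⟨h1, h2, h3, h4⟩
      · simp only [h, if_false]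
        have e1 := ha q q.2
        have e2 := ha1 q q.2
        have e3 := hab q q.2
        refine ⟨?_, ?_, ?_, ?_⟩
        · nlinarith [mul_nonneg e1 h2, mul_le_mul e3 h4 zero_le_one (le_trans e1 e3),
            mul_nonneg e1 (sub_nonneg.2 h3)]
        · exact mul_nonneg (by linarith) h2
        · nlinarith [mul_nonneg e1 h2]
        · nlinarith [mul_nonneg (le_trans e1 e3) (zero_le_one.trans h4)]
  simpa [mw] using (key univ).1

end

theorem sum_sq_le (D0 : ℕ) (hD : 3 ≤ D0) (S : Finset ℕ) (hS : ∀ p ∈ S, D0 < p) :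
    ∑ p ∈ S, 1 / ((p : ℝ) - 2) ^ 2 ≤ 1 / ((D0 : ℝ) - 2) := by
  have key : ∀ N : ℕ, D0 ≤ N → ∑ p ∈ Ioc D0 N, 1 / ((p : ℝ) - 2) ^ 2 ≤
      1 / ((D0 : ℝ) - 2) - 1 / ((N : ℝ) - 2) := by
    intro N hN
    induction N, hN using Nat.le_induction with
    | base => simp
    | succ n hn ih =>
      rw [Finset.sum_Ioc_succ_top hn]
      have h1 : (3 : ℝ) ≤ n := by exact_mod_cast hD.trans hn
      have h2 : (0 : ℝ) < (n : ℝ) - 2 := by linarith
      have h3 : (0 : ℝ) < (n : ℝ) - 1 := by linarith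
      have h4 : 1 / (((n + 1 : ℕ) : ℝ) - 2) ^ 2 ≤ 1 / ((n : ℝ) - 2) - 1 / (((n + 1 : ℕ) : ℝ) - 2) := by
        push_cast
        have e : (n : ℝ) + 1 - 2 = n - 1 := by ring
        rw [e, div_sub_div _ _ h2.ne' h3.ne', div_le_div_iff₀ (by positivity) (by positivity)]
        nlinarith
      linarith
  rcases S.eq_empty_or_nonempty with rfl | hne
  · simp only [sum_empty]
    have : (3 : ℝ) ≤ D0 := by exact_mod_cast hD
    have : (0 : ℝ) < (D0 : ℝ) - 2 := by linarith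
    positivity
  have hsub : S ⊆ Ioc D0 (S.max' hne) := fun p hp => mem_Ioc.2 ⟨hS p hp, S.le_max' p hp⟩
  have hmax : D0 ≤ S.max' hne := (hS _ (S.max'_mem hne)).le
  calc ∑ p ∈ S, 1 / ((p : ℝ) - 2) ^ 2 ≤ ∑ p ∈ Ioc D0 (S.max' hne), 1 / ((p : ℝ) - 2) ^ 2 :=
        sum_le_sum_of_subset_of_nonneg hsub fun p _ _ => by positivity
    _ ≤ 1 / ((D0 : ℝ) - 2) - 1 / (((S.max' hne : ℕ) : ℝ) - 2) := key _ hmax
    _ ≤ 1 / ((D0 : ℝ) - 2) := by
        have : (3 : ℝ) ≤ (S.max' hne : ℕ) := by exact_mod_cast hD.trans hmax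
        have : (0 : ℝ) < ((S.max' hne : ℕ) : ℝ) - 2 := by linarith
        have : 0 ≤ 1 / (((S.max' hne : ℕ) : ℝ) - 2) := by positivity
        linarith

/-- products over primes > D0 of 1 + f p, f p ≤ c/(p-2)^2, are close to 1 -/
theorem prod_le (c ε : ℝ) (hc : 0 ≤ c) (hε : 0 < ε) : ∃ D1 : ℕ, 3 ≤ D1 ∧ ∀ D0 ≥ D1,
    ∀ S : Finset ℕ, (∀ p ∈ S, D0 < p) → ∀ f : ℕ → ℝ, (∀ p ∈ S, 0 ≤ f p) →
    (∀ p ∈ S, f p ≤ c / ((p : ℝ) - 2) ^ 2) → ∏ p ∈ S, (1 + f p) ≤ 1 + ε := by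
  have hlog : 0 < Real.log (1 + ε) := Real.log_pos (by linarith)
  obtain ⟨n, hn⟩ := exists_nat_gt (c / Real.log (1 + ε) + 3)
  refine ⟨max n 3, le_max_right _ _, ?_⟩
  intro D0 hD0 S hS f hf0 hf
  have hD3 : 3 ≤ D0 := (le_max_right _ _).trans hD0
  have hDn : (n : ℝ) ≤ D0 := by exact_mod_cast (le_max_left _ _).trans hD0
  have h3 : (3 : ℝ) ≤ D0 := by exact_mod_cast hD3
  have h2 : (0 : ℝ) < (D0 : ℝ) - 2 := by linarith
  calc ∏ p ∈ S, (1 + f p) ≤ ∏ p ∈ S, Real.exp (f p) :=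
        prod_le_prod (fun p hp => by linarith [hf0 p hp]) fun p hp => by
          rw [add_comm]; exact Real.add_one_le_exp _
    _ = Real.exp (∑ p ∈ S, f p) := (Real.exp_sum _ _).symm
    _ ≤ Real.exp (c * (1 / ((D0 : ℝ) - 2))) := by
        refine Real.exp_le_exp.2 ?_
        calc ∑ p ∈ S, f p ≤ ∑ p ∈ S, c * (1 / ((p : ℝ) - 2) ^ 2) :=
              sum_le_sum fun p hp => by rw [mul_one_div]; exact hf p hp
          _ = c * ∑ p ∈ S, 1 / ((p : ℝ) - 2) ^ 2 := by rw [mul_sum]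
          _ ≤ c * (1 / ((D0 : ℝ) - 2)) := mul_le_mul_of_nonneg_left (sum_sq_le D0 hD3 S hS) hc
    _ ≤ Real.exp (Real.log (1 + ε)) := by
        refine Real.exp_le_exp.2 ?_
        rw [mul_one_div, div_le_iff₀ h2]
        have : c / Real.log (1 + ε) < (D0 : ℝ) - 2 := by linarith
        rw [div_lt_iff₀ hlog] at this
        nlinarith
    _ = 1 + ε := Real.exp_log (by linarith)

/-- the same for products over the subtype -/
theorem prod_le' (c ε : ℝ) (hc : 0 ≤ c) (hε : 0 < ε) : ∃ D1 : ℕ, 3 ≤ D1 ∧ ∀ D0 ≥ D1,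
    ∀ S : Finset ℕ, (∀ p ∈ S, D0 < p) → ∀ f : ℕ → ℝ, (∀ p ∈ S, 0 ≤ f p) →
    (∀ p ∈ S, f p ≤ c / ((p : ℝ) - 2) ^ 2) → ∏ p : {p // p ∈ S}, (1 + f p) ≤ 1 + ε := by
  obtain ⟨D1, h1, h2⟩ := prod_le c ε hc hε
  refine ⟨D1, h1, fun D0 hD0 S hS f hf0 hf => ?_⟩
  have := h2 D0 hD0 S hS f hf0 hf
  rwa [← Finset.prod_coe_sort S (fun p => 1 + f p)] at this

theorem log_Rx (δ x : ℝ) (hx : 0 < x) : Real.log (Rx δ x) = (1 / 4 - δ) * Real.log x := by
  unfold Rx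
  rw [Real.log_rpow hx]

theorem kap_pos (D0 : ℕ) : 0 < kap D0 := by
  unfold kap
  have h1 : 0 < primorial D0 := primorial_pos D0
  have h2 : 0 < (primorial D0).totient := Nat.totient_pos.2 h1
  positivity

theorem kap_le_one (D0 : ℕ) : kap D0 ≤ 1 := by
  unfold kap
  have h1 : 0 < primorial D0 := primorial_pos D0
  rw [div_le_one (by exact_mod_cast h1)]
  exact_mod_cast Nat.totient_le _

theorem lk_eq (D0 : ℕ) (δ x : ℝ) (hx : 0 < x) :
    lk D0 δ x = kap D0 * ((1 / 4 - δ) * Real.log x) := by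
  unfold lk
  rw [log_Rx δ x hx]

theorem lk_pos (D0 : ℕ) (δ x : ℝ) (hδ : δ < 1 / 8) (hx : 1 < x) : 0 < lk D0 δ x := by
  rw [lk_eq D0 δ x (by linarith)]
  have := Real.log_pos hx
  have := kap_pos D0
  have : 0 < 1 / 4 - δ := by linarith
  positivity

theorem kl_le (D0 : ℕ) (δ x : ℝ) (hδ : δ < 1 / 8) (hx : 1 < x) : kl D0 x ≤ 8 * lk D0 δ x := by
  rw [lk_eq D0 δ x (by linarith)]
  unfold kl
  have h1 := Real.log_pos hx
  have h2 := kap_pos D0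
  nlinarith [mul_pos h2 h1]

theorem lk_le_kl (D0 : ℕ) (δ x : ℝ) (hδ : 0 ≤ δ) (hx : 1 < x) : lk D0 δ x ≤ kl D0 x := by
  rw [lk_eq D0 δ x (by linarith)]
  unfold kl
  have h1 := Real.log_pos hx
  have h2 := kap_pos D0
  nlinarith [mul_pos h2 h1, mul_nonneg (mul_pos h2 h1).le hδ]

theorem lk_le_log (D0 : ℕ) (δ x : ℝ) (hδ : 0 ≤ δ) (hx : 1 < x) : lk D0 δ x ≤ Real.log x := by
  refine (lk_le_kl D0 δ x hδ hx).trans ?_
  unfold kl
  have h1 := Real.log_pos hx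
  nlinarith [kap_le_one D0]

theorem Rx_gt_one (δ x : ℝ) (hδ : δ < 1 / 8) (hx : 1 < x) : 1 < Rx δ x :=
  Real.one_lt_rpow hx (by linarith)

theorem Rx_rpow_le (δ x s : ℝ) (hδ0 : 0 ≤ δ) (hx : 1 ≤ x) (hs0 : 0 ≤ s) (hs : s ≤ 2) :
    Rx δ x ^ s ≤ Real.sqrt x := by
  unfold Rx
  rw [← Real.rpow_mul (by linarith), Real.sqrt_eq_rpow]
  exact Real.rpow_le_rpow_of_exponent_le hx (by nlinarith)

theorem Hs_mono (S : Finset ℕ) {z z' : ℝ} (h : z ≤ z') : Hs S z ≤ Hs S z' := by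
  unfold Hs
  refine sum_le_sum_of_subset_of_nonneg ?_ fun n _ _ => by positivity
  intro n hn
  unfold SqF at hn ⊢
  rw [mem_filter, mem_Icc] at hn ⊢
  exact ⟨⟨hn.1.1, hn.1.2.trans (Nat.floor_le_floor h)⟩, hn.2⟩

theorem Hs_nonneg (S : Finset ℕ) (z : ℝ) : 0 ≤ Hs S z :=
  sum_nonneg fun n _ => by positivity

theorem Ev_and {P Q : ℕ → ℝ → Prop} (hP : Ev P) (hQ : Ev Q) : Ev fun D x => P D x ∧ Q D x := by
  obtain ⟨D1, h1⟩ := hP
  obtain ⟨D2, h2⟩ := hQ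
  refine ⟨max D1 D2, fun D0 hD => ?_⟩
  obtain ⟨x1, h1⟩ := h1 D0 ((le_max_left _ _).trans hD)
  obtain ⟨x2, h2⟩ := h2 D0 ((le_max_right _ _).trans hD)
  exact ⟨max x1 x2, fun x hx => ⟨h1 x ((le_max_left _ _).trans hx), h2 x ((le_max_right _ _).trans hx)⟩⟩

theorem Ev_mono {P Q : ℕ → ℝ → Prop} (hP : Ev P) (h : ∀ D x, P D x → Q D x) : Ev Q := by
  obtain ⟨D1, h1⟩ := hP
  refine ⟨D1, fun D0 hD => ?_⟩
  obtain ⟨x1, h1⟩ := h1 D0 hD
  exact ⟨x1, fun x hx => h _ _ (h1 x hx)⟩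

/-- eventually x > 1, D0 large -/
theorem Ev_triv (D1 : ℕ) (f : ℕ → ℝ) : Ev fun D x => D1 ≤ D ∧ f D ≤ x :=
  ⟨D1, fun D0 hD => ⟨f D0, fun _ hx => ⟨hD, hx⟩⟩⟩

theorem Sx_prime {D0 : ℕ} {x : ℝ} {p : ℕ} (hp : p ∈ Sx D0 x) : p.Prime ∧ D0 < p ∧ p < ⌊x⌋₊ := by
  unfold Sx at hp
  rw [mem_filter, mem_range] at hp
  exact ⟨hp.2.1, hp.2.2, hp.1⟩

end MPb51559.BG.U
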