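import Pool.Agent.Work.MP_b51559_nt.BG.C.Stmts2
import Pool.Agent.Work.MP_b51559_nt.BG.C.Util

set_option autoImplicit false

/-!
# Part C, item KBQ: the form of the extension of a step multiple of slices
-/

namespace MPb51559.BG

open Finset Filter Topology MeasureTheory
open scoped Classical

theorem KBQ_all {k : ℕ} {P : Fin k → ℕ → ℝ → Prop} (h : ∀ m, Ev (P m)) :
    Ev fun D x => ∀ m, P m D x := by
  choose D1 h1 using h
  refine ⟨univ.sup D1, fun D0 hD => ?_⟩
  have h2 : ∀ m, ∃ x0 : ℝ, ∀ x ≥ x0, P m D0 x := fun m =>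
    h1 m D0 (le_trans (Finset.le_sup (mem_univ m)) hD)
  choose x0 h3 using h2
  rcases isEmpty_or_nonempty (Fin k) with he | hne
  · exact ⟨0, fun x _ m => he.elim m⟩
  · exact ⟨univ.sup' univ_nonempty x0, fun x hx m =>
      h3 m x (le_trans (Finset.le_sup' x0 (mem_univ m)) hx)⟩

theorem KBQ_stp {J : ℕ} {a b c : ℕ → ℝ} {C0 : ℝ} (hc : ∀ j < J, |c j| ≤ C0) (s : ℝ) :
    |stp J a b c s| ≤ J * max C0 0 := by
  unfold stp
  refine (Finset.abs_sum_le_sum_abs _ _).trans ?_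
  calc ∑ j ∈ range J, |c j * (if a j < s ∧ s ≤ b j then 1 else 0)|
      ≤ ∑ j ∈ range J, max C0 0 := by
        refine sum_le_sum fun j hj => ?_
        split_ifs
        · rw [mul_one]
          exact (hc j (mem_range.1 hj)).trans (le_max_left _ _)
        · rw [mul_zero, abs_zero]
          exact le_max_right _ _
    _ = _ := by simp

theorem KBQ_num {β y v G s T K1 K2 K3 e μ : ℝ} (hs : s ≤ T) (hT : T < 2) (h1 : |β| ≤ K1)
    (h2 : |β - y| ≤ K1 * (e + μ)) (h3 : |y - v| ≤ K2 * (e + μ)) (h4 : |v| ≤ K3)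
    (hG1 : 1 ≤ G) (hG : G - 1 ≤ μ) (he : 0 ≤ e) :
    |β ^ 2 * G / (2 - s) - v ^ 2 / (2 - s)| ≤
      (K1 ^ 2 + (K1 + K3) * (K1 + K2)) / (2 - T) * (e + μ) := by
  have hK1 : 0 ≤ K1 := (abs_nonneg _).trans h1
  have hK3 : 0 ≤ K3 := (abs_nonneg _).trans h4
  have hμ : 0 ≤ μ := by linarith
  have hTs : 0 < 2 - T := by linarith
  have hss : 0 < 2 - s := by linarith
  have hbv : |β - v| ≤ (K1 + K2) * (e + μ) := by
    have : β - v = (β - y) + (y - v) := by ring
    rw [this]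
    refine (abs_add_le _ _).trans ?_
    linarith
  have hbv2 : |β + v| ≤ K1 + K3 := (abs_add_le _ _).trans (add_le_add h1 h4)
  have hb2 : β ^ 2 ≤ K1 ^ 2 := by
    rw [← sq_abs β]
    exact pow_le_pow_left₀ (abs_nonneg _) h1 2
  have hmain : |β ^ 2 * G - v ^ 2| ≤ (K1 ^ 2 + (K1 + K3) * (K1 + K2)) * (e + μ) := by
    have e1 : β ^ 2 * G - v ^ 2 = β ^ 2 * (G - 1) + (β + v) * (β - v) := by ring
    rw [e1]
    refine (abs_add_le _ _).trans ?_
    rw [abs_mul, abs_mul, abs_of_nonneg (sq_nonneg β), abs_of_nonneg (by linarith : 0 ≤ G - 1)]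
    have a1 : β ^ 2 * (G - 1) ≤ K1 ^ 2 * (e + μ) :=
      mul_le_mul hb2 (by linarith) (by linarith) (sq_nonneg _)
    have a2 : |β + v| * |β - v| ≤ (K1 + K3) * ((K1 + K2) * (e + μ)) :=
      mul_le_mul hbv2 hbv (abs_nonneg _) (by linarith)
    linarith
  rw [← sub_div, abs_div, abs_of_pos hss]
  calc |β ^ 2 * G - v ^ 2| / (2 - s) ≤ |β ^ 2 * G - v ^ 2| / (2 - T) :=
        div_le_div_of_nonneg_left (abs_nonneg _) hTs (by linarith)
    _ ≤ (K1 ^ 2 + (K1 + K3) * (K1 + K2)) * (e + μ) / (2 - T) :=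
        div_le_div_of_nonneg_right hmain hTs.le
    _ = _ := by ring

theorem KBQ_mem {R : ℝ} (hR : 1 < R) {n : ℕ} (hn : 0 < n) (s : ℝ) :
    (n : ℝ) ≤ R ^ s ↔ Real.log (n : ℝ) / Real.log R ≤ s := by
  have hR0 : 0 < R := by linarith
  have hl : 0 < Real.log R := Real.log_pos hR
  have hn' : (0 : ℝ) < n := by exact_mod_cast hn
  rw [div_le_iff₀ hl, ← Real.log_le_log_iff hn' (Real.rpow_pos_of_pos hR0 _), Real.log_rpow hR0]

theorem KBQ_tv {S : Finset ℕ} {k : ℕ} (R : ℝ) (m : Fin k) (r : Co S k) (h : NoC m r) :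
    tv R r m = 0 := by
  have h1 : prt m r = 1 := by
    unfold prt
    refine Finset.prod_eq_one fun p _ => ?_
    rw [if_neg (h p)]
  unfold tv
  rw [h1, Nat.cast_one, Real.log_one, zero_div]

theorem KBQ_int {k : ℕ} {T M : ℝ} {V : NNReal} {Φ : (Fin k → ℝ) → ℝ} (hT : 0 ≤ T)
    (h : BVk k T M V Φ) : ∫ t, Φ t ≤ M * T ^ k := by
  have h1 : ∫ t, Φ t = ∫ t in Set.Icc (fun _ : Fin k => (0 : ℝ)) (fun _ => T), Φ t := by
    symm
    refine MeasureTheory.setIntegral_eq_integral_of_forall_compl_eq_zero fun t ht => ?_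
    by_contra h2
    exact ht ⟨fun i => (h.supp t h2 i).1, fun i => (h.supp t h2 i).2⟩
  rw [h1]
  refine (le_abs_self _).trans ?_
  have hfin : volume (Set.Icc (fun _ : Fin k => (0 : ℝ)) (fun _ => T)) < ⊤ :=
    isCompact_Icc.measure_lt_top
  have h2 := MeasureTheory.norm_setIntegral_le_of_norm_le_const (μ := volume)
    (s := Set.Icc (fun _ : Fin k => (0 : ℝ)) (fun _ => T)) (f := Φ) (C := M) hfin
    (fun t _ => by rw [Real.norm_eq_abs]; exact h.bdd t)
  rw [Real.norm_eq_abs] at h2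
  refine h2.trans (le_of_eq ?_)
  rw [MeasureTheory.measureReal_def, Real.volume_Icc_pi_toReal (fun _ => hT)]
  simp

theorem KBQ_loc {p : ℝ} (hp : 3 < p) {k : ℕ} {C : ℝ} (hC : 2 * (k : ℝ) + 1 ≤ C) :
    (1 + (k : ℝ) / (p - 1)) * (1 + 1 / (p - 1)) ≤ 1 + C / (p - 2) := by
  have h1 : 0 < p - 1 := by linarith
  have h2 : 0 < p - 2 := by linarith
  have hk : (0 : ℝ) ≤ k := Nat.cast_nonneg k
  have hu : 1 / (p - 1) ≤ 1 := by
    rw [div_le_one h1]
    linarith
  have hu0 : 0 < 1 / (p - 1) := by positivity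
  have hv : 1 / (p - 1) ≤ 1 / (p - 2) := one_div_le_one_div_of_le h2 (by linarith)
  have e1 : (k : ℝ) / (p - 1) = k * (1 / (p - 1)) := by ring
  have e2 : C / (p - 2) = C * (1 / (p - 2)) := by ring
  rw [e1, e2]
  set u := 1 / (p - 1)
  set v := 1 / (p - 2)
  have h3 : k * (u * u) ≤ k * u := by
    refine mul_le_mul_of_nonneg_left ?_ hk
    nlinarith
  have h4 : (2 * (k : ℝ) + 1) * u ≤ C * v :=
    mul_le_mul hC hv hu0.le (by linarith)
  nlinarith

/-- the comparison of one term of the sum of EXTQ -/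
theorem KBQ_term {B A H G l s e : ℝ} (hA : 0 < A) (hl : 0 < l) (hs : s < 2) (hG : 0 ≤ G)
    (he : 0 < e) (he2 : e ≤ 1 / 2) (hH : l * (2 - s) * (1 - e) ≤ H) :
    B ^ 2 / (A * H) * G ≤ (1 + 2 * e) * l * ((B / l) ^ 2 * G / (2 - s) / A) := by
  have h2s : 0 < 2 - s := by linarith
  have hls : 0 < l * (2 - s) := mul_pos hl h2s
  have h1e : 0 < 1 - e := by linarith
  have hH0 : 0 < H := lt_of_lt_of_le (mul_pos hls h1e) hH
  have key : 1 / H ≤ (1 + 2 * e) / (l * (2 - s)) := by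
    rw [div_le_div_iff₀ hH0 hls, one_mul]
    have h3 : 1 ≤ (1 + 2 * e) * (1 - e) := by nlinarith
    calc l * (2 - s) = l * (2 - s) * 1 := by ring
      _ ≤ l * (2 - s) * ((1 + 2 * e) * (1 - e)) := mul_le_mul_of_nonneg_left h3 hls.le
      _ = (1 + 2 * e) * (l * (2 - s) * (1 - e)) := by ring
      _ ≤ (1 + 2 * e) * H := mul_le_mul_of_nonneg_left hH (by linarith)
  have e1 : B ^ 2 / (A * H) * G = (B ^ 2 * G / A) * (1 / H) := by
    field_simp
  have e2 : (1 + 2 * e) * l * ((B / l) ^ 2 * G / (2 - s) / A) =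
      (B ^ 2 * G / A) * ((1 + 2 * e) / (l * (2 - s))) := by
    field_simp
  rw [e1, e2]
  exact mul_le_mul_of_nonneg_left key (by positivity)

theorem KBQ_fin {Q Sg l l' I A ε e : ℝ} (hl : 0 < l) (hl' : 0 < l') (he0 : 0 < e)
    (he2 : e ≤ 1 / 2) (he3 : 4 * e * (A + ε / 2) ≤ ε / 2) (hSg0 : 0 ≤ Sg) (hIA : I ≤ A)
    (hSgI : Sg ≤ l' * (I + ε / 2)) (h : Q ≤ (1 + e) * ((1 + 2 * e) * l * Sg)) :
    Q ≤ l * l' * (I + ε) := by
  have hfac : (1 + e) * (1 + 2 * e) ≤ 1 + 4 * e := by nlinarith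
  calc Q ≤ (1 + e) * ((1 + 2 * e) * l * Sg) := h
    _ = (1 + e) * (1 + 2 * e) * (l * Sg) := by ring
    _ ≤ (1 + 4 * e) * (l * Sg) := mul_le_mul_of_nonneg_right hfac (by positivity)
    _ ≤ (1 + 4 * e) * (l * (l' * (I + ε / 2))) := by
        refine mul_le_mul_of_nonneg_left ?_ (by linarith)
        exact mul_le_mul_of_nonneg_left hSgI hl.le
    _ = l * l' * ((1 + 4 * e) * (I + ε / 2)) := by ring
    _ ≤ l * l' * (I + ε) := by
        refine mul_le_mul_of_nonneg_left ?_ (by positivity)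
        have h1 : 4 * e * (I + ε / 2) ≤ 4 * e * (A + ε / 2) :=
          mul_le_mul_of_nonneg_left (by linarith) (by linarith)
        linarith

theorem prf_KBQ (hBAS : C_BAS) (hSUP : C_SUP) (hONE : C_ONE) (hYM : C_YM) (hBST : C_BST)
    (hEXTQ : C_EXTQ) (hMG : C_MG) (hPH : C_PH) (hAPX : C_APX) : C_KBQ := by
  intro k T F hT1 hT2 hF δ hδ hδ8 C0 J a b ε hε
  rcases isEmpty_or_nonempty (Fin k) with hem | hne
  · exact ⟨0, fun _ _ => ⟨0, fun _ _ m => hem.elim m⟩⟩
  obtain ⟨CY, hCY0, hY⟩ := hYM k T F hT1 hT2 hF δ hδ hδ8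
  obtain ⟨CB, hCB0, hB⟩ := hBST k
  obtain ⟨Mm, Vm, hMm0, hM⟩ := hMG k T F (by linarith) hF
  obtain ⟨MP, VP, hMP0, hP⟩ := hPH k T F hT1 hT2 hF C0 J a b
  have hk0 : (0 : ℝ) ≤ k := Nat.cast_nonneg k
  have hT2' : 0 < 2 - T := by linarith
  obtain ⟨Bs, hBsdef⟩ : ∃ Bs : ℝ, Bs = J * max C0 0 := ⟨_, rfl⟩
  have hBs : 0 ≤ Bs := by
    rw [hBsdef]
    exact mul_nonneg (Nat.cast_nonneg J) (le_max_right _ _)
  obtain ⟨K1, hK1⟩ : ∃ K1 : ℝ, K1 = CB * (Bs * CY) := ⟨_, rfl⟩
  obtain ⟨K2, hK2⟩ : ∃ K2 : ℝ, K2 = Bs * CY := ⟨_, rfl⟩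
  obtain ⟨K3, hK3⟩ : ∃ K3 : ℝ, K3 = Bs * Mm := ⟨_, rfl⟩
  have hK10 : 0 ≤ K1 := by rw [hK1]; positivity
  have hK20 : 0 ≤ K2 := by rw [hK2]; positivity
  have hK30 : 0 ≤ K3 := by rw [hK3]; positivity
  obtain ⟨K, hK⟩ : ∃ K : ℝ, K = (K1 ^ 2 + (K1 + K3) * (K1 + K2)) / (2 - T) := ⟨_, rfl⟩
  have hK0 : 0 ≤ K := by rw [hK]; positivity
  obtain ⟨C, hC⟩ : ∃ C : ℝ, C = K + (2 * k + 1) + CB + CY := ⟨_, rfl⟩
  have hCK : K ≤ C := by rw [hC]; linarith
  have hCk : 2 * (k : ℝ) + 1 ≤ C := by rw [hC]; linarith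
  have hCB : CB ≤ C := by rw [hC]; linarith
  have hCY : CY ≤ C := by rw [hC]; linarith
  have hC0 : 0 ≤ C := by linarith
  obtain ⟨A, hA⟩ : ∃ A : ℝ, A = MP * T ^ k := ⟨_, rfl⟩
  have hA0 : 0 ≤ A := by rw [hA]; positivity
  obtain ⟨e, he⟩ : ∃ e : ℝ, e = min (1 / 2) (ε / (8 * (A + ε / 2))) := ⟨_, rfl⟩
  have he0 : 0 < e := by
    rw [he]
    exact lt_min (by norm_num) (by positivity)
  have he2 : e ≤ 1 / 2 := by
    rw [he]
    exact min_le_left _ _
  have he3 : 4 * e * (A + ε / 2) ≤ ε / 2 := by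
    have h1 : e ≤ ε / (8 * (A + ε / 2)) := by
      rw [he]
      exact min_le_right _ _
    rw [le_div_iff₀ (by positivity)] at h1
    linarith
  have hAP := fun m : Fin k => hAPX k m T MP C VP δ hT1.le hT2.le hMP0 hC0 hδ hδ8 (ε / 2)
    (by positivity)
  choose e1 he1 hE1 using hAP
  obtain ⟨em, hemdef⟩ : ∃ em : ℝ, em = univ.inf' univ_nonempty e1 := ⟨_, rfl⟩
  have hem0 : 0 < em := by
    rw [hemdef, Finset.lt_inf'_iff]
    exact fun m _ => he1 m
  have heme : ∀ m, em ≤ e1 m := fun m => by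
    rw [hemdef]
    exact Finset.inf'_le _ (mem_univ m)
  obtain ⟨D2, hD2⟩ := hB em hem0
  obtain ⟨D3, hD33, hD3⟩ := U.prod_le' k e hk0 he0
  obtain ⟨D1, hD1⟩ := U.Ev_and (KBQ_all hE1) (hY em hem0)
  refine ⟨max (max D1 D2) D3, fun D0 hD0 => ?_⟩
  have hD01 : D0 ≥ D1 := (le_max_left _ _).trans ((le_max_left _ _).trans hD0)
  have hD02 : D0 ≥ D2 := (le_max_right _ _).trans ((le_max_left _ _).trans hD0)
  have hD03 : D0 ≥ D3 := (le_max_right _ _).trans hD0
  have hD0s : 3 ≤ D0 := hD33.trans hD03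
  have hkap : 0 < kap D0 := U.kap_pos D0
  obtain ⟨x1, hx1⟩ := hD1 D0 hD01
  obtain ⟨x2, hx2⟩ := hONE D0 (by omega) (kap D0 * (2 - T) * e / 8) (by positivity)
  refine ⟨max (max x1 x2) 2, fun x hx m c hc y hy => ?_⟩
  have hxa : x1 ≤ x := (le_max_left _ _).trans ((le_max_left _ _).trans hx)
  have hxb : x2 ≤ x := (le_max_right _ _).trans ((le_max_left _ _).trans hx)
  have hxc : 2 ≤ x := (le_max_right _ _).trans hx
  have hx1' : 1 < x := by linarith
  obtain ⟨hX1, hX2⟩ := hx1 x hxa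
  have hX3 := hx2 x hxb
  have hR := U.Rx_gt_one δ x hδ8 hx1'
  have hR0 : 0 < Rx δ x := by linarith
  have hlk : 0 < lk D0 δ x := U.lk_pos D0 δ x hδ8 hx1'
  have hkl : kl D0 x ≤ 8 * lk D0 δ x := U.kl_le D0 δ x hδ8 hx1'
  have hSp : ∀ p ∈ Sx D0 x, p.Prime := fun p hp => (U.Sx_prime hp).1
  have hSD : ∀ p ∈ Sx D0 x, D0 < p := fun p hp => (U.Sx_prime hp).2.1
  have hS3 : ∀ p ∈ Sx D0 x, (3 : ℝ) < p := fun p hp => by
    have := hSD p hp
    have : 3 < p := by omega
    exact_mod_cast this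
  have hbas := hBAS (Sx D0 x) k hSp
  have hmw : ∀ r : Co (Sx D0 x) k, 0 < mw aF r := by
    intro r
    obtain ⟨-, h1, -, -, h2, -⟩ := hbas r
    rw [h2]
    exact_mod_cast Nat.totient_pos.2 h1
  -- the variables
  have hYb : ∀ r, |y r| ≤ Bs * CY * lk D0 δ x := by
    intro r
    rw [hy r, abs_mul]
    have h1 := KBQ_stp (a := a) (b := b) hc (sz (Rx δ x) r)
    rw [← hBsdef] at h1
    calc _ ≤ Bs * (CY * lk D0 δ x) := mul_le_mul h1 (hX2 m r).1 (abs_nonneg _) hBs
      _ = _ := by ring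
  have hYs : ∀ r, y r ≠ 0 → NoC m r ∧ (nrm r : ℝ) ≤ Rx δ x ^ T := by
    intro r hr
    have h1 : ym (Rx δ x) F m r ≠ 0 := by
      intro h
      rw [hy r, h, mul_zero] at hr
      exact hr rfl
    obtain ⟨h2, h3⟩ := (hX2 m r).2.1 h1
    exact ⟨h2, (KBQ_mem hR (hbas r).2.1 T).2 h3⟩
  have hS1 : ∀ p ∈ Sx D0 x, 1 ≤ p := fun p hp => (hSp p hp).one_lt.le
  have hL1 := ((hSUP (Sx D0 x) k aF hS1 y).1 (Rx δ x ^ T) fun r hr => (hYs r hr).2).1
  have hL2 := ((hSUP (Sx D0 x) k aF hS1 y).2 m fun r hr => (hYs r hr).1).1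
  have hB1 := ((hSUP (Sx D0 x) k aP hS1 (lam aF y)).1 (Rx δ x ^ T) hL1).2
  have hB2 := ((hSUP (Sx D0 x) k aP hS1 (lam aF y)).2 m hL2).2
  have hRT : Rx δ x ^ T ≤ Rx δ x ^ 2 := by
    rw [← Real.rpow_natCast]
    exact Real.rpow_le_rpow_of_exponent_le hR.le (by push_cast; linarith)
  have hR2x : Rx δ x ^ 2 ≤ Real.sqrt x := by
    have := U.Rx_rpow_le δ x 2 hδ.le hx1'.le (by norm_num) le_rfl
    rwa [Real.rpow_two] at this
  have hBb := hD2 D0 hD02 (Sx D0 x) (fun p hp => ⟨hSp p hp, hSD p hp⟩) y _ hYb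
  have hQ := hEXTQ (Sx D0 x) k m (fun p hp => ⟨hSp p hp, by have := hSD p hp; omega⟩)
    (lam aF y) (Rx δ x ^ 2) (one_le_pow₀ hR.le) (fun d hd => ⟨hL2 d hd, (hL1 d hd).trans hRT⟩)
  set Q := Qf aP (lam aP (yext m (Rx δ x ^ 2) (lam aF y)))
    (lam aP (yext m (Rx δ x ^ 2) (lam aF y))) with hQdef
  set Bf : Co (Sx D0 x) k → ℝ := ytr aP (lam aF y) with hBf
  set G : Co (Sx D0 x) k → ℝ := fun r =>
    mw (fun p => (1 + (k : ℝ) / ((p : ℝ) - 1)) * (1 + 1 / ((p : ℝ) - 1))) r with hG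
  set f : Co (Sx D0 x) k → ℝ := fun r =>
    (Bf r / lk D0 δ x) ^ 2 * G r / (2 - sz (Rx δ x) r) with hf
  set Φ : (Fin k → ℝ) → ℝ := fun t => stp J a b c (so m t) ^ 2 * marg F m t ^ 2 / (2 - so m t)
    with hΦ
  have hBsz : ∀ r, Bf r ≠ 0 → sz (Rx δ x) r ≤ T := fun r hr =>
    (KBQ_mem hR (hbas r).2.1 T).1 (hB1 r hr)
  have hG1 : ∀ r, 1 ≤ G r := fun r => U.one_le_mw r fun p hp => by
    have h3 := hS3 p hp
    have h1 : 0 < (p : ℝ) - 1 := by linarith
    have h2 : 1 ≤ 1 + (k : ℝ) / ((p : ℝ) - 1) := by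
      have : 0 ≤ (k : ℝ) / ((p : ℝ) - 1) := by positivity
      linarith
    have h4 : 1 ≤ 1 + 1 / ((p : ℝ) - 1) := by
      have : 0 ≤ 1 / ((p : ℝ) - 1) := by positivity
      linarith
    exact one_le_mul_of_one_le_of_one_le h2 h4
  have hμ : ∀ (C' : ℝ), 0 ≤ C' → C' ≤ C → ∀ r : Co (Sx D0 x) k,
      mw (fun p => 1 + C' / ((p : ℝ) - 2)) r ≤ mw (fun p => 1 + C / ((p : ℝ) - 2)) r := by
    intro C' hC' hCC r
    refine U.mw_le_mw r (fun p hp => ?_) fun p hp => ?_
    · have h3 := hS3 p hp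
      have h2 : 0 < (p : ℝ) - 2 := by linarith
      positivity
    · have h3 := hS3 p hp
      have h2 : 0 < (p : ℝ) - 2 := by linarith
      have := div_le_div_of_nonneg_right hCC h2.le
      linarith
  have hGμ : ∀ r, G r ≤ mw (fun p => 1 + C / ((p : ℝ) - 2)) r := fun r =>
    U.mw_le_mw r (fun p hp => by
      have h3 := hS3 p hp
      have h1 : 0 < (p : ℝ) - 1 := by linarith
      positivity) fun p hp => KBQ_loc (hS3 p hp) hCk
  have hf0 : ∀ r, 0 ≤ f r := by
    intro r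
    by_cases hr : Bf r = 0
    · simp only [hf]
      rw [hr]
      simp
    · have h1 := hBsz r hr
      have h2 : 0 < 2 - sz (Rx δ x) r := by linarith
      have h3 : 0 ≤ G r := zero_le_one.trans (hG1 r)
      simp only [hf]
      positivity
  -- application of APX
  have hAp := hX1 m Φ f
    (by
      intro t s
      have h1 : so m (Function.update t m s) = so m t := by
        unfold so
        refine Finset.sum_congr rfl fun j hj => ?_
        rw [Function.update_of_ne (Finset.ne_of_mem_erase hj)]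
      simp only [hΦ]
      rw [h1, (hM m).2.2.1 t s])
    (hP m c hc).2
    (by
      intro t ht
      have h1 : marg F m t ≠ 0 := by
        intro h
        apply ht
        simp only [hΦ]
        rw [h]
        simp
      have h2 := ((hM m).2.2.2.1 t h1).2
      linarith)
    (by
      intro r hr
      have h1 : Bf r ≠ 0 := by
        intro h
        apply hr
        simp only [hf]
        rw [h]
        simp
      have := hBsz r h1
      linarith)
    (by
      intro r hr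
      have hsz : sz (Rx δ x) r = so m (tv (Rx δ x) r) := by
        obtain ⟨-, -, -, -, -, -, -, -, hsz, -⟩ := hbas r
        rw [hsz (Rx δ x), ← Finset.add_sum_erase _ _ (Finset.mem_univ m),
          KBQ_tv (Rx δ x) m r hr, zero_add]
        rfl
      have hμ0 : 0 ≤ mw (fun p => 1 + C / ((p : ℝ) - 2)) r - 1 := by
        have := (hG1 r).trans (hGμ r)
        linarith
      by_cases hs : sz (Rx δ x) r ≤ T
      · have h1 : |Bf r / lk D0 δ x| ≤ K1 := by
          rw [abs_div, abs_of_pos hlk, div_le_iff₀ hlk, hK1]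
          refine ((hBb r).1).trans (le_of_eq ?_)
          ring
        have h2 : |Bf r / lk D0 δ x - y r / lk D0 δ x| ≤
            K1 * (em + (mw (fun p => 1 + C / ((p : ℝ) - 2)) r - 1)) := by
          rw [← sub_div, abs_div, abs_of_pos hlk, div_le_iff₀ hlk]
          refine ((hBb r).2).trans ?_
          have h3 := hμ CB hCB0 hCB r
          have h4 : 0 ≤ CB * (Bs * CY * lk D0 δ x) := by positivity
          calc CB * (Bs * CY * lk D0 δ x) * (em + (mw (fun p => 1 + CB / ((p : ℝ) - 2)) r - 1))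
              ≤ CB * (Bs * CY * lk D0 δ x) * (em + (mw (fun p => 1 + C / ((p : ℝ) - 2)) r - 1)) :=
                mul_le_mul_of_nonneg_left (by linarith) h4
            _ = _ := by rw [hK1]; ring
        have h3 : |y r / lk D0 δ x - stp J a b c (sz (Rx δ x) r) * marg F m (tv (Rx δ x) r)| ≤
            K2 * (em + (mw (fun p => 1 + C / ((p : ℝ) - 2)) r - 1)) := by
          have e1 : y r / lk D0 δ x - stp J a b c (sz (Rx δ x) r) * marg F m (tv (Rx δ x) r) =
              stp J a b c (sz (Rx δ x) r) * ((ym (Rx δ x) F m r -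
                lk D0 δ x * marg F m (tv (Rx δ x) r)) / lk D0 δ x) := by
            rw [hy r]
            field_simp
          rw [e1, abs_mul, abs_div, abs_of_pos hlk]
          have h4 := (hX2 m r).2.2 hr
          have h5 := hμ CY hCY0 hCY r
          have h6 := KBQ_stp (a := a) (b := b) hc (sz (Rx δ x) r)
          rw [← hBsdef] at h6
          have h7 : |ym (Rx δ x) F m r - lk D0 δ x * marg F m (tv (Rx δ x) r)| / lk D0 δ x ≤
              CY * (em + (mw (fun p => 1 + C / ((p : ℝ) - 2)) r - 1)) := by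
            rw [div_le_iff₀ hlk]
            refine h4.trans ?_
            rw [mul_comm (lk D0 δ x)]
            refine mul_le_mul_of_nonneg_right ?_ hlk.le
            exact mul_le_mul_of_nonneg_left (by linarith) hCY0
          calc _ ≤ Bs * (CY * (em + (mw (fun p => 1 + C / ((p : ℝ) - 2)) r - 1))) :=
                mul_le_mul h6 h7 (by positivity) hBs
            _ = _ := by rw [hK2]; ring
        have h4 : |stp J a b c (sz (Rx δ x) r) * marg F m (tv (Rx δ x) r)| ≤ K3 := by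
          rw [abs_mul, hK3]
          have h6 := KBQ_stp (a := a) (b := b) hc (sz (Rx δ x) r)
          rw [← hBsdef] at h6
          exact mul_le_mul h6 ((hM m).2.1 _) (abs_nonneg _) hBs
        have h5 := KBQ_num hs hT2 h1 h2 h3 h4 (hG1 r)
          (by have := hGμ r; linarith : G r - 1 ≤ mw (fun p => 1 + C / ((p : ℝ) - 2)) r - 1) hem0.le
        rw [← hK] at h5
        have h6 : Φ (tv (Rx δ x) r) = (stp J a b c (sz (Rx δ x) r) *
            marg F m (tv (Rx δ x) r)) ^ 2 / (2 - sz (Rx δ x) r) := by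
          simp only [hΦ]
          rw [← hsz, mul_pow]
        rw [h6]
        refine h5.trans ?_
        refine mul_le_mul hCK ?_ (by positivity) hC0
        have := heme m
        linarith
      · have h1 : Bf r = 0 := by
          by_contra h
          exact hs (hBsz r h)
        have h2 : marg F m (tv (Rx δ x) r) = 0 := by
          by_contra h
          have h3 := ((hM m).2.2.2.1 _ h).2
          apply hs
          rw [hsz]
          exact h3
        have h3 : f r = 0 := by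
          simp only [hf]
          rw [h1]
          simp
        have h4 : Φ (tv (Rx δ x) r) = 0 := by
          simp only [hΦ]
          rw [h2]
          simp
        rw [h3, h4, sub_zero, abs_zero]
        have := he1 m
        positivity)
  -- the sum of EXTQ
  have hprod : ∏ p : {p // p ∈ Sx D0 x}, (1 + (k : ℝ) / ((p : ℝ) - 1) ^ 2) ≤ 1 + e := by
    refine hD3 D0 hD03 (Sx D0 x) hSD (fun p => (k : ℝ) / ((p : ℝ) - 1) ^ 2) (fun p _ => ?_)
      fun p hp => ?_
    · positivity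
    · have h3 := hS3 p hp
      have h1 : 0 < (p : ℝ) - 2 := by linarith
      exact div_le_div_of_nonneg_left hk0 (by positivity)
        (pow_le_pow_left₀ h1.le (by linarith) 2)
  have hHs : ∀ r : Co (Sx D0 x) k, (nrm r : ℝ) ≤ Rx δ x ^ 2 → sz (Rx δ x) r ≤ T →
      lk D0 δ x * (2 - sz (Rx δ x) r) * (1 - e) ≤ Hs (Sx D0 x) (Rx δ x ^ 2 / nrm r) := by
    intro r hr hs
    have hn : (1 : ℝ) ≤ nrm r := by exact_mod_cast (hbas r).2.1
    have hn0 : (0 : ℝ) < nrm r := by linarith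
    have hz1 : 1 ≤ Rx δ x ^ 2 / nrm r := by
      rw [le_div_iff₀ hn0]
      linarith
    have hz2 : Rx δ x ^ 2 / nrm r ≤ Real.sqrt x :=
      (div_le_self (by positivity) hn).trans hR2x
    have h1 := hX3 _ hz1 hz2
    have h2 : kap D0 * Real.log (Rx δ x ^ 2 / nrm r) = lk D0 δ x * (2 - sz (Rx δ x) r) := by
      have hl : 0 < Real.log (Rx δ x) := Real.log_pos hR
      rw [Real.log_div (by positivity) hn0.ne', Real.log_pow]
      unfold lk sz
      field_simp
      push_cast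
      ring
    rw [h2] at h1
    have h3 := (abs_le.1 h1).1
    have h4 : kap D0 * (2 - T) * e / 8 * Real.log x ≤ lk D0 δ x * (2 - sz (Rx δ x) r) * e := by
      have h5 : kap D0 * Real.log x ≤ 8 * lk D0 δ x := hkl
      calc kap D0 * (2 - T) * e / 8 * Real.log x = (2 - T) * e / 8 * (kap D0 * Real.log x) := by
            ring
        _ ≤ (2 - T) * e / 8 * (8 * lk D0 δ x) := mul_le_mul_of_nonneg_left h5 (by positivity)
        _ = lk D0 δ x * (2 - T) * e := by ring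
        _ ≤ lk D0 δ x * (2 - sz (Rx δ x) r) * e := by
            refine mul_le_mul_of_nonneg_right ?_ he0.le
            exact mul_le_mul_of_nonneg_left (by linarith) hlk.le
    linarith
  have hsum : ∑ r ∈ univ.filter (fun r : Co (Sx D0 x) k => NoC m r ∧ (nrm r : ℝ) ≤ Rx δ x ^ 2),
      Bf r ^ 2 / (mw aF r * Hs (Sx D0 x) (Rx δ x ^ 2 / nrm r)) * G r ≤
      (1 + 2 * e) * lk D0 δ x *
        ∑ r ∈ univ.filter (fun r : Co (Sx D0 x) k => NoC m r), f r / mw aF r := by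
    rw [Finset.mul_sum]
    refine (Finset.sum_le_sum (g := fun r => (1 + 2 * e) * lk D0 δ x * (f r / mw aF r))
      fun r hr => ?_).trans ?_
    · rw [Finset.mem_filter] at hr
      by_cases hB0 : Bf r = 0
      · have h1 : f r = 0 := by
          simp only [hf]
          rw [hB0]
          simp
        rw [h1, hB0]
        simp
      · have hs := hBsz r hB0
        exact KBQ_term (hmw r) hlk (by linarith) (zero_le_one.trans (hG1 r)) he0 he2
          (hHs r hr.2.2 hs)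
    · refine Finset.sum_le_sum_of_subset_of_nonneg ?_ fun r _ _ => ?_
      · intro r hr
        rw [Finset.mem_filter] at hr ⊢
        exact ⟨hr.1, hr.2.1⟩
      · have := hf0 r
        have := hmw r
        positivity
  have hk1 : lk D0 δ x * lk D0 δ x ^ (k - 1) = lk D0 δ x ^ k := by
    have : 0 < k := Fin.pos_iff_nonempty.2 hne
    rw [← pow_succ']
    congr 1
    omega
  set I := ∫ t, cutm m Φ t with hI
  set Sg := ∑ r ∈ univ.filter (fun r : Co (Sx D0 x) k => NoC m r), f r / mw aF r with hSg2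
  have hSg0 : 0 ≤ Sg := Finset.sum_nonneg fun r _ => div_nonneg (hf0 r) (hmw r).le
  have hIA : I ≤ A := by
    rw [hA]
    exact KBQ_int (by linarith) (hP m c hc).2
  have hSgI : Sg ≤ lk D0 δ x ^ (k - 1) * (I + ε / 2) := by
    have := (abs_le.1 hAp).2
    linarith
  have hSg1 : Q ≤ (1 + e) * ((1 + 2 * e) * lk D0 δ x * Sg) := by
    refine hQ.trans ?_
    refine mul_le_mul hprod hsum ?_ (by linarith)
    refine Finset.sum_nonneg fun r _ => ?_
    have h1 := hmw r
    have h2 := U.Hs_nonneg (Sx D0 x) (Rx δ x ^ 2 / nrm r)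
    have h3 : 0 ≤ G r := zero_le_one.trans (hG1 r)
    exact mul_nonneg (div_nonneg (sq_nonneg _) (mul_nonneg h1.le h2)) h3
  rw [← hk1]
  exact KBQ_fin hlk (pow_pos hlk _) he0 he2 he3 hSg0 hIA hSgI hSg1

end MPb51559.BG
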