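import Pool.Agent.Work.MP_b51559_nt.BG.C.Stmts

set_option autoImplicit false

namespace MPb51559.BG

open Finset Filter Topology MeasureTheory
open scoped Classical ENNReal

/-- the section at the first variable -/
def KD_sec {k : ℕ} (Φ : (Fin (k + 1) → ℝ) → ℝ) (s : ℝ) (t : Fin k → ℝ) : ℝ := Φ (Fin.cons s t)

lemma KD_sec_bv {k : ℕ} {T0 M : ℝ} {V : NNReal} {Φ : (Fin (k + 1) → ℝ) → ℝ}
    (h : BVk (k + 1) T0 M V Φ) (s : ℝ) : BVk k T0 M V (KD_sec Φ s) := by
  refine ⟨?_, ?_, ?_, ?_⟩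
  · refine h.meas.comp ?_
    rw [measurable_pi_iff]
    intro i
    refine Fin.cases ?_ ?_ i
    · simp only [Fin.cons_zero]; exact measurable_const
    · intro j; simp only [Fin.cons_succ]; exact measurable_pi_apply j
  · intro t ht i
    have := h.supp _ ht i.succ
    simpa using this
  · intro t; exact h.bdd _
  · intro t i
    have := h.bv (Fin.cons s t) i.succ
    refine le_trans (le_of_eq ?_) this
    congr 1
    funext u
    unfold KD_sec
    rw [Fin.cons_update]

/-- the cube -/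
def KD_cube (k : ℕ) (T0 : ℝ) : Set (Fin k → ℝ) := Set.Icc (fun _ => 0) (fun _ => T0)

lemma KD_vol (k : ℕ) (T0 : ℝ) (hT : 0 ≤ T0) : volume (KD_cube k T0) = ENNReal.ofReal (T0 ^ k) := by
  unfold KD_cube
  rw [Real.volume_Icc_pi]
  simp only [sub_zero, Finset.prod_const, Finset.card_univ, Fintype.card_fin]
  rw [ENNReal.ofReal_pow hT]

lemma KD_mem {k : ℕ} {T0 M : ℝ} {V : NNReal} {Φ : (Fin k → ℝ) → ℝ} (h : BVk k T0 M V Φ)
    (t : Fin k → ℝ) (ht : t ∉ KD_cube k T0) : Φ t = 0 := by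
  by_contra hne
  apply ht
  have := h.supp t hne
  exact ⟨fun i => (this i).1, fun i => (this i).2⟩

lemma KD_int {k : ℕ} {T0 M : ℝ} {V : NNReal} {Φ : (Fin k → ℝ) → ℝ} (hT : 0 ≤ T0)
    (h : BVk k T0 M V Φ) : Integrable Φ := by
  have hm : MeasurableSet (KD_cube k T0) := measurableSet_Icc
  have h1 : IntegrableOn Φ (KD_cube k T0) := by
    refine Measure.integrableOn_of_bounded (M := M) ?_ h.meas.aestronglyMeasurable ?_
    · rw [KD_vol k T0 hT]; exact ENNReal.ofReal_ne_top
    · exact Eventually.of_forall (fun t => by rw [Real.norm_eq_abs]; exact h.bdd t)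
  rw [integrableOn_iff_integrable_of_support_subset] at h1
  · exact h1
  · intro t ht
    by_contra hn
    exact ht (KD_mem h t hn)

lemma KD_bdd {k : ℕ} {T0 M : ℝ} {V : NNReal} {Φ : (Fin k → ℝ) → ℝ} (hT : 0 ≤ T0)
    (h : BVk k T0 M V Φ) : |∫ t, Φ t| ≤ M * T0 ^ k := by
  have hm : MeasurableSet (KD_cube k T0) := measurableSet_Icc
  have e : ∫ t, Φ t = ∫ t in KD_cube k T0, Φ t := by
    rw [setIntegral_eq_integral_of_forall_compl_eq_zero]
    intro t ht
    exact KD_mem h t ht
  rw [e, ← Real.norm_eq_abs]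
  have h1 := norm_setIntegral_le_of_norm_le_const (μ := volume) (s := KD_cube k T0) (f := Φ) (C := M)
    (by rw [KD_vol k T0 hT]; exact ENNReal.ofReal_lt_top)
    (fun t _ => by rw [Real.norm_eq_abs]; exact h.bdd t)
  refine h1.trans (le_of_eq ?_)
  rw [measureReal_def, KD_vol k T0 hT, ENNReal.toReal_ofReal (by positivity)]

lemma KD_var {k : ℕ} {T0 M : ℝ} {V : NNReal} {Φ : (Fin (k + 1) → ℝ) → ℝ} (hT : 0 ≤ T0)
    (h : BVk (k + 1) T0 M V Φ) :
    eVariationOn (fun s => ∫ t, KD_sec Φ s t) Set.univ ≤ ((V * (Real.toNNReal T0) ^ k : NNReal) : ℝ≥0∞) := by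
  refine iSup_le ?_
  rintro ⟨n, u, hu, -⟩
  simp only
  have hint : ∀ s, Integrable (KD_sec Φ s) := fun s => KD_int hT (KD_sec_bv h s)
  have h1 : ∀ i ∈ Finset.range n, edist (∫ t, KD_sec Φ (u (i + 1)) t) (∫ t, KD_sec Φ (u i) t) ≤
      ∫⁻ t, edist (KD_sec Φ (u (i + 1)) t) (KD_sec Φ (u i) t) := by
    intro i _
    rw [edist_eq_enorm_sub, ← integral_sub (hint _) (hint _)]
    refine (enorm_integral_le_lintegral_enorm _).trans (le_of_eq ?_)
    congr 1
  refine (Finset.sum_le_sum h1).trans ?_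
  have hmeas : ∀ s, Measurable (KD_sec Φ s) := fun s => (KD_sec_bv h s).meas
  rw [← lintegral_finsetSum]
  · have h2 : ∀ t : Fin k → ℝ, ∑ i ∈ Finset.range n, edist (KD_sec Φ (u (i + 1)) t) (KD_sec Φ (u i) t) ≤
        (KD_cube k T0).indicator (fun _ => (V : ℝ≥0∞)) t := by
      intro t
      by_cases ht : t ∈ KD_cube k T0
      · rw [Set.indicator_of_mem ht]
        have h3 := h.bv (Fin.cons 0 t) 0
        refine le_trans ?_ h3
        have e : (fun s => Φ (Function.update (Fin.cons 0 t : Fin (k + 1) → ℝ) 0 s)) = fun s => KD_sec Φ s t := by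
          funext s
          unfold KD_sec
          congr 1
          exact Fin.update_cons_zero _ _ _
        rw [e]
        exact eVariationOn.sum_le hu (fun i => Set.mem_univ _)
      · rw [Set.indicator_of_notMem ht]
        refine le_of_eq (Finset.sum_eq_zero ?_)
        intro i _
        rw [KD_mem (KD_sec_bv h _) t ht, KD_mem (KD_sec_bv h _) t ht, edist_self]
    refine (lintegral_mono h2).trans ?_
    have hm : MeasurableSet (KD_cube k T0) := measurableSet_Icc
    rw [lintegral_indicator hm, lintegral_const, Measure.restrict_apply MeasurableSet.univ,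
      Set.univ_inter, KD_vol k T0 hT]
    rw [ENNReal.coe_mul, ENNReal.coe_pow, ENNReal.ofReal_pow hT]
    rfl
  · intro i _
    exact (hmeas _).edist (hmeas _)

lemma KD_fub {k : ℕ} {T0 M : ℝ} {V : NNReal} {Φ : (Fin (k + 1) → ℝ) → ℝ} (hT : 0 ≤ T0)
    (h : BVk (k + 1) T0 M V Φ) : ∫ t, Φ t = ∫ s in (0)..T0, ∫ t, KD_sec Φ s t := by
  have hmp := (volume_preserving_piFinSuccAbove (fun _ : Fin (k + 1) => ℝ) 0).symm
  have hI : Integrable (fun x : ℝ × (Fin k → ℝ) => Φ (Fin.cons x.1 x.2)) := by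
    have h1 := (hmp.integrable_comp_emb (MeasurableEquiv.measurableEmbedding _)).2 (KD_int hT h)
    refine h1.congr ?_
    refine Eventually.of_forall ?_
    intro x
    simp only [Function.comp_def, MeasurableEquiv.piFinSuccAbove_symm_apply, Fin.insertNthEquiv,
      Fin.insertNth_zero, Equiv.coe_fn_mk]
    rfl
  have e1 : ∫ t, Φ t = ∫ x : ℝ × (Fin k → ℝ), Φ (Fin.cons x.1 x.2) := by
    rw [← hmp.integral_comp']
    simp only [MeasurableEquiv.piFinSuccAbove_symm_apply, Fin.insertNthEquiv,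
      Fin.insertNth_zero, Equiv.coe_fn_mk]
    rfl
  rw [e1]
  have e2 : ∫ x : ℝ × (Fin k → ℝ), Φ (Fin.cons x.1 x.2) = ∫ s : ℝ, ∫ t, KD_sec Φ s t :=
    integral_prod _ hI
  rw [e2, intervalIntegral.integral_of_le hT, ← integral_Icc_eq_integral_Ioc]
  rw [setIntegral_eq_integral_of_forall_compl_eq_zero]
  intro s hs
  have : ∀ t, KD_sec Φ s t = 0 := by
    intro t
    by_contra hne
    have := h.supp _ hne 0
    simp only [Fin.cons_zero] at this
    exact hs ⟨this.1, this.2⟩
  simp [this]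

lemma KD_sum {ι : Type} {k : ℕ} (A : Finset ι) (f : (Fin (k + 1) → ι) → ℝ) :
    ∑ a ∈ Fintype.piFinset (fun _ : Fin (k + 1) => A), f a =
      ∑ x ∈ A, ∑ a ∈ Fintype.piFinset (fun _ : Fin k => A), f (Fin.cons x a) := by
  rw [← Finset.sum_product']
  refine Finset.sum_bij' (fun a _ => (a 0, Fin.tail a)) (fun p _ => Fin.cons p.1 p.2) ?_ ?_ ?_ ?_ ?_
  · intro a ha
    rw [Finset.mem_product]
    rw [Fintype.mem_piFinset] at ha
    refine ⟨ha 0, ?_⟩
    rw [Fintype.mem_piFinset]
    intro i; exact ha i.succ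
  · intro p hp
    rw [Finset.mem_product, Fintype.mem_piFinset] at hp
    rw [Fintype.mem_piFinset]
    intro i
    refine Fin.cases ?_ ?_ i
    · simpa using hp.1
    · intro j; simpa using hp.2 j
  · intro a _; simp
  · intro p _; simp
  · intro a _; simp

theorem prf_KD (hD1 : C_D1) : C_KD := by
  intro k ι A c t T0 Δ M V hT hΔ hM hct hA
  have hmass : ∑ a ∈ A, c a ≤ T0 + Δ := by
    have h1 := hA T0 hT le_rfl
    have e : A.filter (fun a => t a ≤ T0) = A := by
      rw [Finset.filter_eq_self]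
      intro a ha; exact (hct a ha).2.2
    rw [e, abs_le] at h1
    linarith
  have hc0 : 0 ≤ ∑ a ∈ A, c a := Finset.sum_nonneg (fun a ha => (hct a ha).1)
  have hV : (0 : ℝ) ≤ V := V.2
  induction k with
  | zero =>
    intro Φ hΦ
    have e1 : ∫ s, Φ s = Φ (fun i => i.elim0) := by
      have : ∀ s, Φ s = Φ (fun i => i.elim0) := fun s => by congr 1; funext i; exact i.elim0
      rw [integral_congr_ae (Eventually.of_forall this)]
      simp [measureReal_def, volume_pi]
    have e2 : ∑ a ∈ Fintype.piFinset (fun _ : Fin 0 => A), (∏ i, c (a i)) * Φ (fun i => t (a i)) =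
        Φ (fun i => i.elim0) := by
      have : Fintype.piFinset (fun _ : Fin 0 => A) = {fun i => i.elim0} := by
        ext a
        simp only [Fintype.mem_piFinset, Finset.mem_singleton]
        constructor
        · intro _; funext i; exact i.elim0
        · intro _ i; exact i.elim0
      rw [this, Finset.sum_singleton]
      simp only [Finset.univ_eq_empty, Finset.prod_empty, one_mul]
      congr 1; funext i; exact i.elim0
    rw [e1, e2]
    simp
  | succ k ih =>
    intro Φ hΦ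
    have hsum : ∑ a ∈ Fintype.piFinset (fun _ : Fin (k + 1) => A), (∏ i, c (a i)) * Φ (fun i => t (a i)) =
        ∑ x ∈ A, c x * ∑ a ∈ Fintype.piFinset (fun _ : Fin k => A),
          (∏ i, c (a i)) * KD_sec Φ (t x) (fun i => t (a i)) := by
      rw [KD_sum]
      refine Finset.sum_congr rfl ?_
      intro x _
      rw [Finset.mul_sum]
      refine Finset.sum_congr rfl ?_
      intro a _
      rw [Fin.prod_univ_succ]
      simp only [Fin.cons_zero, Fin.cons_succ]
      unfold KD_sec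
      rw [mul_assoc]
      congr 3
      funext i
      refine Fin.cases ?_ ?_ i
      · simp
      · intro j; simp
    set E : ℝ := k * (2 * (M + V) * Δ) * (T0 + Δ + 1) ^ k with hE
    have hE0 : 0 ≤ E := by positivity
    set I : ℝ → ℝ := fun s => ∫ t, KD_sec Φ s t with hI
    have hin : ∀ x ∈ A, |c x * (∑ a ∈ Fintype.piFinset (fun _ : Fin k => A),
          (∏ i, c (a i)) * KD_sec Φ (t x) (fun i => t (a i))) - c x * I (t x)| ≤ c x * E := by
      intro x hx
      rw [← mul_sub, abs_mul, abs_of_nonneg (hct x hx).1]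
      exact mul_le_mul_of_nonneg_left (ih _ (KD_sec_bv hΦ _)) (hct x hx).1
    have hstep1 : |∑ x ∈ A, c x * (∑ a ∈ Fintype.piFinset (fun _ : Fin k => A),
          (∏ i, c (a i)) * KD_sec Φ (t x) (fun i => t (a i))) - ∑ x ∈ A, c x * I (t x)| ≤
        (T0 + Δ) * E := by
      rw [← Finset.sum_sub_distrib]
      refine (Finset.abs_sum_le_sum_abs _ _).trans ((Finset.sum_le_sum hin).trans ?_)
      rw [← Finset.sum_mul]
      exact mul_le_mul_of_nonneg_right hmass hE0
    have hstep2 : |∑ x ∈ A, c x * I (t x) - ∫ s in (0)..T0, I s| ≤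
        2 * (M * T0 ^ k + (V * (Real.toNNReal T0) ^ k : NNReal)) * Δ := by
      refine hD1 ι A c t T0 Δ (M * T0 ^ k) (V * (Real.toNNReal T0) ^ k) I hT hΔ hct hA ?_ ?_
      · intro s; exact KD_bdd hT (KD_sec_bv hΦ s)
      · exact KD_var hT hΦ
    rw [hsum, KD_fub hT hΦ]
    have hTT : ((V * (Real.toNNReal T0) ^ k : NNReal) : ℝ) = V * T0 ^ k := by
      push_cast
      rw [Real.coe_toNNReal T0 hT]
    rw [hTT] at hstep2
    have hpow : T0 ^ k ≤ (T0 + Δ + 1) ^ (k + 1) := by
      calc T0 ^ k ≤ (T0 + Δ + 1) ^ k := pow_le_pow_left₀ hT (by linarith) k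
        _ ≤ (T0 + Δ + 1) ^ (k + 1) := pow_le_pow_right₀ (by linarith) (by omega)
    have hb1 : (T0 + Δ) * E ≤ k * (2 * (M + V) * Δ) * (T0 + Δ + 1) ^ (k + 1) := by
      rw [hE, pow_succ]
      have : (T0 + Δ) * (k * (2 * (M + V) * Δ) * (T0 + Δ + 1) ^ k) ≤
          (T0 + Δ + 1) * (k * (2 * (M + V) * Δ) * (T0 + Δ + 1) ^ k) :=
        mul_le_mul_of_nonneg_right (by linarith) hE0
      linarith
    have hb2 : 2 * (M * T0 ^ k + V * T0 ^ k) * Δ ≤ (2 * (M + V) * Δ) * (T0 + Δ + 1) ^ (k + 1) := by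
      have e : 2 * (M * T0 ^ k + V * T0 ^ k) * Δ = (2 * (M + V) * Δ) * T0 ^ k := by ring
      rw [e]
      exact mul_le_mul_of_nonneg_left hpow (by positivity)
    have htri := abs_sub_le (∑ x ∈ A, c x * (∑ a ∈ Fintype.piFinset (fun _ : Fin k => A),
          (∏ i, c (a i)) * KD_sec Φ (t x) (fun i => t (a i)))) (∑ x ∈ A, c x * I (t x))
          (∫ s in (0)..T0, I s)
    push_cast
    calc _ ≤ _ := htri
      _ ≤ (T0 + Δ) * E + 2 * (M * T0 ^ k + V * T0 ^ k) * Δ := add_le_add hstep1 hstep2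
      _ ≤ k * (2 * (M + V) * Δ) * (T0 + Δ + 1) ^ (k + 1) + (2 * (M + V) * Δ) * (T0 + Δ + 1) ^ (k + 1) :=
        add_le_add hb1 hb2
      _ = _ := by ring

end MPb51559.BG
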