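import Pool.Agent.Work.MP_b51559_nt.BG.C.Stmts2

set_option autoImplicit false

/-!
# Part C, item MG: marginals of a test function
-/

namespace MPb51559.BG

open Finset Filter Topology MeasureTheory

theorem MG_upd_meas {k : ℕ} (m : Fin k) :
    Measurable (fun p : (Fin k → ℝ) × ℝ => Function.update p.1 m p.2) := by
  refine measurable_pi_iff.mpr fun j => ?_
  by_cases h : j = m
  · subst h
    simpa using measurable_snd
  · simp only [Function.update_of_ne h]
    exact (measurable_pi_apply j).comp measurable_fst

theorem MG_supp {k : ℕ} {T : ℝ} {F : (Fin k → ℝ) → ℝ} (hF : Tst k T F) (m : Fin k)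
    (t : Fin k → ℝ) (s : ℝ) (h : F (Function.update t m s) ≠ 0) :
    0 ≤ s ∧ s ≤ T ∧ (∀ j, j ≠ m → 0 ≤ t j) ∧ ∑ j ∈ univ.erase m, t j ≤ T := by
  obtain ⟨h0, h1⟩ := hF.supp _ h
  have hs : 0 ≤ s := by simpa using h0 m
  have hj : ∀ j, j ≠ m → 0 ≤ t j := fun j hj => by simpa [Function.update_of_ne hj] using h0 j
  have hsum : ∑ i, Function.update t m s i = s + ∑ j ∈ univ.erase m, t j := by
    rw [← Finset.add_sum_erase univ _ (Finset.mem_univ m)]
    congr 1
    · simp
    · refine Finset.sum_congr rfl fun j hj => ?_
      rw [Function.update_of_ne (Finset.ne_of_mem_erase hj)]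
  have hnn : 0 ≤ ∑ j ∈ univ.erase m, t j :=
    Finset.sum_nonneg fun j hj' => hj j (Finset.ne_of_mem_erase hj')
  rw [hsum] at h1
  exact ⟨hs, by linarith, hj, by linarith⟩

theorem MG_eq {k : ℕ} {T : ℝ} {F : (Fin k → ℝ) → ℝ} (hF : Tst k T F) (m : Fin k)
    (t : Fin k → ℝ) : marg F m t = ∫ s in Set.Icc 0 T, F (Function.update t m s) := by
  unfold marg
  rw [setIntegral_eq_integral_of_forall_compl_eq_zero]
  intro s hs
  by_contra h
  obtain ⟨h0, h1, -⟩ := MG_supp hF m t s h
  exact hs ⟨h0, h1⟩

theorem MG_meas1 {k : ℕ} {T : ℝ} {F : (Fin k → ℝ) → ℝ} (hF : Tst k T F) (m : Fin k)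
    (t : Fin k → ℝ) : Measurable (fun s => F (Function.update t m s)) :=
  hF.meas.comp ((MG_upd_meas m).comp (measurable_const.prodMk measurable_id))

theorem MG_int {k : ℕ} {T : ℝ} {F : (Fin k → ℝ) → ℝ} (hF : Tst k T F) (m : Fin k)
    (t : Fin k → ℝ) : IntegrableOn (fun s => F (Function.update t m s)) (Set.Icc 0 T) := by
  obtain ⟨M, hM⟩ := hF.bdd
  refine Measure.integrableOn_of_bounded (M := M) ?_ (MG_meas1 hF m t).aestronglyMeasurable ?_
  · simp
  · exact Eventually.of_forall fun s => by rw [Real.norm_eq_abs]; exact hM _

theorem prf_MG : C_MG := by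
  intro k T F hT hF
  obtain ⟨M, hM⟩ := hF.bdd
  obtain ⟨V, hV⟩ := hF.bv
  refine ⟨|M| * T, V * T.toNNReal, by positivity, fun m => ⟨?_, ?_, ?_, ?_, ?_⟩⟩
  · -- measurability
    have h1 : StronglyMeasurable (Function.uncurry fun (t : Fin k → ℝ) (s : ℝ) =>
        F (Function.update t m s)) :=
      (hF.meas.comp (MG_upd_meas m)).stronglyMeasurable
    exact (h1.integral_prod_right).measurable
  · -- bound
    intro t
    rw [MG_eq hF m t]
    have h := norm_setIntegral_le_of_norm_le_const (μ := volume) (s := Set.Icc (0:ℝ) T)
      (f := fun s => F (Function.update t m s)) (C := |M|) (by simp)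
      (fun s _ => by rw [Real.norm_eq_abs]; exact (hM _).trans (le_abs_self M))
    rw [Real.norm_eq_abs] at h
    have h2 : (volume : Measure ℝ).real (Set.Icc (0:ℝ) T) = T := by
      rw [Real.volume_real_Icc_of_le hT.le]; ring
    rwa [h2] at h
  · intro t s
    unfold marg
    simp only [Function.update_idem]
  · intro t ht
    have : ∃ s, F (Function.update t m s) ≠ 0 := by
      by_contra hcon
      push Not at hcon
      exact ht (by unfold marg; simp [hcon])
    obtain ⟨s, hs⟩ := this
    obtain ⟨-, -, h1, h2⟩ := MG_supp hF m t s hs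
    exact ⟨h1, h2⟩
  · intro t i
    by_cases him : i = m
    · subst him
      have : (fun s => marg F i (Function.update t i s)) = fun _ => marg F i t := by
        funext s
        unfold marg
        simp only [Function.update_idem]
      rw [this]
      have h0 : eVariationOn (fun _ : ℝ => marg F i t) Set.univ = 0 :=
        eVariationOn.constant_on (by
          intro a ha b hb
          simp only [Set.mem_image] at ha hb
          obtain ⟨_, _, rfl⟩ := ha
          obtain ⟨_, _, rfl⟩ := hb
          rfl)
      rw [h0]
      exact zero_le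
    · unfold eVariationOn
      refine iSup_le fun p => ?_
      obtain ⟨n, u, hu, -⟩ := p
      simp only
      set g : ℕ → ℝ → ℝ := fun j s => F (Function.update (Function.update t m s) i (u j)) with hg
      have hcomm : ∀ j s, F (Function.update (Function.update t i (u j)) m s) = g j s := by
        intro j s
        rw [hg]
        simp only
        rw [Function.update_comm him]
      have hgm : ∀ j, Measurable (g j) := by
        intro j
        have := MG_meas1 hF m (Function.update t i (u j))
        simp only [hcomm] at this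
        exact this
      have hgi : ∀ j, IntegrableOn (g j) (Set.Icc 0 T) := by
        intro j
        have := MG_int hF m (Function.update t i (u j))
        simp only [hcomm] at this
        exact this
      have hm : ∀ j, marg F m (Function.update t i (u j)) = ∫ s in Set.Icc 0 T, g j s := by
        intro j
        rw [MG_eq hF m]
        simp only [hcomm]
      have h1 : ∀ j, edist (marg F m (Function.update t i (u (j + 1))))
          (marg F m (Function.update t i (u j))) ≤
          ∫⁻ s in Set.Icc 0 T, edist (g (j + 1) s) (g j s) := by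
        intro j
        rw [hm, hm, edist_eq_enorm_sub, ← integral_sub (hgi _) (hgi _)]
        refine (enorm_integral_le_lintegral_enorm _).trans (le_of_eq ?_)
        refine lintegral_congr fun s => ?_
        rw [edist_eq_enorm_sub]
      refine (Finset.sum_le_sum fun j _ => h1 j).trans ?_
      have h2 : ∑ j ∈ range n, ∫⁻ s in Set.Icc 0 T, edist (g (j + 1) s) (g j s) =
          ∫⁻ s in Set.Icc 0 T, ∑ j ∈ range n, edist (g (j + 1) s) (g j s) := by
        rw [lintegral_finsetSum]
        intro j _
        exact (hgm _).edist (hgm _)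
      rw [h2]
      have h3 : ∫⁻ s in Set.Icc 0 T, ∑ j ∈ range n, edist (g (j + 1) s) (g j s) ≤
          ∫⁻ s in Set.Icc (0:ℝ) T, (V : ENNReal) := by
        refine lintegral_mono fun s => ?_
        refine le_trans ?_ (hV (Function.update t m s) i)
        exact eVariationOn.sum_le (f := fun r => F (Function.update (Function.update t m s) i r))
          (s := Set.univ) (n := n) hu (fun _ => Set.mem_univ _)
      refine h3.trans (le_of_eq ?_)
      rw [setLIntegral_const, Real.volume_Icc, sub_zero, ENNReal.coe_mul]
      rfl

end MPb51559.BG
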