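import Pool.Agent.Work.MP_b51559_nt.BG.C.Stmts

set_option autoImplicit false

/-!
# Item MSU: the sum over the part of colour m
-/

namespace MPb51559.BG

open Finset Filter Topology MeasureTheory
open scoped Classical

theorem MSU_dvd_prt {S : Finset ℕ} {k : ℕ} (hS : ∀ p ∈ S, p.Prime) (m : Fin k) (u : Co S k)
    (q : {p // p ∈ S}) : (q : ℕ) ∣ prt m u ↔ u q = some m := by
  unfold prt
  constructor
  · intro h
    rw [(hS q q.2).prime.dvd_finsetProd_iff] at h
    obtain ⟨p, _, hp⟩ := h
    by_cases hu : u p = some m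
    · rw [if_pos hu] at hp
      have h1 : (q : ℕ) = p := (Nat.prime_dvd_prime_iff_eq (hS q q.2) (hS p p.2)).1 hp
      have h2 : q = p := Subtype.ext h1
      rw [h2]
      exact hu
    · rw [if_neg hu] at hp
      exact absurd (Nat.dvd_one.1 hp) (hS q q.2).one_lt.ne'
  · intro h
    refine dvd_trans ?_ (Finset.dvd_prod_of_mem _ (Finset.mem_univ q))
    rw [if_pos h]

theorem MSU_dl {S : Finset ℕ} {k : ℕ} {m : Fin k} {u r : Co S k} (h : dl m u = r)
    (p : {p // p ∈ S}) : (u p = some m ∧ r p = none) ∨ (u p ≠ some m ∧ u p = r p) := by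
  have h1 : dl m u p = r p := by rw [h]
  unfold dl at h1
  by_cases hu : u p = some m
  · rw [if_pos hu] at h1
    exact Or.inl ⟨hu, h1.symm⟩
  · rw [if_neg hu] at h1
    exact Or.inr ⟨hu, h1⟩

theorem MSU_mw {S : Finset ℕ} {k : ℕ} (hB : C_BAS) (hS : ∀ p ∈ S, p.Prime) {m : Fin k}
    {u r : Co S k} (h : dl m u = r) : mw aF u = mw aF r * ((prt m u).totient : ℝ) := by
  obtain ⟨v, hv⟩ : ∃ v : Co S k, v = fun p => if u p = some m then some m else none := ⟨_, rfl⟩
  have h1 : nrm v = prt m u := by
    unfold nrm prt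
    apply Finset.prod_congr rfl
    intro p _
    by_cases hu : u p = some m
    · have : v p ≠ none := by rw [hv]; simp [hu]
      rw [if_neg this, if_pos hu]
    · have : v p = none := by rw [hv]; simp [hu]
      rw [if_pos this, if_neg hu]
  have h2 : mw aF v = ((prt m u).totient : ℝ) := by
    rw [← h1]
    exact (hB S k hS v).2.2.2.2.1
  rw [← h2]
  unfold mw
  rw [← Finset.prod_mul_distrib]
  apply Finset.prod_congr rfl
  intro p _
  rcases MSU_dl h p with ⟨hu, hr⟩ | ⟨hu, hr⟩
  · have : v p ≠ none := by rw [hv]; simp [hu]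
    rw [if_neg (by rw [hu]; simp), if_pos hr, if_neg this, one_mul]
  · have : v p = none := by rw [hv]; simp [hu]
    rw [hr, if_pos this, mul_one]

theorem MSU_surj {S : Finset ℕ} {k : ℕ} (hB : C_BAS) (hS : ∀ p ∈ S, p.Prime) {m : Fin k}
    {r : Co S k} (hr : NoC m r) {n : ℕ} (hn0 : Squarefree n) (hnS : ∀ p, p.Prime → p ∣ n → p ∈ S)
    (hc : n.Coprime (nrm r)) : ∃ u : Co S k, dl m u = r ∧ prt m u = n := by
  refine ⟨fun p => if (p : ℕ) ∣ n then some m else r p, ?_, ?_⟩
  · funext p
    unfold dl
    by_cases hp : (p : ℕ) ∣ n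
    · simp only [hp, if_true]
      by_contra hcon
      have h1 : (p : ℕ) ∣ nrm r :=
        ((hB S k hS r).2.2.1 p (hS p p.2)).2 ⟨p.2, fun h => hcon h.symm⟩
      have h2 : (p : ℕ) ∣ 1 := by
        rw [← Nat.coprime_iff_gcd_eq_one.1 hc]
        exact Nat.dvd_gcd hp h1
      exact (hS p p.2).one_lt.ne' (Nat.dvd_one.1 h2)
    · simp only [hp, if_false]
      rw [if_neg (hr p)]
  · unfold prt
    have h1 : ∀ p : {p // p ∈ S}, (if (if (p : ℕ) ∣ n then some m else r p) = some m then (p : ℕ)
        else 1) = if (p : ℕ) ∣ n then (p : ℕ) else 1 := by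
      intro p
      by_cases hp : (p : ℕ) ∣ n
      · simp [hp]
      · simp only [hp, if_false]
        rw [if_neg (hr p)]
    rw [Finset.prod_congr rfl (fun p _ => h1 p)]
    rw [Finset.prod_coe_sort S (fun p => if p ∣ n then p else 1), ← Finset.prod_filter]
    have h2 : S.filter (fun p => p ∣ n) = n.primeFactors := by
      ext p
      rw [Finset.mem_filter, Nat.mem_primeFactors]
      constructor
      · rintro ⟨h3, h4⟩
        exact ⟨hS p h3, h4, hn0.ne_zero⟩
      · rintro ⟨h3, h4, _⟩
        exact ⟨hnS p h3 h4, h4⟩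
    rw [h2]
    exact Nat.prod_primeFactors_of_squarefree hn0

theorem MSU_one_add {ι : Type} (T : Finset ι) (a : ι → ℝ) (ha : ∀ i ∈ T, 0 ≤ a i) :
    1 + ∑ i ∈ T, a i ≤ ∏ i ∈ T, (1 + a i) := by
  induction T using Finset.induction_on with
  | empty => simp
  | insert i T hi ih =>
    rw [Finset.sum_insert hi, Finset.prod_insert hi]
    have h1 := ih (fun j hj => ha j (Finset.mem_insert_of_mem hj))
    have h2 := ha i (Finset.mem_insert_self i T)
    have h3 : 0 ≤ ∑ i ∈ T, a i := Finset.sum_nonneg (fun j hj => ha j (Finset.mem_insert_of_mem hj))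
    nlinarith

theorem MSU_div {S : Finset ℕ} (hS : ∀ p ∈ S, p.Prime ∧ 2 < p) (N : ℝ) (q : ℕ) (hq : q ∈ S) :
    ∑ n ∈ (SqF S N).filter (fun n => q ∣ n), 1 / (n.totient : ℝ) ≤ 1 / ((q : ℝ) - 1) * Hs S N := by
  have hqp := (hS q hq).1
  have hq1 : (1 : ℝ) < q := by exact_mod_cast hqp.one_lt
  have key : ∀ n ∈ (SqF S N).filter (fun n => q ∣ n), n / q ∈ SqF S N ∧
      1 / (n.totient : ℝ) = 1 / ((q : ℝ) - 1) * (1 / ((n / q).totient : ℝ)) ∧ q * (n / q) = n := by
    intro n hn
    rw [Finset.mem_filter] at hn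
    obtain ⟨hn, hqn⟩ := hn
    unfold SqF at hn ⊢
    rw [Finset.mem_filter, Finset.mem_Icc] at hn
    obtain ⟨⟨hn1, hn2⟩, hsq, hpr⟩ := hn
    obtain ⟨c, rfl⟩ := hqn
    have hc : q * c / q = c := Nat.mul_div_cancel_left c hqp.pos
    rw [hc]
    have hc0 : c ≠ 0 := by
      rintro rfl
      simp at hn1
    have hcop : Nat.Coprime q c := (Nat.squarefree_mul_iff.1 hsq).1
    refine ⟨?_, ?_, rfl⟩
    · rw [Finset.mem_filter, Finset.mem_Icc]
      refine ⟨⟨Nat.one_le_iff_ne_zero.2 hc0, ?_⟩, (Nat.squarefree_mul_iff.1 hsq).2.2, ?_⟩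
      · exact le_trans (Nat.le_mul_of_pos_left c hqp.pos) hn2
      · intro p hp hpc
        exact hpr p hp (Dvd.dvd.mul_left hpc q)
    · rw [Nat.totient_mul hcop, Nat.totient_prime hqp]
      push_cast [Nat.cast_sub hqp.one_lt.le]
      rw [one_div_mul_one_div]
  calc ∑ n ∈ (SqF S N).filter (fun n => q ∣ n), 1 / (n.totient : ℝ)
      = ∑ n ∈ (SqF S N).filter (fun n => q ∣ n),
          1 / ((q : ℝ) - 1) * (1 / ((n / q).totient : ℝ)) :=
        Finset.sum_congr rfl (fun n hn => (key n hn).2.1)
    _ = 1 / ((q : ℝ) - 1) * ∑ n ∈ (SqF S N).filter (fun n => q ∣ n),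
          (1 / ((n / q).totient : ℝ)) := by rw [Finset.mul_sum]
    _ = 1 / ((q : ℝ) - 1) * ∑ c ∈ ((SqF S N).filter (fun n => q ∣ n)).image (fun n => n / q),
          (1 / (c.totient : ℝ)) := by
        rw [Finset.sum_image]
        intro a ha b hb hab
        have h1 := (key a ha).2.2
        have h2 := (key b hb).2.2
        simp only at hab
        rw [← h1, ← h2, hab]
    _ ≤ _ := by
        have h0 : 0 ≤ 1 / ((q : ℝ) - 1) := by
          apply div_nonneg zero_le_one
          linarith
        apply mul_le_mul_of_nonneg_left _ h0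
        unfold Hs
        apply Finset.sum_le_sum_of_subset_of_nonneg
        · intro c hc
          rw [Finset.mem_image] at hc
          obtain ⟨n, hn, rfl⟩ := hc
          exact (key n hn).1
        · intro c _ _
          positivity

theorem prf_MSU (hB : C_BAS) : C_MSU := by
  intro S k hS m f M N r hr hM hf hfN
  have hSp : ∀ p ∈ S, p.Prime := fun p hp => (hS p hp).1
  have hT1 : ∀ q : {p // p ∈ S}, (0 : ℝ) < (q : ℝ) - 1 := by
    intro q
    have h1 : (2 : ℝ) < (q : ℕ) := by exact_mod_cast (hS q q.2).2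
    linarith
  have hmw0 : mw aF r ≠ 0 := by
    unfold mw
    rw [Finset.prod_ne_zero_iff]
    intro p _
    split_ifs
    · exact one_ne_zero
    · exact (hT1 p).ne'
  constructor
  · -- the exact formula
    have h1 : ∑ u ∈ univ.filter (fun u : Co S k => dl m u = r), f (prt m u) * (mw aF r / mw aF u) =
        ∑ n ∈ (SqF S N).filter (fun n => n.Coprime (nrm r)), f n / (n.totient : ℝ) := by
      apply Finset.sum_bij_ne_zero (fun u _ _ => prt m u)
      · intro u hu hne
        rw [Finset.mem_filter] at hu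
        have hu' := hu.2
        have hf0 : f (prt m u) ≠ 0 := fun h => hne (by rw [h, zero_mul])
        have hb := hB S k hSp u
        have hpd := (hb.2.2.2.2.2.2.2.1 m).2
        have hpos := (hb.2.2.2.2.2.2.2.1 m).1
        rw [Finset.mem_filter]
        refine ⟨?_, ?_⟩
        · unfold SqF
          rw [Finset.mem_filter, Finset.mem_Icc]
          refine ⟨⟨hpos, Nat.le_floor (hfN _ hf0)⟩, hb.1.squarefree_of_dvd hpd, ?_⟩
          intro p hp hpn
          obtain ⟨h2, _⟩ := (hb.2.2.1 p hp).1 (dvd_trans hpn hpd)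
          exact h2
        · apply Nat.Coprime.symm
          apply Nat.coprime_of_dvd
          intro p hp hp1 hp2
          obtain ⟨hpS, hrp⟩ := ((hB S k hSp r).2.2.1 p hp).1 hp1
          have h3 : u ⟨p, hpS⟩ = some m := (MSU_dvd_prt hSp m u ⟨p, hpS⟩).1 hp2
          rcases MSU_dl hu' ⟨p, hpS⟩ with ⟨_, h5⟩ | ⟨h4, _⟩
          · exact hrp h5
          · exact h4 h3
      · intro u hu _ u' hu' _ heq
        rw [Finset.mem_filter] at hu hu'
        funext p
        have h2 : u p = some m ↔ u' p = some m := by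
          rw [← MSU_dvd_prt hSp m u p, ← MSU_dvd_prt hSp m u' p, heq]
        rcases MSU_dl hu.2 p with ⟨h3, h4⟩ | ⟨h3, h4⟩
        · rw [h3, h2.1 h3]
        · rcases MSU_dl hu'.2 p with ⟨h5, h6⟩ | ⟨h5, h6⟩
          · exact absurd (h2.2 h5) h3
          · rw [h4, h6]
      · intro n hn _
        rw [Finset.mem_filter] at hn
        obtain ⟨hn, hc⟩ := hn
        unfold SqF at hn
        rw [Finset.mem_filter] at hn
        obtain ⟨u, hu, hpu⟩ := MSU_surj hB hSp hr hn.2.1 hn.2.2 hc
        have hfn : f n / (n.totient : ℝ) ≠ 0 := by assumption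
        refine ⟨u, by rw [Finset.mem_filter]; exact ⟨Finset.mem_univ _, hu⟩, ?_, hpu⟩
        have h2 := MSU_mw hB hSp hu
        rw [h2, hpu, div_mul_eq_div_div, div_self hmw0, mul_one_div]
        exact hfn
      · intro u hu _
        rw [Finset.mem_filter] at hu
        rw [MSU_mw hB hSp hu.2, div_mul_eq_div_div, div_self hmw0, mul_one_div]
    rw [h1]
    have h2 : ∑ n ∈ SqF S N, f n / (n.totient : ℝ) =
        ∑ n ∈ (SqF S N).filter (fun n => n.Coprime (nrm r)), f n / (n.totient : ℝ) +
        ∑ n ∈ (SqF S N).filter (fun n => ¬ n.Coprime (nrm r)), f n / (n.totient : ℝ) :=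
      (Finset.sum_filter_add_sum_filter_not _ _ _).symm
    rw [h2]
    have h3 : ∀ a b : ℝ, |a - (a + b)| = |b| := by
      intro a b
      rw [← abs_neg b]
      congr 1
      ring
    rw [h3]
    obtain ⟨T, hT⟩ : ∃ T : Finset {p // p ∈ S}, T = univ.filter (fun q => ¬ r q = none) := ⟨_, rfl⟩
    have h4 : mw (fun p => 1 + 1 / ((p : ℝ) - 1)) r = ∏ q ∈ T, (1 + 1 / (((q : ℕ) : ℝ) - 1)) := by
      unfold mw
      rw [hT, Finset.prod_filter]
      apply Finset.prod_congr rfl
      intro p _
      by_cases hp : r p = none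
      · simp [hp]
      · simp [hp]
    calc |∑ n ∈ (SqF S N).filter (fun n => ¬ n.Coprime (nrm r)), f n / (n.totient : ℝ)|
        ≤ ∑ n ∈ (SqF S N).filter (fun n => ¬ n.Coprime (nrm r)), |f n / (n.totient : ℝ)| :=
          Finset.abs_sum_le_sum_abs _ _
      _ ≤ ∑ n ∈ (SqF S N).filter (fun n => ¬ n.Coprime (nrm r)),
            ∑ q ∈ T, if (q : ℕ) ∣ n then M * (1 / (n.totient : ℝ)) else 0 := by
          apply Finset.sum_le_sum
          intro n hn
          rw [Finset.mem_filter] at hn
          obtain ⟨p, hp, hp1, hp2⟩ := Nat.Prime.not_coprime_iff_dvd.1 hn.2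
          obtain ⟨hpS, hrp⟩ := ((hB S k hSp r).2.2.1 p hp).1 hp2
          have hmem : (⟨p, hpS⟩ : {p // p ∈ S}) ∈ T := by
            rw [hT, Finset.mem_filter]
            exact ⟨Finset.mem_univ _, hrp⟩
          have h5 : |f n / (n.totient : ℝ)| ≤ M * (1 / (n.totient : ℝ)) := by
            rw [abs_div, Nat.abs_cast, mul_one_div]
            exact div_le_div_of_nonneg_right (hf n) (Nat.cast_nonneg _)
          refine h5.trans ?_
          have h6 := Finset.single_le_sum (f := fun q : {p // p ∈ S} =>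
            if (q : ℕ) ∣ n then M * (1 / (n.totient : ℝ)) else 0) (s := T) (by
              intro q _
              split_ifs
              · positivity
              · exact le_rfl) hmem
          simp only [hp1, if_true] at h6
          exact h6
      _ ≤ ∑ n ∈ SqF S N, ∑ q ∈ T, if (q : ℕ) ∣ n then M * (1 / (n.totient : ℝ)) else 0 := by
          apply Finset.sum_le_sum_of_subset_of_nonneg (Finset.filter_subset _ _)
          intro n _ _
          apply Finset.sum_nonneg
          intro q _
          split_ifs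
          · positivity
          · exact le_rfl
      _ = ∑ q ∈ T, M * ∑ n ∈ (SqF S N).filter (fun n => (q : ℕ) ∣ n), 1 / (n.totient : ℝ) := by
          rw [Finset.sum_comm]
          apply Finset.sum_congr rfl
          intro q _
          rw [Finset.sum_filter, Finset.mul_sum]
          apply Finset.sum_congr rfl
          intro n _
          split_ifs
          · rfl
          · rw [mul_zero]
      _ ≤ ∑ q ∈ T, M * (1 / (((q : ℕ) : ℝ) - 1) * Hs S N) := by
          apply Finset.sum_le_sum
          intro q _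
          exact mul_le_mul_of_nonneg_left (MSU_div hS N q q.2) hM
      _ = M * Hs S N * ∑ q ∈ T, 1 / (((q : ℕ) : ℝ) - 1) := by
          rw [Finset.mul_sum]
          apply Finset.sum_congr rfl
          intro q _
          ring
      _ ≤ M * Hs S N * (mw (fun p => 1 + 1 / ((p : ℝ) - 1)) r - 1) := by
          have hH : 0 ≤ Hs S N := by
            unfold Hs
            apply Finset.sum_nonneg
            intro n _
            positivity
          apply mul_le_mul_of_nonneg_left _ (mul_nonneg hM hH)
          rw [h4]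
          have := MSU_one_add T (fun q => 1 / (((q : ℕ) : ℝ) - 1)) (fun q _ => by
            have := hT1 q
            positivity)
          linarith
  · intro R u hu
    funext i
    by_cases hi : i = m
    · rw [hi, Function.update_self]
      rfl
    · rw [Function.update_of_ne hi]
      unfold tv
      have h1 : prt i u = prt i r := by
        unfold prt
        apply Finset.prod_congr rfl
        intro p _
        rcases MSU_dl hu p with ⟨h3, h4⟩ | ⟨h3, h4⟩
        · rw [if_neg (by rw [h3]; intro h; exact hi (Option.some.inj h).symm), if_neg (by rw [h4]; simp)]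
        · rw [h4]
      rw [h1]

end MPb51559.BG
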