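import Pool.Agent.Work.MP_b51559_nt.BG.C.Stmts

set_option autoImplicit false

/-!
# Part C, item ONA: the sum of the reciprocals of the integers prime to a modulus
-/

namespace MPb51559.BG

open Finset Filter Topology MeasureTheory
open scoped Classical

/-- the deviation of the indicator function of the integers prime to `W` from its mean -/
noncomputable def ONA_z (W : ℕ) (i : ℕ) : ℝ :=
  (if (i + 1).Coprime W then (1 : ℝ) else 0) - (W.totient : ℝ) / W

theorem ONA_period (W : ℕ) (hW : 0 < W) (n : ℕ) :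
    ∑ i ∈ range W, ONA_z W (n + i) = 0 := by
  unfold ONA_z
  rw [Finset.sum_sub_distrib]
  have h1 : ∑ i ∈ range W, (if (n + i + 1).Coprime W then (1 : ℝ) else 0) = (W.totient : ℝ) := by
    have h2 := Nat.filter_coprime_Ico_eq_totient W (n + 1)
    rw [← h2, Finset.card_filter, Finset.sum_Ico_eq_sum_range]
    have e : n + 1 + W - (n + 1) = W := by omega
    rw [e]
    push_cast
    refine Finset.sum_congr rfl fun i _ => ?_
    have e2 : n + 1 + i = n + i + 1 := by omega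
    rw [e2]
    by_cases hc : (n + i + 1).Coprime W
    · rw [if_pos hc, if_pos (Nat.coprime_comm.1 hc)]
    · rw [if_neg hc, if_neg (fun h => hc (Nat.coprime_comm.1 h))]
  rw [h1, Finset.sum_const, Finset.card_range, nsmul_eq_mul]
  have : (W : ℝ) ≠ 0 := by positivity
  field_simp
  ring

theorem ONA_bdd (W : ℕ) (hW : 0 < W) : ∃ b : ℝ, ∀ n, ‖∑ i ∈ range n, ONA_z W i‖ ≤ b := by
  have hp : Function.Periodic (fun n => ∑ i ∈ range n, ONA_z W i) W := by
    intro n
    show ∑ i ∈ range (n + W), ONA_z W i = ∑ i ∈ range n, ONA_z W i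
    rw [Finset.sum_range_add, ONA_period W hW n, add_zero]
  refine ⟨∑ j ∈ range W, ‖∑ i ∈ range j, ONA_z W i‖, fun n => ?_⟩
  have h1 := hp.map_mod_nat n
  have h2 : ∑ i ∈ range (n % W), ONA_z W i = ∑ i ∈ range n, ONA_z W i := h1
  rw [← h2]
  exact Finset.single_le_sum (f := fun j => ‖∑ i ∈ range j, ONA_z W i‖)
    (fun _ _ => norm_nonneg _) (Finset.mem_range.2 (Nat.mod_lt n hW))

theorem ONA_series (W : ℕ) (hW : 0 < W) :
    ∃ C : ℝ, ∀ n, |∑ i ∈ range n, 1 / ((i : ℝ) + 1) * ONA_z W i| ≤ C := by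
  obtain ⟨b, hb⟩ := ONA_bdd W hW
  have hanti : Antitone (fun i : ℕ => 1 / ((i : ℝ) + 1)) := by
    intro i j hij
    have : (i : ℝ) ≤ j := by exact_mod_cast hij
    exact one_div_le_one_div_of_le (by positivity) (by linarith)
  have hc := Antitone.cauchySeq_series_mul_of_tendsto_zero_of_bounded hanti
    tendsto_one_div_add_atTop_nhds_zero_nat hb
  obtain ⟨C, -, hC⟩ := cauchySeq_bdd hc
  refine ⟨C, fun n => ?_⟩
  have h := (hC n 0).le
  rw [Real.dist_eq] at h
  simpa using h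

theorem prf_ONA : C_ONA := by
  intro D0
  have hW : 0 < primorial D0 := primorial_pos D0
  obtain ⟨C, hC⟩ := ONA_series (primorial D0) hW
  have hk0 : 0 ≤ kap D0 := by
    unfold kap
    positivity
  refine ⟨C + kap D0, fun z hz => ?_⟩
  have e1 : ∑ m ∈ (Icc 1 ⌊z⌋₊).filter (fun m => m.Coprime (primorial D0)), 1 / (m : ℝ) =
      (∑ i ∈ range ⌊z⌋₊, 1 / ((i : ℝ) + 1) * ONA_z (primorial D0) i) +
        kap D0 * (harmonic ⌊z⌋₊ : ℝ) := by
    have e2 : Icc 1 ⌊z⌋₊ = Ico 1 (⌊z⌋₊ + 1) := by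
      ext x
      simp only [Finset.mem_Icc, Finset.mem_Ico]
      omega
    rw [Finset.sum_filter, e2, Finset.sum_Ico_eq_sum_range, Nat.add_sub_cancel]
    unfold harmonic
    push_cast
    rw [Finset.mul_sum, ← Finset.sum_add_distrib]
    refine Finset.sum_congr rfl fun i _ => ?_
    unfold ONA_z kap
    have e3 : 1 + i = i + 1 := by omega
    rw [e3]
    split_ifs
    · have : (i : ℝ) + 1 ≠ 0 := by positivity
      field_simp
      ring
    · have : (i : ℝ) + 1 ≠ 0 := by positivity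
      field_simp
      ring
  have hz0 : 0 < z := by linarith
  have hf : 1 ≤ ⌊z⌋₊ := Nat.le_floor (by simpa using hz)
  have hf0 : (0 : ℝ) < (⌊z⌋₊ : ℝ) := by exact_mod_cast hf
  have h1 : Real.log z ≤ (harmonic ⌊z⌋₊ : ℝ) := by
    refine le_trans ?_ (log_add_one_le_harmonic ⌊z⌋₊)
    exact Real.log_le_log hz0 (by push_cast; exact (Nat.lt_floor_add_one z).le)
  have h2 : (harmonic ⌊z⌋₊ : ℝ) ≤ 1 + Real.log z := by
    refine (harmonic_le_one_add_log ⌊z⌋₊).trans ?_
    have := Real.log_le_log hf0 (Nat.floor_le hz0.le)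
    linarith
  rw [e1]
  have h3 := abs_le.1 (hC ⌊z⌋₊)
  have h4 : kap D0 * Real.log z ≤ kap D0 * (harmonic ⌊z⌋₊ : ℝ) := mul_le_mul_of_nonneg_left h1 hk0
  have h5 : kap D0 * (harmonic ⌊z⌋₊ : ℝ) ≤ kap D0 * (1 + Real.log z) :=
    mul_le_mul_of_nonneg_left h2 hk0
  rw [abs_le]
  constructor <;> nlinarith [h3.1, h3.2]

end MPb51559.BG
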