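import Pool.Agent.Work.MP_b51559_nt.BG.C.Stmts

set_option autoImplicit false

/-!
# Part C: item ONE
-/

namespace MPb51559.BG

open Finset Filter Topology MeasureTheory
open scoped Classical

namespace AONE

/-- the radical -/
def rd (c : ℕ) : ℕ := ∏ p ∈ c.primeFactors, p

noncomputable def gg (n c : ℕ) : ℝ :=
  if c ≠ 0 ∧ c.primeFactors ⊆ n.primeFactors then 1 / ((n : ℝ) * c) else 0

lemma gg_nonneg (n c : ℕ) : 0 ≤ gg n c := by unfold gg; split_ifs <;> positivity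

lemma rd_pos (c : ℕ) : 0 < rd c :=
  Finset.prod_pos (fun _ hp => (Nat.prime_of_mem_primeFactors hp).pos)

lemma rd_sqf {n : ℕ} (h : Squarefree n) : rd n = n := Nat.prod_primeFactors_of_squarefree h

lemma hasSum_gg {n : ℕ} (hn : Squarefree n) :
    HasSum (fun c => gg n c) (1 / (n.totient : ℝ)) := by
  have hn0 : n ≠ 0 := hn.ne_zero
  have hnR : (n : ℝ) ≠ 0 := by exact_mod_cast hn0
  let f : ℕ →* ℝ :=
    { toFun := fun m => ((m : ℝ))⁻¹
      map_one' := by simp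
      map_mul' := by intro a b; push_cast; rw [mul_inv] }
  have hf : ∀ {p : ℕ}, p.Prime → ‖f p‖ < 1 := by
    intro p hp
    change ‖((p : ℝ))⁻¹‖ < 1
    rw [norm_inv, Real.norm_natCast]
    exact inv_lt_one_of_one_lt₀ (by exact_mod_cast hp.one_lt)
  have h := (EulerProduct.summable_and_hasSum_factoredNumbers_prod_filter_prime_geometric
    (f := f) hf n.primeFactors).2
  have hfil : (n.primeFactors.filter Nat.Prime) = n.primeFactors :=
    Finset.filter_true_of_mem (fun p hp => Nat.prime_of_mem_primeFactors hp)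
  rw [hfil] at h
  have h2 : HasSum (Set.indicator (Nat.factoredNumbers n.primeFactors) (fun m => f m))
      (∏ p ∈ n.primeFactors, (1 - f p)⁻¹) :=
    hasSum_subtype_iff_indicator.mp h
  have h3 := h2.mul_left ((n : ℝ)⁻¹)
  have htot : (n.totient : ℝ) = n * ∏ p ∈ n.primeFactors, (1 - (p : ℝ)⁻¹) := by
    have := congrArg (fun q : ℚ => (q : ℝ)) (Nat.totient_eq_mul_prod_factors n)
    simp only [Rat.cast_mul, Rat.cast_prod, Rat.cast_sub, Rat.cast_one, Rat.cast_inv,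
      Rat.cast_natCast] at this
    exact this
  have hval : ((n : ℝ)⁻¹) * (∏ p ∈ n.primeFactors, (1 - f p)⁻¹) = 1 / (n.totient : ℝ) := by
    rw [htot, Finset.prod_inv_distrib, one_div, mul_inv]
    rfl
  rw [hval] at h3
  refine HasSum.congr_fun h3 (fun c => ?_)
  unfold gg
  by_cases hc : c ≠ 0 ∧ c.primeFactors ⊆ n.primeFactors
  · rw [if_pos hc, Set.indicator_of_mem (Nat.mem_factoredNumbers_iff_primeFactors_subset.mpr hc)]
    change _ = (n : ℝ)⁻¹ * ((c : ℝ))⁻¹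
    rw [one_div, mul_inv]
  · rw [if_neg hc, Set.indicator_of_notMem
      (fun h => hc (Nat.mem_factoredNumbers_iff_primeFactors_subset.mp h)), mul_zero]

/-- the sum over all n prime to W -/
noncomputable def Aw (D0 : ℕ) (z : ℝ) : ℝ :=
  ∑ m ∈ (Icc 1 ⌊z⌋₊).filter (fun m => m.Coprime (primorial D0)), 1 / (m : ℝ)

lemma coprime_iff {D0 m : ℕ} (_hm : m ≠ 0) :
    m.Coprime (primorial D0) ↔ ∀ p, p.Prime → p ∣ m → D0 < p := by
  constructor
  · intro h p hp hpm
    by_contra hle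
    push Not at hle
    have h1 : p ∣ primorial D0 := hp.dvd_primorial_iff.mpr hle
    exact hp.one_lt.ne' (Nat.dvd_one.mp (h ▸ Nat.dvd_gcd hpm h1))
  · intro h
    by_contra hco
    obtain ⟨p, hp, hpm, hpW⟩ := Nat.Prime.not_coprime_iff_dvd.mp hco
    have := hp.dvd_primorial_iff.mp hpW
    exact absurd (h p hp hpm) (by omega)

lemma mem_SqF {S : Finset ℕ} {z : ℝ} {n : ℕ} : n ∈ SqF S z ↔
    (1 ≤ n ∧ n ≤ ⌊z⌋₊) ∧ Squarefree n ∧ ∀ p, p.Prime → p ∣ n → p ∈ S := by
  unfold SqF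
  rw [mem_filter, mem_Icc]

lemma primeFactors_mul_eq {n c : ℕ} (hn : n ≠ 0) (hc : c ≠ 0)
    (hsub : c.primeFactors ⊆ n.primeFactors) : (n * c).primeFactors = n.primeFactors := by
  rw [Nat.primeFactors_mul hn hc]
  exact Finset.union_eq_left.mpr hsub

lemma rd_mul {n c : ℕ} (hn : Squarefree n) (hc : c ≠ 0)
    (hsub : c.primeFactors ⊆ n.primeFactors) : rd (n * c) = n := by
  unfold rd
  rw [primeFactors_mul_eq hn.ne_zero hc hsub]
  exact Nat.prod_primeFactors_of_squarefree hn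

/-- lower bound -/
lemma lower {D0 : ℕ} {x z : ℝ} (hz : ∀ n : ℕ, n ≤ ⌊z⌋₊ → n < ⌊x⌋₊) :
    Aw D0 z ≤ Hs (Sx D0 x) z := by
  unfold Aw Hs
  have hmaps : ∀ m ∈ (Icc 1 ⌊z⌋₊).filter (fun m => m.Coprime (primorial D0)),
      rd m ∈ SqF (Sx D0 x) z := by
    intro m hm
    rw [mem_filter, mem_Icc] at hm
    obtain ⟨⟨h1, h2⟩, h3⟩ := hm
    have hm0 : m ≠ 0 := by omega
    have hdvd : rd m ∣ m := Nat.prod_primeFactors_dvd m
    have hle : rd m ≤ m := Nat.le_of_dvd (by omega) hdvd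
    rw [mem_SqF]
    refine ⟨⟨rd_pos m, hle.trans h2⟩, ?_, ?_⟩
    · unfold rd
      exact Finset.squarefree_prod_of_pairwise_isCoprime
        (fun p hp q hq hpq => by
          have h1 := (Nat.coprime_primes (Nat.prime_of_mem_primeFactors hp)
            (Nat.prime_of_mem_primeFactors hq)).mpr hpq
          exact Nat.coprime_iff_isRelPrime.mp h1)
        (fun p hp => (Nat.prime_of_mem_primeFactors hp).prime.squarefree)
    · intro p hp hpm
      have hpm' : p ∣ m := hpm.trans hdvd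
      have hD := (coprime_iff hm0).mp h3 p hp hpm'
      unfold Sx
      rw [mem_filter, mem_range]
      exact ⟨hz p ((Nat.le_of_dvd (by omega) hpm').trans h2), hp, hD⟩
  rw [← Finset.sum_fiberwise_of_maps_to hmaps]
  refine Finset.sum_le_sum (fun n hn => ?_)
  have hsq : Squarefree n := (mem_SqF.mp hn).2.1
  have hn0 : n ≠ 0 := hsq.ne_zero
  have hS := hasSum_gg hsq
  rw [← hS.tsum_eq]
  set F := ((Icc 1 ⌊z⌋₊).filter (fun m => m.Coprime (primorial D0))).filter
    (fun m => rd m = n) with hF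
  have key : ∑ m ∈ F, 1 / (m : ℝ) = ∑ c ∈ F.image (fun m => m / n), gg n c := by
    have hmem : ∀ m ∈ F, m ≠ 0 ∧ n ∣ m ∧ m.primeFactors = n.primeFactors := by
      intro m hm
      rw [hF, mem_filter, mem_filter, mem_Icc] at hm
      refine ⟨by omega, ?_, ?_⟩
      · rw [← hm.2]; exact Nat.prod_primeFactors_dvd m
      · rw [← hm.2]
        unfold rd
        rw [Nat.primeFactors_prod (fun p hp => Nat.prime_of_mem_primeFactors hp)]
    rw [Finset.sum_image]
    · refine Finset.sum_congr rfl (fun m hm => ?_)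
      obtain ⟨h1, ⟨c, hc⟩, h3⟩ := hmem m hm
      have hc0 : c ≠ 0 := by rintro rfl; simp at hc; exact h1 hc
      have hdiv : m / n = c := by rw [hc]; exact Nat.mul_div_cancel_left c (Nat.pos_of_ne_zero hn0)
      rw [hdiv]
      unfold gg
      rw [if_pos, hc]
      · push_cast; rfl
      · refine ⟨hc0, ?_⟩
        rw [← h3]
        exact Nat.primeFactors_mono (by rw [hc]; exact dvd_mul_left c n) h1
    · intro a ha b hb hab
      obtain ⟨-, h2, -⟩ := hmem a ha
      obtain ⟨-, h2', -⟩ := hmem b hb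
      have hab' : a / n = b / n := hab
      rw [← Nat.div_mul_cancel h2, ← Nat.div_mul_cancel h2', hab']
  rw [key]
  exact hS.summable.sum_le_tsum _ (fun c _ => gg_nonneg n c)

/-- the first part of the upper bound -/
lemma upper1 {D0 : ℕ} {x z : ℝ} (hz1 : 1 ≤ z) (c0 : ℕ) :
    ∑ n ∈ SqF (Sx D0 x) z, ∑ c ∈ range c0, gg n c ≤ Aw D0 (c0 * z) := by
  unfold Aw
  rw [← Finset.sum_product']
  have h1 : ∑ q ∈ SqF (Sx D0 x) z ×ˢ range c0, gg q.1 q.2 =
      ∑ q ∈ (SqF (Sx D0 x) z ×ˢ range c0).filter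
        (fun q => q.2 ≠ 0 ∧ q.2.primeFactors ⊆ q.1.primeFactors), 1 / ((q.1 * q.2 : ℕ) : ℝ) := by
    rw [Finset.sum_filter]
    refine Finset.sum_congr rfl (fun q _ => ?_)
    unfold gg
    push_cast
    rfl
  rw [h1]
  set F := (SqF (Sx D0 x) z ×ˢ range c0).filter
        (fun q => q.2 ≠ 0 ∧ q.2.primeFactors ⊆ q.1.primeFactors) with hF
  have hmem : ∀ q ∈ F, ((1 ≤ q.1 ∧ q.1 ≤ ⌊z⌋₊) ∧ Squarefree q.1 ∧
      ∀ p, p.Prime → p ∣ q.1 → p ∈ Sx D0 x) ∧ q.2 < c0 ∧ q.2 ≠ 0 ∧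
      q.2.primeFactors ⊆ q.1.primeFactors := by
    intro q hq
    rw [hF, mem_filter, mem_product, mem_SqF, mem_range] at hq
    exact ⟨hq.1.1, hq.1.2, hq.2.1, hq.2.2⟩
  have hinj : Set.InjOn (fun q : ℕ × ℕ => q.1 * q.2) F := by
    intro a ha b hb hab
    obtain ⟨⟨-, hs, -⟩, -, hc, hsub⟩ := hmem a ha
    obtain ⟨⟨-, hs', -⟩, -, hc', hsub'⟩ := hmem b hb
    have hab' : a.1 * a.2 = b.1 * b.2 := hab
    have e1 : a.1 = b.1 := by
      rw [← rd_mul hs hc hsub, ← rd_mul hs' hc' hsub', hab']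
    have e2 : a.2 = b.2 := by
      rw [e1] at hab'
      exact Nat.eq_of_mul_eq_mul_left (Nat.pos_of_ne_zero hs'.ne_zero) hab'
    exact Prod.ext e1 e2
  have h2 : ∑ q ∈ F, 1 / ((q.1 * q.2 : ℕ) : ℝ) =
      ∑ m ∈ F.image (fun q : ℕ × ℕ => q.1 * q.2), 1 / (m : ℝ) := by
    rw [Finset.sum_image hinj]
  rw [h2]
  refine Finset.sum_le_sum_of_subset_of_nonneg ?_ (fun _ _ _ => by positivity)
  intro m hm
  rw [mem_image] at hm
  obtain ⟨q, hq, rfl⟩ := hm
  obtain ⟨⟨⟨hn1, hn2⟩, hs, hp⟩, hc1, hc2, hsub⟩ := hmem q hq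
  rw [mem_filter, mem_Icc]
  have hc2' : 1 ≤ q.2 := Nat.one_le_iff_ne_zero.mpr hc2
  refine ⟨⟨Nat.one_le_iff_ne_zero.mpr (Nat.mul_ne_zero (by omega) hc2), ?_⟩, ?_⟩
  · rw [Nat.le_floor_iff (by positivity)]
    push_cast
    have h3 : (q.1 : ℝ) ≤ z := (Nat.le_floor_iff (by linarith)).mp hn2
    have h4 : (q.2 : ℝ) ≤ c0 := by exact_mod_cast hc1.le
    calc (q.1 : ℝ) * q.2 ≤ z * c0 := by gcongr
      _ = c0 * z := mul_comm _ _
  · rw [coprime_iff (Nat.mul_ne_zero (by omega) hc2)]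
    intro p hp' hpd
    have hp1 : p ∈ (q.1 * q.2).primeFactors :=
      Nat.mem_primeFactors.mpr ⟨hp', hpd, Nat.mul_ne_zero (by omega) hc2⟩
    rw [primeFactors_mul_eq hs.ne_zero hc2 hsub] at hp1
    have := hp p hp' (Nat.dvd_of_mem_primeFactors hp1)
    unfold Sx at this
    rw [mem_filter] at this
    exact this.2.2

/-- the weight of c -/
noncomputable def wt (c : ℕ) : ℝ := 1 / ((c : ℝ) * ((∏ p ∈ c.primeFactors, p : ℕ) : ℝ))

lemma wt_nonneg (c : ℕ) : 0 ≤ wt c := by unfold wt; positivity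

lemma upper2 {S : Finset ℕ} {z : ℝ} (hz1 : 1 ≤ z) (c : ℕ) :
    ∑ n ∈ SqF S z, gg n c ≤ wt c * (1 + Real.log z) := by
  have hlog : 0 ≤ Real.log z := Real.log_nonneg hz1
  by_cases hc : c = 0
  · subst hc
    have : ∑ n ∈ SqF S z, gg n 0 = 0 := Finset.sum_eq_zero (fun n _ => by unfold gg; simp)
    rw [this]
    exact mul_nonneg (wt_nonneg 0) (by linarith)
  have hharm : ∑ m ∈ Icc 1 ⌊z⌋₊, 1 / (m : ℝ) ≤ 1 + Real.log z := by
    have := harmonic_floor_le_one_add_log z hz1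
    rw [harmonic_eq_sum_Icc] at this
    push_cast at this
    simpa [one_div] using this
  have hr : (0 : ℝ) < (rd c : ℝ) := by exact_mod_cast rd_pos c
  have hcR : (0 : ℝ) < (c : ℝ) := by exact_mod_cast Nat.pos_of_ne_zero hc
  have hwt : wt c = 1 / ((c : ℝ) * (rd c : ℝ)) := rfl
  set F := (SqF S z).filter (fun n => c.primeFactors ⊆ n.primeFactors) with hF
  have h1 : ∑ n ∈ SqF S z, gg n c = ∑ n ∈ F, 1 / ((n : ℝ) * c) := by
    rw [hF, Finset.sum_filter]
    refine Finset.sum_congr rfl (fun n _ => ?_)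
    unfold gg
    simp [hc]
  have hmem : ∀ n ∈ F, (1 ≤ n ∧ n ≤ ⌊z⌋₊) ∧ rd c ∣ n := by
    intro n hn
    rw [hF, mem_filter, mem_SqF] at hn
    refine ⟨hn.1.1, ?_⟩
    have : rd c ∣ ∏ p ∈ n.primeFactors, p := Finset.prod_dvd_prod_of_subset _ _ _ hn.2
    exact this.trans (Nat.prod_primeFactors_dvd n)
  rw [h1]
  have h2 : ∑ n ∈ F, 1 / ((n : ℝ) * c) = wt c * ∑ m ∈ F.image (fun n => n / rd c), 1 / (m : ℝ) := by
    rw [Finset.sum_image, Finset.mul_sum]
    · refine Finset.sum_congr rfl (fun n hn => ?_)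
      obtain ⟨⟨h3, -⟩, ⟨e, he⟩⟩ := hmem n hn
      have hdiv : n / rd c = e := by rw [he]; exact Nat.mul_div_cancel_left e (rd_pos c)
      have he0 : e ≠ 0 := by rintro rfl; simp at he; omega
      have heR : (0 : ℝ) < (e : ℝ) := by exact_mod_cast Nat.pos_of_ne_zero he0
      rw [hdiv, hwt, he]
      push_cast
      field_simp
    · intro a ha b hb hab
      obtain ⟨-, h2⟩ := hmem a ha
      obtain ⟨-, h2'⟩ := hmem b hb
      have hab' : a / rd c = b / rd c := hab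
      rw [← Nat.div_mul_cancel h2, ← Nat.div_mul_cancel h2', hab']
  rw [h2]
  refine mul_le_mul_of_nonneg_left (le_trans ?_ hharm) (wt_nonneg c)
  refine Finset.sum_le_sum_of_subset_of_nonneg ?_ (fun _ _ _ => by positivity)
  intro m hm
  rw [mem_image] at hm
  obtain ⟨n, hn, rfl⟩ := hm
  obtain ⟨⟨h3, h4⟩, hd⟩ := hmem n hn
  rw [mem_Icc]
  exact ⟨Nat.div_pos (Nat.le_of_dvd (by omega) hd) (rd_pos c), (Nat.div_le_self _ _).trans h4⟩

/-- upper bound -/
lemma upper (hB : Summable wt) {D0 : ℕ} {x z : ℝ} (hz1 : 1 ≤ z) (c0 : ℕ) :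
    Hs (Sx D0 x) z ≤ Aw D0 (c0 * z) + (∑' c, wt (c + c0)) * (1 + Real.log z) := by
  unfold Hs
  have h1 : ∀ n ∈ SqF (Sx D0 x) z, 1 / (n.totient : ℝ) =
      ∑ c ∈ range c0, gg n c + ∑' c, gg n (c + c0) := by
    intro n hn
    have hS := hasSum_gg (mem_SqF.mp hn).2.1
    rw [← hS.tsum_eq, hS.summable.sum_add_tsum_nat_add]
  rw [Finset.sum_congr rfl h1, Finset.sum_add_distrib]
  have hsum : ∀ n ∈ SqF (Sx D0 x) z, Summable (fun c => gg n (c + c0)) := by
    intro n hn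
    exact (summable_nat_add_iff c0).mpr (hasSum_gg (mem_SqF.mp hn).2.1).summable
  rw [← Summable.tsum_finsetSum hsum]
  refine add_le_add (upper1 hz1 c0) ?_
  rw [← tsum_mul_right]
  refine Summable.tsum_le_tsum (fun c => upper2 hz1 (c + c0)) ?_ ?_
  · exact summable_sum hsum
  · exact ((summable_nat_add_iff c0).mpr hB).mul_right _

end AONE

open AONE in
theorem prf_ONE (hA : C_ONA) (hB : C_ONB) : C_ONE := by
  intro D0 hD0 η hη
  obtain ⟨C, hC⟩ := hA D0
  have hB' : Summable wt := hB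
  -- choice of c0
  have htail : Tendsto (fun i => ∑' k, wt (k + i)) atTop (𝓝 0) := tendsto_sum_nat_add wt
  obtain ⟨c1, hc1⟩ := (htail.eventually (gt_mem_nhds hη)).exists_forall_of_atTop
  set c0 := c1 + 1 with hc0
  have ht : ∑' k, wt (k + c0) < η := hc1 c0 (by omega)
  have hc0pos : (1 : ℝ) ≤ c0 := by rw [hc0]; push_cast; linarith [(Nat.cast_nonneg c1 : (0:ℝ) ≤ c1)]
  have hkap : 0 ≤ kap D0 := by unfold kap; positivity
  -- choice of x0
  set K : ℝ := kap D0 * Real.log c0 + |C| + η with hK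
  obtain ⟨x1, hx1⟩ := (Real.tendsto_log_atTop.eventually_ge_atTop (2 * K / η)).exists_forall_of_atTop
  refine ⟨max x1 4, fun x hx z hz1 hz2 => ?_⟩
  have hxx1 : x1 ≤ x := (le_max_left _ _).trans hx
  have hx4 : (4 : ℝ) ≤ x := (le_max_right _ _).trans hx
  have hlogx : 2 * K / η ≤ Real.log x := hx1 x hxx1
  have hlogx' : K ≤ η / 2 * Real.log x := by
    rw [div_le_iff₀ hη] at hlogx
    linarith
  have hlogz0 : 0 ≤ Real.log z := Real.log_nonneg hz1
  have hlogz : Real.log z ≤ Real.log x / 2 := by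
    rw [← Real.log_sqrt (by linarith)]
    exact Real.log_le_log (by linarith) hz2
  have hlow : Aw D0 z ≤ Hs (Sx D0 x) z := by
    refine lower (fun n hn => ?_)
    have hsx : Real.sqrt x ≤ x / 2 := by
      rw [Real.sqrt_le_left (by linarith)]
      nlinarith
    have h1 : (n : ℝ) ≤ z := (Nat.le_floor_iff (by linarith)).mp hn
    have h2 : ((n + 1 : ℕ) : ℝ) ≤ x := by push_cast; linarith
    have := (Nat.le_floor_iff (by linarith)).mpr h2
    omega
  have hup := upper hB' (D0 := D0) (x := x) hz1 c0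
  have hAz := abs_le.mp (hC z hz1)
  have hc0z : (1 : ℝ) ≤ c0 * z := by nlinarith
  have hAcz := abs_le.mp (hC (c0 * z) hc0z)
  have hlogmul : Real.log (c0 * z) = Real.log c0 + Real.log z :=
    Real.log_mul (by linarith) (by linarith)
  change -C ≤ Aw D0 z - _ ∧ _ at hAz
  change _ ∧ Aw D0 (c0 * z) - _ ≤ C at hAcz
  rw [hlogmul] at hAcz
  have hCabs : C ≤ |C| := le_abs_self C
  have hlogc0 : 0 ≤ kap D0 * Real.log c0 := mul_nonneg hkap (Real.log_nonneg hc0pos)
  rw [abs_le]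
  constructor
  · have : -(η * Real.log x) ≤ -C := by
      have : 0 ≤ η / 2 * Real.log x := by
        have : 0 ≤ Real.log x := Real.log_nonneg (by linarith)
        positivity
      linarith
    linarith [hAz.1]
  · have h3 : (∑' k, wt (k + c0)) * (1 + Real.log z) ≤ η * (1 + Real.log z) := by
      have : 0 ≤ 1 + Real.log z := by linarith
      exact mul_le_mul_of_nonneg_right ht.le this
    have h4 : η * (1 + Real.log z) ≤ η + η / 2 * Real.log x := by
      have := mul_le_mul_of_nonneg_left hlogz hη.le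
      linarith
    have h5 := hAcz.2
    linarith [hlogx']

end MPb51559.BG
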