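import Pool.Agent.Work.MP_b51559_nt.BG.C.Stmts

set_option autoImplicit false

/-!
# Part C: perturbation (item PERT)
-/

namespace MPb51559.BG

open Finset Filter Topology MeasureTheory
open scoped Classical

namespace PERTx

variable {S : Finset ℕ} {k : ℕ}

/-- a colour is removed at one prime -/
noncomputable def er (q : {p // p ∈ S}) (r : Co S k) : Co S k := Function.update r q none

lemma mw_er (f : ℕ → ℝ) (q : {p // p ∈ S}) (r : Co S k) (hr : r q ≠ none) :
    mw f r = f q * mw f (er q r) := by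
  unfold mw er
  rw [← Finset.mul_prod_erase univ _ (Finset.mem_univ q),
    ← Finset.mul_prod_erase univ
      (fun p => if Function.update r q none p = none then (1 : ℝ) else f p) (Finset.mem_univ q)]
  simp only [if_neg hr, Function.update_self, if_true, one_mul]
  congr 1
  apply Finset.prod_congr rfl
  intro p hp
  rw [Function.update_of_ne (Finset.ne_of_mem_erase hp)]

/-- one step: colour at `q` -/
lemma step (T : Finset (Co S k)) (g : ℕ → ℝ) (hS : ∀ p ∈ S, 2 < p)
    (hg : ∀ p ∈ S, 0 ≤ g p) (hT : ∀ r ∈ T, ∀ q, er q r ∈ T) (A : Finset {p // p ∈ S})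
    (q : {p // p ∈ S}) (hq : q ∉ A) (i : Fin k) :
    ∑ r ∈ T.filter (fun r => r q = some i),
        (∏ p ∈ A, (if r p = none then (1 : ℝ) else 1 + g p)) / mw aF r ≤
      (1 / aF q) * ∑ r ∈ T, (∏ p ∈ A, (if r p = none then (1 : ℝ) else 1 + g p)) / mw aF r := by
  have hpos : ∀ r : Co S k, 0 < mw aF r := by
    intro r
    apply Finset.prod_pos
    intro p _
    split_ifs
    · norm_num
    · have := hS p p.2
      have h2 : (2 : ℝ) < (p : ℕ) := by exact_mod_cast this
      unfold aF
      linarith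
  have hnn : ∀ r : Co S k,
      0 ≤ (∏ p ∈ A, (if r p = none then (1 : ℝ) else 1 + g p)) / mw aF r := by
    intro r
    apply div_nonneg _ (hpos r).le
    apply Finset.prod_nonneg
    intro p _
    split_ifs
    · norm_num
    · have := hg p p.2
      linarith
  have hq1 : 0 < aF q := by
    have := hS q q.2
    have h2 : (2 : ℝ) < (q : ℕ) := by exact_mod_cast this
    unfold aF
    linarith
  have hinj : Set.InjOn (er (k := k) q) (T.filter (fun r => r q = some i) : Set (Co S k)) := by
    intro r hr s hs h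
    rw [Finset.mem_coe, Finset.mem_filter] at hr hs
    funext p
    by_cases hp : p = q
    · rw [hp, hr.2, hs.2]
    · have := congrFun h p
      unfold er at this
      rwa [Function.update_of_ne hp, Function.update_of_ne hp] at this
  calc ∑ r ∈ T.filter (fun r => r q = some i),
        (∏ p ∈ A, (if r p = none then (1 : ℝ) else 1 + g p)) / mw aF r
      = ∑ r ∈ T.filter (fun r => r q = some i), (1 / aF q) *
          ((∏ p ∈ A, (if er q r p = none then (1 : ℝ) else 1 + g p)) / mw aF (er q r)) := by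
        apply Finset.sum_congr rfl
        intro r hr
        rw [Finset.mem_filter] at hr
        rw [mw_er aF q r (by rw [hr.2]; simp)]
        have : ∏ p ∈ A, (if r p = none then (1 : ℝ) else 1 + g p) =
            ∏ p ∈ A, (if er q r p = none then (1 : ℝ) else 1 + g p) := by
          apply Finset.prod_congr rfl
          intro p hp
          have hne : p ≠ q := fun h => hq (h ▸ hp)
          unfold er
          rw [Function.update_of_ne hne]
        rw [this]
        field_simp
    _ = (1 / aF q) * ∑ r ∈ (T.filter (fun r => r q = some i)).image (er q),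
          ((∏ p ∈ A, (if r p = none then (1 : ℝ) else 1 + g p)) / mw aF r) := by
        rw [Finset.sum_image hinj, Finset.mul_sum]
    _ ≤ _ := by
        apply mul_le_mul_of_nonneg_left _ (by positivity)
        apply Finset.sum_le_sum_of_subset_of_nonneg
        · intro r hr
          rw [Finset.mem_image] at hr
          obtain ⟨s, hs, rfl⟩ := hr
          exact hT s (Finset.mem_filter.mp hs).1 q
        · intro r _ _
          exact hnn r

lemma main (T : Finset (Co S k)) (g : ℕ → ℝ) (hS : ∀ p ∈ S, 2 < p)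
    (hg : ∀ p ∈ S, 0 ≤ g p) (hT : ∀ r ∈ T, ∀ q, er q r ∈ T) (A : Finset {p // p ∈ S}) :
    ∑ r ∈ T, (∏ p ∈ A, (if r p = none then (1 : ℝ) else 1 + g p)) / mw aF r ≤
      (∏ p ∈ A, (1 + k * (g p / aF p))) * ∑ r ∈ T, 1 / mw aF r := by
  induction A using Finset.induction_on with
  | empty => simp
  | insert q A hq ih =>
    have hgq : 0 ≤ g q := hg q q.2
    have hq1 : 0 < aF q := by
      have := hS q q.2
      have h2 : (2 : ℝ) < (q : ℕ) := by exact_mod_cast this
      unfold aF
      linarith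
    have h1 : ∑ r ∈ T, (∏ p ∈ insert q A, (if r p = none then (1 : ℝ) else 1 + g p)) / mw aF r =
        ∑ r ∈ T, (∏ p ∈ A, (if r p = none then (1 : ℝ) else 1 + g p)) / mw aF r +
        g q * ∑ i : Fin k, ∑ r ∈ T.filter (fun r => r q = some i),
          (∏ p ∈ A, (if r p = none then (1 : ℝ) else 1 + g p)) / mw aF r := by
      have h2 : ∑ i : Fin k, ∑ r ∈ T.filter (fun r => r q = some i),
          (∏ p ∈ A, (if r p = none then (1 : ℝ) else 1 + g p)) / mw aF r =
          ∑ r ∈ T, (if r q = none then 0 else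
            (∏ p ∈ A, (if r p = none then (1 : ℝ) else 1 + g p)) / mw aF r) := by
        simp_rw [Finset.sum_filter]
        rw [Finset.sum_comm]
        apply Finset.sum_congr rfl
        intro r _
        rcases h : r q with _ | j
        · simp
        · simp
      rw [h2, Finset.mul_sum, ← Finset.sum_add_distrib]
      apply Finset.sum_congr rfl
      intro r _
      rw [Finset.prod_insert hq]
      split_ifs
      · simp
      · ring
    rw [h1, Finset.prod_insert hq]
    set F := ∑ r ∈ T, (∏ p ∈ A, (if r p = none then (1 : ℝ) else 1 + g p)) / mw aF r with hF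
    have h3 : ∑ i : Fin k, ∑ r ∈ T.filter (fun r => r q = some i),
          (∏ p ∈ A, (if r p = none then (1 : ℝ) else 1 + g p)) / mw aF r ≤
          ∑ i : Fin k, (1 / aF q) * F :=
      Finset.sum_le_sum (fun i _ => step T g hS hg hT A q hq i)
    rw [Finset.sum_const, Finset.card_univ, Fintype.card_fin, nsmul_eq_mul] at h3
    calc F + g q * _ ≤ F + g q * (k * ((1 / aF q) * F)) := by
          have := mul_le_mul_of_nonneg_left h3 hgq
          linarith
      _ = (1 + k * (g q / aF q)) * F := by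
          field_simp
      _ ≤ (1 + k * (g q / aF q)) *
          ((∏ p ∈ A, (1 + k * (g p / aF p))) * ∑ r ∈ T, 1 / mw aF r) := by
          apply mul_le_mul_of_nonneg_left ih
          positivity
      _ = _ := by ring

/-- the telescoping sum -/
lemma tele (D0 : ℕ) (hD : 2 ≤ D0) (x : ℝ) :
    ∑ p ∈ Sx D0 x, 1 / (((p : ℝ) - 2) * ((p : ℝ) - 1)) ≤ 1 / ((D0 : ℝ) - 1) := by
  have hD' : (2 : ℝ) ≤ D0 := by exact_mod_cast hD
  have h1 : ∀ N : ℕ, ∑ p ∈ (range N).filter (fun p => D0 < p),
      1 / (((p : ℝ) - 2) * ((p : ℝ) - 1)) ≤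
      1 / ((D0 : ℝ) - 1) - (if D0 + 1 ≤ N then 1 / ((N : ℝ) - 2) else 1 / ((D0 : ℝ) - 1)) := by
    intro N
    induction N with
    | zero => simp
    | succ N ih =>
      rw [Finset.range_add_one, Finset.filter_insert]
      by_cases h : D0 < N
      · rw [if_pos h, Finset.sum_insert (by simp)]
        rw [if_pos (by omega : D0 + 1 ≤ N)] at ih
        rw [if_pos (by omega : D0 + 1 ≤ N + 1)]
        have hN : (D0 : ℝ) + 1 ≤ N := by exact_mod_cast h
        have e : 1 / (((N : ℝ) - 2) * ((N : ℝ) - 1)) =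
            1 / ((N : ℝ) - 2) - 1 / (((N + 1 : ℕ) : ℝ) - 2) := by
          push_cast
          have h3 : (N : ℝ) - 2 ≠ 0 := by
            have : (0 : ℝ) < N - 2 := by linarith
            exact this.ne'
          have h4 : (N : ℝ) - 1 ≠ 0 := by
            have : (0 : ℝ) < N - 1 := by linarith
            exact this.ne'
          have h5 : (N : ℝ) + 1 - 2 = N - 1 := by ring
          rw [h5]
          field_simp
          ring
        rw [e]
        linarith
      · rw [if_neg h]
        rw [if_neg (by omega : ¬ (D0 + 1 ≤ N))] at ih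
        refine ih.trans ?_
        by_cases h2 : D0 + 1 ≤ N + 1
        · rw [if_pos h2]
          have h6 : N = D0 := by omega
          rw [h6]
          push_cast
          have h5 : (D0 : ℝ) + 1 - 2 = D0 - 1 := by ring
          rw [h5]
        · rw [if_neg h2]
  have h2 : ∑ p ∈ Sx D0 x, 1 / (((p : ℝ) - 2) * ((p : ℝ) - 1)) ≤
      ∑ p ∈ (range ⌊x⌋₊).filter (fun p => D0 < p), 1 / (((p : ℝ) - 2) * ((p : ℝ) - 1)) := by
    apply Finset.sum_le_sum_of_subset_of_nonneg
    · intro p hp
      unfold Sx at hp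
      rw [Finset.mem_filter] at hp ⊢
      exact ⟨hp.1, hp.2.2⟩
    · intro p hp _
      rw [Finset.mem_filter] at hp
      have h3 : (D0 : ℝ) + 1 ≤ p := by exact_mod_cast hp.2
      have h4 : (0 : ℝ) < p - 2 := by linarith
      have h5 : (0 : ℝ) < p - 1 := by linarith
      positivity
  refine h2.trans ((h1 ⌊x⌋₊).trans ?_)
  split_ifs with h
  · have h3 : (D0 : ℝ) + 1 ≤ (⌊x⌋₊ : ℝ) := by exact_mod_cast h
    have h4 : (0 : ℝ) < (⌊x⌋₊ : ℝ) - 2 := by linarith
    have : 0 ≤ 1 / ((⌊x⌋₊ : ℝ) - 2) := by positivity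
    linarith
  · have h4 : (0 : ℝ) < (D0 : ℝ) - 1 := by linarith
    have : 0 ≤ 1 / ((D0 : ℝ) - 1) := by positivity
    linarith

lemma prodbd (k : ℕ) (c : ℝ) (hc : 0 ≤ c) (D0 : ℕ) (hD : 2 ≤ D0) (x : ℝ) :
    ∏ p : {p // p ∈ Sx D0 x}, (1 + (k : ℝ) * (c / (((p : ℕ) : ℝ) - 2) / aF p)) ≤
      Real.exp (k * c / ((D0 : ℝ) - 1)) := by
  have hD' : (2 : ℝ) ≤ D0 := by exact_mod_cast hD
  have hp : ∀ p : {p // p ∈ Sx D0 x}, (D0 : ℝ) + 1 ≤ (p : ℕ) := by
    intro p
    have := p.2
    unfold Sx at this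
    rw [Finset.mem_filter] at this
    exact_mod_cast this.2.2
  calc ∏ p : {p // p ∈ Sx D0 x}, (1 + (k : ℝ) * (c / (((p : ℕ) : ℝ) - 2) / aF p))
      ≤ ∏ p : {p // p ∈ Sx D0 x}, Real.exp ((k : ℝ) * (c / (((p : ℕ) : ℝ) - 2) / aF p)) := by
        apply Finset.prod_le_prod
        · intro p _
          have h3 := hp p
          have h4 : (0 : ℝ) < (p : ℕ) - 2 := by linarith
          have h5 : (0 : ℝ) < aF p := by
            unfold aF
            linarith
          positivity
        · intro p _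
          have := Real.add_one_le_exp ((k : ℝ) * (c / (((p : ℕ) : ℝ) - 2) / aF p))
          linarith
    _ = Real.exp (∑ p : {p // p ∈ Sx D0 x}, (k : ℝ) * (c / (((p : ℕ) : ℝ) - 2) / aF p)) := by
        rw [Real.exp_sum]
    _ = Real.exp (k * c * ∑ p ∈ Sx D0 x, 1 / (((p : ℝ) - 2) * ((p : ℝ) - 1))) := by
        congr 1
        rw [Finset.mul_sum, ← Finset.sum_coe_sort (Sx D0 x)]
        apply Finset.sum_congr rfl
        intro p _
        have h3 := hp p
        have h4 : ((p : ℕ) : ℝ) - 2 ≠ 0 := by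
          have : (0 : ℝ) < (p : ℕ) - 2 := by linarith
          exact this.ne'
        have h5 : ((p : ℕ) : ℝ) - 1 ≠ 0 := by
          have : (0 : ℝ) < (p : ℕ) - 1 := by linarith
          exact this.ne'
        unfold aF
        field_simp
    _ ≤ _ := by
        apply Real.exp_le_exp.mpr
        have := mul_le_mul_of_nonneg_left (tele D0 hD x) (by positivity : 0 ≤ (k : ℝ) * c)
        calc _ ≤ _ := this
          _ = _ := by ring

/-- the perturbation bound for one family -/
lemma fam (k : ℕ) (c : ℝ) (hc : 0 ≤ c) (D0 : ℕ) (hD : 2 ≤ D0) (x : ℝ)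
    (T : Finset (Co (Sx D0 x) k)) (hT : ∀ r ∈ T, ∀ q, er q r ∈ T) (ε K : ℝ)
    (hε : Real.exp (k * c / ((D0 : ℝ) - 1)) - 1 ≤ ε) (hK : ∑ r ∈ T, 1 / mw aF r ≤ K) :
    ∑ r ∈ T, (mw (fun p => 1 + c / ((p : ℝ) - 2)) r - 1) / mw aF r ≤ ε * K := by
  have hD' : (2 : ℝ) ≤ D0 := by exact_mod_cast hD
  have hS : ∀ p ∈ Sx D0 x, 2 < p := by
    intro p hp
    unfold Sx at hp
    rw [Finset.mem_filter] at hp
    omega
  have hS' : ∀ p ∈ Sx D0 x, (0 : ℝ) < (p : ℝ) - 2 := by
    intro p hp
    have h := hS p hp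
    have h2 : (2 : ℝ) < (p : ℕ) := by exact_mod_cast h
    linarith
  have h1 := main T (fun p => c / ((p : ℝ) - 2)) hS
    (fun p hp => div_nonneg hc (hS' p hp).le) hT univ
  have hTOT : 0 ≤ ∑ r ∈ T, 1 / mw aF r := by
    apply Finset.sum_nonneg
    intro r _
    apply div_nonneg (by norm_num)
    apply Finset.prod_nonneg
    intro p _
    split_ifs
    · norm_num
    · have := hS' p p.2
      unfold aF
      linarith
  have hkc : 0 ≤ Real.exp (k * c / ((D0 : ℝ) - 1)) - 1 := by
    have : 0 ≤ k * c / ((D0 : ℝ) - 1) := by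
      apply div_nonneg (by positivity)
      linarith
    have := Real.add_one_le_exp (k * c / ((D0 : ℝ) - 1))
    linarith
  calc ∑ r ∈ T, (mw (fun p => 1 + c / ((p : ℝ) - 2)) r - 1) / mw aF r
      = ∑ r ∈ T, (∏ p : {p // p ∈ Sx D0 x},
          (if r p = none then (1 : ℝ) else 1 + c / ((p : ℝ) - 2))) / mw aF r -
        ∑ r ∈ T, 1 / mw aF r := by
        rw [← Finset.sum_sub_distrib]
        apply Finset.sum_congr rfl
        intro r _
        rw [← sub_div]
        rfl
    _ ≤ (∏ p : {p // p ∈ Sx D0 x}, (1 + (k : ℝ) * (c / (((p : ℕ) : ℝ) - 2) / aF p))) *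
          ∑ r ∈ T, 1 / mw aF r - ∑ r ∈ T, 1 / mw aF r := by
        linarith
    _ ≤ Real.exp (k * c / ((D0 : ℝ) - 1)) * ∑ r ∈ T, 1 / mw aF r - ∑ r ∈ T, 1 / mw aF r := by
        have := mul_le_mul_of_nonneg_right (prodbd k c hc D0 hD x) hTOT
        linarith
    _ = (Real.exp (k * c / ((D0 : ℝ) - 1)) - 1) * ∑ r ∈ T, 1 / mw aF r := by ring
    _ ≤ ε * ∑ r ∈ T, 1 / mw aF r := mul_le_mul_of_nonneg_right hε hTOT
    _ ≤ ε * K := mul_le_mul_of_nonneg_left hK (hkc.trans hε)

lemma nrm_er {D0 : ℕ} {x : ℝ} (q : {p // p ∈ Sx D0 x}) (r : Co (Sx D0 x) k) :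
    nrm (er q r) ≤ nrm r := by
  unfold nrm
  apply Finset.prod_le_prod'
  intro p _
  unfold er
  by_cases hp : p = q
  · rw [hp, Function.update_self]
    simp only [if_true]
    split_ifs
    · exact le_rfl
    · have := q.2
      unfold Sx at this
      rw [Finset.mem_filter] at this
      exact this.2.1.one_lt.le
  · rw [Function.update_of_ne hp]

end PERTx

/-- item PERT -/
theorem prf_PERT (hT : C_TOT) : C_PERT := by
  intro k c hc ε hε
  -- choice of D1
  have hlim : Tendsto (fun D : ℕ => Real.exp (k * c / ((D : ℝ) - 1)) - 1) atTop (𝓝 0) := by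
    have h1 : Tendsto (fun D : ℕ => (D : ℝ) - 1) atTop atTop := by
      have := tendsto_atTop_add_const_right atTop (-1 : ℝ)
        (tendsto_natCast_atTop_atTop (R := ℝ))
      simpa [sub_eq_add_neg] using this
    have h2 : Tendsto (fun D : ℕ => k * c / ((D : ℝ) - 1)) atTop (𝓝 0) :=
      Tendsto.div_atTop tendsto_const_nhds h1
    have h3 := (Real.continuous_exp.tendsto 0).comp h2
    have h4 := h3.sub_const 1
    simpa using h4
  have hev := hlim.eventually (ge_mem_nhds hε)
  obtain ⟨D1, hD1⟩ := Filter.eventually_atTop.mp hev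
  refine ⟨max D1 2, fun D0 hD0 => ?_⟩
  have hD2 : 2 ≤ D0 := le_trans (le_max_right _ _) hD0
  have hDe := hD1 D0 (le_trans (le_max_left _ _) hD0)
  obtain ⟨x0, hx0⟩ := hT k D0 hD2
  refine ⟨x0, fun x hx => ?_⟩
  obtain ⟨-, h1, h2⟩ := hx0 x hx
  refine ⟨?_, fun m => ?_⟩
  · apply PERTx.fam k c hc D0 hD2 x _ _ ε _ hDe h1
    intro r hr q
    rw [Finset.mem_filter] at hr ⊢
    refine ⟨Finset.mem_univ _, le_trans ?_ hr.2⟩
    exact_mod_cast PERTx.nrm_er q r
  · apply PERTx.fam k c hc D0 hD2 x _ _ ε _ hDe (h2 m)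
    intro r hr q
    rw [Finset.mem_filter] at hr ⊢
    refine ⟨Finset.mem_univ _, ?_, le_trans ?_ hr.2.2⟩
    · intro p
      unfold PERTx.er
      by_cases hp : p = q
      · rw [hp, Function.update_self]
        simp
      · rw [Function.update_of_ne hp]
        exact hr.2.1 p
    · exact_mod_cast PERTx.nrm_er q r

end MPb51559.BG
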