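import Pool.Agent.Work.MP_b51559_nt.BG.C.Stmts2

set_option autoImplicit false

/-!
# Part C, item PH: the integrands of the norms are of bounded variation in each variable
-/

namespace MPb51559.BG

open Finset Filter Topology MeasureTheory
open scoped Classical

/-- uniformly bounded with sections of uniformly bounded variation -/
def PHub {X : Type} {k : ℕ} (Φ : X → (Fin k → ℝ) → ℝ) : Prop :=
  ∃ (M : ℝ) (V : NNReal), ∀ x, (∀ t, |Φ x t| ≤ M) ∧ ∀ (t : Fin k → ℝ) (i : Fin k),
    eVariationOn (fun s => Φ x (Function.update t i s)) Set.univ ≤ V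

theorem PH_mono (f : ℝ → ℝ) (hf : Monotone f) (A B : ℝ) (hA : ∀ s, A ≤ f s) (hB : ∀ s, f s ≤ B) :
    eVariationOn f Set.univ ≤ ENNReal.ofReal (B - A) := by
  refine iSup_le ?_
  rintro ⟨n, u, hu, _⟩
  have h1 : ∀ i ∈ range n, edist (f (u (i + 1))) (f (u i)) =
      ENNReal.ofReal (f (u (i + 1)) - f (u i)) := by
    intro i _
    rw [edist_dist, Real.dist_eq, abs_of_nonneg]
    exact sub_nonneg.2 (hf (hu (Nat.le_succ i)))
  show ∑ i ∈ range n, edist (f (u (i + 1))) (f (u i)) ≤ _
  rw [Finset.sum_congr rfl h1, ← ENNReal.ofReal_sum_of_nonneg]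
  · rw [Finset.sum_range_sub (fun i => f (u i))]
    exact ENNReal.ofReal_le_ofReal (by linarith [hA (u 0), hB (u n)])
  · intro i _
    exact sub_nonneg.2 (hf (hu (Nat.le_succ i)))

theorem PH_anti (f : ℝ → ℝ) (hf : Antitone f) (A B : ℝ) (hA : ∀ s, A ≤ f s) (hB : ∀ s, f s ≤ B) :
    eVariationOn f Set.univ ≤ ENNReal.ofReal (B - A) := by
  refine iSup_le ?_
  rintro ⟨n, u, hu, _⟩
  have h1 : ∀ i ∈ range n, edist (f (u (i + 1))) (f (u i)) =
      ENNReal.ofReal (f (u i) - f (u (i + 1))) := by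
    intro i _
    rw [edist_comm, edist_dist, Real.dist_eq, abs_of_nonneg]
    exact sub_nonneg.2 (hf (hu (Nat.le_succ i)))
  show ∑ i ∈ range n, edist (f (u (i + 1))) (f (u i)) ≤ _
  rw [Finset.sum_congr rfl h1, ← ENNReal.ofReal_sum_of_nonneg]
  · rw [Finset.sum_range_sub' (fun i => f (u i))]
    exact ENNReal.ofReal_le_ofReal (by linarith [hA (u n), hB (u 0)])
  · intro i _
    exact sub_nonneg.2 (hf (hu (Nat.le_succ i)))

theorem PH_add (f g : ℝ → ℝ) : eVariationOn (fun s => f s + g s) Set.univ ≤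
    eVariationOn f Set.univ + eVariationOn g Set.univ := by
  refine iSup_le ?_
  rintro ⟨n, u, hu, hus⟩
  show ∑ i ∈ range n, edist (f (u (i + 1)) + g (u (i + 1))) (f (u i) + g (u i)) ≤ _
  calc ∑ i ∈ range n, edist (f (u (i + 1)) + g (u (i + 1))) (f (u i) + g (u i))
      ≤ ∑ i ∈ range n, (edist (f (u (i + 1))) (f (u i)) + edist (g (u (i + 1))) (g (u i))) :=
        Finset.sum_le_sum fun i _ => edist_add_add_le _ _ _ _
    _ = ∑ i ∈ range n, edist (f (u (i + 1))) (f (u i)) +
        ∑ i ∈ range n, edist (g (u (i + 1))) (g (u i)) := Finset.sum_add_distrib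
    _ ≤ _ := add_le_add (eVariationOn.sum_le hu hus) (eVariationOn.sum_le hu hus)

theorem PH_const (c : ℝ) : eVariationOn (fun _ : ℝ => c) Set.univ = 0 := by
  refine eVariationOn.constant_on ?_
  rintro _ ⟨a, _, rfl⟩ _ ⟨b, _, rfl⟩
  rfl

section

variable {X : Type} {k : ℕ}

theorem PHub_mul (hBVM : C_BVM) {Φ Ψ : X → (Fin k → ℝ) → ℝ} (h1 : PHub Φ) (h2 : PHub Ψ) :
    PHub (fun x t => Φ x t * Ψ x t) := by
  obtain ⟨M1, V1, h1⟩ := h1
  obtain ⟨M2, V2, h2⟩ := h2
  refine ⟨M1 * M2, Real.toNNReal (M1 * V2 + M2 * V1), fun x => ⟨fun t => ?_, fun t i => ?_⟩⟩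
  · have a1 := (h1 x).1 t
    have a2 := (h2 x).1 t
    show |Φ x t * Ψ x t| ≤ M1 * M2
    rw [abs_mul]
    exact mul_le_mul a1 a2 (abs_nonneg _) ((abs_nonneg _).trans a1)
  · exact hBVM (fun s => Φ x (Function.update t i s)) (fun s => Ψ x (Function.update t i s))
      M1 M2 V1 V2 (fun s => (h1 x).1 _) (fun s => (h2 x).1 _) ((h1 x).2 t i) ((h2 x).2 t i)

theorem PHub_add {Φ Ψ : X → (Fin k → ℝ) → ℝ} (h1 : PHub Φ) (h2 : PHub Ψ) :
    PHub (fun x t => Φ x t + Ψ x t) := by
  obtain ⟨M1, V1, h1⟩ := h1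
  obtain ⟨M2, V2, h2⟩ := h2
  refine ⟨M1 + M2, V1 + V2, fun x => ⟨fun t => ?_, fun t i => ?_⟩⟩
  · exact (abs_add_le _ _).trans (add_le_add ((h1 x).1 t) ((h2 x).1 t))
  · refine (PH_add _ _).trans ?_
    rw [ENNReal.coe_add]
    exact add_le_add ((h1 x).2 t i) ((h2 x).2 t i)

theorem PHub_const (f : X → ℝ) (M : ℝ) (hM : ∀ x, |f x| ≤ M) :
    PHub (fun x (_ : Fin k → ℝ) => f x) := by
  refine ⟨M, 0, fun x => ⟨fun _ => hM x, fun t i => ?_⟩⟩
  rw [PH_const]
  exact bot_le

theorem PHub_sum (J : ℕ) (Φ : ℕ → X → (Fin k → ℝ) → ℝ) (h : ∀ j < J, PHub (Φ j)) :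
    PHub (fun x t => ∑ j ∈ range J, Φ j x t) := by
  induction J with
  | zero =>
    simpa using PHub_const (k := k) (fun _ : X => (0 : ℝ)) 0 (fun _ => by simp)
  | succ J ih =>
    have := PHub_add (ih fun j hj => h j (Nat.lt_succ_of_lt hj)) (h J (Nat.lt_succ_self J))
    simpa only [Finset.sum_range_succ] using this

/-- monotone functions of a functional which is monotone in every variable -/
theorem PHub_comp (L : X → (Fin k → ℝ) → ℝ)
    (hL : ∀ x (t : Fin k → ℝ) (i : Fin k), Monotone (fun s => L x (Function.update t i s)))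
    (φ : ℝ → ℝ) (hφ : Monotone φ ∨ Antitone φ) (B : ℝ) (h0 : ∀ s, 0 ≤ φ s) (hB : ∀ s, φ s ≤ B) :
    PHub (fun x t => φ (L x t)) := by
  refine ⟨B, Real.toNNReal (B - 0), fun x => ⟨fun t => ?_, fun t i => ?_⟩⟩
  · rw [abs_of_nonneg (h0 _)]
    exact hB _
  · rcases hφ with h | h
    · exact PH_mono _ (h.comp (hL x t i)) 0 B (fun s => h0 _) (fun s => hB _)
    · exact PH_anti _ (h.comp_monotone (hL x t i)) 0 B (fun s => h0 _) (fun s => hB _)

end

theorem PH_so_mono {k : ℕ} (m : Fin k) (t : Fin k → ℝ) (i : Fin k) :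
    Monotone (fun s => so m (Function.update t i s)) := by
  intro s s' hs
  refine Finset.sum_le_sum fun j _ => ?_
  by_cases hj : j = i
  · subst hj
    rw [Function.update_self, Function.update_self]
    exact hs
  · rw [Function.update_of_ne hj, Function.update_of_ne hj]

theorem PH_ev_mono {k : ℕ} (m : Fin k) (t : Fin k → ℝ) (i : Fin k) :
    Monotone (fun s => (Function.update t i s) m) := by
  intro s s' hs
  by_cases hj : m = i
  · subst hj
    show (Function.update t m s) m ≤ (Function.update t m s') m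
    rw [Function.update_self, Function.update_self]
    exact hs
  · show (Function.update t i s) m ≤ (Function.update t i s') m
    rw [Function.update_of_ne hj, Function.update_of_ne hj]

theorem PH_so_meas {k : ℕ} (m : Fin k) : Measurable (so m : (Fin k → ℝ) → ℝ) :=
  Finset.measurable_sum _ fun j _ => measurable_pi_apply j

theorem PH_stp_meas (J : ℕ) (a b c : ℕ → ℝ) : Measurable (stp J a b c) := by
  refine Finset.measurable_sum _ fun j _ => ?_
  refine Measurable.const_mul ?_ _
  exact Measurable.ite (measurableSet_Ioc (a := a j) (b := b j)) measurable_const measurable_const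

theorem PH_cut_meas {k : ℕ} (m : Fin k) (Φ : (Fin k → ℝ) → ℝ) (hΦ : Measurable Φ) :
    Measurable (cutm m Φ) := by
  refine Measurable.ite ?_ hΦ measurable_const
  exact (measurableSet_Ico (a := (0 : ℝ)) (b := 1)).preimage (measurable_pi_apply m)

theorem prf_PH (hBVM : C_BVM) (hMG : C_MG) : C_PH := by
  intro k T F hT1 hT2 hF C0 J a b
  have hT0 : 0 < T := by linarith
  obtain ⟨Mm, Vm, hMm, hmg⟩ := hMG k T F hT0 hF
  set X : Type := Fin k × {c : ℕ → ℝ // ∀ j < J, |c j| ≤ C0} with hX
  -- the building blocks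
  have u1 : PHub (fun (x : X) (t : Fin k → ℝ) => if 0 ≤ t x.1 then (1 : ℝ) else 0) := by
    refine PHub_comp (fun (x : X) (t : Fin k → ℝ) => t x.1) (fun x t i => PH_ev_mono x.1 t i)
      (fun s => if 0 ≤ s then (1 : ℝ) else 0) (Or.inl ?_) 1 ?_ ?_
    · intro s s' hs
      show (if 0 ≤ s then (1 : ℝ) else 0) ≤ if 0 ≤ s' then (1 : ℝ) else 0
      split_ifs with g1 g2
      · exact le_rfl
      · exact absurd (g1.trans hs) g2
      · exact zero_le_one
      · exact le_rfl
    · intro s
      show (0 : ℝ) ≤ if 0 ≤ s then (1 : ℝ) else 0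
      split_ifs <;> norm_num
    · intro s
      show (if 0 ≤ s then (1 : ℝ) else 0) ≤ 1
      split_ifs <;> norm_num
  have u2 : PHub (fun (x : X) (t : Fin k → ℝ) => if t x.1 < 1 then (1 : ℝ) else 0) := by
    refine PHub_comp (fun (x : X) (t : Fin k → ℝ) => t x.1) (fun x t i => PH_ev_mono x.1 t i)
      (fun s => if s < 1 then (1 : ℝ) else 0) (Or.inr ?_) 1 ?_ ?_
    · intro s s' hs
      show (if s' < 1 then (1 : ℝ) else 0) ≤ if s < 1 then (1 : ℝ) else 0
      split_ifs with g1 g2
      · exact le_rfl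
      · exact absurd (lt_of_le_of_lt hs g1) g2
      · exact zero_le_one
      · exact le_rfl
    · intro s
      show (0 : ℝ) ≤ if s < 1 then (1 : ℝ) else 0
      split_ifs <;> norm_num
    · intro s
      show (if s < 1 then (1 : ℝ) else 0) ≤ 1
      split_ifs <;> norm_num
  have u3 : ∀ j < J, PHub (fun (x : X) (t : Fin k → ℝ) => x.2.1 j *
      ((if a j < so x.1 t then (1 : ℝ) else 0) * (if so x.1 t ≤ b j then (1 : ℝ) else 0))) := by
    intro j hj
    refine PHub_mul hBVM (PHub_const (fun x : X => x.2.1 j) C0 (fun x => x.2.2 j hj))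
      (PHub_mul hBVM ?_ ?_)
    · refine PHub_comp (fun (x : X) (t : Fin k → ℝ) => so x.1 t) (fun x t i => PH_so_mono x.1 t i)
        (fun s => if a j < s then (1 : ℝ) else 0) (Or.inl ?_) 1 ?_ ?_
      · intro s s' hs
        show (if a j < s then (1 : ℝ) else 0) ≤ if a j < s' then (1 : ℝ) else 0
        split_ifs with g1 g2
        · exact le_rfl
        · exact absurd (lt_of_lt_of_le g1 hs) g2
        · exact zero_le_one
        · exact le_rfl
      · intro s
        show (0 : ℝ) ≤ if a j < s then (1 : ℝ) else 0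
        split_ifs <;> norm_num
      · intro s
        show (if a j < s then (1 : ℝ) else 0) ≤ 1
        split_ifs <;> norm_num
    · refine PHub_comp (fun (x : X) (t : Fin k → ℝ) => so x.1 t) (fun x t i => PH_so_mono x.1 t i)
        (fun s => if s ≤ b j then (1 : ℝ) else 0) (Or.inr ?_) 1 ?_ ?_
      · intro s s' hs
        show (if s' ≤ b j then (1 : ℝ) else 0) ≤ if s ≤ b j then (1 : ℝ) else 0
        split_ifs with g1 g2
        · exact le_rfl
        · exact absurd (hs.trans g1) g2
        · exact zero_le_one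
        · exact le_rfl
      · intro s
        show (0 : ℝ) ≤ if s ≤ b j then (1 : ℝ) else 0
        split_ifs <;> norm_num
      · intro s
        show (if s ≤ b j then (1 : ℝ) else 0) ≤ 1
        split_ifs <;> norm_num
  have u4 : PHub (fun (x : X) (t : Fin k → ℝ) => stp J a b x.2.1 (so x.1 t)) := by
    have h := PHub_sum J (fun j (x : X) (t : Fin k → ℝ) => x.2.1 j *
      ((if a j < so x.1 t then (1 : ℝ) else 0) * (if so x.1 t ≤ b j then (1 : ℝ) else 0))) u3
    have e : (fun (x : X) (t : Fin k → ℝ) => stp J a b x.2.1 (so x.1 t)) =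
        fun (x : X) (t : Fin k → ℝ) => ∑ j ∈ range J, x.2.1 j *
        ((if a j < so x.1 t then (1 : ℝ) else 0) * (if so x.1 t ≤ b j then (1 : ℝ) else 0)) := by
      funext x t
      unfold stp
      refine Finset.sum_congr rfl fun j _ => ?_
      by_cases g1 : a j < so x.1 t <;> by_cases g2 : so x.1 t ≤ b j <;> simp [g1, g2]
    rw [e]
    exact h
  have u5 : PHub (fun (x : X) (t : Fin k → ℝ) => marg F x.1 t) :=
    ⟨Mm, Vm, fun x => ⟨fun t => (hmg x.1).2.1 t, fun t i => (hmg x.1).2.2.2.2 t i⟩⟩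
  have u6 : PHub (fun (x : X) (t : Fin k → ℝ) => 1 / (2 - max 0 (min (so x.1 t) T))) := by
    refine PHub_comp (fun (x : X) (t : Fin k → ℝ) => so x.1 t) (fun x t i => PH_so_mono x.1 t i)
      (fun s => 1 / (2 - max 0 (min s T))) (Or.inl ?_) (1 / (2 - T)) ?_ ?_
    · intro s s' hs
      have h1 : max 0 (min s T) ≤ max 0 (min s' T) := max_le_max le_rfl (min_le_min hs le_rfl)
      have h2 : max 0 (min s' T) ≤ T := max_le hT0.le (min_le_right _ _)
      exact one_div_le_one_div_of_le (by linarith) (by linarith)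
    · intro s
      have h2 : max 0 (min s T) ≤ T := max_le hT0.le (min_le_right _ _)
      have : 0 < 2 - max 0 (min s T) := by linarith
      exact (one_div_pos.2 this).le
    · intro s
      have h2 : max 0 (min s T) ≤ T := max_le hT0.le (min_le_right _ _)
      exact one_div_le_one_div_of_le (by linarith) (by linarith)
  -- products
  have w1 := PHub_mul hBVM (PHub_mul hBVM u1 u2)
    (PHub_mul hBVM (PHub_mul hBVM u4 u4) (PHub_mul hBVM u5 u5))
  have w2 := PHub_mul hBVM w1 u6
  obtain ⟨M1, V1, h1⟩ := w1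
  obtain ⟨M2, V2, h2⟩ := w2
  refine ⟨max 0 (max M1 M2), max V1 V2, le_max_left _ _, fun m c hc => ?_⟩
  obtain ⟨hm1, hm2, hm3, hm4, hm5⟩ := hmg m
  -- supports
  have hsupp : ∀ t : Fin k → ℝ, (0 ≤ t m ∧ t m < 1) → marg F m t ≠ 0 →
      ∀ i, 0 ≤ t i ∧ t i ≤ T := by
    intro t ht hne i
    obtain ⟨g1, g2⟩ := hm4 t hne
    by_cases hi : i = m
    · subst hi
      exact ⟨ht.1, by linarith [ht.2]⟩
    · refine ⟨g1 i hi, ?_⟩
      refine le_trans ?_ g2
      exact Finset.single_le_sum (f := fun j => t j)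
        (fun j hj => g1 j (Finset.ne_of_mem_erase hj))
        (Finset.mem_erase.2 ⟨hi, Finset.mem_univ i⟩)
  have hso : ∀ t : Fin k → ℝ, marg F m t ≠ 0 → max 0 (min (so m t) T) = so m t := by
    intro t hne
    obtain ⟨g1, g2⟩ := hm4 t hne
    have h0 : 0 ≤ so m t := Finset.sum_nonneg fun j hj => g1 j (Finset.ne_of_mem_erase hj)
    rw [min_eq_left (show so m t ≤ T from g2), max_eq_right h0]
  set x : X := (m, ⟨c, hc⟩) with hx
  have e1 : cutm m (fun t => stp J a b c (so m t) ^ 2 * marg F m t ^ 2) = fun t =>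
      ((if 0 ≤ t m then (1 : ℝ) else 0) * (if t m < 1 then (1 : ℝ) else 0)) *
      ((stp J a b c (so m t) * stp J a b c (so m t)) * (marg F m t * marg F m t)) := by
    funext t
    unfold cutm
    by_cases g1 : 0 ≤ t m <;> by_cases g2 : t m < 1 <;> simp [g1, g2, sq]
  have e2 : cutm m (fun t => stp J a b c (so m t) ^ 2 * marg F m t ^ 2 / (2 - so m t)) = fun t =>
      (((if 0 ≤ t m then (1 : ℝ) else 0) * (if t m < 1 then (1 : ℝ) else 0)) *
      ((stp J a b c (so m t) * stp J a b c (so m t)) * (marg F m t * marg F m t))) *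
      (1 / (2 - max 0 (min (so m t) T))) := by
    funext t
    unfold cutm
    by_cases hne : marg F m t = 0
    · simp [hne]
    · rw [hso t hne]
      by_cases g1 : 0 ≤ t m <;> by_cases g2 : t m < 1 <;> simp [g1, g2, sq, div_eq_mul_inv]
  have hVle1 : (V1 : ENNReal) ≤ ((max V1 V2 : NNReal) : ENNReal) := by
    exact_mod_cast le_max_left V1 V2
  have hVle2 : (V2 : ENNReal) ≤ ((max V1 V2 : NNReal) : ENNReal) := by
    exact_mod_cast le_max_right V1 V2
  constructor
  · refine ⟨?_, ?_, ?_, ?_⟩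
    · refine PH_cut_meas m _ ?_
      exact (((PH_stp_meas J a b c).comp (PH_so_meas m)).pow_const 2).mul (hm1.pow_const 2)
    · intro t ht
      have hcut : 0 ≤ t m ∧ t m < 1 := by
        by_contra hcc
        exact ht (if_neg hcc)
      refine hsupp t hcut fun h0 => ht ?_
      unfold cutm
      rw [if_pos hcut]
      show stp J a b c (so m t) ^ 2 * marg F m t ^ 2 = 0
      rw [h0, zero_pow two_ne_zero, mul_zero]
    · intro t
      rw [e1]
      exact ((h1 x).1 t).trans ((le_max_left _ _).trans (le_max_right _ _))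
    · intro t i
      rw [e1]
      exact ((h1 x).2 t i).trans hVle1
  · refine ⟨?_, ?_, ?_, ?_⟩
    · refine PH_cut_meas m _ ?_
      exact ((((PH_stp_meas J a b c).comp (PH_so_meas m)).pow_const 2).mul (hm1.pow_const 2)).div
        (measurable_const.sub (PH_so_meas m))
    · intro t ht
      have hcut : 0 ≤ t m ∧ t m < 1 := by
        by_contra hcc
        exact ht (if_neg hcc)
      refine hsupp t hcut fun h0 => ht ?_
      unfold cutm
      rw [if_pos hcut]
      show stp J a b c (so m t) ^ 2 * marg F m t ^ 2 / (2 - so m t) = 0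
      rw [h0, zero_pow two_ne_zero, mul_zero, zero_div]
    · intro t
      rw [e2]
      exact ((h2 x).1 t).trans ((le_max_right _ _).trans (le_max_right _ _))
    · intro t i
      rw [e2]
      exact ((h2 x).2 t i).trans hVle2

end MPb51559.BG
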