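import Pool.Agent.Work.MP_b51559_nt.BG.C.Stmts2

set_option autoImplicit false

/-!
# Part C, item POS: from the sieve inequality to two primes
-/

namespace MPb51559.BG

open Finset Filter Topology MeasureTheory
open scoped Classical

theorem prf_POS : C_POS := by
  intro w hw k h hk _
  refine ⟨8 * (∑ i, (h i : ℝ)) + 8, fun x hx D0 v0 S l hS => ?_⟩
  have hH0 : ∀ i, (0 : ℝ) ≤ h i := fun i => Nat.cast_nonneg _
  have hHs : ∀ i, (h i : ℝ) ≤ ∑ j, (h j : ℝ) := fun i =>
    Finset.single_le_sum (f := fun j => (h j : ℝ)) (fun j _ => hH0 j) (mem_univ i)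
  have hsum0 : 0 ≤ ∑ j, (h j : ℝ) := sum_nonneg fun j _ => hH0 j
  have hx1 : 1 ≤ x := by linarith
  have hx0 : 0 < x := by linarith
  have hlog : 0 ≤ Real.log (2 * x) := Real.log_nonneg (by linarith)
  have hS2 : ∑ m, S2 w h D0 v0 x m l l =
      ∑ n ∈ (range (⌊2 * x⌋₊ + 1)).filter (fun n => n ≡ v0 [MOD primorial D0]),
        (∑ m, tm w h x m n) * (Vn h l n * Vn h l n) := by
    simp only [S2, sum_mul]
    rw [sum_comm]
  rw [hS2, S1, mul_sum] at hS
  obtain ⟨n, -, hn⟩ := exists_lt_of_sum_lt hS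
  have hV : 0 ≤ Vn h l n * Vn h l n := mul_self_nonneg _
  have hlt : Real.log (2 * x) * wp w h x n < ∑ m, tm w h x m n := by
    by_contra hc
    have h1 := mul_le_mul_of_nonneg_right (not_lt.1 hc) hV
    rw [mul_assoc] at h1
    exact absurd hn (not_lt.2 h1)
  have hbdd : BddAbove (Set.range fun m : Fin k => w (((n : ℝ) + h m) / x)) :=
    Set.Finite.bddAbove (Set.finite_range _)
  have hwp : ∀ m : Fin k, w (((n : ℝ) + h m) / x) ≤ wp w h x n := fun m => le_ciSup hbdd m
  have hwp0 : 0 ≤ wp w h x n := (hw.nonneg _).trans (hwp ⟨0, hk⟩)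
  -- what a nonzero term says
  have hterm : ∀ m : Fin k, tm w h x m n ≠ 0 → (n + h m).Prime ∧
      9 / 8 * x < (n : ℝ) + h m ∧ (n : ℝ) + h m < 15 / 8 * x := by
    intro m hm
    unfold tm at hm
    split_ifs at hm with hp
    · have h1 := hw.supp _ (right_ne_zero_of_mul hm)
      exact ⟨hp, (lt_div_iff₀ hx0).1 h1.1, (div_lt_iff₀ hx0).1 h1.2⟩
    · exact absurd rfl hm
  have hle : ∀ m : Fin k, tm w h x m n ≤ Real.log (2 * x) * wp w h x n := by
    intro m
    by_cases hm : tm w h x m n = 0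
    · rw [hm]
      exact mul_nonneg hlog hwp0
    · obtain ⟨hp, h1, h2⟩ := hterm m hm
      unfold tm
      rw [if_pos hp]
      refine mul_le_mul ?_ (hwp m) (hw.nonneg _) hlog
      exact Real.log_le_log (by linarith) (by linarith)
  -- two nonzero terms
  obtain ⟨i, j, hij, hi, hj⟩ : ∃ i j : Fin k, i ≠ j ∧ tm w h x i n ≠ 0 ∧ tm w h x j n ≠ 0 := by
    by_contra hno
    have hno' : ∀ i j : Fin k, i ≠ j → tm w h x i n ≠ 0 → tm w h x j n = 0 := by
      intro i j hij hi
      by_contra hj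
      exact hno ⟨i, j, hij, hi, hj⟩
    apply absurd hlt
    rw [not_lt]
    by_cases hall : ∀ m, tm w h x m n = 0
    · rw [sum_eq_zero fun m _ => hall m]
      exact mul_nonneg hlog hwp0
    · obtain ⟨i, hi⟩ := not_forall.1 hall
      rw [sum_eq_single i (fun j _ hj => hno' i j hj.symm hi) (fun hi' => absurd (mem_univ i) hi')]
      exact hle i
  obtain ⟨hpi, hi1, hi2⟩ := hterm i hi
  obtain ⟨hpj, hj1, hj2⟩ := hterm j hj
  refine ⟨n, ?_, fun m => ?_, i, j, hij, hpi, hpj⟩
  · have := hHs i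
    linarith
  · have h1 := hHs m
    have h2 := hH0 i
    linarith

end MPb51559.BG
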