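import Pool.Agent.Work.MP_b51559_nt.BG.C.Stmts

set_option autoImplicit false

/-!
# Part C, item QF: diagonalisation of the quadratic form
-/

namespace MPb51559.BG

open Finset Filter Topology MeasureTheory
open scoped Classical

namespace IQF

variable {S : Finset ℕ} {k : ℕ}

/-- local weight -/
noncomputable def W (a : ℝ) (u : Option (Fin k)) : ℝ := if u = none then 1 else -a

/-- local join -/
noncomputable def J (u v : Option (Fin k)) : Option (Fin k) := if u = none then v else u

/-- local denominator -/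
noncomputable def A (a : ℝ) (u : Option (Fin k)) : ℝ := if u = none then 1 else a

/-- the local term -/
noncomputable def loc (a : ℝ) (r s u v : Option (Fin k)) : ℝ :=
  if (u = none ∨ v = none ∨ u = v) ∧ (u = none ∨ u = r) ∧ (v = none ∨ v = s) then
    W a u * W a v / A a (J u v) else 0

theorem sum_two (f : Option (Fin k) → ℝ) (r : Option (Fin k))
    (h : ∀ u, u ≠ none → u ≠ r → f u = 0) :
    ∑ u, f u = f none + (if r = none then 0 else f r) := by
  by_cases hr : r = none
  · rw [if_pos hr, add_zero]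
    refine Finset.sum_eq_single none (fun u _ hu => h u hu ?_) (fun hn => ?_)
    · rw [hr]; exact hu
    · exact absurd (Finset.mem_univ _) hn
  · rw [if_neg hr]
    refine Finset.sum_eq_add none r (fun hn => hr hn.symm) (fun u _ hu => h u hu.1 hu.2)
      (fun hn => absurd (Finset.mem_univ _) hn) (fun hn => absurd (Finset.mem_univ _) hn)

theorem loc_sum {a : ℝ} (ha : a ≠ 0) (r s : Option (Fin k)) :
    ∑ u, ∑ v, loc a r s u v = cloc a r s := by
  have h1 : ∀ u, ∑ v, loc a r s u v = loc a r s u none + (if s = none then 0 else loc a r s u s) :=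
    fun u => sum_two _ s fun v hv hv' => by
      unfold loc
      rw [if_neg]
      rintro ⟨-, -, h | h⟩
      · exact hv h
      · exact hv' h
  have h2 : ∀ u, u ≠ none → u ≠ r → ∑ v, loc a r s u v = 0 := fun u hu hu' =>
    Finset.sum_eq_zero fun v _ => by
      unfold loc
      rw [if_neg]
      rintro ⟨-, h | h, -⟩
      · exact hu h
      · exact hu' h
  rw [sum_two _ r h2, h1, h1]
  rcases r with _ | i <;> rcases s with _ | j
  · simp [loc, W, A, J, cloc]
  · simp [loc, W, A, J, cloc, ha]
  · simp [loc, W, A, J, cloc, ha]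
  · by_cases hij : i = j
    · subst hij
      simp [loc, W, A, J, cloc, ha]
      field_simp
      ring
    · simp [loc, W, A, J, cloc, ha, hij]

theorem term_eq (a : ℕ → ℝ) (d e r s : Co S k) :
    (if Cmp d e ∧ Le d r ∧ Le e s then
      (mw (fun _ => -1) d * mw a d) * (mw (fun _ => -1) e * mw a e) / mw a (jn d e) else 0) =
      ∏ p : {p // p ∈ S}, loc (a p) (r p) (s p) (d p) (e p) := by
  by_cases h : Cmp d e ∧ Le d r ∧ Le e s
  · rw [if_pos h]
    unfold mw
    rw [← Finset.prod_mul_distrib, ← Finset.prod_mul_distrib, ← Finset.prod_mul_distrib,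
      ← Finset.prod_div_distrib]
    refine Finset.prod_congr rfl fun p _ => ?_
    have h1 := h.1 p
    have h2 := h.2.1 p
    have h3 := h.2.2 p
    have h4 : loc (a p) (r p) (s p) (d p) (e p) =
        W (a p) (d p) * W (a p) (e p) / A (a p) (J (d p) (e p)) := if_pos ⟨h1, h2, h3⟩
    rw [h4]
    unfold W A J jn
    by_cases hd : d p = none <;> by_cases he : e p = none <;> simp [hd, he]
  · rw [if_neg h]
    have h1 : ∃ p, ¬ ((d p = none ∨ e p = none ∨ d p = e p) ∧ (d p = none ∨ d p = r p) ∧
        (e p = none ∨ e p = s p)) := by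
      by_contra hcon
      have hcon' : ∀ p, (d p = none ∨ e p = none ∨ d p = e p) ∧ (d p = none ∨ d p = r p) ∧
          (e p = none ∨ e p = s p) := fun p => by
        by_contra h2
        exact hcon ⟨p, h2⟩
      exact h ⟨fun p => (hcon' p).1, fun p => (hcon' p).2.1, fun p => (hcon' p).2.2⟩
    obtain ⟨p, hp⟩ := h1
    refine (Finset.prod_eq_zero (Finset.mem_univ p) ?_).symm
    unfold loc
    rw [if_neg hp]

theorem sum_prod (g : {p // p ∈ S} → Option (Fin k) → ℝ) :
    ∑ d : Co S k, ∏ p, g p (d p) = ∏ p, ∑ u, g p u := by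
  rw [Finset.prod_univ_sum, Fintype.piFinset_univ]

end IQF

open IQF in
/-- diagonalisation of the quadratic form -/
theorem prf_QF : C_QF := by
  intro S k a ha y y'
  set Y : Co S k → ℝ := fun r => y r / mw (fun p => a p - 1) r with hY
  set Y' : Co S k → ℝ := fun r => y' r / mw (fun p => a p - 1) r with hY'
  have hcs : ∀ (c : ℝ) (f g : Co S k → ℝ), c * ((∑ r, f r) * ∑ s, g s) =
      ∑ r, ∑ s, c * (f r * g s) := by
    intro c f g
    rw [Finset.sum_mul_sum, Finset.mul_sum]
    exact Finset.sum_congr rfl fun r _ => by rw [Finset.mul_sum]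
  have h1 : ∀ d e : Co S k, (if Cmp d e then lam a y d * lam a y' e / mw a (jn d e) else 0) =
      ∑ r, ∑ s, (if Cmp d e ∧ Le d r ∧ Le e s then
        (mw (fun _ => -1) d * mw a d) * (mw (fun _ => -1) e * mw a e) / mw a (jn d e) else 0) *
          (Y r * Y' s) := by
    intro d e
    by_cases hc : Cmp d e
    · rw [if_pos hc]
      unfold lam
      rw [Finset.sum_filter, Finset.sum_filter]
      have h2 : ∀ r s : Co S k, (if Cmp d e ∧ Le d r ∧ Le e s then
        (mw (fun _ => -1) d * mw a d) * (mw (fun _ => -1) e * mw a e) / mw a (jn d e) else 0) *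
          (Y r * Y' s) = (mw (fun _ => -1) d * mw a d) * (mw (fun _ => -1) e * mw a e) /
          mw a (jn d e) * ((if Le d r then Y r else 0) * (if Le e s then Y' s else 0)) := by
        intro r s
        by_cases hr : Le d r <;> by_cases hs : Le e s <;> simp [hc, hr, hs]
      simp only [h2]
      rw [← hcs]
      ring
    · simp [hc]
  have swap : ∀ f : Co S k → Co S k → Co S k → Co S k → ℝ,
      ∑ d, ∑ e, ∑ r, ∑ s, f d e r s = ∑ r, ∑ s, ∑ d, ∑ e, f d e r s := by
    intro f
    have e1 : ∀ d, ∑ e, ∑ r, ∑ s, f d e r s = ∑ r, ∑ e, ∑ s, f d e r s := fun d =>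
      Finset.sum_comm
    have e2 : ∀ d r, ∑ e, ∑ s, f d e r s = ∑ s, ∑ e, f d e r s := fun d r => Finset.sum_comm
    calc ∑ d, ∑ e, ∑ r, ∑ s, f d e r s = ∑ d, ∑ r, ∑ s, ∑ e, f d e r s :=
          Finset.sum_congr rfl fun d _ => by
            rw [e1]
            exact Finset.sum_congr rfl fun r _ => e2 d r
      _ = ∑ r, ∑ d, ∑ s, ∑ e, f d e r s := Finset.sum_comm
      _ = ∑ r, ∑ s, ∑ d, ∑ e, f d e r s :=
          Finset.sum_congr rfl fun r _ => Finset.sum_comm
  unfold Qf
  simp only [h1]
  rw [swap]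
  refine Finset.sum_congr rfl fun r _ => Finset.sum_congr rfl fun s _ => ?_
  simp only [term_eq]
  have h3 : ∀ d : Co S k, ∑ e : Co S k, (∏ p : {p // p ∈ S}, loc (a p) (r p) (s p) (d p) (e p)) *
      (Y r * Y' s) = (∏ p : {p // p ∈ S}, ∑ v, loc (a p) (r p) (s p) (d p) v) * (Y r * Y' s) := by
    intro d
    rw [← Finset.sum_mul, sum_prod (fun p v => loc (a p) (r p) (s p) (d p) v)]
  simp only [h3]
  rw [← Finset.sum_mul, sum_prod (fun p u => ∑ v, loc (a p) (r p) (s p) u v)]
  have h4 : ∏ p : {p // p ∈ S}, ∑ u, ∑ v, loc (a p) (r p) (s p) u v =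
      ∏ p : {p // p ∈ S}, cloc (a p) (r p) (s p) :=
    Finset.prod_congr rfl fun p _ => loc_sum (ha p p.2).1 _ _
  rw [h4, hY, hY']
  simp only
  rw [mul_comm, div_mul_div_comm]

end MPb51559.BG
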