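import Pool.Agent.Work.MP_b51559_nt.BG.C.Stmts

set_option autoImplicit false

/-!
# Item QN (helper15): the quadratic form is almost the diagonal sum
-/

namespace MPb51559.BG

open Finset Filter Topology MeasureTheory
open scoped Classical

namespace QNx

/-- off diagonal terms of a symmetric form -/
theorem offdiag {α : Type} [Fintype α] (T : α → α → ℝ) (B y : α → ℝ)
    (hsym : ∀ r s, T r s = T s r) (hd : ∀ r, 0 ≤ T r r) (hB : ∀ r, ∑ s, |T r s| ≤ B r) :
    |∑ r, ∑ s, y r * y s * T r s - ∑ r, y r ^ 2 * T r r| ≤ ∑ r, y r ^ 2 * (B r - T r r) := by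
  have h1 : ∑ r, ∑ s, y r * y s * T r s - ∑ r, y r ^ 2 * T r r =
      ∑ r, ∑ s, y r * y s * (if s = r then 0 else T r s) := by
    rw [← Finset.sum_sub_distrib]
    refine Finset.sum_congr rfl fun r _ => ?_
    have h2 : y r ^ 2 * T r r = ∑ s, if s = r then y r * y s * T r s else 0 := by
      rw [Finset.sum_ite_eq' Finset.univ r]
      simp only [Finset.mem_univ, if_true]
      ring
    rw [h2, ← Finset.sum_sub_distrib]
    refine Finset.sum_congr rfl fun s _ => ?_
    split_ifs <;> ring
  have hU : ∀ r, ∑ s, |if s = r then 0 else T r s| ≤ B r - T r r := by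
    intro r
    have h3 : ∑ s, |if s = r then 0 else T r s| = ∑ s, |T r s| - T r r := by
      have h4 : T r r = ∑ s, if s = r then |T r s| else 0 := by
        rw [Finset.sum_ite_eq' Finset.univ r]
        simp only [Finset.mem_univ, if_true]
        exact (abs_of_nonneg (hd r)).symm
      rw [h4, ← Finset.sum_sub_distrib]
      refine Finset.sum_congr rfl fun s _ => ?_
      split_ifs <;> simp
    rw [h3]
    linarith [hB r]
  have hs : ∀ r s : α, |if s = r then 0 else T r s| = |if r = s then 0 else T s r| := by
    intro r s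
    by_cases h : s = r
    · rw [if_pos h, if_pos h.symm]
    · rw [if_neg h, if_neg (Ne.symm h), hsym]
  rw [h1]
  calc |∑ r, ∑ s, y r * y s * (if s = r then 0 else T r s)|
      ≤ ∑ r, |∑ s, y r * y s * (if s = r then 0 else T r s)| := Finset.abs_sum_le_sum_abs _ _
    _ ≤ ∑ r, ∑ s, (y r ^ 2 / 2 + y s ^ 2 / 2) * |if s = r then 0 else T r s| := by
        refine Finset.sum_le_sum fun r _ => (Finset.abs_sum_le_sum_abs _ _).trans
          (Finset.sum_le_sum fun s _ => ?_)
        rw [abs_mul]
        refine mul_le_mul_of_nonneg_right ?_ (abs_nonneg _)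
        rw [abs_le]
        constructor <;> nlinarith [sq_nonneg (y r + y s), sq_nonneg (y r - y s)]
    _ = ∑ r, y r ^ 2 * ∑ s, |if s = r then 0 else T r s| := by
        have e1 : ∀ r, ∑ s, (y r ^ 2 / 2 + y s ^ 2 / 2) * |if s = r then 0 else T r s| =
            ∑ s, y r ^ 2 / 2 * |if s = r then 0 else T r s| +
              ∑ s, y s ^ 2 / 2 * |if s = r then 0 else T r s| := by
          intro r
          rw [← Finset.sum_add_distrib]
          exact Finset.sum_congr rfl fun s _ => by ring
        have e2 : ∑ r, ∑ s, y s ^ 2 / 2 * |if s = r then 0 else T r s| =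
            ∑ r, ∑ s, y r ^ 2 / 2 * |if s = r then 0 else T r s| := by
          rw [Finset.sum_comm]
          exact Finset.sum_congr rfl fun r _ => Finset.sum_congr rfl fun s _ => by rw [hs s r]
        simp only [e1]
        rw [Finset.sum_add_distrib, e2, ← Finset.sum_add_distrib]
        refine Finset.sum_congr rfl fun r _ => ?_
        rw [← Finset.mul_sum]
        ring
    _ ≤ ∑ r, y r ^ 2 * (B r - T r r) :=
        Finset.sum_le_sum fun r _ => mul_le_mul_of_nonneg_left (hU r) (sq_nonneg _)

variable {S : Finset ℕ} {k : ℕ}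

theorem sum_prod (f : {p // p ∈ S} → Option (Fin k) → ℝ) :
    ∑ s : Co S k, ∏ p, f p (s p) = ∏ p, ∑ v, f p v := by
  rw [Finset.prod_univ_sum, Fintype.piFinset_univ]

theorem mw_pos (f : ℕ → ℝ) (hf : ∀ p ∈ S, 0 < f p) (r : Co S k) : 0 < mw f r := by
  unfold mw
  refine Finset.prod_pos fun p _ => ?_
  split_ifs
  · exact one_pos
  · exact hf p p.2

theorem cloc_symm (a : ℝ) (u v : Option (Fin k)) : cloc a u v = cloc a v u := by
  unfold cloc
  by_cases hu : u = none
  · by_cases hv : v = none
    · simp [hu, hv]
    · simp [hu, hv]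
  · by_cases hv : v = none
    · simp [hu, hv]
    · by_cases h : u = v
      · subst h
        rfl
      · have h' : ¬ v = u := fun e => h e.symm
        simp [hu, hv, h, h']

/-- the local sum -/
theorem loc_sum (a : ℝ) (ha : 1 < a) (u : Option (Fin k)) :
    ∑ v : Option (Fin k), |cloc a u v| / (if v = none then 1 else a - 1) ≤
      if u = none then 1 else 1 + (k : ℝ) / (a - 1) := by
  have hb : 0 < a - 1 := by linarith
  rw [Fintype.sum_option]
  cases u with
  | none =>
    have h : ∀ i : Fin k, |cloc a none (some i)| / (if (some i : Option (Fin k)) = none then 1 else a - 1) = 0 := by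
      intro i
      simp [cloc]
    simp only [h, Finset.sum_const_zero]
    simp [cloc]
  | some j =>
    have h0 : |cloc a (some j) (none : Option (Fin k))| / (if (none : Option (Fin k)) = none then 1 else a - 1) = 0 := by
      simp [cloc]
    have h1 : ∀ i : Fin k, |cloc a (some j) (some i)| / (if (some i : Option (Fin k)) = none then 1 else a - 1) ≤
        (if i = j then 1 else 0) + 1 / (a - 1) := by
      intro i
      by_cases hij : i = j
      · subst hij
        simp only [cloc, reduceCtorEq, and_self, or_self, if_false, if_true]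
        rw [abs_of_pos hb, div_self hb.ne']
        have : 0 < 1 / (a - 1) := by positivity
        linarith
      · have hji : ¬ (some j = some i) := fun h => hij (Option.some_injective _ h).symm
        simp only [cloc, reduceCtorEq, and_self, or_self, if_false, hji, hij]
        simp
    rw [h0, zero_add]
    refine (Finset.sum_le_sum fun i _ => h1 i).trans ?_
    rw [Finset.sum_add_distrib]
    simp only [Finset.sum_ite_eq', Finset.mem_univ, if_true, Finset.sum_const, Finset.card_univ,
      Fintype.card_fin, nsmul_eq_mul, reduceCtorEq, if_false]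
    apply le_of_eq
    ring

end QNx

open QNx in
/-- Item QN. -/
theorem prf_QN (h : C_QF) : C_QN := by
  intro S k a ha y
  have hb : ∀ p ∈ S, 0 < a p - 1 := fun p hp => by linarith [ha p hp]
  rw [h S k a (fun p hp => ⟨by linarith [ha p hp], by linarith [ha p hp]⟩) y y]
  set w : Co S k → ℝ := fun r => mw (fun p => a p - 1) r with hw
  have hwp : ∀ r, 0 < w r := fun r => mw_pos _ hb r
  set T : Co S k → Co S k → ℝ := fun r s =>
    (∏ p : {p // p ∈ S}, cloc (a p) (r p) (s p)) / (w r * w s) with hT
  have hTd : ∀ r, T r r = 1 / w r := by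
    intro r
    have h1 : (∏ p : {p // p ∈ S}, cloc (a p) (r p) (r p)) = w r := by
      simp only [hw, mw]
      refine Finset.prod_congr rfl fun p _ => ?_
      cases hr : r p with
      | none => simp [cloc]
      | some i => simp [cloc]
    simp only [hT]
    rw [h1]
    have := (hwp r).ne'
    field_simp
  have hsym : ∀ r s, T r s = T s r := by
    intro r s
    simp only [hT]
    rw [mul_comm (w r) (w s)]
    congr 1
    exact Finset.prod_congr rfl fun p _ => cloc_symm _ _ _
  have hB : ∀ r, ∑ s, |T r s| ≤ 1 / w r * mw (fun p => 1 + (k : ℝ) / (a p - 1)) r := by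
    intro r
    have h1 : ∀ s, |T r s| = 1 / w r * ∏ p : {p // p ∈ S},
        (|cloc (a p) (r p) (s p)| / (if s p = none then 1 else a p - 1)) := by
      intro s
      simp only [hT]
      rw [abs_div, abs_of_pos (mul_pos (hwp r) (hwp s)), Finset.abs_prod, Finset.prod_div_distrib]
      have h2 : (∏ p : {p // p ∈ S}, (if s p = none then (1 : ℝ) else a p - 1)) = w s := rfl
      rw [h2]
      have := (hwp r).ne'
      have := (hwp s).ne'
      field_simp
    simp only [h1]
    rw [← Finset.mul_sum, sum_prod (fun p v => |cloc (a p) (r p) v| / (if v = none then 1 else a p - 1))]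
    refine mul_le_mul_of_nonneg_left ?_ (by have := hwp r; positivity)
    unfold mw
    refine Finset.prod_le_prod (fun p _ => Finset.sum_nonneg fun v _ => ?_) fun p _ =>
      loc_sum (a p) (ha p p.2) (r p)
    have := hb p p.2
    split_ifs <;> positivity
  have hmain := offdiag T (fun r => 1 / w r * mw (fun p => 1 + (k : ℝ) / (a p - 1)) r) y hsym
    (fun r => by rw [hTd]; have := hwp r; positivity) hB
  have e1 : ∑ r, ∑ s, y r * y s / (mw (fun p => a p - 1) r * mw (fun p => a p - 1) s) *
      ∏ p : {p // p ∈ S}, cloc (a p) (r p) (s p) = ∑ r, ∑ s, y r * y s * T r s := by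
    refine Finset.sum_congr rfl fun r _ => Finset.sum_congr rfl fun s _ => ?_
    simp only [hT, hw]
    ring
  have e2 : ∑ r, y r ^ 2 / mw (fun p => a p - 1) r = ∑ r, y r ^ 2 * T r r := by
    refine Finset.sum_congr rfl fun r _ => ?_
    rw [hTd]
    simp only [hw]
    ring
  have e3 : ∑ r, y r ^ 2 / mw (fun p => a p - 1) r * (mw (fun p => 1 + (k : ℝ) / (a p - 1)) r - 1) =
      ∑ r, y r ^ 2 * (1 / w r * mw (fun p => 1 + (k : ℝ) / (a p - 1)) r - T r r) := by
    refine Finset.sum_congr rfl fun r _ => ?_
    rw [hTd]
    simp only [hw]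
    ring
  rw [e1, e2, e3]
  exact hmain

end MPb51559.BG
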