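import Pool.Agent.Work.MP_b51559_nt.BG.C.Stmts

set_option autoImplicit false

/-! # Part C, item QO: pieces on different supports are orthogonal -/

namespace MPb51559.BG

open Finset
open scoped Classical

theorem QO_cloc {k : ℕ} (a : ℝ) (u v : Option (Fin k)) (h : ¬(u = none ↔ v = none)) :
    cloc a u v = 0 := by
  unfold cloc
  by_cases hu : u = none
  · have hv : v ≠ none := fun hv => h ⟨fun _ => hv, fun _ => hu⟩
    rw [if_neg (fun hc => hv hc.2), if_pos (Or.inl hu)]
  · have hv : v = none := by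
      by_contra hv
      exact h ⟨fun hc => absurd hc hu, fun hc => absurd hc hv⟩
    rw [if_neg (fun hc => hu hc.1), if_pos (Or.inr hv)]

theorem prf_QO (hQF : C_QF) : C_QO := by
  intro S k a ha y y' hyy
  rw [hQF S k a (fun p hp => ⟨(lt_trans one_pos (ha p hp)).ne', (sub_pos.2 (ha p hp)).ne'⟩) y y']
  refine Finset.sum_eq_zero (fun r _ => Finset.sum_eq_zero (fun s _ => ?_))
  by_cases h : ∀ p, r p = none ↔ s p = none
  · rw [hyy r s h]
    simp
  · push Not at h
    obtain ⟨p, hp⟩ := h
    have hp' : ¬(r p = none ↔ s p = none) := by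
      intro hc
      rcases hp with ⟨h1, h2⟩ | ⟨h1, h2⟩
      · exact h2 (hc.1 h1)
      · exact h1 (hc.2 h2)
    rw [Finset.prod_eq_zero (Finset.mem_univ p) (QO_cloc _ _ _ hp'), mul_zero]

end MPb51559.BG
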