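import Pool.Agent.Work.MP_b51559_nt.BG.C.Stmts

set_option autoImplicit false

/-! Item RS of part C: colourings with colour `m` are not adhered to when `n + h m` is prime. -/

namespace MPb51559.BG

open Finset
open scoped Classical

/-- if `n + h m` is a prime larger than all members of `S`, the sieve sum does not see colour `m` -/
theorem RS_Vn {S : Finset ℕ} {k : ℕ} (h : Fin k → ℕ) (m : Fin k) (n : ℕ)
    (hp : (n + h m).Prime) (hS : ∀ p ∈ S, 1 < p ∧ p < n + h m) (l : Co S k → ℝ) :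
    Vn h l n = Vn h (rst m l) n := by
  unfold Vn
  refine Finset.sum_congr rfl fun d hd => ?_
  rw [Finset.mem_filter] at hd
  unfold rst
  rw [if_pos]
  intro p hpm
  have h1 : (p : ℕ) ∣ n + h m := hd.2 p m hpm
  obtain ⟨h2, h3⟩ := hS p p.2
  rcases (Nat.dvd_prime hp).1 h1 with h4 | h4 <;> omega

/-- a nonzero prime weight: `n + h m` is a prime larger than `x` -/
theorem RS_tm {w : ℝ → ℝ} (hw : Wt w) {k : ℕ} (h : Fin k → ℕ) (x : ℝ) (hx : 1 ≤ x) (m : Fin k)
    (n : ℕ) (hn : tm w h x m n ≠ 0) : (n + h m).Prime ∧ x < (n : ℝ) + h m := by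
  unfold tm at hn
  split_ifs at hn with hp
  · refine ⟨hp, ?_⟩
    have h1 : w (((n : ℝ) + h m) / x) ≠ 0 := by
      intro h0
      exact hn (by rw [h0, mul_zero])
    have h2 := (hw.supp _ h1).1
    rw [lt_div_iff₀ (by linarith)] at h2
    linarith
  · exact absurd rfl hn

theorem RS_Sx (D0 : ℕ) (x : ℝ) (p : ℕ) (hp : p ∈ Sx D0 x) : p.Prime ∧ D0 < p ∧ (p : ℝ) < x := by
  unfold Sx at hp
  rw [Finset.mem_filter, Finset.mem_range] at hp
  exact ⟨hp.2.1, hp.2.2, Nat.lt_of_lt_floor hp.1⟩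

theorem prf_RS : C_RS := by
  intro w hw k h D0 v0 x hx m l l'
  unfold S2
  refine Finset.sum_congr rfl fun n _ => ?_
  by_cases hn : tm w h x m n = 0
  · rw [hn, zero_mul, zero_mul]
  · obtain ⟨hp, hlt⟩ := RS_tm hw h x hx m n hn
    have hS : ∀ p ∈ Sx D0 x, 1 < p ∧ p < n + h m := by
      intro p hpS
      obtain ⟨h1, _, h3⟩ := RS_Sx D0 x p hpS
      refine ⟨h1.one_lt, ?_⟩
      have : (p : ℝ) < ((n + h m : ℕ) : ℝ) := by
        push_cast
        linarith
      exact_mod_cast this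
    rw [RS_Vn h m n hp hS l, RS_Vn h m n hp hS l']

end MPb51559.BG
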