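import Pool.Agent.Work.MP_b51559_nt.BG.C.Stmts2
import Pool.Agent.Work.MP_b51559_nt.BG.C.Util

set_option autoImplicit false

/-!
# Part C: S1A, the first sum
-/

namespace MPb51559.BG

open Finset Filter Topology MeasureTheory
open scoped Classical

theorem S1A_asym (δ c : ℝ) (N : ℕ) (hδ : 0 < δ) (hc : 0 < c) :
    ∃ x0 : ℝ, ∀ x ≥ x0, x ^ (1 - 4 * δ) * Real.log x ^ N ≤ c * x := by
  have h1 : (fun x : ℝ => Real.log x ^ (N : ℝ)) =o[atTop] fun x : ℝ => x ^ (4 * δ) :=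
    isLittleO_log_rpow_rpow_atTop _ (by positivity)
  have h2 := h1.bound hc
  have h3 : ∀ᶠ x : ℝ in atTop, x ^ (1 - 4 * δ) * Real.log x ^ N ≤ c * x := by
    filter_upwards [h2, eventually_gt_atTop (1 : ℝ)] with x hx hx1
    have hx0 : 0 < x := by linarith
    have hl : 0 < Real.log x := Real.log_pos hx1
    rw [Real.rpow_natCast, Real.norm_of_nonneg (by positivity),
      Real.norm_of_nonneg (by positivity)] at hx
    calc x ^ (1 - 4 * δ) * Real.log x ^ N ≤ x ^ (1 - 4 * δ) * (c * x ^ (4 * δ)) :=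
          mul_le_mul_of_nonneg_left hx (by positivity)
      _ = c * (x ^ (1 - 4 * δ) * x ^ (4 * δ)) := by ring
      _ = c * x := by
          rw [← Real.rpow_add hx0]
          simp
  exact eventually_atTop.1 h3

theorem S1A_nrm (hBAS : C_BAS) {k : ℕ} {T : ℝ} {F : (Fin k → ℝ) → ℝ} (hF : Tst k T F) {S : Finset ℕ}
    (hS : ∀ p ∈ S, p.Prime) (R : ℝ) (hR : 1 < R) (r : Co S k) (hr : yF R F r ≠ 0) :
    (nrm r : ℝ) ≤ R ^ T := by
  obtain ⟨-, hn, -, -, -, -, -, -, hsz, -⟩ := hBAS S k hS r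
  have h1 := (hF.supp _ hr).2
  rw [← hsz R] at h1
  unfold sz at h1
  have hl : 0 < Real.log R := Real.log_pos hR
  rw [div_le_iff₀ hl] at h1
  have hn' : (0 : ℝ) < nrm r := by exact_mod_cast hn
  rw [← Real.log_rpow (by linarith)] at h1
  exact (Real.log_le_log_iff hn' (by positivity)).1 h1

theorem prf_S1A (hBAS : C_BAS) (hSQ : C_SQ) (hS1E : C_S1E) (hL1S : C_L1S) (hQN : C_QN)
    (hPERT : C_PERT) (hSUMK : C_SUMK) : C_S1A := by
  intro w hw k h hk hinj T F hT1 hT2 hF δ hδ0 hδ8 ε hε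
  obtain ⟨C, xE, hC, hE⟩ := hS1E w hw k h hk hinj
  obtain ⟨xL, hL⟩ := hL1S k
  obtain ⟨M, hM⟩ := hF.bdd
  have hM0 : 0 ≤ M := (abs_nonneg _).trans (hM (fun _ => 0))
  obtain ⟨MQ, VQ, hMQ, hBV⟩ := hSQ k T F (by linarith) hF
  have hε' : 0 < ε / (3 * ((M ^ 2 + 1) * 8 ^ k)) := by positivity
  obtain ⟨D1, hP⟩ := hPERT k k (Nat.cast_nonneg k) (ε / (3 * ((M ^ 2 + 1) * 8 ^ k))) hε'
  obtain ⟨D2, hK⟩ := hSUMK k T MQ VQ δ (by linarith) (by linarith) hMQ hδ0 hδ8 (ε / 3)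
    (by positivity)
  refine ⟨max (max D1 D2) (max 3 (∑ i, h i)), fun D0 hD0 => ?_⟩
  have hD1 : D1 ≤ D0 := ((le_max_left _ _).trans (le_max_left _ _)).trans hD0
  have hD2 : D2 ≤ D0 := ((le_max_right _ _).trans (le_max_left _ _)).trans hD0
  have hD3 : 3 ≤ D0 := ((le_max_left _ _).trans (le_max_right _ _)).trans hD0
  have hDh : ∀ i, h i ≤ D0 := fun i =>
    (Finset.single_le_sum (fun _ _ => Nat.zero_le _) (mem_univ i)).trans
      (((le_max_right _ _).trans (le_max_right _ _)).trans hD0)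
  obtain ⟨x1, h1⟩ := hP D0 hD1
  obtain ⟨x2, h2⟩ := hK D0 hD2
  have hI : 0 < ∫ u, w u := hw.pos
  have hW : (0 : ℝ) < (primorial D0 : ℝ) := by exact_mod_cast primorial_pos D0
  have hkap := U.kap_pos D0
  obtain ⟨x3, h3⟩ := S1A_asym δ ((ε / 3 * ((∫ u, w u) / (primorial D0 : ℝ))) / (C + 1))
    (8 * k + 16) hδ0 (by positivity)
  refine ⟨max (max (max xE xL) (max x1 x2)) (max (max x3 2)
    (max (Real.exp (1 / (kap D0 * (1 / 4 - δ)))) (Real.exp (M + 1)))), fun x hx v0 hv l hl => ?_⟩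
  simp only [ge_iff_le, max_le_iff] at hx
  obtain ⟨⟨⟨hxE, hxL⟩, hx1, hx2⟩, ⟨hx3, hx4⟩, hx5, hx6⟩ := hx
  have hx0 : 0 < x := by linarith
  have hxx : 1 < x := by linarith
  have hlogx : 0 < Real.log x := Real.log_pos hxx
  have hRx := U.Rx_gt_one δ x hδ8 hxx
  have hlogR : 0 < Real.log (Rx δ x) := Real.log_pos hRx
  have hLp : 0 < lk D0 δ x := U.lk_pos D0 δ x hδ8 hxx
  have hL1 : 1 ≤ lk D0 δ x := by
    rw [U.lk_eq D0 δ x hx0]
    have e1 : 1 / (kap D0 * (1 / 4 - δ)) ≤ Real.log x := by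
      rw [Real.le_log_iff_exp_le hx0]; exact hx5
    have e2 : 0 < kap D0 * (1 / 4 - δ) := mul_pos hkap (by linarith)
    rw [div_le_iff₀ e2] at e1
    nlinarith
  have hlogM : M + 1 ≤ Real.log x := by
    rw [Real.le_log_iff_exp_le hx0]; exact hx6
  have hSp : ∀ p ∈ Sx D0 x, p.Prime ∧ D0 < p := fun p hp =>
    ⟨(U.Sx_prime hp).1, (U.Sx_prime hp).2.1⟩
  have hSp1 : ∀ p ∈ Sx D0 x, p.Prime := fun p hp => (hSp p hp).1
  have hSr : ∀ p ∈ Sx D0 x, (3 : ℝ) < p := fun p hp => by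
    have : 3 < p := lt_of_le_of_lt hD3 (hSp p hp).2
    exact_mod_cast this
  set y : Co (Sx D0 x) k → ℝ := yF (Rx δ x) F with hy
  -- supports
  have hyR : ∀ r, y r ≠ 0 → (nrm r : ℝ) ≤ (Rx δ x) ^ T := fun r hr =>
    S1A_nrm hBAS hF hSp1 (Rx δ x) hRx r hr
  have hRT : (Rx δ x) ^ T ≤ Real.sqrt x :=
    U.Rx_rpow_le δ x T hδ0.le hxx.le (by linarith) (by linarith)
  have hyM : ∀ r, |y r| ≤ M := fun r => hM _
  have hy2 : ∀ r, y r ^ 2 ≤ M ^ 2 := fun r => by
    rw [← sq_abs]; exact pow_le_pow_left₀ (abs_nonneg _) (hyM r) 2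
  -- L1S
  have hRT' : (Rx δ x) ^ T = x ^ ((1 / 4 - δ) * T) := by
    unfold Rx
    rw [← Real.rpow_mul hx0.le]
  have hsum : ∑ d, |l d| ≤ x ^ ((1 / 4 - δ) * T) * Real.log x ^ (4 * k + 8) := by
    rw [hl]
    refine hL x hxL D0 hD3 ((1 / 4 - δ) * T) (mul_nonneg (by linarith) (by linarith))
      (by nlinarith) y (fun r => ?_) fun r hr => ?_
    · refine (hyM r).trans ?_
      nlinarith
    · rw [← hRT']; exact hyR r hr
  have hsum0 : 0 ≤ ∑ d, |l d| := sum_nonneg fun _ _ => abs_nonneg _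
  have herr : C * (∑ d, |l d|) * (∑ d, |l d|) ≤
      ε / 3 * ((∫ u, w u) / (primorial D0 : ℝ)) * x := by
    have e1 : (∑ d, |l d|) * (∑ d, |l d|) ≤ x ^ (1 - 4 * δ) * Real.log x ^ (8 * k + 16) := by
      calc (∑ d, |l d|) * (∑ d, |l d|) ≤ (x ^ ((1 / 4 - δ) * T) * Real.log x ^ (4 * k + 8)) *
            (x ^ ((1 / 4 - δ) * T) * Real.log x ^ (4 * k + 8)) :=
            mul_le_mul hsum hsum hsum0 (by positivity)
        _ = x ^ ((1 / 4 - δ) * T + (1 / 4 - δ) * T) * Real.log x ^ (8 * k + 16) := by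
            rw [Real.rpow_add hx0]; ring
        _ ≤ x ^ (1 - 4 * δ) * Real.log x ^ (8 * k + 16) := by
            refine mul_le_mul_of_nonneg_right ?_ (by positivity)
            exact Real.rpow_le_rpow_of_exponent_le hxx.le (by nlinarith)
    have e2 := h3 x hx3
    calc C * (∑ d, |l d|) * (∑ d, |l d|) = C * ((∑ d, |l d|) * (∑ d, |l d|)) := by ring
      _ ≤ (C + 1) * (x ^ (1 - 4 * δ) * Real.log x ^ (8 * k + 16)) :=
          mul_le_mul (by linarith) e1 (by positivity) (by linarith)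
      _ ≤ (C + 1) * ((ε / 3 * ((∫ u, w u) / (primorial D0 : ℝ))) / (C + 1) * x) :=
          mul_le_mul_of_nonneg_left e2 (by linarith)
      _ = ε / 3 * ((∫ u, w u) / (primorial D0 : ℝ)) * x := by
          field_simp
  -- S1E
  have hS1 := hE x hxE D0 v0 (Sx D0 x) hDh hSp hv l l
  -- the form
  have hmwF : ∀ r : Co (Sx D0 x) k, 0 < mw aF r := fun r =>
    U.mw_pos r fun p hp => by
      unfold aF
      have := hSr p hp
      linarith
  have hq := hQN (Sx D0 x) k aP (fun p hp => by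
    unfold aP
    have := hSr p hp
    linarith) y
  have hq1 : ∑ r, y r ^ 2 / mw (fun p => aP p - 1) r ≤ lk D0 δ x ^ k * ((∫ t, F t ^ 2) + ε / 3) := by
    have e := h2 x hx2 (fun t => F t ^ 2) hBV
    have e' := (abs_le.1 e).2
    have e2 : ∑ r, y r ^ 2 / mw (fun p => aP p - 1) r =
        ∑ r : Co (Sx D0 x) k, (F (tv (Rx δ x) r)) ^ 2 / mw aF r := rfl
    rw [e2]
    have e3 : (∑ r : Co (Sx D0 x) k, (F (tv (Rx δ x) r)) ^ 2 / mw aF r) -
      lk D0 δ x ^ k * ∫ t, F t ^ 2 ≤ ε / 3 * lk D0 δ x ^ k := e'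
    nlinarith
  have hq2 : ∑ r, y r ^ 2 / mw (fun p => aP p - 1) r *
      (mw (fun p => 1 + (k : ℝ) / (aP p - 1)) r - 1) ≤ lk D0 δ x ^ k * (ε / 3) := by
    have e0 : ∀ r : Co (Sx D0 x) k, mw (fun p => 1 + (k : ℝ) / (aP p - 1)) r ≤
        mw (fun p => 1 + (k : ℝ) / ((p : ℝ) - 2)) r := fun r =>
      U.mw_le_mw r (fun p hp => by
        have := hSr p hp
        have : 0 < aP p - 1 := by unfold aP; linarith
        positivity) fun p hp => by
        have e1 := hSr p hp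
        have e2 : (0 : ℝ) < (p : ℝ) - 2 := by linarith
        unfold aP
        have e3 : (k : ℝ) / ((p : ℝ) - 1) ≤ (k : ℝ) / ((p : ℝ) - 2) :=
          div_le_div_of_nonneg_left (Nat.cast_nonneg k) e2 (by linarith)
        linarith
    have e1 : ∀ r : Co (Sx D0 x) k, 1 ≤ mw (fun p => 1 + (k : ℝ) / ((p : ℝ) - 2)) r := fun r =>
      U.one_le_mw r fun p hp => by
        have e1 := hSr p hp
        have e2 : (0 : ℝ) < (p : ℝ) - 2 := by linarith
        have : 0 ≤ (k : ℝ) / ((p : ℝ) - 2) := by positivity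
        linarith
    calc ∑ r, y r ^ 2 / mw (fun p => aP p - 1) r *
          (mw (fun p => 1 + (k : ℝ) / (aP p - 1)) r - 1)
        ≤ ∑ r, (if (nrm r : ℝ) ≤ Real.sqrt x then
            M ^ 2 * ((mw (fun p => 1 + (k : ℝ) / ((p : ℝ) - 2)) r - 1) / mw aF r) else 0) := by
          refine sum_le_sum fun r _ => ?_
          have f1 : mw (fun p => aP p - 1) r = mw aF r := rfl
          rw [f1]
          have f2 := hmwF r
          by_cases hr : y r = 0
          · rw [hr]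
            simp only [ne_eq, OfNat.ofNat_ne_zero, not_false_eq_true, zero_pow, zero_div, zero_mul]
            split_ifs
            · have := e1 r
              have : 0 ≤ mw (fun p => 1 + (k : ℝ) / ((p : ℝ) - 2)) r - 1 := by linarith
              positivity
            · exact le_rfl
          · rw [if_pos ((hyR r hr).trans hRT)]
            have f3 : mw (fun p => 1 + (k : ℝ) / (aP p - 1)) r - 1 ≤
              mw (fun p => 1 + (k : ℝ) / ((p : ℝ) - 2)) r - 1 := by linarith [e0 r]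
            have f4 : 0 ≤ mw (fun p => 1 + (k : ℝ) / ((p : ℝ) - 2)) r - 1 := by linarith [e1 r]
            calc y r ^ 2 / mw aF r * (mw (fun p => 1 + (k : ℝ) / (aP p - 1)) r - 1)
                ≤ y r ^ 2 / mw aF r * (mw (fun p => 1 + (k : ℝ) / ((p : ℝ) - 2)) r - 1) :=
                  mul_le_mul_of_nonneg_left f3 (by positivity)
              _ = y r ^ 2 * ((mw (fun p => 1 + (k : ℝ) / ((p : ℝ) - 2)) r - 1) / mw aF r) := by
                  ring
              _ ≤ M ^ 2 * ((mw (fun p => 1 + (k : ℝ) / ((p : ℝ) - 2)) r - 1) / mw aF r) :=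
                  mul_le_mul_of_nonneg_right (hy2 r) (by positivity)
      _ = M ^ 2 * ∑ r ∈ univ.filter (fun r : Co (Sx D0 x) k => (nrm r : ℝ) ≤ Real.sqrt x),
            (mw (fun p => 1 + (k : ℝ) / ((p : ℝ) - 2)) r - 1) / mw aF r := by
          rw [← sum_filter, mul_sum]
      _ ≤ M ^ 2 * (ε / (3 * ((M ^ 2 + 1) * 8 ^ k)) * kl D0 x ^ k) :=
          mul_le_mul_of_nonneg_left (h1 x hx1).1 (by positivity)
      _ ≤ (M ^ 2 + 1) * (ε / (3 * ((M ^ 2 + 1) * 8 ^ k)) * (8 * lk D0 δ x) ^ k) := by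
          have g1 : 0 ≤ kl D0 x := by
            unfold kl; positivity
          refine mul_le_mul (by linarith) ?_ (by positivity) (by positivity)
          refine mul_le_mul_of_nonneg_left ?_ hε'.le
          exact pow_le_pow_left₀ g1 (U.kl_le D0 δ x hδ8 hxx) k
      _ = lk D0 δ x ^ k * (ε / 3) := by
          rw [mul_pow]
          field_simp
  have hqq : Qf aP l l ≤ lk D0 δ x ^ k * ((∫ t, F t ^ 2) + ε / 3 + ε / 3) := by
    rw [hl]
    have := (abs_le.1 hq).2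
    nlinarith
  have hLk : 1 ≤ lk D0 δ x ^ k := one_le_pow₀ hL1
  have hmain : S1 w h D0 v0 x l l ≤
      x * (∫ u, w u) / (primorial D0 : ℝ) * lk D0 δ x ^ k * ((∫ t, F t ^ 2) + ε) := by
    have g1 := (abs_le.1 hS1).2
    have g2 : x * (∫ u, w u) / (primorial D0 : ℝ) * Qf aP l l ≤
        x * (∫ u, w u) / (primorial D0 : ℝ) *
          (lk D0 δ x ^ k * ((∫ t, F t ^ 2) + ε / 3 + ε / 3)) :=
      mul_le_mul_of_nonneg_left hqq (by positivity)
    have g3 : ε / 3 * ((∫ u, w u) / (primorial D0 : ℝ)) * x ≤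
        x * (∫ u, w u) / (primorial D0 : ℝ) * (lk D0 δ x ^ k * (ε / 3)) := by
      have : ε / 3 * ((∫ u, w u) / (primorial D0 : ℝ)) * x * 1 ≤
        ε / 3 * ((∫ u, w u) / (primorial D0 : ℝ)) * x * lk D0 δ x ^ k :=
        mul_le_mul_of_nonneg_left hLk (by positivity)
      calc _ = ε / 3 * ((∫ u, w u) / (primorial D0 : ℝ)) * x * 1 := by ring
        _ ≤ _ := this
        _ = _ := by ring
    calc S1 w h D0 v0 x l l ≤ x * (∫ u, w u) / (primorial D0 : ℝ) *
          (lk D0 δ x ^ k * ((∫ t, F t ^ 2) + ε / 3 + ε / 3)) +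
          x * (∫ u, w u) / (primorial D0 : ℝ) * (lk D0 δ x ^ k * (ε / 3)) := by
          linarith
      _ = _ := by ring
  calc S1 w h D0 v0 x l l * Real.log (Rx δ x) ≤
        (x * (∫ u, w u) / (primorial D0 : ℝ) * lk D0 δ x ^ k * ((∫ t, F t ^ 2) + ε)) *
          Real.log (Rx δ x) := mul_le_mul_of_nonneg_right hmain hlogR.le
    _ = Nn w k D0 δ x * ((∫ t, F t ^ 2) + ε) := by
        unfold Nn; ring

end MPb51559.BG
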