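import Pool.Agent.Work.MP_b51559_nt.BG.C.Stmts

set_option autoImplicit false

/-!
# S1E: expansion of the first sum
-/

namespace MPb51559.BG

open Finset Filter Topology MeasureTheory
open scoped Classical

namespace IS1E

variable {S : Finset ℕ} {k : ℕ}

/-- one pair of colourings -/
noncomputable def T (w : ℝ → ℝ) (h : Fin k → ℕ) (D0 v0 : ℕ) (x : ℝ) (l l' : Co S k → ℝ)
    (d e : Co S k) : ℝ :=
  ∑ n ∈ (range (⌊2 * x⌋₊ + 1)).filter (fun n => n ≡ v0 [MOD primorial D0]),
    wp w h x n * ((if Adh h d n then l d else 0) * (if Adh h e n then l' e else 0))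

theorem S1_eq (w : ℝ → ℝ) (h : Fin k → ℕ) (D0 v0 : ℕ) (x : ℝ) (l l' : Co S k → ℝ) :
    S1 w h D0 v0 x l l' = ∑ d, ∑ e, T w h D0 v0 x l l' d e := by
  unfold S1 T Vn
  have h1 : ∀ d : Co S k, ∑ e : Co S k, ∑ n ∈ (range (⌊2 * x⌋₊ + 1)).filter
      (fun n => n ≡ v0 [MOD primorial D0]), wp w h x n *
        ((if Adh h d n then l d else 0) * (if Adh h e n then l' e else 0)) =
      ∑ n ∈ (range (⌊2 * x⌋₊ + 1)).filter (fun n => n ≡ v0 [MOD primorial D0]),
        ∑ e : Co S k, wp w h x n *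
        ((if Adh h d n then l d else 0) * (if Adh h e n then l' e else 0)) :=
    fun d => Finset.sum_comm
  rw [Finset.sum_congr rfl fun d _ => h1 d, Finset.sum_comm]
  refine Finset.sum_congr rfl fun n _ => ?_
  rw [Finset.sum_filter, Finset.sum_filter, Finset.sum_mul_sum, Finset.mul_sum]
  refine Finset.sum_congr rfl fun d _ => ?_
  rw [Finset.mul_sum]

theorem pair (hB : C_BAS) (hA : C_ADJ) (hC : C_CRT) (w : ℝ → ℝ) (h : Fin k → ℕ)
    (hinj : Function.Injective h) (x C : ℝ) (hC0 : 0 ≤ C)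
    (hx : ∀ q a : ℕ, 0 < q →
      |∑ n ∈ (range (⌊2 * x⌋₊ + 1)).filter (fun n => n ≡ a [MOD q]), wp w h x n -
        x * (∫ u, w u) / q| ≤ C) (D0 v0 : ℕ) (hh : ∀ i, h i ≤ D0)
    (hS : ∀ p ∈ S, p.Prime ∧ D0 < p) (hv : ∀ i, (v0 + h i).Coprime (primorial D0))
    (l l' : Co S k → ℝ) (d e : Co S k) :
    |T w h D0 v0 x l l' d e - x * (∫ u, w u) / (primorial D0 : ℝ) *
      (if Cmp d e then l d * l' e / mw aP (jn d e) else 0)| ≤ C * (|l d| * |l' e|) := by
  have hadj := hA D0 S k h (fun p hp => (hS p hp).2) hh hinj d e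
  by_cases hc : Cmp d e
  · rw [if_pos hc]
    obtain ⟨a, ha, -⟩ := hC D0 S k h hS hh hinj v0 hv (jn d e)
    have hb := hB S k (fun p hp => (hS p hp).1) (jn d e)
    have hpos : 0 < nrm (jn d e) := hb.2.1
    have hmw : mw aP (jn d e) = nrm (jn d e) := hb.2.2.2.1
    have hW : 0 < primorial D0 := primorial_pos D0
    have hT : T w h D0 v0 x l l' d e = l d * l' e *
        ∑ n ∈ (range (⌊2 * x⌋₊ + 1)).filter
          (fun n => n ≡ a [MOD (primorial D0 * nrm (jn d e))]), wp w h x n := by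
      unfold T
      rw [Finset.mul_sum, Finset.sum_filter, Finset.sum_filter]
      refine Finset.sum_congr rfl fun n _ => ?_
      by_cases h1 : n ≡ a [MOD (primorial D0 * nrm (jn d e))]
      · have h2 := (ha n).mpr h1
        have h3 := (hadj n).mpr ⟨hc, h2.2⟩
        rw [if_pos h1, if_pos h2.1, if_pos h3.1, if_pos h3.2]
        ring
      · rw [if_neg h1]
        by_cases h2 : n ≡ v0 [MOD primorial D0]
        · rw [if_pos h2]
          by_cases h3 : Adh h d n
          · by_cases h4 : Adh h e n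
            · exact absurd ((ha n).mp ⟨h2, ((hadj n).mp ⟨h3, h4⟩).2⟩) h1
            · rw [if_neg h4, mul_zero, mul_zero]
          · rw [if_neg h3, zero_mul, mul_zero]
        · rw [if_neg h2]
    rw [hT, hmw]
    have h5 := hx (primorial D0 * nrm (jn d e)) a (Nat.mul_pos hW hpos)
    have hW' : (primorial D0 : ℝ) ≠ 0 := by exact_mod_cast hW.ne'
    have hn' : (nrm (jn d e) : ℝ) ≠ 0 := by exact_mod_cast hpos.ne'
    have h6 : l d * l' e * ∑ n ∈ (range (⌊2 * x⌋₊ + 1)).filter
          (fun n => n ≡ a [MOD (primorial D0 * nrm (jn d e))]), wp w h x n -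
        x * (∫ u, w u) / (primorial D0 : ℝ) * (l d * l' e / (nrm (jn d e) : ℝ)) =
        l d * l' e * (∑ n ∈ (range (⌊2 * x⌋₊ + 1)).filter
          (fun n => n ≡ a [MOD (primorial D0 * nrm (jn d e))]), wp w h x n -
          x * (∫ u, w u) / ((primorial D0 * nrm (jn d e) : ℕ) : ℝ)) := by
      push_cast
      field_simp
    rw [h6, abs_mul, abs_mul, mul_comm C]
    exact mul_le_mul_of_nonneg_left h5 (by positivity)
  · rw [if_neg hc]
    have hT : T w h D0 v0 x l l' d e = 0 := by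
      unfold T
      refine Finset.sum_eq_zero fun n _ => ?_
      by_cases h3 : Adh h d n
      · by_cases h4 : Adh h e n
        · exact absurd ((hadj n).mp ⟨h3, h4⟩).1 hc
        · rw [if_neg h4, mul_zero, mul_zero]
      · rw [if_neg h3, zero_mul, mul_zero]
    rw [hT, mul_zero, sub_zero, abs_zero]
    positivity

end IS1E

theorem prf_S1E (hB : C_BAS) (hA : C_ADJ) (hC : C_CRT) (hW : C_WPS) : C_S1E := by
  intro w hw k h hk hinj
  obtain ⟨C, x0, hx0⟩ := hW w hw k h hk
  refine ⟨max C 0, x0, le_max_right _ _, ?_⟩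
  intro x hx D0 v0 S hh hS hv l l'
  have h1 := (hx0 x hx).2
  have h2 : ∀ d e : Co S k, |IS1E.T w h D0 v0 x l l' d e -
      x * (∫ u, w u) / (primorial D0 : ℝ) *
      (if Cmp d e then l d * l' e / mw aP (jn d e) else 0)| ≤ max C 0 * (|l d| * |l' e|) :=
    fun d e => IS1E.pair hB hA hC w h hinj x (max C 0) (le_max_right _ _)
      (fun q a hq => (h1 q a hq).trans (le_max_left _ _)) D0 v0 hh hS hv l l' d e
  rw [IS1E.S1_eq]
  unfold Qf
  rw [Finset.mul_sum, ← Finset.sum_sub_distrib]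
  refine (Finset.abs_sum_le_sum_abs _ _).trans ?_
  have h3 : max C 0 * (∑ d, |l d|) * (∑ d, |l' d|) =
      ∑ d : Co S k, ∑ e : Co S k, max C 0 * (|l d| * |l' e|) := by
    rw [mul_assoc, Finset.sum_mul_sum, Finset.mul_sum]
    refine Finset.sum_congr rfl fun d _ => ?_
    rw [Finset.mul_sum]
  rw [h3]
  refine Finset.sum_le_sum fun d _ => ?_
  rw [Finset.mul_sum, ← Finset.sum_sub_distrib]
  refine (Finset.abs_sum_le_sum_abs _ _).trans ?_
  exact Finset.sum_le_sum fun e _ => h2 d e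

end MPb51559.BG
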