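import Pool.Agent.Work.MP_b51559_nt.BG.C.Stmts

set_option autoImplicit false

/-!
# Part C, item S2E: the exact expansion of the prime side
-/

namespace MPb51559.BG

open Finset Filter Topology MeasureTheory
open scoped Classical

namespace S2Ex

/-- thW depends on the residue class only -/
lemma thW_mod (w : ℝ → ℝ) (x : ℝ) (q a b : ℕ) (hab : a ≡ b [MOD q]) :
    thW w x q a = thW w x q b := by
  unfold thW
  have h1 : ((a : ℕ) : ZMod q) = (b : ZMod q) := (ZMod.natCast_eq_natCast_iff a b q).2 hab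
  rw [h1]

lemma err_le (w : ℝ → ℝ) (x : ℝ) (q b : ℕ) (hq : 0 < q) (hb : b.Coprime q) :
    |thW w x q b - thW w x 1 0 / (q.totient : ℝ)| ≤ Eq1 w x q := by
  have h1 : thW w x q b = thW w x q (b % q) := thW_mod w x q b (b % q) (Nat.mod_modEq b q).symm
  have h2 : (b % q).Coprime q := by
    have h3 : (b % q).gcd q = b.gcd q := (Nat.mod_modEq b q).gcd_eq
    exact h3.trans hb
  have hlt : b % q < q + 1 := (Nat.mod_lt b hq).trans (Nat.lt_succ_self q)
  unfold Eq1
  refine le_trans ?_ (le_ciSup (Set.finite_range _).bddAbove (⟨b % q, hlt⟩ : Fin (q + 1)))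
  have h4 : (if ((⟨b % q, hlt⟩ : Fin (q + 1)) : ℕ).Coprime q then
      |thW w x q ((⟨b % q, hlt⟩ : Fin (q + 1)) : ℕ) - thW w x 1 0 / (q.totient : ℝ)| else 0) =
      |thW w x q (b % q) - thW w x 1 0 / (q.totient : ℝ)| := if_pos h2
  rw [h1]
  exact h4.ge

lemma cop_primorial {S : Finset ℕ} {k : ℕ} (hBAS : C_BAS) (D0 : ℕ)
    (hS : ∀ p ∈ S, p.Prime ∧ D0 < p) (u : Co S k) : (primorial D0).Coprime (nrm u) := by
  refine Nat.coprime_of_dvd fun p hp h1 h2 => ?_
  obtain ⟨hpS, -⟩ := ((hBAS S k (fun p hp => (hS p hp).1) u).2.2.1 p hp).1 h2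
  have h3 := (hS p hpS).2
  unfold primorial at h1
  obtain ⟨r, hr, hpr⟩ := (Nat.Prime.prime hp).exists_mem_finset_dvd h1
  rw [Finset.mem_filter, Finset.mem_range] at hr
  have h4 := (Nat.prime_dvd_prime_iff_eq hp hr.2).1 hpr
  omega

lemma Vn_mul {S : Finset ℕ} {k : ℕ} (h : Fin k → ℕ) (l l' : Co S k → ℝ) (n : ℕ) :
    Vn h l n * Vn h l' n = ∑ d, ∑ e, if Adh h d n ∧ Adh h e n then l d * l' e else 0 := by
  unfold Vn
  rw [Finset.sum_filter, Finset.sum_filter, Finset.sum_mul_sum]
  refine Finset.sum_congr rfl fun d _ => Finset.sum_congr rfl fun e _ => ?_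
  by_cases h1 : Adh h d n <;> by_cases h2 : Adh h e n <;> simp [h1, h2]

lemma noC_jn {S : Finset ℕ} {k : ℕ} {m : Fin k} {d e : Co S k} (hd : NoC m d) (he : NoC m e) :
    NoC m (jn d e) := by
  intro p
  unfold jn
  by_cases h1 : d p = none
  · simp only [h1, if_true]; exact he p
  · simp only [h1, if_false]; exact hd p

theorem main {k : ℕ} (hBAS : C_BAS) (hADJ : C_ADJ) (hCRT : C_CRT) (w : ℝ → ℝ) (h : Fin k → ℕ)
    (hinj : Function.Injective h) (x : ℝ)
    (htms : ∀ (m : Fin k) (q a : ℕ), 0 < q →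
      ∑ n ∈ (range (⌊2 * x⌋₊ + 1)).filter (fun n => n ≡ a [MOD q]), tm w h x m n =
        thW w x q (a + h m)) (D0 v0 : ℕ) (S : Finset ℕ) (hD : ∀ i, h i ≤ D0)
    (hS : ∀ p ∈ S, p.Prime ∧ D0 < p) (hv : ∀ i, (v0 + h i).Coprime (primorial D0))
    (m : Fin k) (l l' : Co S k → ℝ) (hl : ∀ d, l d ≠ 0 → NoC m d)
    (hl' : ∀ d, l' d ≠ 0 → NoC m d) :
    |S2 w h D0 v0 x m l l' - thW w x 1 0 / ((primorial D0).totient : ℝ) * Qf aF l l'| ≤
      ∑ d, ∑ e, if Cmp d e then |l d| * |l' e| * Eq1 w x (primorial D0 * nrm (jn d e)) else 0 := by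
  set A := (range (⌊2 * x⌋₊ + 1)).filter (fun n => n ≡ v0 [MOD primorial D0]) with hA
  have hSp : ∀ p ∈ S, p.Prime := fun p hp => (hS p hp).1
  -- the expansion
  have h1 : S2 w h D0 v0 x m l l' = ∑ d, ∑ e, ∑ n ∈ A,
      tm w h x m n * (if Adh h d n ∧ Adh h e n then l d * l' e else 0) := by
    unfold S2
    rw [← hA]
    have h2 : ∀ n ∈ A, tm w h x m n * (Vn h l n * Vn h l' n) = ∑ d, ∑ e,
        tm w h x m n * (if Adh h d n ∧ Adh h e n then l d * l' e else 0) := by
      intro n _
      rw [Vn_mul, Finset.mul_sum]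
      refine Finset.sum_congr rfl fun d _ => ?_
      rw [Finset.mul_sum]
    rw [Finset.sum_congr rfl h2, Finset.sum_comm]
    refine Finset.sum_congr rfl fun d _ => ?_
    rw [Finset.sum_comm]
  have h3 : thW w x 1 0 / ((primorial D0).totient : ℝ) * Qf aF l l' = ∑ d, ∑ e,
      thW w x 1 0 / ((primorial D0).totient : ℝ) *
        (if Cmp d e then l d * l' e / mw aF (jn d e) else 0) := by
    unfold Qf
    rw [Finset.mul_sum]
    refine Finset.sum_congr rfl fun d _ => ?_
    rw [Finset.mul_sum]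
  rw [h1, h3, ← Finset.sum_sub_distrib]
  refine (Finset.abs_sum_le_sum_abs _ _).trans (Finset.sum_le_sum fun d _ => ?_)
  rw [← Finset.sum_sub_distrib]
  refine (Finset.abs_sum_le_sum_abs _ _).trans (Finset.sum_le_sum fun e _ => ?_)
  have hadj := hADJ D0 S k h (fun p hp => (hS p hp).2) hD hinj d e
  by_cases hC : Cmp d e
  · simp only [hC, if_true]
    by_cases hz : l d = 0 ∨ l' e = 0
    · have h4 : l d * l' e = 0 := by
        rcases hz with hz | hz <;> simp [hz]
      have h5 : |l d| * |l' e| = 0 := by rw [← abs_mul, h4, abs_zero]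
      rw [h5, h4]
      simp
    · push Not at hz
      have hN : NoC m (jn d e) := noC_jn (hl d hz.1) (hl' e hz.2)
      obtain ⟨a, ha1, ha2⟩ := hCRT D0 S k h hS hD hinj v0 hv (jn d e)
      have hB := hBAS S k hSp (jn d e)
      have hW : 0 < primorial D0 := primorial_pos D0
      have hq : 0 < primorial D0 * nrm (jn d e) := Nat.mul_pos hW hB.2.1
      have h6 : ∑ n ∈ A, tm w h x m n * (if Adh h d n ∧ Adh h e n then l d * l' e else 0) =
          l d * l' e * thW w x (primorial D0 * nrm (jn d e)) (a + h m) := by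
        rw [← htms m (primorial D0 * nrm (jn d e)) a hq, Finset.mul_sum]
        have h7 : (range (⌊2 * x⌋₊ + 1)).filter
            (fun n => n ≡ a [MOD primorial D0 * nrm (jn d e)]) =
            A.filter (fun n => Adh h d n ∧ Adh h e n) := by
          rw [hA, Finset.filter_filter]
          refine Finset.filter_congr fun n _ => ?_
          rw [← ha1 n, hadj n]
          constructor
          · rintro ⟨h8, h9⟩; exact ⟨h8, hC, h9⟩
          · rintro ⟨h8, -, h9⟩; exact ⟨h8, h9⟩
        rw [h7, Finset.sum_filter (s := A)]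
        refine Finset.sum_congr rfl fun n _ => ?_
        by_cases h8 : Adh h d n ∧ Adh h e n
        · simp only [h8, and_self, if_true]; ring
        · simp only [h8, if_false, mul_zero]
      have h9 := err_le w x (primorial D0 * nrm (jn d e)) (a + h m) hq (ha2 m hN)
      have h10 : (((primorial D0 * nrm (jn d e)).totient : ℕ) : ℝ) =
          ((primorial D0).totient : ℝ) * mw aF (jn d e) := by
        rw [Nat.totient_mul (cop_primorial hBAS D0 hS (jn d e)), Nat.cast_mul, hB.2.2.2.2.1]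
      rw [h10] at h9
      rw [h6]
      have h11 : l d * l' e * thW w x (primorial D0 * nrm (jn d e)) (a + h m) -
          thW w x 1 0 / ((primorial D0).totient : ℝ) * (l d * l' e / mw aF (jn d e)) =
          l d * l' e * (thW w x (primorial D0 * nrm (jn d e)) (a + h m) -
            thW w x 1 0 / (((primorial D0).totient : ℝ) * mw aF (jn d e))) := by
        rw [mul_sub]
        congr 1
        rw [div_mul_div_comm]
        rw [mul_div_assoc']
        congr 1
        ring
      rw [h11, abs_mul, abs_mul]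
      exact mul_le_mul_of_nonneg_left h9 (by positivity)
  · simp only [hC, if_false, mul_zero, sub_zero]
    have h4 : ∑ n ∈ A, tm w h x m n * (if Adh h d n ∧ Adh h e n then l d * l' e else 0) = 0 := by
      refine Finset.sum_eq_zero fun n _ => ?_
      have h5 : ¬ (Adh h d n ∧ Adh h e n) := fun h6 => hC ((hadj n).1 h6).1
      simp only [h5, if_false, mul_zero]
    rw [h4, abs_zero]

end S2Ex

theorem prf_S2E (hBAS : C_BAS) (hADJ : C_ADJ) (hCRT : C_CRT) (hTMS : C_TMS) : C_S2E := by
  intro w hw k h hinj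
  obtain ⟨x0, hx0⟩ := hTMS w hw k h
  refine ⟨x0, fun x hx D0 v0 S hD hS hv m l l' hl hl' => ?_⟩
  exact S2Ex.main hBAS hADJ hCRT w h hinj x (hx0 x hx) D0 v0 S hD hS hv m l l' hl hl'

end MPb51559.BG
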