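import Pool.Agent.Work.MP_b51559_nt.BG.C.Stmts2

set_option autoImplicit false

/-!
# SQ: the square of a test function
-/

namespace MPb51559.BG

open Finset Filter Topology MeasureTheory
open scoped Classical

theorem prf_SQ (hB : C_BVM) : C_SQ := by
  intro k T F _ hF
  obtain ⟨M0, hM0⟩ := hF.bdd
  obtain ⟨V0, hV0⟩ := hF.bv
  have h0 : 0 ≤ M0 := (abs_nonneg _).trans (hM0 0)
  refine ⟨M0 ^ 2, Real.toNNReal (M0 * V0 + M0 * V0), by positivity, ?_⟩
  refine ⟨hF.meas.pow_const 2, ?_, ?_, ?_⟩
  · intro t ht i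
    have h1 : F t ≠ 0 := fun h => ht (by simp [h])
    obtain ⟨h2, h3⟩ := hF.supp t h1
    exact ⟨h2 i, (Finset.single_le_sum (fun j _ => h2 j) (Finset.mem_univ i)).trans h3⟩
  · intro t
    rw [abs_pow]
    exact pow_le_pow_left₀ (abs_nonneg _) (hM0 t) 2
  · intro t i
    have h1 := hB (fun s => F (Function.update t i s)) (fun s => F (Function.update t i s))
      M0 M0 V0 V0 (fun s => hM0 _) (fun s => hM0 _) (hV0 t i) (hV0 t i)
    have h2 : (fun s => (fun t => F t ^ 2) (Function.update t i s)) =
        fun s => F (Function.update t i s) * F (Function.update t i s) := by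
      funext s
      exact pow_two _
    rw [h2]
    exact h1

end MPb51559.BG
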