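import Pool.Agent.Work.MP_b51559_nt.BG.C.Stmts

set_option autoImplicit false

/-!
# Item SUMK: sums over colourings in `k` dimensions
-/

namespace MPb51559.BG

open Finset Filter Topology MeasureTheory
open scoped Classical

theorem SUMK_logR {δ x : ℝ} (hx : 1 < x) : Real.log (Rx δ x) = (1 / 4 - δ) * Real.log x := by
  rw [Rx, Real.log_rpow (by linarith)]

theorem SUMK_R {δ x : ℝ} (hx : 1 < x) (hδ : δ < 1 / 8) : 1 < Rx δ x := by
  rw [Rx]
  exact Real.one_lt_rpow hx (by linarith)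

theorem SUMK_log8 {δ x : ℝ} (hx : 1 < x) (hδ : δ < 1 / 8) : Real.log x ≤ 8 * Real.log (Rx δ x) := by
  rw [SUMK_logR hx]
  have : 0 < Real.log x := Real.log_pos hx
  nlinarith

theorem SUMK_pow {δ x s : ℝ} (hx : 1 < x) (hδ0 : 0 < δ) (hδ : δ < 1 / 8) (hs : 0 ≤ s) (hs2 : s ≤ 2) :
    1 ≤ Rx δ x ^ s ∧ Rx δ x ^ s ≤ Real.sqrt x := by
  constructor
  · exact Real.one_le_rpow (SUMK_R hx hδ).le hs
  · rw [Rx, ← Real.rpow_mul (by linarith), Real.sqrt_eq_rpow]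
    refine Real.rpow_le_rpow_of_exponent_le hx.le ?_
    nlinarith

theorem SUMK_mem {R : ℝ} (hR : 1 < R) {a : ℕ} (ha : 0 < a) (s : ℝ) :
    Real.log a / Real.log R ≤ s ↔ (a : ℝ) ≤ R ^ s := by
  have hl : 0 < Real.log R := Real.log_pos hR
  have ha' : (0 : ℝ) < a := by exact_mod_cast ha
  rw [div_le_iff₀ hl, Real.rpow_def_of_pos (by linarith), mul_comm (Real.log R) s,
    Real.log_le_iff_le_exp ha']

theorem SUMK_filter {R : ℝ} (hR : 1 < R) (S : Finset ℕ) {s T0 : ℝ} (hs : s ≤ T0) :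
    (SqF S (R ^ T0)).filter (fun a : ℕ => Real.log (a : ℝ) / Real.log R ≤ s) = SqF S (R ^ s) := by
  have hR0 : 0 < R := by linarith
  ext a
  rw [Finset.mem_filter, SqF, SqF, Finset.mem_filter, Finset.mem_filter, Finset.mem_Icc,
    Finset.mem_Icc]
  constructor
  · rintro ⟨⟨⟨h1, h2⟩, h3⟩, h4⟩
    exact ⟨⟨h1, (Nat.le_floor_iff (by positivity)).2 ((SUMK_mem hR (by omega) s).1 h4)⟩, h3⟩
  · rintro ⟨⟨h1, h2⟩, h3⟩
    have h5 : (a : ℝ) ≤ R ^ s := (Nat.le_floor_iff (by positivity)).1 h2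
    refine ⟨⟨⟨h1, (Nat.le_floor_iff (by positivity)).2 (h5.trans ?_)⟩, h3⟩,
      (SUMK_mem hR (by omega) s).2 h5⟩
    exact Real.rpow_le_rpow_of_exponent_le hR.le hs

theorem SUMK_Hs_mono (S : Finset ℕ) {z z' : ℝ} (h : z ≤ z') : Hs S z ≤ Hs S z' := by
  unfold Hs SqF
  refine Finset.sum_le_sum_of_subset_of_nonneg ?_ fun _ _ _ => by positivity
  exact Finset.filter_subset_filter _ (Finset.Icc_subset_Icc le_rfl (Nat.floor_mono h))

theorem SUMK_Hs_nonneg (S : Finset ℕ) (z : ℝ) : 0 ≤ Hs S z :=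
  Finset.sum_nonneg fun _ _ => by positivity

/-- the sum over the primes -/
theorem SUMK_sq (D0 : ℕ) (hD : 1 ≤ D0) (x : ℝ) :
    ∑ p ∈ Sx D0 x, 1 / ((p : ℝ) - 1) ^ 2 ≤ 2 / (D0 : ℝ) := by
  have h1 : ∑ p ∈ Sx D0 x, 1 / ((p : ℝ) - 1) ^ 2 ≤
      ∑ i ∈ Ioo (D0 - 1) ⌊x⌋₊, ((i : ℝ) ^ 2)⁻¹ := by
    have h2 : ∑ p ∈ Sx D0 x, 1 / ((p : ℝ) - 1) ^ 2 = ∑ p ∈ Sx D0 x, (((p - 1 : ℕ) : ℝ) ^ 2)⁻¹ := by
      refine Finset.sum_congr rfl fun p hp => ?_
      rw [Sx, Finset.mem_filter] at hp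
      rw [Nat.cast_sub hp.2.1.one_le, Nat.cast_one, one_div]
    rw [h2, ← Finset.sum_image (s := Sx D0 x) (g := fun p : ℕ => p - 1)
      (f := fun i : ℕ => ((i : ℝ) ^ 2)⁻¹)]
    · refine Finset.sum_le_sum_of_subset_of_nonneg ?_ fun _ _ _ => by positivity
      intro i hi
      rw [Finset.mem_image] at hi
      obtain ⟨p, hp, rfl⟩ := hi
      rw [Sx, Finset.mem_filter, Finset.mem_range] at hp
      rw [Finset.mem_Ioo]
      have := hp.2.1.one_le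
      omega
    · intro p hp q hq hpq
      have hp' := Finset.mem_coe.1 hp
      have hq' := Finset.mem_coe.1 hq
      rw [Sx, Finset.mem_filter] at hp' hq'
      have h3 := hp'.2.1.one_le
      have h4 := hq'.2.1.one_le
      simp only at hpq
      omega
  refine h1.trans ((sum_Ioo_inv_sq_le (D0 - 1) ⌊x⌋₊).trans (le_of_eq ?_))
  rw [Nat.cast_sub hD]
  push_cast
  ring

theorem SUMK_kap_pos (D0 : ℕ) : 0 < kap D0 := by
  unfold kap
  have h1 : 0 < primorial D0 := primorial_pos D0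
  have h2 : 0 < (primorial D0).totient := Nat.totient_pos.2 h1
  positivity

/-- the sum over all colourings is a sum over colourings with small parts -/
theorem SUMK_restrict {S : Finset ℕ} {k : ℕ} (hB : ∀ r : Co S k, ∀ i, 0 < prt i r) {R T0 M : ℝ}
    (hR : 1 < R) {V : NNReal} {Φ : (Fin k → ℝ) → ℝ} (hΦ : BVk k T0 M V Φ) :
    ∑ r : Co S k, Φ (tv R r) / mw aF r =
      ∑ r ∈ univ.filter (fun r : Co S k => ∀ i, (prt i r : ℝ) ≤ R ^ T0), Φ (tv R r) / mw aF r := by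
  symm
  refine Finset.sum_subset (Finset.filter_subset _ _) fun r _ hr => ?_
  by_contra h
  have h1 : Φ (tv R r) ≠ 0 := by
    intro h2
    rw [h2, zero_div] at h
    exact h rfl
  refine hr (Finset.mem_filter.2 ⟨Finset.mem_univ _, fun i => ?_⟩)
  exact (SUMK_mem hR (hB r i) T0).1 (hΦ.supp _ h1 i).2

/-- the assembly for fixed `D0` and `x` -/
theorem SUMK_core (hKD : C_KD) (hTUP : C_TUP) {k : ℕ} {S : Finset ℕ} (hS : ∀ p ∈ S, p.Prime)
    (hB : ∀ r : Co S k, ∀ i, 0 < prt i r) {T0 M R l Δ e1 H : ℝ} {V : NNReal} (hT0 : 0 < T0)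
    (hM : 0 ≤ M) (hR : 1 < R) (hl : 0 < l) (hΔ : 0 ≤ Δ)
    (hone : ∀ s, 0 ≤ s → s ≤ T0 → |Hs S (R ^ s) - s * l| ≤ Δ * l)
    (he1 : ∑ p ∈ S, 1 / ((p : ℝ) - 1) ^ 2 ≤ e1) (hH : Hs S (R ^ T0) ≤ H * l) (hH0 : 0 ≤ H)
    {Φ : (Fin k → ℝ) → ℝ} (hΦ : BVk k T0 M V Φ) :
    |∑ r : Co S k, Φ (tv R r) / mw aF r - l ^ k * ∫ t, Φ t| ≤
      (M * k ^ 2 * e1 * H ^ k + k * (2 * (M + V) * Δ) * (T0 + Δ + 1) ^ k) * l ^ k := by
  have hlR : 0 < Real.log R := Real.log_pos hR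
  have hz1 : 1 ≤ R ^ T0 := Real.one_le_rpow hR.le hT0.le
  -- TUP
  have h1 := hTUP S k hS (R ^ T0) M (fun a => Φ (fun i => Real.log (a i : ℝ) / Real.log R)) hz1
    (fun a => hΦ.bdd _)
  have h2 : ∑ r ∈ univ.filter (fun r : Co S k => ∀ i, (prt i r : ℝ) ≤ R ^ T0),
      (fun a : Fin k → ℕ => Φ (fun i => Real.log (a i : ℝ) / Real.log R)) (fun i => prt i r) / mw aF r =
      ∑ r : Co S k, Φ (tv R r) / mw aF r := (SUMK_restrict hB hR hΦ).symm
  rw [h2] at h1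
  -- KD
  have hA : ∀ a ∈ SqF S (R ^ T0), 0 ≤ 1 / ((a.totient : ℝ) * l) ∧ 0 ≤ Real.log (a : ℝ) / Real.log R ∧
      Real.log (a : ℝ) / Real.log R ≤ T0 := by
    intro a ha
    rw [SqF, Finset.mem_filter, Finset.mem_Icc] at ha
    refine ⟨by positivity, ?_, ?_⟩
    · exact div_nonneg (Real.log_nonneg (by exact_mod_cast ha.1.1)) hlR.le
    · exact (SUMK_mem hR ha.1.1 T0).2 ((Nat.le_floor_iff (by positivity)).1 ha.1.2)
  have h3 := hKD k ℕ (SqF S (R ^ T0)) (fun a => 1 / ((a.totient : ℝ) * l))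
    (fun a => Real.log (a : ℝ) / Real.log R) T0 Δ M V hT0.le hΔ hM hA (by
      intro s hs hs2
      rw [SUMK_filter hR S hs2]
      have h4 : ∑ a ∈ SqF S (R ^ s), 1 / ((a.totient : ℝ) * l) = Hs S (R ^ s) / l := by
        rw [Hs, Finset.sum_div]
        refine Finset.sum_congr rfl fun a _ => ?_
        rw [one_div, one_div, mul_inv, div_eq_mul_inv]
      rw [h4]
      have h5 : Hs S (R ^ s) / l - s = (Hs S (R ^ s) - s * l) / l := by
        field_simp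
      rw [h5, abs_div, abs_of_pos hl, div_le_iff₀ hl]
      exact hone s hs hs2) Φ hΦ
  -- the two middle sums
  have h6 : ∑ a ∈ Fintype.piFinset (fun _ : Fin k => SqF S (R ^ T0)),
      (∏ i, 1 / (((a i).totient : ℝ) * l)) * Φ (fun i => Real.log (a i : ℝ) / Real.log R) =
      (∑ a ∈ Fintype.piFinset (fun _ : Fin k => SqF S (R ^ T0)),
        Φ (fun i => Real.log (a i : ℝ) / Real.log R) * ∏ i, 1 / ((a i).totient : ℝ)) / l ^ k := by
    rw [Finset.sum_div]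
    refine Finset.sum_congr rfl fun a _ => ?_
    have h7 : ∏ i, 1 / (((a i).totient : ℝ) * l) = (∏ i, 1 / ((a i).totient : ℝ)) / l ^ k := by
      have h8 : ∀ i, 1 / (((a i).totient : ℝ) * l) = (1 / ((a i).totient : ℝ)) * l⁻¹ := fun i => by
        rw [one_div, one_div, mul_inv]
      rw [Finset.prod_congr rfl fun i _ => h8 i, Finset.prod_mul_distrib, Finset.prod_const,
        Finset.card_univ, Fintype.card_fin, inv_pow, div_eq_mul_inv]
    rw [h7]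
    ring
  have h3' : |(∑ a ∈ Fintype.piFinset (fun _ : Fin k => SqF S (R ^ T0)),
        Φ (fun i => Real.log (a i : ℝ) / Real.log R) * ∏ i, 1 / ((a i).totient : ℝ)) / l ^ k -
        ∫ t, Φ t| ≤ k * (2 * (M + V) * Δ) * (T0 + Δ + 1) ^ k := by
    rw [← h6]
    exact h3
  set X := ∑ r : Co S k, Φ (tv R r) / mw aF r with hX
  set Y := ∑ a ∈ Fintype.piFinset (fun _ : Fin k => SqF S (R ^ T0)),
        Φ (fun i => Real.log (a i : ℝ) / Real.log R) * ∏ i, 1 / ((a i).totient : ℝ) with hY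
  have hlk : 0 < l ^ k := pow_pos hl k
  have h9 : |Y - l ^ k * ∫ t, Φ t| ≤ k * (2 * (M + V) * Δ) * (T0 + Δ + 1) ^ k * l ^ k := by
    have h10 : Y - l ^ k * ∫ t, Φ t = (Y / l ^ k - ∫ t, Φ t) * l ^ k := by
      field_simp
    rw [h10, abs_mul, abs_of_pos hlk]
    exact mul_le_mul_of_nonneg_right h3' hlk.le
  have h11 : M * k ^ 2 * (∑ p ∈ S, 1 / ((p : ℝ) - 1) ^ 2) * Hs S (R ^ T0) ^ k ≤
      M * k ^ 2 * e1 * H ^ k * l ^ k := by
    have h12 : Hs S (R ^ T0) ^ k ≤ (H * l) ^ k := pow_le_pow_left₀ (SUMK_Hs_nonneg _ _) hH k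
    rw [mul_pow] at h12
    have h13 : 0 ≤ ∑ p ∈ S, 1 / ((p : ℝ) - 1) ^ 2 := Finset.sum_nonneg fun _ _ => by positivity
    calc M * k ^ 2 * (∑ p ∈ S, 1 / ((p : ℝ) - 1) ^ 2) * Hs S (R ^ T0) ^ k
        ≤ M * k ^ 2 * e1 * (H ^ k * l ^ k) := by
          refine mul_le_mul ?_ h12 (pow_nonneg (SUMK_Hs_nonneg _ _) k) ?_
          · exact mul_le_mul_of_nonneg_left he1 (by positivity)
          · exact mul_nonneg (by positivity) (h13.trans he1)
      _ = M * k ^ 2 * e1 * H ^ k * l ^ k := by ring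
  have h14 : |X - Y| ≤ M * k ^ 2 * e1 * H ^ k * l ^ k := h1.trans h11
  have h15 : X - l ^ k * ∫ t, Φ t = (X - Y) + (Y - l ^ k * ∫ t, Φ t) := by ring
  rw [h15]
  refine (abs_add_le _ _).trans ?_
  linarith [h14, h9]

theorem prf_SUMK (hBAS : C_BAS) (hONE : C_ONE) (hKD : C_KD) (hTUP : C_TUP) (hTOT : C_TOT) : C_SUMK := by
  intro k T0 M V δ hT0 hT02 hM hδ hδ8 ε hε
  obtain ⟨D1, hD1⟩ := exists_nat_gt (M * k ^ 2 * 2 * 8 ^ k * 2 / ε)
  refine ⟨max D1 3, fun D0 hD0 => ?_⟩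
  have hD0a : D1 ≤ D0 := (le_max_left _ _).trans hD0
  have hD0b : 3 ≤ D0 := (le_max_right _ _).trans hD0
  have hD0r : (0 : ℝ) < D0 := by
    have : 0 < D0 := by omega
    exact_mod_cast this
  set kp := kap D0 with hkp
  have hkp0 : 0 < kp := SUMK_kap_pos D0
  set Δ : ℝ := min 1 (ε / (2 * (k * (2 * (M + V)) + 1) * 4 ^ k)) with hΔdef
  have hV0 : (0 : ℝ) ≤ V := V.2
  have hden : 0 < 2 * (k * (2 * (M + V)) + 1) * (4 : ℝ) ^ k := by positivity
  have hΔ0 : 0 < Δ := lt_min one_pos (div_pos hε hden)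
  obtain ⟨x1, hx1⟩ := hONE D0 (by omega) (Δ * kp / 8) (by positivity)
  obtain ⟨x2, hx2⟩ := hTOT k D0 (by omega)
  refine ⟨max (max x1 x2) 2, fun x hx Φ hΦ => ?_⟩
  have hxa : x1 ≤ x := (le_max_left _ _).trans ((le_max_left _ _).trans hx)
  have hxb : x2 ≤ x := (le_max_right _ _).trans ((le_max_left _ _).trans hx)
  have hxc : 2 ≤ x := (le_max_right _ _).trans hx
  have hx1' : 1 < x := by linarith
  have hR := SUMK_R hx1' hδ8
  have hlogR : 0 < Real.log (Rx δ x) := Real.log_pos hR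
  have hlog8 := SUMK_log8 (δ := δ) hx1' hδ8
  have hl : 0 < lk D0 δ x := mul_pos hkp0 hlogR
  have hSx : ∀ p ∈ Sx D0 x, p.Prime := fun p hp => by
    rw [Sx, Finset.mem_filter] at hp
    exact hp.2.1
  have hkl : kl D0 x ≤ 8 * lk D0 δ x := by
    show kp * Real.log x ≤ 8 * (kp * Real.log (Rx δ x))
    nlinarith
  have hcore := SUMK_core hKD hTUP (k := k) (S := Sx D0 x) hSx
    (fun r i => (((hBAS (Sx D0 x) k hSx r).2.2.2.2.2.2.2.1) i).1) (T0 := T0) (M := M)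
    (R := Rx δ x) (l := lk D0 δ x) (Δ := Δ) (e1 := 2 / D0) (H := 8) (V := V) hT0 hM hR hl hΔ0.le
    (by
      intro s hs hs2
      obtain ⟨h1, h2⟩ := SUMK_pow hx1' hδ hδ8 hs (hs2.trans hT02)
      have h3 := hx1 x hxa (Rx δ x ^ s) h1 h2
      have h4 : kap D0 * Real.log (Rx δ x ^ s) = s * lk D0 δ x := by
        rw [Real.log_rpow (by linarith), lk]
        ring
      rw [h4] at h3
      refine h3.trans ?_
      show Δ * kp / 8 * Real.log x ≤ Δ * (kp * Real.log (Rx δ x))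
      have h5 : 0 < Δ * kp := by positivity
      nlinarith)
    (SUMK_sq D0 (by omega) x)
    (by
      obtain ⟨h1, h2⟩ := SUMK_pow hx1' hδ hδ8 hT0.le hT02
      exact (SUMK_Hs_mono _ h2).trans (((hx2 x hxb).1).trans hkl))
    (by norm_num) hΦ
  refine hcore.trans (mul_le_mul_of_nonneg_right ?_ (pow_nonneg hl.le k))
  -- numerics
  have hE1 : M * k ^ 2 * (2 / D0) * 8 ^ k ≤ ε / 2 := by
    have h1 : M * k ^ 2 * 2 * 8 ^ k * 2 / ε < D0 := hD1.trans_le (by exact_mod_cast hD0a)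
    rw [div_lt_iff₀ hε] at h1
    have h2 : M * k ^ 2 * (2 / D0) * 8 ^ k = (M * k ^ 2 * 2 * 8 ^ k) / D0 := by ring
    rw [h2, div_le_iff₀ hD0r]
    linarith
  have hE2 : k * (2 * (M + V) * Δ) * (T0 + Δ + 1) ^ k ≤ ε / 2 := by
    have h1 : (T0 + Δ + 1) ^ k ≤ 4 ^ k := by
      refine pow_le_pow_left₀ (by positivity) ?_ k
      have : Δ ≤ 1 := min_le_left _ _
      linarith
    have h2 : Δ ≤ ε / (2 * (k * (2 * (M + V)) + 1) * 4 ^ k) := min_le_right _ _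
    rw [le_div_iff₀ hden] at h2
    calc k * (2 * (M + V) * Δ) * (T0 + Δ + 1) ^ k ≤ k * (2 * (M + V) * Δ) * 4 ^ k :=
          mul_le_mul_of_nonneg_left h1 (by positivity)
      _ ≤ ε / 2 := by
          have h3 : 0 ≤ Δ * 4 ^ k := by positivity
          nlinarith
  linarith

end MPb51559.BG
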