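import Pool.Agent.Work.MP_b51559_nt.BG.C.Stmts

set_option autoImplicit false

/-! # Part C, item SUMN: k dimensional sums without colour m -/

namespace MPb51559.BG

open Finset MeasureTheory
open scoped Classical

/-- insertion of the unused colour `m` -/
noncomputable def SUMN_up {S : Finset ℕ} {κ : ℕ} (m : Fin (κ + 1)) (r : Co S κ) :
    Co S (κ + 1) := fun p => (r p).map m.succAbove

theorem SUMN_up_none {S : Finset ℕ} {κ : ℕ} (m : Fin (κ + 1)) (r : Co S κ) (p : {p // p ∈ S}) :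
    SUMN_up m r p = none ↔ r p = none := by
  unfold SUMN_up
  rw [Option.map_eq_none_iff]

theorem SUMN_up_some {S : Finset ℕ} {κ : ℕ} (m : Fin (κ + 1)) (r : Co S κ) (p : {p // p ∈ S})
    (j : Fin κ) : SUMN_up m r p = some (m.succAbove j) ↔ r p = some j := by
  unfold SUMN_up
  rw [Option.map_eq_some_iff]
  constructor
  · rintro ⟨a, h1, h2⟩
    rw [h1, Fin.succAbove_right_injective h2]
  · intro h
    exact ⟨j, h, rfl⟩

theorem SUMN_up_m {S : Finset ℕ} {κ : ℕ} (m : Fin (κ + 1)) (r : Co S κ) (p : {p // p ∈ S}) :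
    SUMN_up m r p ≠ some m := by
  unfold SUMN_up
  intro h
  rw [Option.map_eq_some_iff] at h
  obtain ⟨a, _, h2⟩ := h
  exact Fin.succAbove_ne m a h2

theorem SUMN_mw {S : Finset ℕ} {κ : ℕ} (m : Fin (κ + 1)) (f : ℕ → ℝ) (r : Co S κ) :
    mw f (SUMN_up m r) = mw f r := by
  unfold mw
  refine Finset.prod_congr rfl (fun p _ => ?_)
  by_cases h : r p = none
  · rw [if_pos h, if_pos ((SUMN_up_none m r p).2 h)]
  · rw [if_neg h, if_neg (fun hc => h ((SUMN_up_none m r p).1 hc))]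

theorem SUMN_tv {S : Finset ℕ} {κ : ℕ} (m : Fin (κ + 1)) (R : ℝ) (r : Co S κ) :
    tv R (SUMN_up m r) = (m.insertNth 0 (tv R r) : Fin (κ + 1) → ℝ) := by
  funext i
  rcases Fin.eq_self_or_eq_succAbove m i with rfl | ⟨j, rfl⟩
  · rw [Fin.insertNth_apply_same]
    unfold tv
    have : prt i (SUMN_up i r) = 1 := by
      unfold prt
      exact Finset.prod_eq_one (fun p _ => if_neg (SUMN_up_m i r p))
    rw [this]
    simp
  · rw [Fin.insertNth_apply_succAbove]
    unfold tv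
    have : prt (m.succAbove j) (SUMN_up m r) = prt j r := by
      unfold prt
      refine Finset.prod_congr rfl (fun p _ => ?_)
      by_cases h : r p = some j
      · rw [if_pos h, if_pos ((SUMN_up_some m r p j).2 h)]
      · rw [if_neg h, if_neg (fun hc => h ((SUMN_up_some m r p j).1 hc))]
    rw [this]

theorem SUMN_sum {S : Finset ℕ} {κ : ℕ} (m : Fin (κ + 1)) (G : Co S (κ + 1) → ℝ) :
    ∑ r ∈ univ.filter (fun r : Co S (κ + 1) => NoC m r), G r = ∑ r : Co S κ, G (SUMN_up m r) := by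
  symm
  refine Finset.sum_bij (fun r _ => SUMN_up m r) ?_ ?_ ?_ (fun _ _ => rfl)
  · intro r _
    exact Finset.mem_filter.2 ⟨Finset.mem_univ _, fun p => SUMN_up_m m r p⟩
  · intro r _ r' _ h
    funext p
    exact Option.map_injective Fin.succAbove_right_injective (congrFun h p)
  · intro r hr
    have hr' : NoC m r := (Finset.mem_filter.1 hr).2
    have : ∀ p, ∃ u : Option (Fin κ), u.map m.succAbove = r p := by
      intro p
      rcases hp : r p with _ | j
      · exact ⟨none, rfl⟩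
      · have hj : j ≠ m := by
          rintro rfl
          exact hr' p hp
        obtain ⟨z, hz⟩ := Fin.exists_succAbove_eq hj
        exact ⟨some z, by rw [Option.map_some, hz]⟩
    choose u hu using this
    exact ⟨u, Finset.mem_univ _, funext hu⟩

theorem SUMN_int {κ : ℕ} (m : Fin (κ + 1)) (Φ : (Fin (κ + 1) → ℝ) → ℝ)
    (hΦ : ∀ t s, Φ (Function.update t m s) = Φ t) :
    ∫ t, cutm m Φ t = ∫ t' : Fin κ → ℝ, Φ (m.insertNth 0 t' : Fin (κ + 1) → ℝ) := by
  have hmp := volume_preserving_piFinSuccAbove (fun _ : Fin (κ + 1) => ℝ) m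
  have h1 : ∀ t : Fin (κ + 1) → ℝ, cutm m Φ t =
      (fun z : ℝ × (Fin κ → ℝ) => (Set.Ico (0 : ℝ) 1).indicator (fun _ => (1 : ℝ)) z.1 *
        Φ (m.insertNth 0 z.2 : Fin (κ + 1) → ℝ))
        (MeasurableEquiv.piFinSuccAbove (fun _ : Fin (κ + 1) => ℝ) m t) := by
    intro t
    have h2 : (MeasurableEquiv.piFinSuccAbove (fun _ : Fin (κ + 1) => ℝ) m t) =
        (t m, fun j => t (m.succAbove j)) := rfl
    rw [h2]
    have h3 : (m.insertNth 0 (fun j => t (m.succAbove j)) : Fin (κ + 1) → ℝ) =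
        Function.update t m 0 := by
      rw [Fin.insertNth_eq_iff]
      refine ⟨by rw [Function.update_self], ?_⟩
      funext j
      rw [Fin.removeNth_apply, Function.update_of_ne (Fin.succAbove_ne m j)]
    show cutm m Φ t = _ * Φ _
    rw [h3, hΦ]
    unfold cutm
    by_cases h : 0 ≤ t m ∧ t m < 1
    · rw [if_pos h, Set.indicator_of_mem (show t m ∈ Set.Ico (0 : ℝ) 1 from h), one_mul]
    · rw [if_neg h, Set.indicator_of_notMem (show t m ∉ Set.Ico (0 : ℝ) 1 from h), zero_mul]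
  simp only [h1]
  rw [hmp.integral_comp' (fun z : ℝ × (Fin κ → ℝ) =>
    (Set.Ico (0 : ℝ) 1).indicator (fun _ => (1 : ℝ)) z.1 *
        Φ (m.insertNth 0 z.2 : Fin (κ + 1) → ℝ))]
  have hv : (volume : Measure (ℝ × (Fin κ → ℝ))) = (volume : Measure ℝ).prod volume := rfl
  refine (integral_prod_mul (μ := (volume : Measure ℝ)) (ν := (volume : Measure (Fin κ → ℝ)))
    (fun x : ℝ => (Set.Ico (0 : ℝ) 1).indicator (fun _ => (1 : ℝ)) x)
    (fun y : Fin κ → ℝ => Φ (m.insertNth 0 y : Fin (κ + 1) → ℝ))).trans ?_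
  rw [integral_indicator_const _ measurableSet_Ico]
  simp

theorem SUMN_bvk {κ : ℕ} (m : Fin (κ + 1)) (T0 M : ℝ) (V : NNReal) (Φ : (Fin (κ + 1) → ℝ) → ℝ)
    (h : BVk (κ + 1) T0 M V (cutm m Φ)) :
    BVk κ T0 M V (fun t' : Fin κ → ℝ => Φ (m.insertNth 0 t' : Fin (κ + 1) → ℝ)) := by
  have hc : ∀ t' : Fin κ → ℝ, cutm m Φ (m.insertNth 0 t' : Fin (κ + 1) → ℝ) =
      Φ (m.insertNth 0 t' : Fin (κ + 1) → ℝ) := by
    intro t'
    unfold cutm
    rw [if_pos]
    rw [Fin.insertNth_apply_same]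
    exact ⟨le_refl _, one_pos⟩
  have hmeas : Measurable (fun t' : Fin κ → ℝ => (m.insertNth 0 t' : Fin (κ + 1) → ℝ)) := by
    refine measurable_pi_iff.2 (m.forall_iff_succAbove.2 ⟨?_, fun j => ?_⟩)
    · simp only [Fin.insertNth_apply_same]
      exact measurable_const
    · simp only [Fin.insertNth_apply_succAbove]
      exact measurable_pi_apply j
  refine ⟨?_, ?_, ?_, ?_⟩
  · have h1 := h.meas.comp hmeas
    have h2 : (cutm m Φ ∘ fun t' : Fin κ → ℝ => (m.insertNth 0 t' : Fin (κ + 1) → ℝ)) =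
        fun t' : Fin κ → ℝ => Φ (m.insertNth 0 t' : Fin (κ + 1) → ℝ) := funext hc
    rw [h2] at h1
    exact h1
  · intro t ht i
    rw [← hc] at ht
    have := h.supp _ ht (m.succAbove i)
    rwa [Fin.insertNth_apply_succAbove] at this
  · intro t
    rw [← hc]
    exact h.bdd _
  · intro t i
    have := h.bv (m.insertNth 0 t : Fin (κ + 1) → ℝ) (m.succAbove i)
    have he : (fun s => Φ (m.insertNth 0 (Function.update t i s) : Fin (κ + 1) → ℝ)) =
        fun s => cutm m Φ (Function.update (m.insertNth 0 t : Fin (κ + 1) → ℝ)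
          (m.succAbove i) s) := by
      funext s
      rw [← Fin.insertNth_update, hc]
    rw [he]
    exact this

theorem prf_SUMN (hK : C_SUMK) : C_SUMN := by
  intro k m T0 M V δ hT1 hT2 hM hδ hδ' ε hε
  obtain ⟨κ, rfl⟩ : ∃ κ, k = κ + 1 := by
    have := m.pos
    exact ⟨k - 1, by omega⟩
  obtain ⟨D1, hD⟩ := hK κ T0 M V δ (by linarith) hT2 hM hδ hδ' ε hε
  refine ⟨D1, fun D0 hD0 => ?_⟩
  obtain ⟨x0, hx⟩ := hD D0 hD0
  refine ⟨x0, fun x hx' Φ hΦ hbv => ?_⟩
  have h1 := hx x hx' _ (SUMN_bvk m T0 M V Φ hbv)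
  rw [SUMN_sum, SUMN_int m Φ hΦ]
  simp only [SUMN_mw, SUMN_tv, Nat.add_sub_cancel]
  exact h1

end MPb51559.BG
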