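import Pool.Agent.Work.MP_b51559_nt.BG.C.Stmts

set_option autoImplicit false

/-!
# SUP: supports of the transforms
-/

namespace MPb51559.BG

open Finset Filter Topology MeasureTheory
open scoped Classical

namespace ISUP

variable {S : Finset ℕ} {k : ℕ}

theorem le_nrm (hS : ∀ p ∈ S, 1 ≤ p) (d r : Co S k) (h : Le d r) : nrm d ≤ nrm r := by
  unfold nrm
  refine Finset.prod_le_prod' fun p _ => ?_
  by_cases hd : d p = none
  · rw [if_pos hd]
    by_cases hr : r p = none
    · rw [if_pos hr]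
    · rw [if_neg hr]
      exact hS p p.2
  · rw [if_neg hd]
    have h1 : d p = r p := by
      rcases h p with h2 | h2
      · exact absurd h2 hd
      · exact h2
    rw [if_neg (fun h3 => hd (h1.trans h3))]

theorem le_noc (m : Fin k) (d r : Co S k) (h : Le d r) (hr : NoC m r) : NoC m d := by
  intro p hp
  rcases h p with h2 | h2
  · rw [h2] at hp
    exact absurd hp (by simp)
  · exact hr p (h2.symm.trans hp)

theorem ex_lam (a : ℕ → ℝ) (y : Co S k → ℝ) (d : Co S k) (h : lam a y d ≠ 0) :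
    ∃ r, Le d r ∧ y r ≠ 0 := by
  by_contra hne
  push Not at hne
  refine h ?_
  unfold lam
  rw [Finset.sum_eq_zero, mul_zero]
  intro r hr
  rw [hne r (Finset.mem_filter.mp hr).2, zero_div]

theorem ex_ytr (a : ℕ → ℝ) (y : Co S k → ℝ) (d : Co S k) (h : ytr a y d ≠ 0) :
    ∃ r, Le d r ∧ y r ≠ 0 := by
  by_contra hne
  push Not at hne
  refine h ?_
  unfold ytr
  rw [Finset.sum_eq_zero, mul_zero]
  intro r hr
  rw [hne r (Finset.mem_filter.mp hr).2, zero_div]

end ISUP

theorem prf_SUP : C_SUP := by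
  intro S k a hS y
  refine ⟨fun N hN => ⟨fun d hd => ?_, fun d hd => ?_⟩, fun m hm => ⟨fun d hd => ?_, fun d hd => ?_⟩⟩
  · obtain ⟨r, h1, h2⟩ := ISUP.ex_lam a y d hd
    exact le_trans (by exact_mod_cast ISUP.le_nrm hS d r h1) (hN r h2)
  · obtain ⟨r, h1, h2⟩ := ISUP.ex_ytr a y d hd
    exact le_trans (by exact_mod_cast ISUP.le_nrm hS d r h1) (hN r h2)
  · obtain ⟨r, h1, h2⟩ := ISUP.ex_lam a y d hd
    exact ISUP.le_noc m d r h1 (hm r h2)
  · obtain ⟨r, h1, h2⟩ := ISUP.ex_ytr a y d hd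
    exact ISUP.le_noc m d r h1 (hm r h2)

end MPb51559.BG
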