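import Pool.Agent.Work.MP_b51559_nt.BG.C.Stmts

set_option autoImplicit false

/-! # Item SZ: size of the sieve weights -/

namespace MPb51559.BG

open Finset
open scoped Classical

section

variable {S : Finset ℕ} {k : ℕ}

theorem SZ_mono (f g : ℕ → ℝ) (h : ∀ p ∈ S, 0 ≤ f p ∧ f p ≤ g p) (r : Co S k) :
    mw f r ≤ mw g r := by
  refine Finset.prod_le_prod (fun p _ => ?_) fun p _ => ?_
  · split_ifs
    · exact zero_le_one
    · exact (h p p.2).1
  · split_ifs
    · exact le_refl _
    · exact (h p p.2).2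

theorem SZ_nonneg (f : ℕ → ℝ) (h : ∀ p ∈ S, 0 ≤ f p) (r : Co S k) : 0 ≤ mw f r := by
  refine Finset.prod_nonneg fun p _ => ?_
  split_ifs
  · exact zero_le_one
  · exact h p p.2

theorem SZ_div (f g : ℕ → ℝ) (r : Co S k) : mw f r / mw g r = mw (fun p => f p / g p) r := by
  rw [mw, mw, ← Finset.prod_div_distrib, mw]
  refine Finset.prod_congr rfl fun p _ => ?_
  split_ifs
  · exact div_one _
  · rfl

theorem SZ_one (r : Co S k) : mw (fun _ => (1 : ℝ)) r = 1 := by
  rw [mw]
  refine Finset.prod_eq_one fun p _ => ?_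
  split_ifs <;> rfl

theorem SZ_neg (r : Co S k) : |mw (fun _ => (-1 : ℝ)) r| = 1 := by
  rw [mw, Finset.abs_prod]
  refine Finset.prod_eq_one fun p _ => ?_
  split_ifs <;> simp

/-- the colours on the support of `d` are removed -/
noncomputable def SZ_rem (d r : Co S k) : Co S k := fun p => if d p = none then r p else none

theorem SZ_split (f : ℕ → ℝ) (d r : Co S k) (h : Le d r) :
    mw f r = mw f d * mw f (SZ_rem d r) := by
  rw [mw, mw, mw, ← Finset.prod_mul_distrib]
  refine Finset.prod_congr rfl fun p _ => ?_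
  by_cases h1 : d p = none
  · have h2 : SZ_rem d r p = r p := if_pos h1
    rw [if_pos h1, h2, one_mul]
  · have h2 : SZ_rem d r p = none := if_neg h1
    have h3 : d p = r p := (h p).resolve_left h1
    rw [h2, if_pos rfl, mul_one, ← h3]

theorem SZ_nrm (hS : ∀ p ∈ S, 1 ≤ p) (d r : Co S k) : nrm (SZ_rem d r) ≤ nrm r := by
  refine Finset.prod_le_prod (fun p _ => Nat.zero_le _) fun p _ => ?_
  by_cases h1 : d p = none
  · have h2 : SZ_rem d r p = r p := if_pos h1
    rw [h2]
  · have h2 : SZ_rem d r p = none := if_neg h1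
    rw [h2, if_pos rfl]
    split_ifs
    · exact le_refl _
    · exact hS p p.2

theorem SZ_inj (d r r' : Co S k) (h : Le d r) (h' : Le d r') (he : SZ_rem d r = SZ_rem d r') :
    r = r' := by
  funext p
  by_cases h1 : d p = none
  · have h2 : SZ_rem d r p = r p := if_pos h1
    have h3 : SZ_rem d r' p = r' p := if_pos h1
    rw [← h2, ← h3, he]
  · rw [← (h p).resolve_left h1, ← (h' p).resolve_left h1]

end

theorem prf_SZ (hTAU : C_TAU) : C_SZ := by
  intro S k hS a ha y M N hN hM hy hsupp d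
  have hS1 : ∀ p ∈ S, (3 : ℝ) < p := fun p hp => by exact_mod_cast (hS p hp).2
  have hS4 : ∀ p ∈ S, (4 : ℝ) ≤ p := fun p hp => by exact_mod_cast (hS p hp).2
  have ha3 : ∀ p ∈ S, (3 : ℝ) ≤ a p := by
    intro p hp
    have := hS4 p hp
    rcases ha with rfl | rfl
    · simp only [aP]; linarith
    · simp only [aF]; linarith
  have ha4 : ∀ p ∈ S, (p : ℝ) - 1 ≤ a p := by
    intro p hp
    rcases ha with rfl | rfl
    · simp only [aP]; linarith
    · simp only [aF]; linarith
  -- the divisor sum
  have hT := (hTAU S k 2 (fun p hp => (hS p hp).1) N hN).1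
  -- the sum over `r`
  have hsum : ∑ r ∈ univ.filter (fun r => Le d r ∧ nrm r ≤ N), 1 / mw (fun p => a p - 1) r
      ≤ (1 / mw (fun p => a p - 1) d) * (1 + Real.log N) ^ (2 * k) := by
    have h1 : ∑ r ∈ univ.filter (fun r => Le d r ∧ nrm r ≤ N), 1 / mw (fun p => a p - 1) r
        = (1 / mw (fun p => a p - 1) d) * ∑ r ∈ univ.filter (fun r => Le d r ∧ nrm r ≤ N),
          1 / mw (fun p => a p - 1) (SZ_rem d r) := by
      rw [Finset.mul_sum]
      refine Finset.sum_congr rfl fun r hr => ?_
      rw [SZ_split _ d r (Finset.mem_filter.mp hr).2.1, div_mul_div_comm, one_mul]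
    rw [h1]
    have hpos : 0 ≤ 1 / mw (fun p => a p - 1) d := by
      refine div_nonneg zero_le_one (SZ_nonneg _ (fun p hp => ?_) d)
      have := ha3 p hp
      linarith
    refine mul_le_mul_of_nonneg_left ?_ hpos
    refine le_trans ?_ hT
    have h2 : ∑ r ∈ univ.filter (fun r => Le d r ∧ nrm r ≤ N),
        1 / mw (fun p => a p - 1) (SZ_rem d r)
        = ∑ v ∈ (univ.filter (fun r => Le d r ∧ nrm r ≤ N)).image (SZ_rem d),
          1 / mw (fun p => a p - 1) v := by
      rw [Finset.sum_image]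
      intro r hr r' hr' he
      exact SZ_inj d r r' (Finset.mem_filter.mp hr).2.1 (Finset.mem_filter.mp hr').2.1 he
    rw [h2]
    have h3 : ∀ v : Co S k, 1 / mw (fun p => a p - 1) v ≤ mw (fun p => ((2 : ℕ) : ℝ) / p) v := by
      intro v
      have e0 := SZ_div (fun _ => (1 : ℝ)) (fun p => a p - 1) v
      rw [SZ_one] at e0
      rw [e0]
      refine SZ_mono _ _ (fun p hp => ?_) v
      have e1 := ha3 p hp
      have e2 := ha4 p hp
      have e3 := hS4 p hp
      refine ⟨div_nonneg zero_le_one (by linarith), ?_⟩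
      rw [div_le_div_iff₀ (by linarith) (by linarith)]
      push_cast
      linarith
    have h4 : ∀ v : Co S k, 0 ≤ mw (fun p => ((2 : ℕ) : ℝ) / p) v := fun v =>
      SZ_nonneg _ (fun p _ => by positivity) v
    refine (Finset.sum_le_sum fun v _ => h3 v).trans ?_
    refine Finset.sum_le_sum_of_subset_of_nonneg ?_ fun v _ _ => h4 v
    intro v hv
    obtain ⟨r, hr, rfl⟩ := Finset.mem_image.mp hv
    refine Finset.mem_filter.mpr ⟨Finset.mem_univ _, ?_⟩
    exact (SZ_nrm (fun p hp => (hS p hp).1.one_le) d r).trans (Finset.mem_filter.mp hr).2.2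
  -- the weight
  have hw : ∀ r : Co S k, 0 ≤ mw (fun p => a p - 1) r := fun r =>
    SZ_nonneg _ (fun p hp => by have := ha3 p hp; linarith) r
  have hA : 0 ≤ mw a d := SZ_nonneg _ (fun p hp => by have := ha3 p hp; linarith) d
  have habs : |∑ r ∈ univ.filter (fun r => Le d r), y r / mw (fun p => a p - 1) r|
      ≤ M * ∑ r ∈ univ.filter (fun r => Le d r ∧ nrm r ≤ N), 1 / mw (fun p => a p - 1) r := by
    refine (Finset.abs_sum_le_sum_abs _ _).trans ?_
    rw [Finset.mul_sum]
    have h1 : ∑ r ∈ univ.filter (fun r => Le d r), |y r / mw (fun p => a p - 1) r|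
        = ∑ r ∈ univ.filter (fun r => Le d r ∧ nrm r ≤ N),
          |y r / mw (fun p => a p - 1) r| := by
      symm
      refine Finset.sum_subset ?_ fun r hr hr' => ?_
      · intro r hr
        exact Finset.mem_filter.mpr ⟨Finset.mem_univ _, (Finset.mem_filter.mp hr).2.1⟩
      · have h2 : y r = 0 := by
          by_contra h3
          exact hr' (Finset.mem_filter.mpr ⟨Finset.mem_univ _, (Finset.mem_filter.mp hr).2,
            hsupp r h3⟩)
        rw [h2, zero_div, abs_zero]
    rw [h1]
    refine Finset.sum_le_sum fun r _ => ?_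
    rw [abs_div, abs_of_nonneg (hw r), mul_one_div]
    exact div_le_div_of_nonneg_right (hy r) (hw r)
  have hlog : 0 ≤ (1 + Real.log N) ^ (2 * k) := by
    have : (0 : ℝ) ≤ Real.log N := Real.log_natCast_nonneg N
    positivity
  have h2 : mw a d / mw (fun p => a p - 1) d ≤ mw (fun _ => (2 : ℝ)) d := by
    rw [SZ_div]
    refine SZ_mono _ _ (fun p hp => ?_) d
    have e1 := ha3 p hp
    refine ⟨div_nonneg (by linarith) (by linarith), ?_⟩
    rw [div_le_iff₀ (by linarith)]
    linarith
  rw [lam, abs_mul, abs_mul, SZ_neg, one_mul, abs_of_nonneg hA]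
  calc mw a d * |∑ r ∈ univ.filter (fun r => Le d r), y r / mw (fun p => a p - 1) r|
      ≤ mw a d * (M * ((1 / mw (fun p => a p - 1) d) * (1 + Real.log N) ^ (2 * k))) := by
        refine mul_le_mul_of_nonneg_left (habs.trans ?_) hA
        exact mul_le_mul_of_nonneg_left hsum hM
    _ = M * (mw a d / mw (fun p => a p - 1) d) * (1 + Real.log N) ^ (2 * k) := by ring
    _ ≤ M * mw (fun _ => 2) d * (1 + Real.log N) ^ (2 * k) := by
        exact mul_le_mul_of_nonneg_right (mul_le_mul_of_nonneg_left h2 hM) hlog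

end MPb51559.BG
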