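import Pool.Agent.Work.MP_b51559_nt.BG.C.Stmts

set_option autoImplicit false

/-!
# Part C: item TAU, divisor sums
-/

namespace MPb51559.BG

open Finset Filter Topology MeasureTheory
open scoped Classical

namespace TAUx

/-- sum of 1/n over n ≤ N all of whose prime factors are in the range of q -/
noncomputable def H {α : Type} (q : α → ℕ) (N : ℕ) : ℝ :=
  ∑ n ∈ (Icc 1 N).filter (fun n => ∀ p, p.Prime → p ∣ n → ∃ i, q i = p), 1 / (n : ℝ)

theorem H_nonneg {α : Type} (q : α → ℕ) (N : ℕ) : 0 ≤ H q N :=
  sum_nonneg fun n _ => by positivity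

theorem H_mono {α : Type} (q : α → ℕ) {M N : ℕ} (h : M ≤ N) : H q M ≤ H q N := by
  unfold H
  refine sum_le_sum_of_subset_of_nonneg ?_ fun n _ _ => by positivity
  intro n hn
  rw [mem_filter, mem_Icc] at hn ⊢
  exact ⟨⟨hn.1.1, hn.1.2.trans h⟩, hn.2⟩

theorem H_one {α : Type} (q : α → ℕ) {N : ℕ} (h : 1 ≤ N) : 1 ≤ H q N := by
  unfold H
  have h1 : (1 : ℕ) ∈ (Icc 1 N).filter (fun n => ∀ p, p.Prime → p ∣ n → ∃ i, q i = p) := by
    rw [mem_filter, mem_Icc]
    refine ⟨⟨le_rfl, h⟩, fun p hp hd => ?_⟩
    exact absurd (Nat.dvd_one.1 hd) hp.one_lt.ne'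
  have h2 := single_le_sum (f := fun n : ℕ => 1 / (n : ℝ)) (fun n _ => by positivity) h1
  simpa using h2

theorem H_le_log {α : Type} (q : α → ℕ) (N : ℕ) : H q N ≤ 1 + Real.log N := by
  refine le_trans ?_ (harmonic_le_one_add_log N)
  unfold H
  rw [harmonic_eq_sum_Icc]
  push_cast
  simp only [one_div]
  exact sum_le_sum_of_subset_of_nonneg (filter_subset _ _) fun n _ _ => by positivity

theorem H_option {α : Type} (q : Option α → ℕ) (hq : Function.Injective q)
    (hp : ∀ i, (q i).Prime) (N : ℕ) :
    H (fun i => q (some i)) N + 1 / (q none : ℝ) * H (fun i => q (some i)) (N / q none) ≤ H q N := by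
  set p := q none with hpd
  have hpp : p.Prime := hp none
  have hp0 : 0 < p := hpp.pos
  have e1 : 1 / (p : ℝ) * H (fun i => q (some i)) (N / p) =
      ∑ n ∈ ((Icc 1 (N / p)).filter (fun n => ∀ r, r.Prime → r ∣ n → ∃ i, q (some i) = r)).image
        (fun n => p * n), 1 / (n : ℝ) := by
    rw [sum_image (fun a _ b _ h => Nat.eq_of_mul_eq_mul_left hp0 h)]
    unfold H
    rw [mul_sum]
    refine sum_congr rfl fun n _ => ?_
    push_cast
    rw [one_div_mul_one_div]
  rw [e1]
  unfold H
  rw [← sum_union]
  · refine sum_le_sum_of_subset_of_nonneg ?_ fun n _ _ => by positivity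
    intro n hn
    rw [mem_union] at hn
    rw [mem_filter, mem_Icc]
    rcases hn with hn | hn
    · rw [mem_filter, mem_Icc] at hn
      refine ⟨hn.1, fun r hr hd => ?_⟩
      obtain ⟨i, hi⟩ := hn.2 r hr hd
      exact ⟨some i, hi⟩
    · obtain ⟨m, hm, rfl⟩ := mem_image.1 hn
      rw [mem_filter, mem_Icc] at hm
      refine ⟨⟨Nat.mul_pos hp0 hm.1.1, ?_⟩, fun r hr hd => ?_⟩
      · have := (Nat.le_div_iff_mul_le hp0).1 hm.1.2
        rwa [mul_comm] at this
      · rcases (Nat.Prime.dvd_mul hr).1 hd with h | h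
        · exact ⟨none, ((Nat.prime_dvd_prime_iff_eq hr hpp).1 h).symm⟩
        · obtain ⟨i, hi⟩ := hm.2 r hr h
          exact ⟨some i, hi⟩
  · rw [disjoint_left]
    intro n hn hn'
    obtain ⟨m, hm, rfl⟩ := mem_image.1 hn'
    rw [mem_filter] at hn
    obtain ⟨i, hi⟩ := hn.2 p hpp (Dvd.intro m rfl)
    have := hq (hi.trans hpd)
    exact Option.some_ne_none i this

theorem pow_ineq (a b x : ℝ) (hb : 0 ≤ b) (hab : b ≤ a) (hx : 0 ≤ x) (m : ℕ) :
    a ^ m + m * x * b ^ m ≤ (a + x * b) ^ m := by
  induction m with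
  | zero => simp
  | succ m ih =>
    have ha : 0 ≤ a := hb.trans hab
    have h0 : 0 ≤ a + x * b := by positivity
    have h1 : (a + x * b) * (a ^ m + m * x * b ^ m) ≤ (a + x * b) * (a + x * b) ^ m :=
      mul_le_mul_of_nonneg_left ih h0
    rw [pow_succ' (a + x * b)]
    refine le_trans ?_ h1
    push_cast
    have h2 : b ^ m ≤ a ^ m := pow_le_pow_left₀ hb hab m
    have h3 : 0 ≤ b ^ m := by positivity
    have h4 : (m : ℝ) * x * b ^ m * b ≤ a * (m * x * b ^ m) := by
      have : 0 ≤ (m : ℝ) * x * b ^ m := by positivity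
      nlinarith
    have h5 : x * b ^ m * b ≤ x * b * a ^ m := by
      have : 0 ≤ x * b := by positivity
      nlinarith
    have h6 : 0 ≤ x * b * (m * x * b ^ m) := by positivity
    calc a ^ (m + 1) + ((m : ℝ) + 1) * x * b ^ (m + 1)
        = a * a ^ m + (m : ℝ) * x * b ^ m * b + x * b ^ m * b := by ring
      _ ≤ a * a ^ m + a * (m * x * b ^ m) + x * b * a ^ m + x * b * (m * x * b ^ m) := by
          linarith
      _ = _ := by ring

/-- the sum over colourings -/
noncomputable def A (k c : ℕ) {α : Type} [Fintype α] [DecidableEq α] (q : α → ℕ) (N : ℕ) : ℝ :=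
  ∑ r : α → Option (Fin k), if (∏ i, if r i = none then 1 else q i) ≤ N then
    ∏ i, (if r i = none then (1 : ℝ) else (c : ℝ) / (q i : ℝ)) else 0

theorem A_option (k c : ℕ) {α : Type} [Fintype α] [DecidableEq α] [DecidableEq (Option α)]
    (q : Option α → ℕ) (hp : 0 < q none) (N : ℕ) :
    A k c q N = A k c (fun i => q (some i)) N +
      (k : ℝ) * ((c : ℝ) / (q none : ℝ)) * A k c (fun i => q (some i)) (N / q none) := by
  unfold A
  have e := Fintype.sum_equiv (Equiv.piOptionEquivProd (α := α) (β := fun _ => Option (Fin k)))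
    (fun r : Option α → Option (Fin k) => if (∏ i, if r i = none then 1 else q i) ≤ N then
      ∏ i, (if r i = none then (1 : ℝ) else (c : ℝ) / (q i : ℝ)) else 0)
    (fun x : Option (Fin k) × (α → Option (Fin k)) =>
      if ((if x.1 = none then 1 else q none) * ∏ i, if x.2 i = none then 1 else q (some i)) ≤ N then
      (if x.1 = none then (1 : ℝ) else (c : ℝ) / (q none : ℝ)) *
        ∏ i, (if x.2 i = none then (1 : ℝ) else (c : ℝ) / (q (some i) : ℝ)) else 0)
    (fun r => by
      simp only [Fintype.prod_option, Equiv.piOptionEquivProd_apply])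
  rw [e, Fintype.sum_prod_type, Fintype.sum_option]
  congr 1
  · refine sum_congr rfl fun r _ => ?_
    simp only [if_true, one_mul]
  · have key : ∀ x : Fin k, (∑ r : α → Option (Fin k),
        if ((if (some x : Option (Fin k)) = none then 1 else q none) *
          ∏ i, if r i = none then 1 else q (some i)) ≤ N then
        (if (some x : Option (Fin k)) = none then (1 : ℝ) else (c : ℝ) / (q none : ℝ)) *
          ∏ i, (if r i = none then (1 : ℝ) else (c : ℝ) / (q (some i) : ℝ)) else 0) =
        (c : ℝ) / (q none : ℝ) * ∑ r : α → Option (Fin k),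
          if (∏ i, if r i = none then 1 else q (some i)) ≤ N / q none then
          ∏ i, (if r i = none then (1 : ℝ) else (c : ℝ) / (q (some i) : ℝ)) else 0 := by
      intro x
      rw [mul_sum]
      refine sum_congr rfl fun r _ => ?_
      have h0 : ¬ ((some x : Option (Fin k)) = none) := Option.some_ne_none x
      rw [if_neg h0, if_neg h0]
      have h1 : (q none * ∏ i, (if r i = none then 1 else q (some i)) ≤ N) ↔
          ((∏ i, (if r i = none then 1 else q (some i))) ≤ N / q none) := by
        rw [Nat.le_div_iff_mul_le hp, mul_comm]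
      by_cases h : (∏ i, (if r i = none then 1 else q (some i))) ≤ N / q none
      · rw [if_pos h, if_pos (h1.2 h)]
      · rw [if_neg h, if_neg (fun h' => h (h1.1 h')), mul_zero]
    rw [sum_congr rfl fun x _ => key x, sum_const, card_univ, Fintype.card_fin, nsmul_eq_mul,
      mul_assoc]

theorem A_le (k c : ℕ) : ∀ (α : Type) [Fintype α], ∀ [DecidableEq α], ∀ q : α → ℕ,
    Function.Injective q → (∀ i, (q i).Prime) → ∀ N : ℕ, A k c q N ≤ H q N ^ (c * k) := by
  intro α hα
  refine Fintype.induction_empty_option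
    (P := fun (α : Type) [Fintype α] => ∀ [DecidableEq α], ∀ q : α → ℕ,
      Function.Injective q → (∀ i, (q i).Prime) → ∀ N : ℕ, A k c q N ≤ H q N ^ (c * k))
    ?_ ?_ ?_ α
  · intro α β _ e h _ q hq hp N
    let : Fintype α := Fintype.ofEquiv β e.symm
    have h1 := h (fun i => q (e i)) (hq.comp e.injective) (fun i => hp _) N
    have h2 : A k c q N = A k c (fun i => q (e i)) N := by
      unfold A
      symm
      refine Fintype.sum_equiv (Equiv.arrowCongr e (Equiv.refl _)) _ _ fun r => ?_
      have e1 : (∏ i, if (Equiv.arrowCongr e (Equiv.refl (Option (Fin k)))) r i = none then 1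
          else q i) = ∏ i, if r i = none then 1 else q (e i) := by
        symm
        refine Fintype.prod_equiv e _ _ fun i => ?_
        simp [Equiv.arrowCongr]
      have e2 : (∏ i, if (Equiv.arrowCongr e (Equiv.refl (Option (Fin k)))) r i = none then (1 : ℝ)
          else (c : ℝ) / (q i : ℝ)) = ∏ i, if r i = none then (1 : ℝ) else (c : ℝ) / (q (e i) : ℝ) := by
        symm
        refine Fintype.prod_equiv e _ _ fun i => ?_
        simp [Equiv.arrowCongr]
      rw [e1, e2]
    have h3 : H q N = H (fun i => q (e i)) N := by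
      unfold H
      congr 1
      refine filter_congr fun n _ => ?_
      refine forall_congr' fun p => forall_congr' fun _ => forall_congr' fun _ => ?_
      constructor
      · rintro ⟨i, hi⟩
        exact ⟨e.symm i, by simpa using hi⟩
      · rintro ⟨i, hi⟩
        exact ⟨e i, hi⟩
    rw [h2, h3]
    exact h1
  · intro _ q _ _ N
    unfold A
    rw [Fintype.sum_unique]
    simp only [univ_eq_empty, prod_empty]
    by_cases h : 1 ≤ N
    · rw [if_pos h]
      exact one_le_pow₀ (H_one q h)
    · rw [if_neg h]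
      exact pow_nonneg (H_nonneg q N) _
  · intro α _ ih _ q hq hp N
    have : DecidableEq α := Classical.decEq α
    have hp0 := (hp none).pos
    rw [A_option k c q hp0 N]
    have hinj : Function.Injective fun i => q (some i) :=
      hq.comp (Option.some_injective _)
    have i1 := ih (fun i => q (some i)) hinj (fun i => hp _) N
    have i2 := ih (fun i => q (some i)) hinj (fun i => hp _) (N / q none)
    have hqr : (0 : ℝ) < (q none : ℝ) := by exact_mod_cast hp0
    have hnn : 0 ≤ (k : ℝ) * ((c : ℝ) / (q none : ℝ)) := by positivity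
    calc _ ≤ H (fun i => q (some i)) N ^ (c * k) +
          (k : ℝ) * ((c : ℝ) / (q none : ℝ)) * H (fun i => q (some i)) (N / q none) ^ (c * k) :=
          add_le_add i1 (mul_le_mul_of_nonneg_left i2 hnn)
      _ = H (fun i => q (some i)) N ^ (c * k) +
          ((c * k : ℕ) : ℝ) * (1 / (q none : ℝ)) *
            H (fun i => q (some i)) (N / q none) ^ (c * k) := by
          push_cast
          ring
      _ ≤ (H (fun i => q (some i)) N +
          1 / (q none : ℝ) * H (fun i => q (some i)) (N / q none)) ^ (c * k) :=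
          pow_ineq _ _ _ (H_nonneg _ _) (H_mono _ (Nat.div_le_self _ _)) (by positivity) _
      _ ≤ H q N ^ (c * k) := by
          refine pow_le_pow_left₀ ?_ (H_option q hq hp N) _
          have := H_nonneg (fun i => q (some i)) N
          have := H_nonneg (fun i => q (some i)) (N / q none)
          positivity

end TAUx

open TAUx

theorem prf_TAU : C_TAU := by
  intro S k c hS N hN
  have h1 : ∑ r ∈ (univ : Finset (Co S k)).filter (fun r => nrm r ≤ N),
      mw (fun p => (c : ℝ) / p) r ≤ (1 + Real.log N) ^ (c * k) := by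
    rw [sum_filter]
    have h2 := A_le k c {p // p ∈ S} (fun p => (p : ℕ)) Subtype.val_injective
      (fun p => hS p p.2) N
    refine le_trans (le_of_eq ?_) (h2.trans (pow_le_pow_left₀ (H_nonneg _ _) (H_le_log _ _) _))
    unfold A
    refine sum_congr rfl fun r _ => ?_
    rfl
  refine ⟨h1, ?_⟩
  have hpos : ∀ p ∈ S, (0 : ℝ) < p := fun p hp => by exact_mod_cast (hS p hp).pos
  have h3 : ∀ r : Co S k, mw (fun _ => (c : ℝ)) r = (nrm r : ℝ) * mw (fun p => (c : ℝ) / p) r := by
    intro r
    unfold mw nrm
    push_cast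
    rw [← prod_mul_distrib]
    refine prod_congr rfl fun p _ => ?_
    split_ifs with h
    · simp
    · have := hpos p p.2
      field_simp
  calc _ ≤ ∑ r ∈ (univ : Finset (Co S k)).filter (fun r => nrm r ≤ N),
        (N : ℝ) * mw (fun p => (c : ℝ) / p) r := by
        refine sum_le_sum fun r hr => ?_
        rw [mem_filter] at hr
        rw [h3]
        refine mul_le_mul_of_nonneg_right (by exact_mod_cast hr.2) ?_
        unfold mw
        refine prod_nonneg fun p _ => ?_
        split_ifs
        · exact zero_le_one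
        · have := hpos p p.2
          positivity
    _ = N * ∑ r ∈ (univ : Finset (Co S k)).filter (fun r => nrm r ≤ N),
        mw (fun p => (c : ℝ) / p) r := by rw [mul_sum]
    _ ≤ _ := mul_le_mul_of_nonneg_left h1 (Nat.cast_nonneg N)

end MPb51559.BG
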