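import Pool.Agent.Work.MP_b51559_nt.BG.C.Stmts

set_option autoImplicit false

/-! # Part C, item TMS: the prime weight over a progression -/

namespace MPb51559.BG

open Finset
open scoped Classical

theorem prf_TMS : C_TMS := by
  intro w hw k h
  refine ⟨(∑ m, (h m : ℝ)) + 1, fun x hx m q a _ => ?_⟩
  have hh : (h m : ℝ) ≤ ∑ m, (h m : ℝ) :=
    Finset.single_le_sum (f := fun m => (h m : ℝ)) (fun i _ => Nat.cast_nonneg _) (mem_univ m)
  have h0 : (0 : ℝ) ≤ (h m : ℝ) := Nat.cast_nonneg _
  have hx0 : 0 < x := by linarith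
  -- the support of the weight
  have hsupp : ∀ p : ℕ, w ((p : ℝ) / x) ≠ 0 → h m ≤ p ∧ p < ⌊2 * x⌋₊ + 1 := by
    intro p hp
    obtain ⟨h1, h2⟩ := hw.supp _ hp
    rw [lt_div_iff₀ hx0] at h1
    rw [div_lt_iff₀ hx0] at h2
    constructor
    · have h3 : (h m : ℝ) ≤ (p : ℝ) := by linarith
      exact_mod_cast h3
    · rw [Nat.lt_succ_iff]
      apply Nat.le_floor
      linarith
  unfold thW
  have hcast : ∀ n : ℕ, ((n : ℝ) + (h m : ℝ)) = ((n + h m : ℕ) : ℝ) := fun n => by push_cast; ring
  refine Finset.sum_bij_ne_zero (fun n _ _ => n + h m) ?_ ?_ ?_ ?_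
  · intro n hn hne
    unfold tm at hne
    have hp : (n + h m).Prime := by
      by_contra hc
      exact hne (if_neg hc)
    rw [if_pos hp, hcast] at hne
    have h3 := (hsupp _ (right_ne_zero_of_mul hne)).2
    rw [mem_filter] at hn
    rw [mem_filter, mem_range]
    refine ⟨h3, hp, ?_⟩
    rw [Nat.cast_add, Nat.cast_add, (ZMod.natCast_eq_natCast_iff n a q).2 hn.2]
  · intro n _ _ n' _ _ he
    exact Nat.add_right_cancel he
  · intro p hp hne
    rw [mem_filter, mem_range] at hp
    obtain ⟨h3, h4⟩ := hsupp p (right_ne_zero_of_mul hne)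
    have h5 : p - h m + h m = p := Nat.sub_add_cancel h3
    refine ⟨p - h m, ?_, ?_, h5⟩
    · rw [mem_filter, mem_range]
      refine ⟨by omega, ?_⟩
      rw [← ZMod.natCast_eq_natCast_iff]
      have h6 := hp.2.2
      rw [← h5, Nat.cast_add, Nat.cast_add] at h6
      exact add_right_cancel h6
    · unfold tm
      rw [h5, if_pos hp.2.1, hcast, h5]
      exact hne
  · intro n hn hne
    unfold tm at hne ⊢
    have hp : (n + h m).Prime := by
      by_contra hc
      exact hne (if_neg hc)
    rw [if_pos hp, hcast]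

end MPb51559.BG
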