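import Pool.Agent.Work.MP_b51559_nt.BG.C.Stmts

set_option autoImplicit false

/-!
# Part C: item TOT, total masses
-/

namespace MPb51559.BG

open Finset Filter Topology MeasureTheory
open scoped Classical

namespace ITOT

theorem tot_prod {ι : Type} (s : Finset ι) (f : ι → ℕ) (h : Squarefree (∏ i ∈ s, f i)) :
    (∏ i ∈ s, f i).totient = ∏ i ∈ s, (f i).totient := by
  induction s using Finset.induction_on with
  | empty => simp
  | insert a s ha ih =>
    rw [prod_insert ha] at h
    rw [prod_insert ha, prod_insert ha, Nat.totient_mul (Nat.coprime_of_squarefree_mul h),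
      ih h.of_mul_right]

variable {S : Finset ℕ} {k : ℕ}

theorem dvd_prt (hS : ∀ p ∈ S, p.Prime) (i : Fin k) (r : Co S k) (p : {p // p ∈ S}) :
    (p : ℕ) ∣ prt i r ↔ r p = some i := by
  unfold prt
  constructor
  · intro h
    obtain ⟨q, _, hq⟩ := (Prime.dvd_finset_prod_iff (hS p p.2).prime _).1 h
    by_cases h1 : r q = some i
    · rw [if_pos h1] at hq
      have h2 : (p : ℕ) = q := (Nat.prime_dvd_prime_iff_eq (hS p p.2) (hS q q.2)).1 hq
      have h3 : p = q := Subtype.ext h2
      rw [h3]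
      exact h1
    · rw [if_neg h1] at hq
      exact absurd (Nat.dvd_one.1 hq) (hS p p.2).one_lt.ne'
  · intro h
    have h1 : (p : ℕ) = if r p = some i then (p : ℕ) else 1 := by rw [if_pos h]
    calc (p : ℕ) = if r p = some i then (p : ℕ) else 1 := h1
      _ ∣ _ := Finset.dvd_prod_of_mem (fun q : {p // p ∈ S} => if r q = some i then (q : ℕ) else 1)
        (mem_univ p)

theorem prt_inj (hS : ∀ p ∈ S, p.Prime) {r r' : Co S k} (h : ∀ i, prt i r = prt i r') : r = r' := by
  funext p
  have h1 : ∀ i, r p = some i ↔ r' p = some i := by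
    intro i
    rw [← dvd_prt hS, ← dvd_prt hS, h i]
  rcases hr : r p with _ | i
  · rcases hr' : r' p with _ | j
    · rfl
    · have := (h1 j).2 hr'
      rw [hr] at this
      exact absurd this (by simp)
  · exact ((h1 i).1 hr).symm

theorem mw_aF (hB : C_BAS) (hS : ∀ p ∈ S, p.Prime) (r : Co S k) :
    mw aF r = ∏ i, ((prt i r).totient : ℝ) := by
  obtain ⟨h1, -, -, -, h5, -, h7, -⟩ := hB S k hS r
  rw [h5, h7]
  rw [h7] at h1
  rw [tot_prod _ _ h1]
  push_cast
  rfl

theorem bound (hB : C_BAS) (hS : ∀ p ∈ S, p.Prime) (A : Fin k → Finset ℕ)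
    (T : Finset (Co S k)) (hT : ∀ r ∈ T, ∀ i, prt i r ∈ A i) :
    ∑ r ∈ T, 1 / mw aF r ≤ ∏ i, ∑ a ∈ A i, 1 / (a.totient : ℝ) := by
  rw [Finset.prod_univ_sum]
  have h1 : ∑ r ∈ T, 1 / mw aF r =
      ∑ a ∈ T.image (fun r i => prt i r), ∏ i, 1 / ((a i).totient : ℝ) := by
    rw [Finset.sum_image]
    · refine Finset.sum_congr rfl fun r _ => ?_
      rw [mw_aF hB hS, Finset.prod_div_distrib, Finset.prod_const_one]
    · intro r _ r' _ h
      exact prt_inj hS fun i => congrFun h i
  rw [h1]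
  refine Finset.sum_le_sum_of_subset_of_nonneg ?_ ?_
  · intro a ha
    obtain ⟨r, hr, rfl⟩ := Finset.mem_image.1 ha
    exact Fintype.mem_piFinset.2 fun i => hT r hr i
  · intro a _ _
    exact Finset.prod_nonneg fun i _ => by positivity

theorem mem_SqF (hB : C_BAS) (hS : ∀ p ∈ S, p.Prime) (r : Co S k) (z : ℝ)
    (hz : (nrm r : ℝ) ≤ z) (i : Fin k) : prt i r ∈ SqF S z := by
  obtain ⟨h1, h2, h3, -, -, -, -, h8, -⟩ := hB S k hS r
  unfold SqF
  rw [Finset.mem_filter, Finset.mem_Icc]
  refine ⟨⟨(h8 i).1, ?_⟩, h1.squarefree_of_dvd (h8 i).2, fun p hp hd => ?_⟩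
  · refine Nat.le_floor ?_
    refine le_trans ?_ hz
    exact_mod_cast Nat.le_of_dvd h2 (h8 i).2
  · exact ((h3 p hp).1 (hd.trans (h8 i).2)).1

theorem Hs_nonneg (S : Finset ℕ) (z : ℝ) : 0 ≤ Hs S z :=
  Finset.sum_nonneg fun n _ => by positivity

theorem prt_one (hB : C_BAS) (hS : ∀ p ∈ S, p.Prime) (m : Fin k) (r : Co S k) (h : NoC m r) :
    prt m r = 1 := by
  unfold prt
  refine Finset.prod_eq_one fun p _ => ?_
  rw [if_neg (h p)]

end ITOT

theorem prf_TOT (hB : C_BAS) (hO : C_ONE) : C_TOT := by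
  intro k D0 hD
  have hk : 0 < kap D0 := by
    unfold kap
    have h1 : 0 < primorial D0 := primorial_pos D0
    have h2 : 0 < (primorial D0).totient := Nat.totient_pos.2 h1
    positivity
  obtain ⟨x0, hx0⟩ := hO D0 hD (kap D0 / 2) (by positivity)
  refine ⟨max x0 1, fun x hx => ?_⟩
  have hxa : x0 ≤ x := le_trans (le_max_left _ _) hx
  have hxb : 1 ≤ x := le_trans (le_max_right _ _) hx
  have hz : 1 ≤ Real.sqrt x := by
    rw [Real.one_le_sqrt]
    exact hxb
  have h1 := hx0 x hxa (Real.sqrt x) hz le_rfl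
  rw [Real.log_sqrt (by linarith)] at h1
  have hH : Hs (Sx D0 x) (Real.sqrt x) ≤ kl D0 x := by
    have h2 := (abs_le.1 h1).2
    unfold kl
    linarith
  have hS : ∀ p ∈ Sx D0 x, p.Prime := by
    intro p hp
    unfold Sx at hp
    exact (Finset.mem_filter.1 hp).2.1
  have h0 := ITOT.Hs_nonneg (Sx D0 x) (Real.sqrt x)
  refine ⟨hH, ?_, ?_⟩
  · refine le_trans (ITOT.bound hB hS (fun _ => SqF (Sx D0 x) (Real.sqrt x)) _ ?_) ?_
    · intro r hr i
      exact ITOT.mem_SqF hB hS r _ (Finset.mem_filter.1 hr).2 i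
    · rw [Finset.prod_const, Finset.card_univ, Fintype.card_fin]
      exact pow_le_pow_left₀ h0 hH k
  · intro m
    refine le_trans (ITOT.bound hB hS
      (fun i => if i = m then {1} else SqF (Sx D0 x) (Real.sqrt x)) _ ?_) ?_
    · intro r hr i
      have hr2 := (Finset.mem_filter.1 hr).2
      by_cases hi : i = m
      · simp only [hi, if_true]
        rw [Finset.mem_singleton]
        exact ITOT.prt_one hB hS m r hr2.1
      · simp only [hi, if_false]
        exact ITOT.mem_SqF hB hS r _ hr2.2 i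
    · rw [← Finset.mul_prod_erase Finset.univ _ (Finset.mem_univ m)]
      simp only [if_true]
      have e1 : ∑ a ∈ ({1} : Finset ℕ), 1 / (a.totient : ℝ) = 1 := by simp
      rw [e1, one_mul]
      have e2 : ∏ i ∈ Finset.univ.erase m, ∑ a ∈ (if i = m then {1} else
          SqF (Sx D0 x) (Real.sqrt x)), 1 / (a.totient : ℝ) =
          ∏ i ∈ (Finset.univ : Finset (Fin k)).erase m, Hs (Sx D0 x) (Real.sqrt x) := by
        refine Finset.prod_congr rfl fun i hi => ?_
        rw [if_neg (Finset.ne_of_mem_erase hi)]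
        rfl
      rw [e2, Finset.prod_const, Finset.card_erase_of_mem (Finset.mem_univ m), Finset.card_univ,
        Fintype.card_fin]
      exact pow_le_pow_left₀ h0 hH _

end MPb51559.BG
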