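import Pool.Agent.Work.MP_b51559_nt.BG.C.Stmts

set_option autoImplicit false

/-!
# Part C, item TUP: colourings and tuples of pairwise coprime numbers
-/

namespace MPb51559.BG

open Finset Filter Topology MeasureTheory
open scoped Classical

theorem TUP_dvd {S : Finset ℕ} {k : ℕ} (hS : ∀ p ∈ S, p.Prime) (r : Co S k) (i : Fin k) (q : ℕ)
    (hq : q.Prime) : q ∣ prt i r ↔ ∃ h : q ∈ S, r ⟨q, h⟩ = some i := by
  unfold prt
  rw [hq.prime.dvd_finsetProd_iff]
  constructor
  · rintro ⟨⟨p, hp⟩, -, hdiv⟩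
    split_ifs at hdiv with h
    · have h2 : q = p := (Nat.prime_dvd_prime_iff_eq hq (hS p hp)).mp hdiv
      subst h2
      exact ⟨hp, h⟩
    · exact absurd (Nat.dvd_one.mp hdiv) hq.ne_one
  · rintro ⟨h, hr⟩
    exact ⟨⟨q, h⟩, mem_univ _, by rw [if_pos hr]⟩

theorem TUP_cop {S : Finset ℕ} {k : ℕ} (hS : ∀ p ∈ S, p.Prime) (r : Co S k) (i j : Fin k)
    (hij : i ≠ j) : (prt i r).Coprime (prt j r) := by
  apply Nat.coprime_of_dvd
  intro q hq h1 h2
  rw [TUP_dvd hS r i q hq] at h1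
  rw [TUP_dvd hS r j q hq] at h2
  obtain ⟨h, e1⟩ := h1
  obtain ⟨h', e2⟩ := h2
  rw [e1] at e2
  exact hij (Option.some.inj e2)

theorem TUP_tot (hB : C_BAS) {S : Finset ℕ} {k : ℕ} (hS : ∀ p ∈ S, p.Prime) (r : Co S k) :
    mw aF r = ∏ i, ((prt i r).totient : ℝ) := by
  obtain ⟨-, -, -, -, h1, -, h2, -⟩ := hB S k hS r
  have key : ∀ s : Finset (Fin k), (∏ i ∈ s, prt i r).totient = ∏ i ∈ s, (prt i r).totient := by
    intro s
    induction s using Finset.induction_on with
    | empty => simp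
    | insert i s hi ih =>
      rw [Finset.prod_insert hi, Finset.prod_insert hi, Nat.totient_mul, ih]
      apply Nat.Coprime.prod_right
      intro j hj
      apply TUP_cop hS
      rintro rfl
      exact hi hj
  rw [h1, h2, key univ]
  push_cast
  rfl

theorem TUP_mem {S : Finset ℕ} {z : ℝ} {n : ℕ} : n ∈ SqF S z ↔
    (1 ≤ n ∧ n ≤ ⌊z⌋₊) ∧ Squarefree n ∧ ∀ p, p.Prime → p ∣ n → p ∈ S := by
  unfold SqF
  rw [mem_filter, mem_Icc]

/-- the squarefree numbers divisible by `p` -/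
theorem TUP_Ap (S : Finset ℕ) (z : ℝ) (p : ℕ) (hp : p.Prime) :
    ∑ n ∈ SqF S z, (if p ∣ n then 1 / (n.totient : ℝ) else 0) ≤
      1 / ((p : ℝ) - 1) * Hs S z := by
  have hp0 : 0 < p := hp.pos
  have hp1 : (0 : ℝ) < (p : ℝ) - 1 := by
    have : (1 : ℝ) < p := by exact_mod_cast hp.one_lt
    linarith
  rw [← Finset.sum_filter]
  have e1 : ∀ n ∈ (SqF S z).filter (fun n => p ∣ n), 1 / (n.totient : ℝ) =
      1 / ((p : ℝ) - 1) * (1 / ((n / p).totient : ℝ)) := by
    intro n hn
    rw [mem_filter, TUP_mem] at hn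
    obtain ⟨⟨⟨hn1, hn2⟩, hsq, hS⟩, ⟨m, hm⟩⟩ := hn
    subst hm
    have hc : p.Coprime m := Nat.coprime_of_squarefree_mul hsq
    rw [Nat.mul_div_cancel_left _ hp0, Nat.totient_mul hc, Nat.totient_prime hp, Nat.cast_mul,
      Nat.cast_pred hp0]
    rw [one_div_mul_one_div]
  rw [Finset.sum_congr rfl e1, ← Finset.mul_sum]
  apply mul_le_mul_of_nonneg_left _ (by positivity)
  have hinj : Set.InjOn (fun n => n / p) ((SqF S z).filter (fun n => p ∣ n) : Set ℕ) := by
    intro a ha b hb hab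
    rw [Finset.mem_coe, mem_filter] at ha hb
    obtain ⟨a', rfl⟩ := ha.2
    obtain ⟨b', rfl⟩ := hb.2
    simp only [Nat.mul_div_cancel_left _ hp0] at hab
    rw [hab]
  rw [← Finset.sum_image (f := fun m : ℕ => 1 / (m.totient : ℝ)) hinj]
  unfold Hs
  apply Finset.sum_le_sum_of_subset_of_nonneg
  · intro m hm
    rw [mem_image] at hm
    obtain ⟨n, hn, rfl⟩ := hm
    rw [mem_filter, TUP_mem] at hn
    obtain ⟨⟨⟨hn1, hn2⟩, hsq, hS⟩, ⟨m, hm⟩⟩ := hn
    subst hm
    rw [Nat.mul_div_cancel_left _ hp0, TUP_mem]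
    refine ⟨⟨?_, ?_⟩, ?_, ?_⟩
    · rcases Nat.eq_zero_or_pos m with h | h
      · subst h
        simp at hn1
      · exact h
    · exact le_trans (Nat.le_mul_of_pos_left m hp0) hn2
    · exact hsq.of_mul_right
    · intro q hq hqm
      exact hS q hq (hqm.mul_left p)
  · intro m _ _
    positivity

/-- the tuples with a common prime in two given places -/
theorem TUP_two (S : Finset ℕ) (k : ℕ) (z : ℝ) (p : ℕ) (hp : p.Prime) (i j : Fin k) :
    ∑ a ∈ Fintype.piFinset (fun _ : Fin k => SqF S z),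
      (∏ l, 1 / ((a l).totient : ℝ)) * (if i ≠ j ∧ p ∣ a i ∧ p ∣ a j then (1 : ℝ) else 0) ≤
      1 / ((p : ℝ) - 1) ^ 2 * Hs S z ^ k := by
  have hp1 : (0 : ℝ) < (p : ℝ) - 1 := by
    have : (1 : ℝ) < p := by exact_mod_cast hp.one_lt
    linarith
  have hH : 0 ≤ Hs S z := by
    unfold Hs
    apply Finset.sum_nonneg
    intro n _
    positivity
  by_cases hij : i = j
  · subst hij
    have h0 : ∑ a ∈ Fintype.piFinset (fun _ : Fin k => SqF S z),
        (∏ l, 1 / ((a l).totient : ℝ)) * (if i ≠ i ∧ p ∣ a i ∧ p ∣ a i then (1 : ℝ) else 0) = 0 := by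
      apply Finset.sum_eq_zero
      intro a _
      simp
    rw [h0]
    positivity
  · set F : Fin k → ℕ → ℝ := fun l n => if l ∈ ({i, j} : Finset (Fin k)) then
      (if p ∣ n then 1 / (n.totient : ℝ) else 0) else 1 / (n.totient : ℝ) with hF
    have hF0 : ∀ l n, 0 ≤ F l n := by
      intro l n
      simp only [hF]
      split_ifs <;> positivity
    have h1 : ∀ a ∈ Fintype.piFinset (fun _ : Fin k => SqF S z),
        (∏ l, 1 / ((a l).totient : ℝ)) * (if i ≠ j ∧ p ∣ a i ∧ p ∣ a j then (1 : ℝ) else 0) ≤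
        ∏ l, F l (a l) := by
      intro a _
      by_cases hc : i ≠ j ∧ p ∣ a i ∧ p ∣ a j
      · rw [if_pos hc, mul_one]
        apply le_of_eq
        apply Finset.prod_congr rfl
        intro l _
        simp only [hF]
        by_cases hl : l ∈ ({i, j} : Finset (Fin k))
        · rw [if_pos hl]
          rw [mem_insert, mem_singleton] at hl
          rcases hl with rfl | rfl
          · rw [if_pos hc.2.1]
          · rw [if_pos hc.2.2]
        · rw [if_neg hl]
      · rw [if_neg hc, mul_zero]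
        exact Finset.prod_nonneg (fun l _ => hF0 _ _)
    refine le_trans (Finset.sum_le_sum h1) ?_
    rw [← Finset.prod_univ_sum (fun _ : Fin k => SqF S z) F]
    have h2 : ∀ l ∈ (univ : Finset (Fin k)), ∑ n ∈ SqF S z, F l n ≤
        (if l ∈ ({i, j} : Finset (Fin k)) then 1 / ((p : ℝ) - 1) else 1) * Hs S z := by
      intro l _
      by_cases hl : l ∈ ({i, j} : Finset (Fin k))
      · simp only [hF, if_pos hl]
        exact TUP_Ap S z p hp
      · simp only [hF, if_neg hl, one_mul]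
        exact le_refl _
    refine le_trans (Finset.prod_le_prod (fun l _ => Finset.sum_nonneg (fun n _ => hF0 l n)) h2) ?_
    rw [Finset.prod_mul_distrib, Finset.prod_const, Finset.card_univ, Fintype.card_fin,
      Fintype.prod_ite_mem, Finset.prod_pair hij]
    apply le_of_eq
    rw [one_div_mul_one_div, sq]

theorem prf_TUP (hB : C_BAS) : C_TUP := by
  intro S k hS z M f hz hf
  have hM : 0 ≤ M := le_trans (abs_nonneg _) (hf (fun _ => 0))
  set Q := Fintype.piFinset (fun _ : Fin k => SqF S z) with hQ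
  set w : (Fin k → ℕ) → ℝ := fun a => ∏ l, 1 / ((a l).totient : ℝ) with hw
  have hw0 : ∀ a, 0 ≤ w a := by
    intro a
    exact Finset.prod_nonneg (fun l _ => by positivity)
  set Cp : (Fin k → ℕ) → Prop := fun a => ∀ i j, i ≠ j → (a i).Coprime (a j) with hCp
  have hH : 0 ≤ Hs S z := by
    unfold Hs
    apply Finset.sum_nonneg
    intro n _
    positivity
  have h1 : ∑ r ∈ univ.filter (fun r : Co S k => ∀ i, (prt i r : ℝ) ≤ z),
      f (fun i => prt i r) / mw aF r = ∑ a ∈ Q.filter Cp, f a * w a := by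
    apply Finset.sum_nbij (fun r i => prt i r)
    · intro r hr
      rw [mem_filter] at hr
      rw [mem_filter]
      obtain ⟨b1, -, b3, -, -, -, -, b8, -⟩ := hB S k hS r
      refine ⟨?_, fun i j hij => TUP_cop hS r i j hij⟩
      rw [hQ, Fintype.mem_piFinset]
      intro i
      rw [TUP_mem]
      refine ⟨⟨(b8 i).1, Nat.le_floor (hr.2 i)⟩, Squarefree.squarefree_of_dvd (b8 i).2 b1, ?_⟩
      intro p hp hpd
      obtain ⟨h, -⟩ := (b3 p hp).mp (hpd.trans (b8 i).2)
      exact h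
    · intro r _ r' _ h
      funext p
      have hq := hS p.1 p.2
      have h2 : ∀ i, r p = some i ↔ r' p = some i := by
        intro i
        have e := congrFun h i
        simp only at e
        have d1 := TUP_dvd hS r i p.1 hq
        have d2 := TUP_dvd hS r' i p.1 hq
        rw [e] at d1
        rw [d1] at d2
        constructor
        · intro h3
          exact (d2.mp ⟨p.2, h3⟩).2
        · intro h3
          exact (d2.mpr ⟨p.2, h3⟩).2
      rcases hc : r p with _ | i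
      · rcases hc' : r' p with _ | j
        · rfl
        · have := (h2 j).mpr hc'
          rw [hc] at this
          exact this
      · exact ((h2 i).mp hc).symm
    · intro a ha
      rw [Finset.mem_coe, mem_filter, hQ, Fintype.mem_piFinset] at ha
      obtain ⟨ha1, ha2⟩ := ha
      have hex : ∃ r : Co S k, ∀ (p : {p // p ∈ S}) (i : Fin k), r p = some i ↔ (p : ℕ) ∣ a i := by
        have : ∀ p : {p // p ∈ S}, ∃ c : Option (Fin k), ∀ i : Fin k, c = some i ↔ (p : ℕ) ∣ a i := by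
          intro p
          by_cases h : ∃ i, (p : ℕ) ∣ a i
          · obtain ⟨i, hi⟩ := h
            refine ⟨some i, fun j => ⟨fun h => ?_, fun h => ?_⟩⟩
            · rw [← Option.some.inj h]
              exact hi
            · by_contra hne
              have hne' : i ≠ j := fun h' => hne (by rw [h'])
              have := ha2 i j hne'
              exact Nat.not_coprime_of_dvd_of_dvd (hS p.1 p.2).one_lt hi h this
          · refine ⟨none, fun j => ⟨fun h => by simp at h, fun h' => absurd ⟨j, h'⟩ h⟩⟩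
        choose r hr using this
        exact ⟨r, hr⟩
      obtain ⟨r, hr⟩ := hex
      have hprt : ∀ i, prt i r = a i := by
        intro i
        obtain ⟨b1, -, -, -, -, -, -, b8, -⟩ := hB S k hS r
        have c1 := (TUP_mem.mp (ha1 i)).2
        rw [Nat.Squarefree.ext_iff (Squarefree.squarefree_of_dvd (b8 i).2 b1) c1.1]
        intro q hq
        rw [TUP_dvd hS r i q hq]
        constructor
        · rintro ⟨h, e⟩
          exact (hr ⟨q, h⟩ i).mp e
        · intro h
          exact ⟨c1.2 q hq h, (hr ⟨q, c1.2 q hq h⟩ i).mpr h⟩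
      refine ⟨r, ?_, funext hprt⟩
      rw [Finset.mem_coe, mem_filter]
      refine ⟨mem_univ _, fun i => ?_⟩
      rw [hprt i]
      have c1 := (TUP_mem.mp (ha1 i)).1.2
      exact le_trans (by exact_mod_cast c1) (Nat.floor_le (by linarith))
    · intro r _
      rw [TUP_tot hB hS r, hw, div_eq_mul_inv]
      simp only [one_div]
      rw [Finset.prod_inv_distrib]
  have h2 : ∑ a ∈ Q, f a * w a = ∑ a ∈ Q.filter Cp, f a * w a +
      ∑ a ∈ Q.filter (fun a => ¬ Cp a), f a * w a :=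
    (Finset.sum_filter_add_sum_filter_not Q Cp _).symm
  rw [h1]
  show |∑ a ∈ Q.filter Cp, f a * w a - ∑ a ∈ Q, f a * w a| ≤ _
  rw [h2]
  have h3 : ∑ a ∈ Q.filter Cp, f a * w a - (∑ a ∈ Q.filter Cp, f a * w a +
      ∑ a ∈ Q.filter (fun a => ¬ Cp a), f a * w a) =
      -∑ a ∈ Q.filter (fun a => ¬ Cp a), f a * w a := by ring
  rw [h3, abs_neg]
  have h4 : ∀ a ∈ Q.filter (fun a => ¬ Cp a), |f a * w a| ≤
      M * ∑ i, ∑ j, ∑ p ∈ S, w a * (if i ≠ j ∧ p ∣ a i ∧ p ∣ a j then (1 : ℝ) else 0) := by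
    intro a ha
    rw [mem_filter, hQ, Fintype.mem_piFinset] at ha
    obtain ⟨ha1, ha2⟩ := ha
    rw [hCp] at ha2
    push Not at ha2
    obtain ⟨i, j, hij, hc⟩ := ha2
    obtain ⟨p, hp, hpi, hpj⟩ := Nat.Prime.not_coprime_iff_dvd.mp hc
    have hpS : p ∈ S := (TUP_mem.mp (ha1 i)).2.2 p hp hpi
    rw [abs_mul, abs_of_nonneg (hw0 a)]
    apply mul_le_mul (hf a) _ (hw0 a) hM
    have hnn : ∀ i j : Fin k, ∀ p : ℕ, 0 ≤ w a *
        (if i ≠ j ∧ p ∣ a i ∧ p ∣ a j then (1 : ℝ) else 0) := by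
      intro i j p
      apply mul_nonneg (hw0 a)
      split_ifs <;> norm_num
    calc w a = w a * (if i ≠ j ∧ p ∣ a i ∧ p ∣ a j then (1 : ℝ) else 0) := by
          rw [if_pos ⟨hij, hpi, hpj⟩, mul_one]
      _ ≤ ∑ p ∈ S, w a * (if i ≠ j ∧ p ∣ a i ∧ p ∣ a j then (1 : ℝ) else 0) :=
          Finset.single_le_sum (fun p _ => hnn i j p) hpS
      _ ≤ ∑ j, ∑ p ∈ S, w a * (if i ≠ j ∧ p ∣ a i ∧ p ∣ a j then (1 : ℝ) else 0) :=
          Finset.single_le_sum (f := fun j => ∑ p ∈ S, w a *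
            (if i ≠ j ∧ p ∣ a i ∧ p ∣ a j then (1 : ℝ) else 0))
            (fun j _ => Finset.sum_nonneg (fun p _ => hnn i j p)) (mem_univ j)
      _ ≤ _ :=
          Finset.single_le_sum (f := fun i => ∑ j, ∑ p ∈ S, w a *
            (if i ≠ j ∧ p ∣ a i ∧ p ∣ a j then (1 : ℝ) else 0))
            (fun i _ => Finset.sum_nonneg (fun j _ => Finset.sum_nonneg (fun p _ => hnn i j p)))
            (mem_univ i)
  have hnn2 : ∀ a, 0 ≤ M * ∑ i, ∑ j, ∑ p ∈ S, w a *
      (if i ≠ j ∧ p ∣ a i ∧ p ∣ a j then (1 : ℝ) else 0) := by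
    intro a
    apply mul_nonneg hM
    apply Finset.sum_nonneg
    intro i _
    apply Finset.sum_nonneg
    intro j _
    apply Finset.sum_nonneg
    intro p _
    apply mul_nonneg (hw0 a)
    split_ifs <;> norm_num
  calc |∑ a ∈ Q.filter (fun a => ¬ Cp a), f a * w a|
      ≤ ∑ a ∈ Q.filter (fun a => ¬ Cp a), |f a * w a| := Finset.abs_sum_le_sum_abs _ _
    _ ≤ ∑ a ∈ Q.filter (fun a => ¬ Cp a), M * ∑ i, ∑ j, ∑ p ∈ S, w a *
          (if i ≠ j ∧ p ∣ a i ∧ p ∣ a j then (1 : ℝ) else 0) := Finset.sum_le_sum h4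
    _ ≤ ∑ a ∈ Q, M * ∑ i, ∑ j, ∑ p ∈ S, w a *
          (if i ≠ j ∧ p ∣ a i ∧ p ∣ a j then (1 : ℝ) else 0) :=
        Finset.sum_le_sum_of_subset_of_nonneg (Finset.filter_subset _ _) (fun a _ _ => hnn2 a)
    _ = M * ∑ i, ∑ j, ∑ p ∈ S, ∑ a ∈ Q, w a *
          (if i ≠ j ∧ p ∣ a i ∧ p ∣ a j then (1 : ℝ) else 0) := by
        rw [← Finset.mul_sum, Finset.sum_comm]
        congr 1
        apply Finset.sum_congr rfl
        intro i _
        rw [Finset.sum_comm]
        apply Finset.sum_congr rfl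
        intro j _
        rw [Finset.sum_comm]
    _ ≤ M * ∑ i : Fin k, ∑ j : Fin k, ∑ p ∈ S, 1 / ((p : ℝ) - 1) ^ 2 * Hs S z ^ k := by
        apply mul_le_mul_of_nonneg_left _ hM
        apply Finset.sum_le_sum
        intro i _
        apply Finset.sum_le_sum
        intro j _
        apply Finset.sum_le_sum
        intro p hp
        exact TUP_two S k z p (hS p hp) i j
    _ = M * k ^ 2 * (∑ p ∈ S, 1 / ((p : ℝ) - 1) ^ 2) * Hs S z ^ k := by
        rw [← Finset.sum_mul]
        rw [Finset.sum_const, Finset.sum_const, Finset.card_univ, Fintype.card_fin, nsmul_eq_mul,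
          nsmul_eq_mul]
        ring

end MPb51559.BG
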