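import Pool.Agent.Work.MP_b51559_nt.BG.C.Stmts

set_option autoImplicit false

/-!
# Item UPB
-/

namespace MPb51559.BG

open Finset Filter Topology MeasureTheory
open scoped Classical

theorem UPB_wp_ge (w : ℝ → ℝ) {k : ℕ} (h : Fin k → ℕ) (x : ℝ) (n : ℕ) (m : Fin k) :
    w (((n : ℝ) + h m) / x) ≤ wp w h x n := by
  unfold wp
  exact le_ciSup (f := fun m : Fin k => w (((n : ℝ) + h m) / x)) (Set.finite_range _).bddAbove m

theorem UPB_tm_le (w : ℝ → ℝ) (hw : Wt w) {k : ℕ} (h : Fin k → ℕ) (x : ℝ) (hx : 1 ≤ x)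
    (m : Fin k) (n : ℕ) : tm w h x m n ≤ Real.log (2 * x) * wp w h x n := by
  have hlog : 0 ≤ Real.log (2 * x) := Real.log_nonneg (by linarith)
  have h1 := UPB_wp_ge w h x n m
  have h0 : 0 ≤ w (((n : ℝ) + h m) / x) := hw.nonneg _
  have hwp : 0 ≤ wp w h x n := h0.trans h1
  unfold tm
  split_ifs with hp
  · by_cases hz : w (((n : ℝ) + h m) / x) = 0
    · rw [hz, mul_zero]
      exact mul_nonneg hlog hwp
    · have h2 := (hw.supp _ hz).2
      have hx0 : 0 < x := by linarith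
      rw [div_lt_iff₀ hx0] at h2
      have h3 : (0 : ℝ) < (n : ℝ) + h m := by
        have := hp.pos
        exact_mod_cast this
      have h4 : Real.log ((n : ℝ) + h m) ≤ Real.log (2 * x) :=
        Real.log_le_log h3 (by linarith)
      exact mul_le_mul h4 h1 h0 hlog
  · exact mul_nonneg hlog hwp

theorem UPB_le (w : ℝ → ℝ) (hw : Wt w) {k : ℕ} (h : Fin k → ℕ) (x : ℝ) (hx : 1 ≤ x)
    (D0 v0 : ℕ) (m : Fin k) (l : Co (Sx D0 x) k → ℝ) :
    S2 w h D0 v0 x m l l ≤ Real.log (2 * x) * S1 w h D0 v0 x l l := by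
  unfold S2 S1
  rw [Finset.mul_sum]
  refine Finset.sum_le_sum fun n _ => ?_
  have h1 := mul_le_mul_of_nonneg_right (UPB_tm_le w hw h x hx m n) (mul_self_nonneg (Vn h l n))
  rw [mul_assoc (Real.log (2 * x))] at h1
  exact h1

theorem prf_UPB (hRS : C_RS) : C_UPB := by
  intro w hw k h
  refine ⟨1, fun x hx D0 v0 m l => ⟨UPB_le w hw h x hx D0 v0 m l, fun l' hl' => ?_⟩⟩
  have h1 := hRS w hw k h D0 v0 x hx m l' l'
  rw [hl'] at h1
  rw [← h1]
  exact UPB_le w hw h x hx D0 v0 m l'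

end MPb51559.BG
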