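import Pool.Agent.Work.MP_b51559_nt.BG.C.Stmts

set_option autoImplicit false

/-!
# Part C, item V0
-/

namespace MPb51559.BG

open Finset Filter Topology MeasureTheory
open scoped Classical

theorem prf_V0 : C_V0 := by
  intro k h hh D0
  have hc : ∀ p : ℕ, ∃ v : ℕ, p.Prime → ∀ i, ¬ p ∣ v + h i := by
    intro p
    by_cases hp : p.Prime
    · obtain ⟨v, hv⟩ := hh.2 p hp
      exact ⟨v, fun _ => hv⟩
    · exact ⟨0, fun h1 => absurd h1 hp⟩
  choose a ha using hc
  obtain ⟨v, hv⟩ := Nat.chineseRemainderOfFinset a (fun p => p)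
    ((range (D0 + 1)).filter (fun p => p.Prime))
    (fun p hp => (Finset.mem_filter.1 hp).2.ne_zero)
    (by
      intro p hp q hq hpq
      exact (Nat.coprime_primes (Finset.mem_filter.1 hp).2 (Finset.mem_filter.1 hq).2).2 hpq)
  refine ⟨v, fun i => ?_⟩
  rw [primorial]
  refine Nat.Coprime.prod_right fun p hp => ?_
  have hp' : p.Prime := (Finset.mem_filter.1 hp).2
  refine Nat.Coprime.symm ((Nat.Prime.coprime_iff_not_dvd hp').2 fun hd => ?_)
  have h1 : v ≡ a p [MOD p] := hv p (by simpa using hp)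
  exact ha p hp' i (((h1.add_right (h i)).dvd_iff dvd_rfl).1 hd)

end MPb51559.BG
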