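import Pool.Agent.Work.MP_b51559_nt.BG.C.Stmts

set_option autoImplicit false

/-!
# Part C, item VLR (helper79): the two inequalities for the coprime sums
-/

namespace MPb51559.BG

open Finset Filter Topology MeasureTheory
open scoped Classical

namespace VLRz

/-- comparison of sums by an injective map -/
theorem sum_le_inj {α β : Type} (s : Finset α) (t : Finset β) (i : α → β) (F : α → ℝ)
    (G : β → ℝ) (hi : ∀ a ∈ s, i a ∈ t) (hinj : ∀ a ∈ s, ∀ b ∈ s, i a = i b → a = b)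
    (hFG : ∀ a ∈ s, F a = G (i a)) (hG : ∀ b ∈ t, 0 ≤ G b) : ∑ a ∈ s, F a ≤ ∑ b ∈ t, G b := by
  rw [Finset.sum_congr rfl hFG, ← Finset.sum_image hinj]
  refine Finset.sum_le_sum_of_subset_of_nonneg ?_ fun b hb _ => hG b hb
  intro b hb
  obtain ⟨a, ha, rfl⟩ := Finset.mem_image.1 hb
  exact hi a ha

theorem one_le_prod {α : Type} (s : Finset α) (f : α → ℝ) (h : ∀ i ∈ s, 1 ≤ f i) :
    1 ≤ ∏ i ∈ s, f i :=
  Finset.prod_induction f (fun x => 1 ≤ x) (fun _ _ ha hb => one_le_mul_of_one_le_of_one_le ha hb)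
    le_rfl h

section abstract

variable {P : Type} [Fintype P] [DecidableEq P]

/-- the first inequality in terms of subsets -/
theorem absA (D : Finset P → Prop) (hD : ∀ A B : Finset P, A ⊆ B → D B → D A) (U : Finset P)
    (f : P → ℝ) (hf : ∀ p, 0 ≤ f p) :
    ∑ T ∈ (univ : Finset (Finset P)).filter D, ∏ p ∈ T, f p ≤
      (∏ p ∈ Uᶜ, (1 + f p)) * ∑ B ∈ U.powerset.filter D, ∏ p ∈ B, f p := by
  rw [Finset.prod_one_add, Finset.sum_mul_sum, ← Finset.sum_product']
  refine sum_le_inj _ _ (fun T => (T ∩ Uᶜ, T ∩ U)) _ _ ?_ ?_ ?_ ?_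
  · intro T hT
    rw [Finset.mem_filter] at hT
    rw [Finset.mem_product, Finset.mem_powerset, Finset.mem_filter, Finset.mem_powerset]
    exact ⟨Finset.inter_subset_right, Finset.inter_subset_right,
      hD _ _ Finset.inter_subset_left hT.2⟩
  · intro A _ B _ h
    have h1 : A ∩ Uᶜ = B ∩ Uᶜ := congrArg Prod.fst h
    have h2 : A ∩ U = B ∩ U := congrArg Prod.snd h
    ext p
    have h3 := Finset.ext_iff.1 h1 p
    have h4 := Finset.ext_iff.1 h2 p
    simp only [Finset.mem_inter, Finset.mem_compl] at h3 h4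
    tauto
  · intro T _
    have h1 : T = (T ∩ Uᶜ) ∪ (T ∩ U) := by
      ext p
      simp only [Finset.mem_union, Finset.mem_inter, Finset.mem_compl]
      tauto
    have h2 : Disjoint (T ∩ Uᶜ) (T ∩ U) := by
      rw [Finset.disjoint_left]
      intro p hp hp'
      simp only [Finset.mem_inter, Finset.mem_compl] at hp hp'
      exact hp.2 hp'.2
    change ∏ p ∈ T, f p = (∏ p ∈ T ∩ Uᶜ, f p) * ∏ p ∈ T ∩ U, f p
    rw [← Finset.prod_union h2, ← h1]
  · intro b _
    exact mul_nonneg (Finset.prod_nonneg fun p _ => hf p) (Finset.prod_nonneg fun p _ => hf p)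

/-- the second inequality in terms of subsets -/
theorem absB (D : Finset P → Prop) (hD : ∀ A B : Finset P, A ⊆ B → D B → D A) (U : Finset P)
    (f g : P → ℝ) (hf : ∀ p, 0 ≤ f p) (hg : ∀ p, 0 ≤ g p) :
    ∑ T ∈ U.powerset.filter D, (∏ p ∈ T, f p) * ∏ p ∈ T, (1 + g p) ≤
      (∏ p ∈ U, (1 + f p * g p)) * ∑ B ∈ U.powerset.filter D, ∏ p ∈ B, f p := by
  have h0 : ∑ T ∈ U.powerset.filter D, (∏ p ∈ T, f p) * ∏ p ∈ T, (1 + g p) =
      ∑ x ∈ (U.powerset.filter D).sigma (fun T => T.powerset),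
        (∏ p ∈ x.1, f p) * ∏ p ∈ x.2, g p := by
    rw [Finset.sum_sigma]
    refine Finset.sum_congr rfl fun T _ => ?_
    rw [Finset.prod_one_add, Finset.mul_sum]
  rw [h0, Finset.prod_one_add, Finset.sum_mul_sum, ← Finset.sum_product']
  refine sum_le_inj _ _ (fun x => (x.2, x.1 \ x.2)) _ _ ?_ ?_ ?_ ?_
  · rintro ⟨T, L⟩ hx
    rw [Finset.mem_sigma, Finset.mem_filter, Finset.mem_powerset, Finset.mem_powerset] at hx
    obtain ⟨⟨h1, h2⟩, h3⟩ := hx
    rw [Finset.mem_product, Finset.mem_powerset, Finset.mem_filter, Finset.mem_powerset]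
    exact ⟨h3.trans h1, Finset.sdiff_subset.trans h1, hD _ _ Finset.sdiff_subset h2⟩
  · rintro ⟨T, L⟩ hx ⟨T', L'⟩ hx' h
    rw [Finset.mem_sigma, Finset.mem_powerset] at hx hx'
    have h1 : L = L' := congrArg Prod.fst h
    have h2 : T \ L = T' \ L' := congrArg Prod.snd h
    subst h1
    have h5 : L ⊆ T := hx.2
    have h6 : L ⊆ T' := hx'.2
    have h3 : T = T' := by
      rw [← Finset.sdiff_union_of_subset h5, ← Finset.sdiff_union_of_subset h6, h2]
    subst h3
    rfl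
  · rintro ⟨T, L⟩ hx
    rw [Finset.mem_sigma, Finset.mem_powerset] at hx
    change (∏ p ∈ T, f p) * ∏ p ∈ L, g p = (∏ p ∈ L, f p * g p) * ∏ p ∈ T \ L, f p
    rw [Finset.prod_mul_distrib, ← Finset.prod_sdiff hx.2]
    ring
  · intro b _
    exact mul_nonneg (Finset.prod_nonneg fun p _ => mul_nonneg (hf p) (hg p))
      (Finset.prod_nonneg fun p _ => hf p)

end abstract

section colour

variable {S : Finset ℕ} {k : ℕ}

/-- the product of the primes of `T` is at most `z` -/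
def DD (z : ℝ) (T : Finset {p // p ∈ S}) : Prop := ∏ p ∈ T, ((p : ℕ) : ℝ) ≤ z

theorem DD_mono (hS : ∀ p ∈ S, p.Prime) {z : ℝ} {A B : Finset {p // p ∈ S}} (hAB : A ⊆ B)
    (hB : DD z B) : DD z A := by
  unfold DD at hB ⊢
  refine le_trans ?_ hB
  have h1 : ∀ p : {p // p ∈ S}, (1 : ℝ) ≤ ((p : ℕ) : ℝ) := fun p => by
    exact_mod_cast (hS p.1 p.2).one_le
  rw [← Finset.prod_sdiff hAB]
  exact le_mul_of_one_le_left (Finset.prod_nonneg fun p _ => zero_le_one.trans (h1 p))
    (one_le_prod _ _ fun p _ => h1 p)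

/-- the colour `m` is given to the primes of `T` -/
noncomputable def up (m : Fin k) (r : Co S k) (T : Finset {p // p ∈ S}) : Co S k :=
  fun p => if p ∈ T then some m else r p

/-- the uncoloured primes -/
noncomputable def Un (r : Co S k) : Finset {p // p ∈ S} := univ.filter (fun p => r p = none)

theorem mem_Un {r : Co S k} {p : {p // p ∈ S}} : p ∈ Un r ↔ r p = none := by
  unfold Un
  rw [Finset.mem_filter]
  exact ⟨fun h => h.2, fun h => ⟨mem_univ _, h⟩⟩

theorem mw_up (m : Fin k) (f : ℕ → ℝ) (r : Co S k) (T : Finset {p // p ∈ S})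
    (hT : T ⊆ Un r) : mw f (up m r T) = mw f r * ∏ p ∈ T, f p := by
  unfold mw
  have h1 : ∀ p : {p // p ∈ S}, (if up m r T p = none then (1 : ℝ) else f p) =
      (if r p = none then 1 else f p) * (if p ∈ T then f p else 1) := by
    intro p
    unfold up
    by_cases h : p ∈ T
    · rw [if_pos h, if_pos h, if_neg (by simp), if_pos (mem_Un.1 (hT h)), one_mul]
    · rw [if_neg h, if_neg h, mul_one]
  rw [Finset.prod_congr rfl fun p _ => h1 p, Finset.prod_mul_distrib, Finset.prod_ite_mem,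
    Finset.univ_inter]

theorem nrm_up (m : Fin k) (r : Co S k) (T : Finset {p // p ∈ S})
    (hT : T ⊆ Un r) : (nrm (up m r T) : ℝ) = nrm r * ∏ p ∈ T, (p : ℝ) := by
  have h0 : ∀ u : Co S k, (nrm u : ℝ) = mw (fun p => (p : ℝ)) u := by
    intro u
    unfold nrm mw
    rw [Nat.cast_prod]
    refine Finset.prod_congr rfl fun p _ => ?_
    split_ifs
    · exact Nat.cast_one
    · rfl
  rw [h0, h0, mw_up m _ r T hT]

/-- the colourings with given restriction -/
theorem sum_up (m : Fin k) (Z : ℝ) (r : Co S k) (hr : NoC m r) (h0 : (0 : ℝ) < nrm r)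
    (G : Co S k → ℝ) :
    ∑ u ∈ univ.filter (fun u : Co S k => dl m u = r ∧ (nrm u : ℝ) ≤ Z), G u =
      ∑ T ∈ (Un r).powerset.filter (DD (Z / nrm r)), G (up m r T) := by
  have hdl : ∀ T : Finset {p // p ∈ S}, T ⊆ Un r → dl m (up m r T) = r := by
    intro T hT
    funext p
    unfold dl up
    by_cases h : p ∈ T
    · rw [if_pos h, if_pos rfl, mem_Un.1 (hT h)]
    · rw [if_neg h, if_neg (hr p)]
  have hup : ∀ u : Co S k, dl m u = r → up m r (univ.filter (fun p => u p = some m)) = u := by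
    intro u hu
    funext p
    unfold up
    by_cases h : u p = some m
    · rw [if_pos (by rw [Finset.mem_filter]; exact ⟨mem_univ _, h⟩), h]
    · rw [if_neg (by rw [Finset.mem_filter]; exact fun h' => h h'.2), ← hu]
      unfold dl
      rw [if_neg h]
  have hsub : ∀ u : Co S k, dl m u = r → univ.filter (fun p => u p = some m) ⊆ Un r := by
    intro u hu p hp
    rw [Finset.mem_filter] at hp
    rw [mem_Un, ← hu]
    unfold dl
    rw [if_pos hp.2]
  symm
  refine Finset.sum_bij' (fun T _ => up m r T) (fun u _ => univ.filter (fun p => u p = some m))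
    ?_ ?_ ?_ ?_ ?_
  · intro T hT
    rw [Finset.mem_filter, Finset.mem_powerset] at hT
    rw [Finset.mem_filter]
    refine ⟨mem_univ _, hdl T hT.1, ?_⟩
    rw [nrm_up m r T hT.1]
    have h1 : ∏ p ∈ T, ((p : ℕ) : ℝ) ≤ Z / nrm r := hT.2
    rw [le_div_iff₀ h0] at h1
    linarith
  · intro u hu
    rw [Finset.mem_filter] at hu
    rw [Finset.mem_filter, Finset.mem_powerset]
    refine ⟨hsub u hu.2.1, ?_⟩
    unfold DD
    rw [le_div_iff₀ h0]
    have h1 := hu.2.2
    rw [← hup u hu.2.1, nrm_up m r _ (hsub u hu.2.1)] at h1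
    linarith
  · intro T hT
    rw [Finset.mem_filter, Finset.mem_powerset] at hT
    ext p
    rw [Finset.mem_filter]
    unfold up
    constructor
    · rintro ⟨-, h⟩
      by_contra hp
      rw [if_neg hp] at h
      exact hr p h
    · intro h
      exact ⟨mem_univ _, if_pos h⟩
  · intro u hu
    rw [Finset.mem_filter] at hu
    exact hup u hu.2.1
  · intro T _
    rfl

/-- the primes dividing `n` -/
noncomputable def Tn (S : Finset ℕ) (n : ℕ) : Finset {p // p ∈ S} :=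
  univ.filter (fun p => (p : ℕ) ∣ n)

theorem prod_Tn {n : ℕ} (hS : ∀ p ∈ S, p.Prime) (hn : n ≠ 0)
    (h : ∀ p, p.Prime → p ∣ n → p ∈ S) (F : ℕ → ℝ) :
    ∏ p ∈ Tn S n, F p = ∏ p ∈ n.primeFactors, F p := by
  have h1 : (Tn S n).map (Function.Embedding.subtype (fun p => p ∈ S)) = n.primeFactors := by
    ext p
    rw [Finset.mem_map, Nat.mem_primeFactors]
    constructor
    · rintro ⟨q, hq, rfl⟩
      unfold Tn at hq
      rw [Finset.mem_filter] at hq
      exact ⟨hS q.1 q.2, hq.2, hn⟩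
    · rintro ⟨h1, h2, -⟩
      refine ⟨⟨p, h p h1 h2⟩, ?_, rfl⟩
      unfold Tn
      rw [Finset.mem_filter]
      exact ⟨mem_univ _, h2⟩
  rw [← h1, Finset.prod_map]
  rfl

theorem Hs_le (hS : ∀ p ∈ S, p.Prime) (z : ℝ) :
    Hs S z ≤ ∑ T ∈ (univ : Finset (Finset {p // p ∈ S})).filter (DD z),
      ∏ p ∈ T, 1 / (((p : ℕ) : ℝ) - 1) := by
  have hn : ∀ n ∈ SqF S z, n ≠ 0 ∧ (n : ℝ) ≤ z ∧ Squarefree n ∧
      (∀ p, p.Prime → p ∣ n → p ∈ S) := by
    intro n hn
    unfold SqF at hn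
    rw [Finset.mem_filter, Finset.mem_Icc] at hn
    obtain ⟨⟨h1, h2⟩, h3, h4⟩ := hn
    have h5 : n ≠ 0 := by omega
    exact ⟨h5, (Nat.le_floor_iff' h5).1 h2, h3, h4⟩
  have hprod : ∀ n ∈ SqF S z, ∏ p ∈ Tn S n, ((p : ℕ) : ℝ) = n := by
    intro n hn'
    obtain ⟨h1, h2, h3, h4⟩ := hn n hn'
    rw [prod_Tn hS h1 h4 (fun p => (p : ℝ)), ← Nat.cast_prod,
      Nat.prod_primeFactors_of_squarefree h3]
  unfold Hs
  refine sum_le_inj _ _ (Tn S) _ _ ?_ ?_ ?_ ?_
  · intro n hn'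
    rw [Finset.mem_filter]
    refine ⟨mem_univ _, ?_⟩
    unfold DD
    rw [hprod n hn']
    exact (hn n hn').2.1
  · intro n hn' n' hn'' h
    have h1 := hprod n hn'
    rw [h, hprod n' hn''] at h1
    exact_mod_cast h1.symm
  · intro n hn'
    obtain ⟨h1, h2, h3, h4⟩ := hn n hn'
    rw [prod_Tn hS h1 h4 (fun p => 1 / ((p : ℝ) - 1))]
    have h5 := Nat.totient_mul_prod_primeFactors n
    rw [Nat.prod_primeFactors_of_squarefree h3, mul_comm] at h5
    have h6 : n.totient = ∏ p ∈ n.primeFactors, (p - 1) :=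
      Nat.eq_of_mul_eq_mul_left (Nat.pos_of_ne_zero h1) h5
    rw [h6, Nat.cast_prod, Finset.prod_div_distrib, Finset.prod_const_one]
    congr 1
    refine Finset.prod_congr rfl fun p hp => ?_
    rw [Nat.cast_sub (Nat.prime_of_mem_primeFactors hp).one_le, Nat.cast_one]
  · intro T _
    refine Finset.prod_nonneg fun p _ => ?_
    have : (2 : ℝ) ≤ ((p : ℕ) : ℝ) := by exact_mod_cast (hS p.1 p.2).two_le
    exact div_nonneg zero_le_one (by linarith)

end colour

end VLRz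

open VLRz in
theorem prf_VLR : C_VLR := by
  intro S k m hS Z r hr hZ
  have hp1 : ∀ p : {p // p ∈ S}, (1 : ℝ) < ((p : ℕ) : ℝ) := fun p => by
    exact_mod_cast (hS p.1 p.2).1.one_lt
  have h0 : (0 : ℝ) < nrm r := by
    have : 0 < nrm r := by
      unfold nrm
      refine Finset.prod_pos fun p _ => ?_
      split_ifs
      · exact one_pos
      · exact (hS p.1 p.2).1.pos
    exact_mod_cast this
  have hf : ∀ p : {p // p ∈ S}, 0 ≤ 1 / (((p : ℕ) : ℝ) - 1) := fun p =>
    div_nonneg zero_le_one (by linarith [hp1 p])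
  have hg : ∀ p : {p // p ∈ S}, 0 ≤ (k : ℝ) / (((p : ℕ) : ℝ) - 1) := fun p =>
    div_nonneg (Nat.cast_nonneg k) (by linarith [hp1 p])
  have hD : ∀ A B : Finset {p // p ∈ S}, A ⊆ B → DD (Z / nrm r) B → DD (Z / nrm r) A :=
    fun A B hAB hB => DD_mono (fun p hp => (hS p hp).1) hAB hB
  have hmw0 : ∀ u : Co S k, mw aF u ≠ 0 := by
    intro u
    unfold mw
    refine Finset.prod_ne_zero_iff.2 fun p _ => ?_
    split_ifs
    · exact one_ne_zero
    · unfold aF
      linarith [hp1 p]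
  have hratio : ∀ T : Finset {p // p ∈ S}, T ⊆ Un r → mw aF r / mw aF (up m r T) =
      ∏ p ∈ T, 1 / (((p : ℕ) : ℝ) - 1) := by
    intro T hT
    rw [mw_up m aF r T hT, div_mul_cancel_left₀ (hmw0 r), Finset.prod_div_distrib,
      Finset.prod_const_one, one_div]
    rfl
  have hcp : cpsi m Z r = ∑ T ∈ (Un r).powerset.filter (DD (Z / nrm r)),
      ∏ p ∈ T, 1 / (((p : ℕ) : ℝ) - 1) := by
    unfold cpsi
    rw [sum_up m Z r hr h0 (fun u => mw aF r / mw aF u)]
    refine Finset.sum_congr rfl fun T hT => ?_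
    rw [Finset.mem_filter, Finset.mem_powerset] at hT
    exact hratio T hT.1
  have hcp0 : 0 ≤ cpsi m Z r := by
    rw [hcp]
    exact Finset.sum_nonneg fun T _ => Finset.prod_nonneg fun p _ => hf p
  constructor
  · refine (Hs_le (fun p hp => (hS p hp).1) _).trans ?_
    refine (absA (DD (Z / nrm r)) hD (Un r)
      (fun p => 1 / (((p : ℕ) : ℝ) - 1)) hf).trans (le_of_eq ?_)
    rw [hcp, mul_comm]
    congr 1
    unfold mw
    rw [← Finset.prod_compl_mul_prod (Un r)]
    have h1 : ∏ p ∈ Un r, (if r p = none then (1 : ℝ) else 1 + 1 / (((p : ℕ) : ℝ) - 1)) = 1 :=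
      Finset.prod_eq_one fun p hp => if_pos (mem_Un.1 hp)
    rw [h1, mul_one]
    refine Finset.prod_congr rfl fun p hp => ?_
    rw [Finset.mem_compl, mem_Un] at hp
    rw [if_neg hp]
  · rw [sum_up m Z r hr h0
      (fun u => mw aF r / mw aF u * mw (fun p => 1 + (k : ℝ) / ((p : ℝ) - 1)) u)]
    have h1 : ∑ T ∈ (Un r).powerset.filter (DD (Z / nrm r)),
        mw aF r / mw aF (up m r T) *
          mw (fun p => 1 + (k : ℝ) / ((p : ℝ) - 1)) (up m r T) =
        mw (fun p => 1 + (k : ℝ) / ((p : ℝ) - 1)) r * ∑ T ∈ (Un r).powerset.filter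
          (DD (Z / nrm r)),
          (∏ p ∈ T, 1 / (((p : ℕ) : ℝ) - 1)) * ∏ p ∈ T, (1 + (k : ℝ) / (((p : ℕ) : ℝ) - 1)) := by
      rw [Finset.mul_sum]
      refine Finset.sum_congr rfl fun T hT => ?_
      rw [Finset.mem_filter, Finset.mem_powerset] at hT
      rw [hratio T hT.1, mw_up m _ r T hT.1]
      ring
    have h2 := absB (DD (Z / nrm r)) hD (Un r)
      (fun p => 1 / (((p : ℕ) : ℝ) - 1)) (fun p => (k : ℝ) / (((p : ℕ) : ℝ) - 1)) hf hg
    have h3 : 0 ≤ mw (fun p => 1 + (k : ℝ) / ((p : ℝ) - 1)) r := by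
      unfold mw
      refine Finset.prod_nonneg fun p _ => ?_
      split_ifs
      · exact zero_le_one
      · linarith [hg p]
    have h4 : ∏ p ∈ Un r, (1 + 1 / (((p : ℕ) : ℝ) - 1) * ((k : ℝ) / (((p : ℕ) : ℝ) - 1))) ≤
        ∏ p : {p // p ∈ S}, (1 + (k : ℝ) / (((p : ℕ) : ℝ) - 1) ^ 2) := by
      have h5 : ∀ p : {p // p ∈ S}, 1 + 1 / (((p : ℕ) : ℝ) - 1) * ((k : ℝ) /
          (((p : ℕ) : ℝ) - 1)) = 1 + (k : ℝ) / (((p : ℕ) : ℝ) - 1) ^ 2 := by
        intro p
        have : ((p : ℕ) : ℝ) - 1 ≠ 0 := by linarith [hp1 p]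
        field_simp
      rw [Finset.prod_congr rfl fun p _ => h5 p]
      rw [← Finset.prod_mul_prod_compl (Un r)]
      refine le_mul_of_one_le_right (Finset.prod_nonneg fun p _ => ?_) ?_
      · positivity
      · refine one_le_prod _ _ fun p _ => ?_
        have : 0 ≤ (k : ℝ) / (((p : ℕ) : ℝ) - 1) ^ 2 := by positivity
        linarith
    rw [h1, hcp, mul_assoc]
    refine mul_le_mul_of_nonneg_left (h2.trans ?_) h3
    rw [← hcp]
    exact mul_le_mul_of_nonneg_right h4 hcp0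

end MPb51559.BG
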