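import Pool.Agent.Work.MP_b51559_nt.BG.C.Stmts2
import Pool.Agent.Work.MP_b51559_nt.BG.C.Util

set_option autoImplicit false

/-!
# Part C: the diagonal variables in direction m
-/

namespace MPb51559.BG

open Finset Filter Topology MeasureTheory
open scoped Classical

namespace YMaux

section
variable {S : Finset ℕ} {k : ℕ}

/-- the mass of the part of colour m -/
theorem mass_le (hBAS : C_BAS) (hS : ∀ p ∈ S, p.Prime ∧ 2 < p) (m : Fin k) (r : Co S k) (hr : NoC m r)
    (N : ℝ) : ∑ u ∈ univ.filter (fun u : Co S k => dl m u = r ∧ (nrm u : ℝ) ≤ N),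
      mw aF r / mw aF u ≤ Hs S N := by
  have hS1 : ∀ p ∈ S, p.Prime := fun p hp => (hS p hp).1
  -- value of u
  have hval : ∀ u : Co S k, dl m u = r → ∀ p, (u p = some m ∧ r p = none) ∨ (u p ≠ some m ∧ u p = r p) := by
    intro u hu p
    by_cases h : u p = some m
    · left
      refine ⟨h, ?_⟩
      rw [← hu]; simp [dl, h]
    · right
      refine ⟨h, ?_⟩
      rw [← hu]; simp [dl, h]
  have hq : ∀ u : Co S k, dl m u = r → mw aF r / mw aF u = 1 / ((prt m u).totient : ℝ) := by
    intro u hu
    have h1 : mw aF u = mw aF r * ∏ p : {p // p ∈ S}, (if u p = some m then aF p else 1) := by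
      unfold mw
      rw [← prod_mul_distrib]
      refine prod_congr rfl fun p _ => ?_
      rcases hval u hu p with ⟨h1, h2⟩ | ⟨h1, h2⟩
      · simp [h1, h2]
      · simp [h1, h2]
        intro h; exact absurd h (hr p)
    have h2 : ((prt m u).totient : ℝ) = ∏ p : {p // p ∈ S}, (if u p = some m then aF p else 1) := by
      -- use the colouring keeping only colour m
      let v : Co S k := fun p => if u p = some m then some m else none
      have hv := hBAS S k hS1 v
      have e1 : nrm v = prt m u := by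
        unfold nrm prt
        refine prod_congr rfl fun p _ => ?_
        by_cases h : u p = some m <;> simp [v, h]
      have e2 := hv.2.2.2.2.1
      rw [e1] at e2
      rw [← e2]
      unfold mw
      refine prod_congr rfl fun p _ => ?_
      by_cases h : u p = some m <;> simp [v, h]
    have h3 : mw aF r ≠ 0 := (U.mw_pos r fun p hp => by
      have : (2 : ℝ) < p := by exact_mod_cast (hS p hp).2
      unfold aF; linarith).ne'
    rw [h1, h2, div_mul_eq_div_div, div_self h3]
  have hinj : Set.InjOn (fun u : Co S k => prt m u)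
      (univ.filter (fun u : Co S k => dl m u = r ∧ (nrm u : ℝ) ≤ N)) := by
    intro u hu u' hu' h
    have hu1 := (mem_filter.1 hu).2.1
    have hu2 := (mem_filter.1 hu').2.1
    have hdiv : ∀ (w : Co S k) (p : {p // p ∈ S}), (p : ℕ) ∣ prt m w ↔ w p = some m := by
      intro w p
      unfold prt
      rw [Prime.dvd_finset_prod_iff (hS1 p p.2).prime]
      constructor
      · rintro ⟨q, _, hq⟩
        by_cases hw : w q = some m
        · rw [if_pos hw] at hq
          have := (Nat.prime_dvd_prime_iff_eq (hS1 p p.2) (hS1 q q.2)).1 hq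
          have : p = q := Subtype.ext this
          rw [this]; exact hw
        · rw [if_neg hw] at hq
          exact absurd (Nat.dvd_one.1 hq) (hS1 p p.2).ne_one
      · intro hw
        exact ⟨p, mem_univ _, by rw [if_pos hw]⟩
    funext p
    have h' : prt m u = prt m u' := h
    rcases hval u hu1 p with ⟨h1, h2⟩ | ⟨h1, h2⟩
    · have h3 := (hdiv u p).2 h1
      rw [h'] at h3
      rw [h1, (hdiv u' p).1 h3]
    · rcases hval u' hu2 p with ⟨h4, h5⟩ | ⟨h4, h5⟩
      · have h3 := (hdiv u' p).2 h4
        rw [← h'] at h3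
        exact absurd ((hdiv u p).1 h3) h1
      · rw [h2, h5]
  calc ∑ u ∈ univ.filter (fun u : Co S k => dl m u = r ∧ (nrm u : ℝ) ≤ N), mw aF r / mw aF u
      = ∑ u ∈ univ.filter (fun u : Co S k => dl m u = r ∧ (nrm u : ℝ) ≤ N),
          1 / ((prt m u).totient : ℝ) := by
        refine sum_congr rfl fun u hu => hq u (mem_filter.1 hu).2.1
    _ = ∑ n ∈ (univ.filter (fun u : Co S k => dl m u = r ∧ (nrm u : ℝ) ≤ N)).image
          (fun u => prt m u), 1 / (n.totient : ℝ) := by
        rw [sum_image hinj]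
    _ ≤ Hs S N := by
        unfold Hs
        refine sum_le_sum_of_subset_of_nonneg ?_ fun n _ _ => by positivity
        intro n hn
        obtain ⟨u, hu, rfl⟩ := mem_image.1 hn
        have hu' := (mem_filter.1 hu).2
        have hb := hBAS S k hS1 u
        have hp := hb.2.2.2.2.2.2.2.1 m
        unfold SqF
        rw [mem_filter, mem_Icc]
        have hle : prt m u ≤ nrm u := Nat.le_of_dvd hb.2.1 hp.2
        refine ⟨⟨hp.1, Nat.le_floor ((by exact_mod_cast hle : (prt m u : ℝ) ≤ nrm u).trans hu'.2)⟩, hb.1.squarefree_of_dvd hp.2, ?_⟩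
        intro p hpp hpd
        exact ((hb.2.2.1 p hpp).1 (hpd.trans hp.2)).1

end

end YMaux

theorem prf_YM (hBAS : C_BAS) (hSUP : C_SUP) (hCONV : C_CONV) (hCVA : C_CVA) (hMSU : C_MSU)
    (hTOT : C_TOT) (hONE : C_ONE) (hD1 : C_D1) : C_YM := by
  intro k T F hT1 hT2 hF δ hδ0 hδ1
  obtain ⟨M0, hM0⟩ := hF.bdd
  obtain ⟨V, hV⟩ := hF.bv
  set M : ℝ := |M0| with hMdef
  have hM0' : 0 ≤ M := abs_nonneg _
  have hM : ∀ t, |F t| ≤ M := fun t => (hM0 t).trans (le_abs_self _)
  refine ⟨40 * M + 4 * V + 2 + k, by positivity, ?_⟩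
  intro ε hε
  set C : ℝ := 40 * M + 4 * V + 2 + k with hC
  have hC0 : 0 ≤ C := by positivity
  -- product threshold
  set e1 : ℝ := min ε 1 with he1
  have he1p : 0 < e1 := lt_min hε one_pos
  obtain ⟨D1, hD13, hprod⟩ := U.prod_le' (k : ℝ) e1 (Nat.cast_nonneg _) he1p
  refine ⟨D1, fun D0 hD0 => ?_⟩
  have hD3 : 3 ≤ D0 := hD13.trans hD0
  have hκ := U.kap_pos D0
  -- eta
  set η : ℝ := kap D0 * e1 / 8 with hη
  have hηp : 0 < η := by positivity
  obtain ⟨x1, hx1⟩ := hTOT k D0 (by omega)
  obtain ⟨x2, hx2⟩ := hONE D0 (by omega) η hηp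
  refine ⟨max (max x1 x2) 4, fun x hx m => ?_⟩
  have hxx1 : x1 ≤ x := (le_max_left _ _).trans ((le_max_left _ _).trans hx)
  have hxx2 : x2 ≤ x := (le_max_right _ _).trans ((le_max_left _ _).trans hx)
  have hx4 : (4 : ℝ) ≤ x := (le_max_right _ _).trans hx
  have hx1' : 1 < x := by linarith
  have hlog : 0 < Real.log x := Real.log_pos hx1'
  suffices key : ∀ S : Finset ℕ, S = Sx D0 x → ∀ r : Co S k, |ym (Rx δ x) F m r| ≤ C * lk D0 δ x ∧
      (ym (Rx δ x) F m r ≠ 0 → NoC m r ∧ sz (Rx δ x) r ≤ T) ∧
      (NoC m r → |ym (Rx δ x) F m r - lk D0 δ x * marg F m (tv (Rx δ x) r)| ≤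
        lk D0 δ x * (C * (ε + (mw (fun p => 1 + C / ((p : ℝ) - 2)) r - 1)))) from
    fun r => key _ rfl r
  intro S hSdef r
  set R := Rx δ x with hR
  set l := lk D0 δ x with hl
  have hlp : 0 < l := U.lk_pos D0 δ x hδ1 hx1'
  have hR1 : 1 < R := U.Rx_gt_one δ x hδ1 hx1'
  have hR0 : 0 < R := by linarith
  have hlR : 0 < Real.log R := Real.log_pos hR1
  have hlR' : Real.log R = (1 / 4 - δ) * Real.log x := U.log_Rx δ x (by linarith)
  have hleq : l = kap D0 * Real.log R := rfl
  have hS2 : ∀ p ∈ S, p.Prime ∧ 2 < p := fun p hp => ⟨(U.Sx_prime (hSdef ▸ hp)).1, by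
    have := (U.Sx_prime (hSdef ▸ hp)).2.1; omega⟩
  have hSP : ∀ p ∈ S, p.Prime := fun p hp => (hS2 p hp).1
  have hSD : ∀ p ∈ S, D0 < p := fun p hp => (U.Sx_prime (hSdef ▸ hp)).2.1
  have hSr : ∀ p ∈ S, (3 : ℝ) < p := fun p hp => by
    have := hSD p hp
    exact_mod_cast (show 3 < p by omega)
  set N : ℝ := R ^ T with hN
  have hNle : N ≤ Real.sqrt x := U.Rx_rpow_le δ x T hδ0.le hx1'.le (by linarith) hT2.le
  have hHs : Hs S N ≤ 8 * l := (U.Hs_mono S hNle).trans ((hSdef ▸ (hx1 x hxx1).1 :
    Hs S (Real.sqrt x) ≤ kl D0 x).trans (U.kl_le D0 δ x hδ1 hx1'))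
  have hHs0 : 0 ≤ Hs S N := U.Hs_nonneg _ _
  -- the product
  set π : ℝ := ∏ p : {p // p ∈ S}, (1 + (k : ℝ) / ((p : ℝ) - 1) ^ 2) with hπ
  have hπle : π ≤ 1 + e1 := by
    refine hprod D0 hD0 S hSD (fun p => (k : ℝ) / ((p : ℝ) - 1) ^ 2) (fun p hp => by positivity)
      fun p hp => ?_
    have := hSr p hp
    have h2 : (0 : ℝ) < (p : ℝ) - 2 := by linarith only [this]
    refine div_le_div_of_nonneg_left (Nat.cast_nonneg _) (pow_pos h2 2) ?_
    exact pow_le_pow_left₀ h2.le (by linarith only) 2
  have hsuppF : ∀ u : Co S k, yF R F u ≠ 0 → (nrm u : ℝ) ≤ N := by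
    intro u hu
    have h1 := (hF.supp _ hu).2
    have h2 := (hBAS S k hSP u).2.2.2.2.2.2.2.2.1 R
    rw [← h2] at h1
    unfold sz at h1
    rw [div_le_iff₀ hlR] at h1
    have h3 : (0 : ℝ) < nrm u := by exact_mod_cast (hBAS S k hSP u).2.1
    rw [hN, ← Real.log_le_log_iff h3 (Real.rpow_pos_of_pos hR0 _), Real.log_rpow hR0]
    exact h1
  have hS1' : ∀ p ∈ S, 1 ≤ p := fun p hp => (hSP p hp).one_lt.le
  -- support of ym
  have hsupp : ym R F m r ≠ 0 → NoC m r ∧ sz R r ≤ T := by
    intro h
    have hlam := ((hSUP S k aP hS1' (yF R F)).1 N hsuppF).1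
    have hrst1 : ∀ d : Co S k, rst m (lam aP (yF R F)) d ≠ 0 → (nrm d : ℝ) ≤ N := by
      intro d hd
      apply hlam d
      intro h0
      apply hd
      unfold rst
      rw [h0]; simp
    have hrst2 : ∀ d : Co S k, rst m (lam aP (yF R F)) d ≠ 0 → NoC m d := by
      intro d hd
      by_contra h0
      apply hd
      unfold rst
      rw [if_neg h0]
    have hA := hSUP S k aF hS1' (rst m (lam aP (yF R F)))
    refine ⟨(hA.2 m hrst2).2 r h, ?_⟩
    have h2 := (hA.1 N hrst1).2 r h
    unfold sz
    rw [div_le_iff₀ hlR]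
    have h3 : (0 : ℝ) < nrm r := by exact_mod_cast (hBAS S k hSP r).2.1
    calc Real.log (nrm r : ℝ) ≤ Real.log N := Real.log_le_log h3 h2
      _ = T * Real.log R := by rw [hN, Real.log_rpow hR0]
  -- the main decomposition
  set A : ℝ := ∑ u ∈ univ.filter (fun u : Co S k => dl m u = r), yF R F u * (mw aF r / mw aF u) with hA
  set P : ℝ := mw (fun p => 1 - 1 / ((p : ℝ) - 1) ^ 2) r with hP
  have hmain : NoC m r → |ym R F m r - P * A| ≤ M * (π - 1) * Hs S N := by
    intro hr
    unfold ym
    rw [hCONV S k (fun p hp => (hS2 p hp).2) m (yF R F) r hr]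
    exact hCVA S k hS2 m (yF R F) M N r hr hM0' (fun u => hM _) hsuppF
  have hP0 : 0 ≤ P := U.mw_nonneg r fun p hp => by
    have := hSr p hp
    have h1 : (1 : ℝ) ≤ ((p : ℝ) - 1) ^ 2 := one_le_pow₀ (by linarith only [this])
    have : 1 / ((p : ℝ) - 1) ^ 2 ≤ 1 := by
      rw [div_le_one (by linarith only [h1])]; exact h1
    linarith only [this]
  have hP1 : P ≤ 1 := by
    have h := U.mw_le_mw (f := fun p => 1 - 1 / ((p : ℝ) - 1) ^ 2) (g := fun _ => 1) r
      (fun p hp => by
        have := hSr p hp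
        have h1 : (1 : ℝ) ≤ ((p : ℝ) - 1) ^ 2 := one_le_pow₀ (by linarith only [this])
        have : 1 / ((p : ℝ) - 1) ^ 2 ≤ 1 := by
          rw [div_le_one (by linarith only [h1])]; exact h1
        linarith only [this])
      (fun p hp => by
        have : 0 ≤ 1 / ((p : ℝ) - 1) ^ 2 := by positivity
        linarith)
    refine h.trans (le_of_eq ?_)
    unfold mw; simp
  -- bound of A
  have hAb : NoC m r → |A| ≤ M * Hs S N := by
    intro hr
    have hpos : ∀ u : Co S k, 0 ≤ mw aF r / mw aF u := fun u => by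
      have h1 : ∀ w : Co S k, 0 < mw aF w := fun w => U.mw_pos w fun p hp => by
        have := hSr p hp
        unfold aF; linarith
      exact (div_pos (h1 _) (h1 _)).le
    calc |A| ≤ ∑ u ∈ univ.filter (fun u : Co S k => dl m u = r), |yF R F u * (mw aF r / mw aF u)| :=
          abs_sum_le_sum_abs _ _
      _ ≤ ∑ u ∈ univ.filter (fun u : Co S k => dl m u = r),
            (if (nrm u : ℝ) ≤ N then M * (mw aF r / mw aF u) else 0) := by
          refine sum_le_sum fun u _ => ?_
          rw [abs_mul, abs_of_nonneg (hpos u)]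
          split_ifs with h
          · exact mul_le_mul_of_nonneg_right (hM _) (hpos u)
          · have : yF R F u = 0 := by
              by_contra h0
              exact h (hsuppF u h0)
            rw [this]; simp
      _ = ∑ u ∈ univ.filter (fun u : Co S k => dl m u = r ∧ (nrm u : ℝ) ≤ N),
            M * (mw aF r / mw aF u) := by
          rw [← sum_filter, filter_filter]
      _ = M * ∑ u ∈ univ.filter (fun u : Co S k => dl m u = r ∧ (nrm u : ℝ) ≤ N),
            (mw aF r / mw aF u) := by rw [mul_sum]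
      _ ≤ M * Hs S N := mul_le_mul_of_nonneg_left (YMaux.mass_le hBAS hS2 m r hr N) hM0'
  have hπ1 : 1 ≤ π := by
    have h := Finset.prod_le_prod (s := (univ : Finset {p // p ∈ S})) (f := fun _ => (1 : ℝ))
      (g := fun p : {p // p ∈ S} => 1 + (k : ℝ) / (((p : ℕ) : ℝ) - 1) ^ 2)
      (fun p _ => zero_le_one) fun p _ => by
        have : 0 ≤ (k : ℝ) / (((p : ℕ) : ℝ) - 1) ^ 2 := by positivity
        linarith
    rw [prod_const_one] at h
    exact h
  refine ⟨?_, hsupp, ?_⟩
  · -- uniform bound
    by_cases hr : NoC m r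
    · have h1 := hmain hr
      have h2 := hAb hr
      have h3 : |P * A| ≤ M * Hs S N := by
        rw [abs_mul, abs_of_nonneg hP0]
        calc P * |A| ≤ 1 * |A| := mul_le_mul_of_nonneg_right hP1 (abs_nonneg _)
          _ ≤ M * Hs S N := by rw [one_mul]; exact h2
      have h4 : |ym R F m r| ≤ |ym R F m r - P * A| + |P * A| := by
        have := abs_add_le (ym R F m r - P * A) (P * A)
        simpa using this
      have h5 : M * (π - 1) * Hs S N ≤ M * Hs S N := by
        have : π - 1 ≤ 1 := by linarith [min_le_right ε 1]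
        have h6 : 0 ≤ M * Hs S N := mul_nonneg hM0' hHs0
        calc M * (π - 1) * Hs S N = (M * Hs S N) * (π - 1) := by ring
          _ ≤ (M * Hs S N) * 1 := mul_le_mul_of_nonneg_left this h6
          _ = M * Hs S N := mul_one _
      have h7 : M * Hs S N ≤ M * (8 * l) := mul_le_mul_of_nonneg_left hHs hM0'
      have h8 : C * l = 40 * M * l + (4 * V + 2 + k) * l := by rw [hC]; ring
      have h9 : 0 ≤ (4 * (V : ℝ) + 2 + k) * l := by positivity
      have h10 := mul_nonneg hM0' hlp.le
      linarith only [h1, h3, h4, h5, h7, h8, h9, h10]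
    · have : ym R F m r = 0 := by
        by_contra h0
        exact hr (hsupp h0).1
      rw [this, abs_zero]
      positivity
  · intro hr
    have h1 := hmain hr
    -- the function of one variable
    set g : ℝ → ℝ := fun s => F (Function.update (tv R r) m s) with hg
    set f : ℕ → ℝ := fun n => g (Real.log (n : ℝ) / Real.log R) with hf
    have hgM : ∀ s, |g s| ≤ M := fun s => hM _
    have hgsupp : ∀ s, g s ≠ 0 → 0 ≤ s ∧ s ≤ T := by
      intro s hs
      have h := hF.supp _ hs
      have h2 := h.1 m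
      rw [Function.update_self] at h2
      refine ⟨h2, ?_⟩
      have h3 : Function.update (tv R r) m s m ≤ ∑ i, Function.update (tv R r) m s i :=
        single_le_sum (f := fun i => Function.update (tv R r) m s i) (fun i _ => h.1 i) (mem_univ m)
      rw [Function.update_self] at h3
      exact h3.trans h.2
    have hfN : ∀ n : ℕ, f n ≠ 0 → (n : ℝ) ≤ N := by
      intro n hn
      rcases Nat.eq_zero_or_pos n with rfl | hn0
      · simp only [Nat.cast_zero]
        exact (Real.rpow_pos_of_pos hR0 _).le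
      have h := (hgsupp _ hn).2
      rw [div_le_iff₀ hlR] at h
      have h3 : (0 : ℝ) < n := by exact_mod_cast hn0
      rw [hN, ← Real.log_le_log_iff h3 (Real.rpow_pos_of_pos hR0 _), Real.log_rpow hR0]
      exact h
    have hms := hMSU S k hS2 m f M N r hr hM0' (fun n => hgM _) hfN
    have hAf : A = ∑ u ∈ univ.filter (fun u : Co S k => dl m u = r), f (prt m u) * (mw aF r / mw aF u) := by
      rw [hA]
      refine sum_congr rfl fun u hu => ?_
      have := hms.2 R u (mem_filter.1 hu).2
      unfold yF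
      rw [this]
    have h2 : |A - ∑ n ∈ SqF S N, f n / (n.totient : ℝ)| ≤
        M * Hs S N * (mw (fun p => 1 + 1 / ((p : ℝ) - 1)) r - 1) := by
      rw [hAf]; exact hms.1
    -- one dimensional comparison
    set Δ : ℝ := η * Real.log x / l with hΔ
    have hΔ0 : 0 ≤ Δ := by positivity
    have hΔe : Δ ≤ e1 := by
      rw [hΔ, div_le_iff₀ hlp]
      have h3 : kap D0 * Real.log x ≤ 8 * l := U.kl_le D0 δ x hδ1 hx1'
      calc η * Real.log x = (kap D0 * Real.log x) * (e1 / 8) := by rw [hη]; ring
        _ ≤ (8 * l) * (e1 / 8) := mul_le_mul_of_nonneg_right h3 (by positivity)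
        _ = e1 * l := by ring
    have hmem : ∀ a ∈ SqF S N, 1 ≤ a ∧ (a : ℝ) ≤ N := by
      intro a ha
      unfold SqF at ha
      rw [mem_filter, mem_Icc] at ha
      exact ⟨ha.1.1, (Nat.le_floor_iff (Real.rpow_pos_of_pos hR0 _).le).1 ha.1.2⟩
    have h3 := hD1 ℕ (SqF S N) (fun n => 1 / ((n.totient : ℝ) * l)) (fun n => Real.log (n : ℝ) / Real.log R)
      T Δ M V g (by linarith) hΔ0 (by
        intro a ha
        obtain ⟨ha1, ha2⟩ := hmem a ha
        have ha0 : (0 : ℝ) < a := by exact_mod_cast ha1
        refine ⟨by positivity, ?_, ?_⟩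
        · exact div_nonneg (Real.log_nonneg (by exact_mod_cast ha1)) hlR.le
        · rw [div_le_iff₀ hlR]
          calc Real.log (a : ℝ) ≤ Real.log N := Real.log_le_log ha0 ha2
            _ = T * Real.log R := by rw [hN, Real.log_rpow hR0]) (by
        intro s hs0 hsT
        have hRs : 0 < R ^ s := Real.rpow_pos_of_pos hR0 _
        have e : (SqF S N).filter (fun a : ℕ => Real.log (a : ℝ) / Real.log R ≤ s) = SqF S (R ^ s) := by
          ext a
          constructor
          · intro ha
            rw [mem_filter] at ha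
            obtain ⟨ha, hs⟩ := ha
            obtain ⟨ha1, ha2⟩ := hmem a ha
            have ha0 : (0 : ℝ) < a := by exact_mod_cast ha1
            unfold SqF at ha ⊢
            rw [mem_filter, mem_Icc] at ha ⊢
            refine ⟨⟨ha.1.1, Nat.le_floor ?_⟩, ha.2⟩
            rw [div_le_iff₀ hlR] at hs
            rw [← Real.log_le_log_iff ha0 hRs, Real.log_rpow hR0]
            exact hs
          · intro ha
            unfold SqF at ha
            rw [mem_filter, mem_Icc] at ha
            have ha1 := ha.1.1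
            have ha0 : (0 : ℝ) < a := by exact_mod_cast ha1
            have ha2 : (a : ℝ) ≤ R ^ s := (Nat.le_floor_iff hRs.le).1 ha.1.2
            rw [mem_filter]
            refine ⟨?_, ?_⟩
            · unfold SqF
              rw [mem_filter, mem_Icc]
              refine ⟨⟨ha1, Nat.le_floor (ha2.trans ?_)⟩, ha.2⟩
              exact Real.rpow_le_rpow_of_exponent_le hR1.le hsT
            · rw [div_le_iff₀ hlR, ← Real.log_rpow hR0]
              exact Real.log_le_log ha0 ha2
        rw [e]
        have e2 : ∑ a ∈ SqF S (R ^ s), 1 / ((a.totient : ℝ) * l) = Hs S (R ^ s) / l := by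
          unfold Hs
          rw [sum_div]
          refine sum_congr rfl fun a _ => ?_
          rw [one_div, mul_inv, one_div, div_eq_mul_inv]
        rw [e2]
        have hz1 : 1 ≤ R ^ s := Real.one_le_rpow hR1.le hs0
        have hz2 : R ^ s ≤ Real.sqrt x := U.Rx_rpow_le δ x s hδ0.le hx1'.le hs0 (by linarith)
        have h4 := hx2 x hxx2 (R ^ s) hz1 hz2
        rw [← hSdef] at h4
        rw [Real.log_rpow hR0] at h4
        have e3 : Hs S (R ^ s) / l - s = (Hs S (R ^ s) - kap D0 * (s * Real.log R)) / l := by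
          rw [sub_div]
          congr 1
          rw [hleq]
          field_simp
        rw [e3, abs_div, abs_of_pos hlp, hΔ]
        exact div_le_div_of_nonneg_right h4 hlp.le) hgM (hV (tv R r) m)
    have hint : ∫ s in (0)..T, g s = marg F m (tv R r) := by
      unfold marg
      rw [intervalIntegral.integral_of_le (by linarith)]
      have : ∫ s, F (Function.update (tv R r) m s) = ∫ s in Set.Icc 0 T, g s := by
        rw [setIntegral_eq_integral_of_forall_compl_eq_zero]
        intro s hs
        by_contra h0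
        exact hs (hgsupp s h0)
      rw [this, integral_Icc_eq_integral_Ioc]
    rw [hint] at h3
    have hsum : ∑ a ∈ SqF S N, 1 / ((a.totient : ℝ) * l) * g (Real.log (a : ℝ) / Real.log R) =
        (∑ n ∈ SqF S N, f n / (n.totient : ℝ)) / l := by
      rw [sum_div]
      refine sum_congr rfl fun a _ => ?_
      rw [hf]
      rw [one_div, mul_inv]
      ring
    rw [hsum] at h3
    have h4 : |(∑ n ∈ SqF S N, f n / (n.totient : ℝ)) - l * marg F m (tv R r)| ≤
        l * (2 * (M + V) * Δ) := by
      have e : (∑ n ∈ SqF S N, f n / (n.totient : ℝ)) - l * marg F m (tv R r) =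
          l * ((∑ n ∈ SqF S N, f n / (n.totient : ℝ)) / l - marg F m (tv R r)) := by
        field_simp
      rw [e, abs_mul, abs_of_pos hlp]
      exact mul_le_mul_of_nonneg_left h3 hlp.le
    -- comparison of the multiplicative functions
    set W1 : ℝ := mw (fun p => 1 + 1 / ((p : ℝ) - 1)) r - 1 with hW1
    set W : ℝ := mw (fun p => 1 + C / ((p : ℝ) - 2)) r - 1 with hW
    have hC1 : 1 ≤ C := by
      rw [hC]
      have : (0 : ℝ) ≤ 40 * M + 4 * V + k := by positivity
      linarith
    have hW1W : W1 ≤ W := by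
      have : mw (fun p => 1 + 1 / ((p : ℝ) - 1)) r ≤ mw (fun p => 1 + C / ((p : ℝ) - 2)) r := by
        refine U.mw_le_mw r (fun p hp => ?_) fun p hp => ?_
        · have := hSr p hp
          have : 0 ≤ 1 / ((p : ℝ) - 1) := by
            have : (0 : ℝ) < p - 1 := by linarith
            positivity
          linarith
        · have := hSr p hp
          have h5 : 1 / ((p : ℝ) - 1) ≤ C / ((p : ℝ) - 2) :=
            div_le_div₀ hC0 hC1 (by linarith) (by linarith)
          linarith
      linarith
    have hW0 : 0 ≤ W1 := by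
      have : 1 ≤ mw (fun p => 1 + 1 / ((p : ℝ) - 1)) r := U.one_le_mw r fun p hp => by
        have := hSr p hp
        have : 0 ≤ 1 / ((p : ℝ) - 1) := by
          have : (0 : ℝ) < p - 1 := by linarith
          positivity
        linarith
      linarith
    have hPW : 1 - P ≤ W1 := by
      refine U.one_sub_mw_le r (a := fun p => 1 / ((p : ℝ) - 1) ^ 2) (b := fun p => 1 / ((p : ℝ) - 1))
        (fun p hp => by positivity) (fun p hp => ?_) (fun p hp => ?_)
      · have := hSr p hp
        have h1 : (1 : ℝ) ≤ ((p : ℝ) - 1) ^ 2 := one_le_pow₀ (by linarith only [this])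
        rw [div_le_one (by linarith only [h1])]
        exact h1
      · have := hSr p hp
        exact div_le_div_of_nonneg_left zero_le_one (by linarith only [this])
          (le_self_pow₀ (by linarith only [this]) (by norm_num))
    have h5 : |ym R F m r - l * marg F m (tv R r)| ≤
        |ym R F m r - P * A| + (1 - P) * |A| + |A - ∑ n ∈ SqF S N, f n / (n.totient : ℝ)| +
        |(∑ n ∈ SqF S N, f n / (n.totient : ℝ)) - l * marg F m (tv R r)| := by
      have e : ym R F m r - l * marg F m (tv R r) = (ym R F m r - P * A) + (-((1 - P) * A)) +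
        (A - ∑ n ∈ SqF S N, f n / (n.totient : ℝ)) +
        ((∑ n ∈ SqF S N, f n / (n.totient : ℝ)) - l * marg F m (tv R r)) := by ring
      rw [e]
      have hP' : |(-((1 - P) * A))| = (1 - P) * |A| := by
        rw [abs_neg, abs_mul, abs_of_nonneg (by linarith : 0 ≤ 1 - P)]
      calc _ ≤ |(ym R F m r - P * A) + (-((1 - P) * A)) +
            (A - ∑ n ∈ SqF S N, f n / (n.totient : ℝ))| +
            |(∑ n ∈ SqF S N, f n / (n.totient : ℝ)) - l * marg F m (tv R r)| := abs_add_le _ _
        _ ≤ |(ym R F m r - P * A) + (-((1 - P) * A))| +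
            |A - ∑ n ∈ SqF S N, f n / (n.totient : ℝ)| +
            |(∑ n ∈ SqF S N, f n / (n.totient : ℝ)) - l * marg F m (tv R r)| := by
              gcongr; exact abs_add_le _ _
        _ ≤ _ := by
              gcongr
              refine (abs_add_le _ _).trans ?_
              rw [hP']
    have hMl : M * Hs S N ≤ 8 * M * l := by
      have := mul_le_mul_of_nonneg_left hHs hM0'
      linarith only [this]
    have hA2 : (1 - P) * |A| ≤ W1 * (8 * M * l) := by
      have h6 := (hAb hr).trans hMl
      exact mul_le_mul hPW h6 (abs_nonneg _) hW0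
    have hA3 : M * Hs S N * W1 ≤ 8 * M * l * W1 := mul_le_mul_of_nonneg_right hMl hW0
    have hA1 : M * (π - 1) * Hs S N ≤ 8 * M * l * e1 := by
      have h7 : π - 1 ≤ e1 := by linarith
      have h8 : 0 ≤ π - 1 := by linarith
      calc M * (π - 1) * Hs S N = (M * Hs S N) * (π - 1) := by ring
        _ ≤ (8 * M * l) * (π - 1) := mul_le_mul_of_nonneg_right hMl h8
        _ ≤ (8 * M * l) * e1 := mul_le_mul_of_nonneg_left h7 (by positivity)
    have hA4 : l * (2 * (M + V) * Δ) ≤ l * (2 * (M + V) * e1) := by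
      have : (0 : ℝ) ≤ 2 * (M + V) := by positivity
      exact mul_le_mul_of_nonneg_left (mul_le_mul_of_nonneg_left hΔe this) hlp.le
    have hee : e1 ≤ ε := min_le_left _ _
    have hfin : |ym R F m r - l * marg F m (tv R r)| ≤
        l * ((10 * M + 2 * V) * e1 + 16 * M * W1) := by
      linarith only [h5, h1, h2, h4, hA1, hA2, hA3, hA4]
    refine hfin.trans (mul_le_mul_of_nonneg_left ?_ hlp.le)
    have h10 : (10 * M + 2 * (V : ℝ)) * e1 ≤ C * ε := by
      have h11 : 10 * M + 2 * (V : ℝ) ≤ C := by
        rw [hC]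
        have : (0 : ℝ) ≤ 30 * M + 2 * V + 2 + k := by positivity
        linarith
      exact mul_le_mul h11 hee he1p.le hC0
    have h12 : 16 * M * W1 ≤ C * W := by
      have h13 : 16 * M ≤ C := by
        rw [hC]
        have : (0 : ℝ) ≤ 24 * M + 4 * V + 2 + k := by positivity
        linarith
      exact mul_le_mul h13 hW1W hW0 hC0
    have : C * (ε + W) = C * ε + C * W := by ring
    linarith

end MPb51559.BG
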