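import Pool.Agent.Work.MP_b51559_nt.BG.Wex
import Pool.Agent.Work.MP_b51559_nt.BG.C.BAS
import Pool.Agent.Work.MP_b51559_nt.BG.C.INV
import Pool.Agent.Work.MP_b51559_nt.BG.C.QF
import Pool.Agent.Work.MP_b51559_nt.BG.C.QN
import Pool.Agent.Work.MP_b51559_nt.BG.C.QO
import Pool.Agent.Work.MP_b51559_nt.BG.C.SUP
import Pool.Agent.Work.MP_b51559_nt.BG.C.TAU
import Pool.Agent.Work.MP_b51559_nt.BG.C.SZ
import Pool.Agent.Work.MP_b51559_nt.BG.C.CONV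
import Pool.Agent.Work.MP_b51559_nt.BG.C.CONVB
import Pool.Agent.Work.MP_b51559_nt.BG.C.EXT
import Pool.Agent.Work.MP_b51559_nt.BG.C.VLR
import Pool.Agent.Work.MP_b51559_nt.BG.C.EXTQ
import Pool.Agent.Work.MP_b51559_nt.BG.C.CVA
import Pool.Agent.Work.MP_b51559_nt.BG.C.MSU
import Pool.Agent.Work.MP_b51559_nt.BG.C.ADJ
import Pool.Agent.Work.MP_b51559_nt.BG.C.CRT
import Pool.Agent.Work.MP_b51559_nt.BG.C.V0
import Pool.Agent.Work.MP_b51559_nt.BG.C.WPS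
import Pool.Agent.Work.MP_b51559_nt.BG.C.S1E
import Pool.Agent.Work.MP_b51559_nt.BG.C.TMS
import Pool.Agent.Work.MP_b51559_nt.BG.C.S2E
import Pool.Agent.Work.MP_b51559_nt.BG.C.BVS
import Pool.Agent.Work.MP_b51559_nt.BG.C.JCT
import Pool.Agent.Work.MP_b51559_nt.BG.C.S2B
import Pool.Agent.Work.MP_b51559_nt.BG.C.RS
import Pool.Agent.Work.MP_b51559_nt.BG.C.UPB
import Pool.Agent.Work.MP_b51559_nt.BG.C.ONA
import Pool.Agent.Work.MP_b51559_nt.BG.C.ONB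
import Pool.Agent.Work.MP_b51559_nt.BG.C.ONE
import Pool.Agent.Work.MP_b51559_nt.BG.C.TOT
import Pool.Agent.Work.MP_b51559_nt.BG.C.PERT
import Pool.Agent.Work.MP_b51559_nt.BG.C.D1
import Pool.Agent.Work.MP_b51559_nt.BG.C.KD
import Pool.Agent.Work.MP_b51559_nt.BG.C.TUP
import Pool.Agent.Work.MP_b51559_nt.BG.C.SUMK
import Pool.Agent.Work.MP_b51559_nt.BG.C.SUMN
import Pool.Agent.Work.MP_b51559_nt.BG.C.APX
import Pool.Agent.Work.MP_b51559_nt.BG.C.BVM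
import Pool.Agent.Work.MP_b51559_nt.BG.C.MG
import Pool.Agent.Work.MP_b51559_nt.BG.C.SQ
import Pool.Agent.Work.MP_b51559_nt.BG.C.PH
import Pool.Agent.Work.MP_b51559_nt.BG.C.GII
import Pool.Agent.Work.MP_b51559_nt.BG.C.JD
import Pool.Agent.Work.MP_b51559_nt.BG.C.YM
import Pool.Agent.Work.MP_b51559_nt.BG.C.BST
import Pool.Agent.Work.MP_b51559_nt.BG.C.GRA
import Pool.Agent.Work.MP_b51559_nt.BG.C.KBQ
import Pool.Agent.Work.MP_b51559_nt.BG.C.L1S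
import Pool.Agent.Work.MP_b51559_nt.BG.C.KB
import Pool.Agent.Work.MP_b51559_nt.BG.C.S1A
import Pool.Agent.Work.MP_b51559_nt.BG.C.GRM
import Pool.Agent.Work.MP_b51559_nt.BG.C.AL
import Pool.Agent.Work.MP_b51559_nt.BG.C.LIN
import Pool.Agent.Work.MP_b51559_nt.BG.C.DEC
import Pool.Agent.Work.MP_b51559_nt.BG.C.ALD
import Pool.Agent.Work.MP_b51559_nt.BG.C.S2A
import Pool.Agent.Work.MP_b51559_nt.BG.C.POS
import Pool.Agent.Work.MP_b51559_nt.BG.C.MAIN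

set_option autoImplicit false

/-!
# Part C: the sieve theorem
-/

namespace MPb51559.BG

theorem all_TOT : C_TOT := prf_TOT prf_BAS (prf_ONE prf_ONA prf_ONB)
theorem all_ONE : C_ONE := prf_ONE prf_ONA prf_ONB
theorem all_QN : C_QN := prf_QN prf_QF
theorem all_SZ : C_SZ := prf_SZ prf_TAU
theorem all_S1E : C_S1E := prf_S1E prf_BAS prf_ADJ prf_CRT prf_WPS
theorem all_S2E : C_S2E := prf_S2E prf_BAS prf_ADJ prf_CRT prf_TMS
theorem all_PERT : C_PERT := prf_PERT all_TOT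
theorem all_KD : C_KD := prf_KD prf_D1
theorem all_SUMK : C_SUMK := prf_SUMK prf_BAS all_ONE all_KD (prf_TUP prf_BAS) all_TOT
theorem all_SUMN : C_SUMN := prf_SUMN all_SUMK
theorem all_APX : C_APX := prf_APX all_SUMN all_TOT all_PERT prf_BAS
theorem all_PH : C_PH := prf_PH prf_BVM prf_MG
theorem all_YM : C_YM := prf_YM prf_BAS prf_SUP prf_CONV (prf_CVA prf_BAS) (prf_MSU prf_BAS) all_TOT
  all_ONE prf_D1
theorem all_BST : C_BST := prf_BST prf_CONVB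
theorem all_GRA : C_GRA := prf_GRA prf_BAS all_QN all_YM prf_MG all_PH all_APX all_PERT
theorem all_EXTQ : C_EXTQ := prf_EXTQ all_QN prf_SUP prf_VLR
theorem all_KBQ : C_KBQ := prf_KBQ prf_BAS prf_SUP all_ONE all_YM all_BST all_EXTQ prf_MG all_PH all_APX
theorem all_L1S : C_L1S := prf_L1S prf_SUP prf_TAU all_SZ
theorem all_KB : C_KB := prf_KB prf_SUP all_YM all_BST (prf_EXT prf_INV prf_SUP) all_PH all_KBQ all_L1S
  all_S1E (prf_UPB prf_RS)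
theorem all_S1A : C_S1A := prf_S1A prf_BAS (prf_SQ prf_BVM) all_S1E all_L1S all_QN all_PERT all_SUMK
theorem all_S2B (h : BVE) : C_S2B := prf_S2B prf_SUP all_SZ all_S2E (prf_BVS h) prf_JCT
theorem all_GRM (h : BVE) (hP : PNTW) : C_GRM :=
  prf_GRM (all_S2B h) (prf_QO prf_QF) all_YM all_GRA hP

theorem prf_SIEVE : SIEVE := by
  intro hBV hP k hk h hAdm P hOk F hF hCrit
  obtain ⟨w, hw⟩ := prf_Wex
  have hk0 : 0 < k := by omega
  have h1 : S1Concl w h F := all_S1A w hw k h hk0 hAdm.1 P.T F hOk.hT1 hOk.hT2 hF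
  have h2 : UppConcl w h F := all_KB w hw k h hk0 hAdm.1 P.T F hOk.hT1 hOk.hT2 hF
  have h3 : GramConcl w h F := all_GRM hBV hP w hw k h hk0 hAdm.1 P.T F hOk.hT1 hOk.hT2 hF
  have h4 : YmConcl P.T F := by
    intro δ hδ0 hδ1
    obtain ⟨C, _, hC⟩ := all_YM k P.T F hOk.hT1 hOk.hT2 hF δ hδ0 hδ1
    obtain ⟨D1, hD1⟩ := hC 1 one_pos
    refine ⟨D1, fun D0 hD0 => ?_⟩
    obtain ⟨x0, hx0⟩ := hD1 D0 hD0
    exact ⟨x0, fun x hx m r => (hx0 x hx m r).2.1⟩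
  have h5 : S2Concl w h P F := prf_S2A prf_INV prf_RS prf_DEC prf_LIN prf_AL prf_ALD
    (prf_GII prf_MG) (prf_JD prf_MG) w hw k h hk0 P F hOk hF h3 h2 h4
  exact prf_MAIN prf_V0 prf_POS w hw k h hk0 hAdm P F hOk hF hCrit h1 h5

end MPb51559.BG
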