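import Pool.Agent.Work.MP_b51559_nt.BG.C.Stmts2

/-!
# Part C, item BVM: variation of a product
-/

set_option autoImplicit false

namespace MPb51559.BG

open Finset Filter Topology MeasureTheory

namespace IBVM

theorem step (f g : ℝ → ℝ) (Mf Mg : ℝ) (hf : ∀ s, |f s| ≤ Mf) (hg : ∀ s, |g s| ≤ Mg) (a b : ℝ) :
    edist (f a * g a) (f b * g b) ≤
      ENNReal.ofReal Mf * edist (g a) (g b) + ENNReal.ofReal Mg * edist (f a) (f b) := by
  have hMf : 0 ≤ Mf := (abs_nonneg _).trans (hf 0)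
  have hMg : 0 ≤ Mg := (abs_nonneg _).trans (hg 0)
  rw [edist_dist, edist_dist, edist_dist, ← ENNReal.ofReal_mul hMf, ← ENNReal.ofReal_mul hMg,
    ← ENNReal.ofReal_add (mul_nonneg hMf dist_nonneg) (mul_nonneg hMg dist_nonneg)]
  apply ENNReal.ofReal_le_ofReal
  rw [Real.dist_eq, Real.dist_eq, Real.dist_eq]
  have h1 : f a * g a - f b * g b = f a * (g a - g b) + g b * (f a - f b) := by ring
  rw [h1]
  refine (abs_add_le _ _).trans ?_
  rw [abs_mul, abs_mul]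
  exact add_le_add (mul_le_mul_of_nonneg_right (hf a) (abs_nonneg _))
    (mul_le_mul_of_nonneg_right (hg b) (abs_nonneg _))

end IBVM

theorem prf_BVM : C_BVM := by
  intro f g Mf Mg Vf Vg hf hg hVf hVg
  have hMf : 0 ≤ Mf := (abs_nonneg _).trans (hf 0)
  have hMg : 0 ≤ Mg := (abs_nonneg _).trans (hg 0)
  have hR : ENNReal.ofReal (Mf * Vg + Mg * Vf) =
      ENNReal.ofReal Mf * (Vg : ENNReal) + ENNReal.ofReal Mg * (Vf : ENNReal) := by
    rw [ENNReal.ofReal_add (mul_nonneg hMf Vg.coe_nonneg) (mul_nonneg hMg Vf.coe_nonneg), ENNReal.ofReal_mul hMf,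
      ENNReal.ofReal_mul hMg, ENNReal.ofReal_coe_nnreal, ENNReal.ofReal_coe_nnreal]
  rw [hR]
  refine iSup_le fun p => ?_
  have h1 : ∑ i ∈ Finset.range p.1, edist (g (p.2.1 (i + 1))) (g (p.2.1 i)) ≤ (Vg : ENNReal) :=
    (le_iSup (fun q : ℕ × {u : ℕ → ℝ // Monotone u ∧ ∀ i, u i ∈ (Set.univ : Set ℝ)} =>
      ∑ i ∈ Finset.range q.1, edist (g (q.2.1 (i + 1))) (g (q.2.1 i))) p).trans hVg
  have h2 : ∑ i ∈ Finset.range p.1, edist (f (p.2.1 (i + 1))) (f (p.2.1 i)) ≤ (Vf : ENNReal) :=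
    (le_iSup (fun q : ℕ × {u : ℕ → ℝ // Monotone u ∧ ∀ i, u i ∈ (Set.univ : Set ℝ)} =>
      ∑ i ∈ Finset.range q.1, edist (f (q.2.1 (i + 1))) (f (q.2.1 i))) p).trans hVf
  calc ∑ i ∈ Finset.range p.1, edist (f (p.2.1 (i + 1)) * g (p.2.1 (i + 1)))
        (f (p.2.1 i) * g (p.2.1 i))
      ≤ ∑ i ∈ Finset.range p.1,
        (ENNReal.ofReal Mf * edist (g (p.2.1 (i + 1))) (g (p.2.1 i)) +
          ENNReal.ofReal Mg * edist (f (p.2.1 (i + 1))) (f (p.2.1 i))) :=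
        Finset.sum_le_sum fun i _ => IBVM.step f g Mf Mg hf hg _ _
    _ = ENNReal.ofReal Mf * ∑ i ∈ Finset.range p.1, edist (g (p.2.1 (i + 1))) (g (p.2.1 i)) +
        ENNReal.ofReal Mg * ∑ i ∈ Finset.range p.1, edist (f (p.2.1 (i + 1))) (f (p.2.1 i)) := by
        rw [Finset.sum_add_distrib, Finset.mul_sum, Finset.mul_sum]
    _ ≤ _ := add_le_add (mul_le_mul_right h1 _) (mul_le_mul_right h2 _)

end MPb51559.BG
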