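import Pool.Agent.Work.MP_b51559_nt.BG.C.Stmts

set_option autoImplicit false

/-!
# Part C: conversion to direction m
-/

namespace MPb51559.BG

open Finset Filter Topology MeasureTheory
open scoped Classical

section
variable {S : Finset ℕ} {k : ℕ}

/-- the local term -/
noncomputable def CONV_F (m : Fin k) (p : ℝ) (r u x : Option (Fin k)) : ℝ :=
  if (r = none ∨ r = x) ∧ x ≠ some m ∧ (x = none ∨ x = u) then
    (if x = none then 1 else -(p / (p - 1))) else 0

theorem CONV_sum (m : Fin k) (p : ℝ) (r u : Option (Fin k)) :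
    ∑ x, CONV_F m p r u x = (if r = none then 1 else 0) +
      (if u ≠ none ∧ u ≠ some m ∧ (r = none ∨ r = u) then -(p / (p - 1)) else 0) := by
  rw [Fintype.sum_option]
  congr 1
  · unfold CONV_F
    by_cases hr : r = none
    · rw [if_pos hr, if_pos ⟨Or.inl hr, (by simp), Or.inl rfl⟩, if_pos rfl]
    · rw [if_neg hr, if_neg]
      rintro ⟨h1 | h1, -⟩
      · exact hr h1
      · exact hr h1
  · cases u with
    | none =>
      rw [if_neg (by simp)]
      refine Finset.sum_eq_zero fun i _ => ?_
      unfold CONV_F
      rw [if_neg]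
      rintro ⟨-, -, h | h⟩
      · exact absurd h (by simp)
      · exact absurd h (by simp)
    | some j =>
      rw [Finset.sum_eq_single j]
      · unfold CONV_F
        by_cases h : (some j : Option (Fin k)) ≠ some m ∧ (r = none ∨ r = some j)
        · rw [if_pos ⟨h.2, h.1, Or.inr rfl⟩, if_neg (by simp), if_pos ⟨by simp, h.1, h.2⟩]
        · rw [if_neg, if_neg]
          · rintro ⟨-, h1, h2⟩
            exact h ⟨h1, h2⟩
          · rintro ⟨h1, h2, -⟩
            exact h ⟨h2, h1⟩
      · intro i _ hij
        unfold CONV_F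
        rw [if_neg]
        rintro ⟨-, -, h | h⟩
        · exact absurd h (by simp)
        · exact hij (Option.some_injective _ h)
      · intro h
        exact absurd (Finset.mem_univ j) h

theorem CONV_loc (m : Fin k) {p : ℝ} (hp : 2 < p) (r u : Option (Fin k)) (hr : r ≠ some m) :
    (if r = none then (1 : ℝ) else -1) * (if r = none then (1 : ℝ) else p - 1 - 1) *
      ((if u = none then (1 : ℝ) else p - 1)⁻¹ * ∑ x, CONV_F m p r u x) = kloc m p r u := by
  have h1 : p - 1 ≠ 0 := by linarith
  rw [CONV_sum]
  unfold kloc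
  by_cases h0 : r = none
  · subst h0
    by_cases hu : u = none
    · subst hu
      simp
    · by_cases hum : u = some m
      · subst hum
        simp
      · simp only [if_true, hu, hum, if_false, ne_eq, not_false_eq_true, true_or, and_self]
        field_simp
        ring
  · by_cases hru : r = u
    · subst hru
      simp only [h0, hr, if_false, ne_eq, not_false_eq_true, or_true, and_self, if_true]
      field_simp
      ring
    · simp only [h0, hru, hr, if_false, ne_eq, false_and, and_false, or_self, mul_zero, add_zero]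

/-- the product of the local terms -/
theorem CONV_prod (m : Fin k) (r u d : Co S k) :
    ∏ p : {p // p ∈ S}, CONV_F m (p : ℝ) (r p) (u p) (d p) =
      if Le r d ∧ NoC m d ∧ Le d u then mw (fun _ => -1) d * mw aP d / mw aF d else 0 := by
  by_cases h : Le r d ∧ NoC m d ∧ Le d u
  · rw [if_pos h]
    unfold mw
    rw [← Finset.prod_mul_distrib, ← Finset.prod_div_distrib]
    refine Finset.prod_congr rfl fun p _ => ?_
    unfold CONV_F
    rw [if_pos ⟨h.1 p, h.2.1 p, h.2.2 p⟩]
    by_cases hd : d p = none
    · simp [hd]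
    · simp only [hd, if_false, aP, aF]
      ring
  · rw [if_neg h]
    have hex : ∃ p : {p // p ∈ S}, ¬ ((r p = none ∨ r p = d p) ∧ d p ≠ some m ∧
        (d p = none ∨ d p = u p)) := by
      by_contra hcon
      push Not at hcon
      exact h ⟨fun p => (hcon p).1, fun p => (hcon p).2.1, fun p => (hcon p).2.2⟩
    obtain ⟨p, hp⟩ := hex
    refine Finset.prod_eq_zero (Finset.mem_univ p) ?_
    unfold CONV_F
    rw [if_neg hp]

end

theorem prf_CONV : C_CONV := by
  intro S k hS m y r hr
  have key : ∀ u : Co S k, mw (fun _ => -1) r * mw (fun p => aF p - 1) r *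
      ((mw (fun p => aP p - 1) u)⁻¹ * ∑ d : Co S k,
        (if Le r d ∧ NoC m d ∧ Le d u then mw (fun _ => -1) d * mw aP d / mw aF d else 0)) =
      ∏ p : {p // p ∈ S}, kloc m (p : ℝ) (r p) (u p) := by
    intro u
    have h1 : (∑ d : Co S k,
        (if Le r d ∧ NoC m d ∧ Le d u then mw (fun _ => -1) d * mw aP d / mw aF d else 0)) =
        ∏ p : {p // p ∈ S}, ∑ x, CONV_F m (p : ℝ) (r p) (u p) x := by
      rw [Finset.prod_univ_sum, Fintype.piFinset_univ]
      exact Finset.sum_congr rfl fun d _ => (CONV_prod m r u d).symm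
    rw [h1]
    unfold mw
    rw [← Finset.prod_inv_distrib, ← Finset.prod_mul_distrib, ← Finset.prod_mul_distrib,
      ← Finset.prod_mul_distrib]
    refine Finset.prod_congr rfl fun p _ => ?_
    have hp : (2 : ℝ) < (p : ℕ) := by exact_mod_cast hS p p.2
    exact CONV_loc m hp (r p) (u p) (hr p)
  have hR : ∑ u, y u * ∏ p : {p // p ∈ S}, kloc m (p : ℝ) (r p) (u p) =
      ∑ u : Co S k, ∑ d : Co S k, (mw (fun _ => -1) r * mw (fun p => aF p - 1) r) *
        (if Le r d ∧ NoC m d ∧ Le d u then
          mw (fun _ => -1) d * mw aP d / mw aF d * (y u / mw (fun p => aP p - 1) u) else 0) := by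
    refine Finset.sum_congr rfl fun u _ => ?_
    rw [← key u, ← Finset.mul_sum]
    rw [mul_left_comm]
    congr 1
    rw [Finset.mul_sum, Finset.mul_sum]
    refine Finset.sum_congr rfl fun d _ => ?_
    split_ifs
    · ring
    · ring
  rw [hR, Finset.sum_comm]
  unfold ytr
  rw [Finset.mul_sum, Finset.sum_filter]
  refine Finset.sum_congr rfl fun d _ => ?_
  by_cases hrd : Le r d
  · rw [if_pos hrd]
    by_cases hd : NoC m d
    · unfold rst lam
      rw [if_pos hd, Finset.mul_sum, Finset.sum_div, Finset.mul_sum, Finset.sum_filter]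
      refine Finset.sum_congr rfl fun u _ => ?_
      by_cases hdu : Le d u
      · rw [if_pos hdu, if_pos ⟨hrd, hd, hdu⟩]
        ring
      · rw [if_neg hdu, if_neg (fun h => hdu h.2.2), mul_zero]
    · unfold rst
      rw [if_neg hd, zero_div, mul_zero]
      symm
      refine Finset.sum_eq_zero fun u _ => ?_
      rw [if_neg (fun h => hd h.2.1), mul_zero]
  · rw [if_neg hrd]
    symm
    refine Finset.sum_eq_zero fun u _ => ?_
    rw [if_neg (fun h => hrd h.1), mul_zero]

end MPb51559.BG
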