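import Pool.Agent.Work.MP_b51559_nt.BG.Defs

set_option autoImplicit false

/-!
# Part C: definitions for the sieve with layers
-/

namespace MPb51559.BG

open Finset Filter Topology MeasureTheory
open scoped Classical

/-- colourings: each prime of `S` gets no colour or one of the `k` colours. They play the role of
the tuples (d_1, .., d_k) of pairwise coprime squarefree numbers of Maynard -/
abbrev Co (S : Finset ℕ) (k : ℕ) : Type := {p // p ∈ S} → Option (Fin k)

section
variable {S : Finset ℕ} {k : ℕ}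

/-- multiplicative weight: product of `f p` over the coloured primes -/
noncomputable def mw (f : ℕ → ℝ) (r : Co S k) : ℝ := ∏ p, if r p = none then 1 else f p

/-- the product of the coloured primes -/
noncomputable def nrm (r : Co S k) : ℕ := ∏ p, if r p = none then 1 else (p : ℕ)

/-- the product of the primes of colour `i` -/
noncomputable def prt (i : Fin k) (r : Co S k) : ℕ := ∏ p, if r p = some i then (p : ℕ) else 1

/-- `e` extends `d` -/
def Le (d e : Co S k) : Prop := ∀ p, d p = none ∨ d p = e p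

/-- compatible colourings -/
def Cmp (d e : Co S k) : Prop := ∀ p, d p = none ∨ e p = none ∨ d p = e p

/-- the join -/
noncomputable def jn (d e : Co S k) : Co S k := fun p => if d p = none then e p else d p

/-- the colour `m` does not occur -/
def NoC (m : Fin k) (r : Co S k) : Prop := ∀ p, r p ≠ some m

/-- the two densities -/
noncomputable def aP : ℕ → ℝ := fun p => (p : ℝ)
noncomputable def aF : ℕ → ℝ := fun p => (p : ℝ) - 1

/-- sieve weights from the diagonal variables `y` -/
noncomputable def lam (a : ℕ → ℝ) (y : Co S k → ℝ) (d : Co S k) : ℝ :=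
  mw (fun _ => -1) d * mw a d * ∑ r ∈ univ.filter (fun r => Le d r), y r / mw (fun p => a p - 1) r

/-- diagonal variables from the sieve weights -/
noncomputable def ytr (a : ℕ → ℝ) (l : Co S k → ℝ) (r : Co S k) : ℝ :=
  mw (fun _ => -1) r * mw (fun p => a p - 1) r * ∑ d ∈ univ.filter (fun d => Le r d), l d / mw a d

/-- the quadratic form -/
noncomputable def Qf (a : ℕ → ℝ) (l l' : Co S k → ℝ) : ℝ :=
  ∑ d, ∑ e, if Cmp d e then l d * l' e / mw a (jn d e) else 0

/-- restriction to the colourings without colour `m` -/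
noncomputable def rst (m : Fin k) (l : Co S k → ℝ) (d : Co S k) : ℝ := if NoC m d then l d else 0

/-- the colour `m` is removed -/
noncomputable def dl (m : Fin k) (r : Co S k) : Co S k := fun p => if r p = some m then none else r p

/-- local factor of the diagonalised form -/
noncomputable def cloc (a : ℝ) (u v : Option (Fin k)) : ℝ :=
  if u = none ∧ v = none then 1 else if u = none ∨ v = none then 0 else
    if u = v then a - 1 else -1

/-- local factor of the conversion from `aP` to `aF` (colour `m` summed out) -/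
noncomputable def kloc (m : Fin k) (p : ℝ) (r u : Option (Fin k)) : ℝ :=
  if r = none then (if u = none then 1 else if u = some m then 1 / (p - 1) else -1 / (p - 1) ^ 2)
  else if r = u ∧ r ≠ some m then 1 - 1 / (p - 1) ^ 2 else 0

/-- local factor of the conversion from `aF` to `aP` -/
noncomputable def iloc (p : ℝ) (r u : Option (Fin k)) : ℝ :=
  if r = none then (if u = none then 1 else 1 / (p * (p - 2)))
  else if r = u then (p - 1) ^ 2 / (p * (p - 2)) else 0

/-- logarithmic sizes of the parts -/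
noncomputable def tv (R : ℝ) (r : Co S k) : Fin k → ℝ :=
  fun i => Real.log (prt i r : ℝ) / Real.log R

/-- logarithmic size -/
noncomputable def sz (R : ℝ) (r : Co S k) : ℝ := Real.log (nrm r : ℝ) / Real.log R

/-- the diagonal variables of the test function `F` -/
noncomputable def yF (R : ℝ) (F : (Fin k → ℝ) → ℝ) (r : Co S k) : ℝ := F (tv R r)

/-- the diagonal variables of direction `m` -/
noncomputable def ym (R : ℝ) (F : (Fin k → ℝ) → ℝ) (m : Fin k) : Co S k → ℝ :=
  ytr aF (rst m (lam aP (yF R F)))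

/-- the slice of `y` with sizes in the set `I` -/
noncomputable def slc (R : ℝ) (I : Set ℝ) (y : Co S k → ℝ) (r : Co S k) : ℝ :=
  if sz R r ∈ I then y r else 0

/-- `n` adheres to the colouring: `p` divides `n + h i` for every prime `p` of colour `i` -/
def Adh (h : Fin k → ℕ) (d : Co S k) (n : ℕ) : Prop := ∀ p i, d p = some i → (p : ℕ) ∣ n + h i

/-- the sieve sum -/
noncomputable def Vn (h : Fin k → ℕ) (l : Co S k → ℝ) (n : ℕ) : ℝ :=
  ∑ d ∈ univ.filter (fun d => Adh h d n), l d

end

/-- the weight of S1: the maximum of the shifted weights -/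
noncomputable def wp (w : ℝ → ℝ) {k : ℕ} (h : Fin k → ℕ) (x : ℝ) (n : ℕ) : ℝ :=
  ⨆ m : Fin k, w (((n : ℝ) + h m) / x)

/-- the prime weight in direction `m` -/
noncomputable def tm (w : ℝ → ℝ) {k : ℕ} (h : Fin k → ℕ) (x : ℝ) (m : Fin k) (n : ℕ) : ℝ :=
  if (n + h m).Prime then Real.log ((n : ℝ) + h m) * w (((n : ℝ) + h m) / x) else 0

/-- the allowed primes -/
noncomputable def Sx (D0 : ℕ) (x : ℝ) : Finset ℕ :=
  (range ⌊x⌋₊).filter (fun p => p.Prime ∧ D0 < p)

/-- phi(W)/W -/
noncomputable def kap (D0 : ℕ) : ℝ := ((primorial D0).totient : ℝ) / (primorial D0 : ℝ)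

noncomputable def Rx (δ x : ℝ) : ℝ := x ^ (1 / 4 - δ)

/-- the basic unit kappa log R -/
noncomputable def lk (D0 : ℕ) (δ x : ℝ) : ℝ := kap D0 * Real.log (Rx δ x)

/-- kappa log x -/
noncomputable def kl (D0 : ℕ) (x : ℝ) : ℝ := kap D0 * Real.log x

/-- eventually in D0, then in x -/
def Ev (P : ℕ → ℝ → Prop) : Prop := ∃ D1 : ℕ, ∀ D0 ≥ D1, ∃ x0 : ℝ, ∀ x ≥ x0, P D0 x

/-- squarefree numbers at most `z` composed of primes of `S` -/
noncomputable def SqF (S : Finset ℕ) (z : ℝ) : Finset ℕ :=
  (Icc 1 ⌊z⌋₊).filter (fun n => Squarefree n ∧ ∀ p, p.Prime → p ∣ n → p ∈ S)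

/-- the sum of 1/phi -/
noncomputable def Hs (S : Finset ℕ) (z : ℝ) : ℝ := ∑ n ∈ SqF S z, 1 / (n.totient : ℝ)

/-- weighted sums of S1 over the progression `v0` mod `W` -/
noncomputable def S1 (w : ℝ → ℝ) {S : Finset ℕ} {k : ℕ} (h : Fin k → ℕ) (D0 v0 : ℕ) (x : ℝ)
    (l l' : Co S k → ℝ) : ℝ :=
  ∑ n ∈ (range (⌊2 * x⌋₊ + 1)).filter (fun n => n ≡ v0 [MOD primorial D0]),
    wp w h x n * (Vn h l n * Vn h l' n)

/-- weighted sums of S2 over the progression -/
noncomputable def S2 (w : ℝ → ℝ) {S : Finset ℕ} {k : ℕ} (h : Fin k → ℕ) (D0 v0 : ℕ) (x : ℝ)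
    (m : Fin k) (l l' : Co S k → ℝ) : ℝ :=
  ∑ n ∈ (range (⌊2 * x⌋₊ + 1)).filter (fun n => n ≡ v0 [MOD primorial D0]),
    tm w h x m n * (Vn h l n * Vn h l' n)

/-- the error function of the distribution of primes, worst residue class -/
noncomputable def Eq1 (w : ℝ → ℝ) (x : ℝ) (q : ℕ) : ℝ :=
  ⨆ a : Fin (q + 1), if (a : ℕ).Coprime q then |thW w x q a - thW w x 1 0 / (q.totient : ℝ)| else 0

/-- sections of bounded variation, bounded, measurable, supported in a cube -/
structure BVk (k : ℕ) (T0 M : ℝ) (V : NNReal) (Φ : (Fin k → ℝ) → ℝ) : Prop where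
  meas : Measurable Φ
  supp : ∀ t, Φ t ≠ 0 → ∀ i, 0 ≤ t i ∧ t i ≤ T0
  bdd : ∀ t, |Φ t| ≤ M
  bv : ∀ (t : Fin k → ℝ) (i : Fin k), eVariationOn (fun s => Φ (Function.update t i s)) Set.univ ≤ V

end MPb51559.BG
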