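import Pool.Agent.Work.MP_b51559_nt.BG.C.Stmts2

set_option autoImplicit false

/-!
# L1S: absolute sums of the weights
-/

namespace MPb51559.BG

open Finset Filter Topology MeasureTheory
open scoped Classical

namespace L1Sx

theorem mem_Sx {D0 : ℕ} {x : ℝ} {p : ℕ} (hD : 3 ≤ D0) (hp : p ∈ Sx D0 x) : p.Prime ∧ 3 < p := by
  unfold Sx at hp
  rw [mem_filter] at hp
  exact ⟨hp.2.1, lt_of_le_of_lt hD hp.2.2⟩

theorem mw_two_nonneg {S : Finset ℕ} {k : ℕ} (r : Co S k) : 0 ≤ mw (fun _ => (2 : ℝ)) r := by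
  unfold mw
  refine prod_nonneg fun p _ => ?_
  split_ifs <;> norm_num

theorem bound (k : ℕ) (L : ℝ) (hL : 1 ≤ L) (hk : (16 : ℝ) ^ k ≤ L ^ 6) :
    L ^ 2 * (1 + L) ^ (4 * k) ≤ L ^ (4 * k + 8) := by
  have h0 : (0 : ℝ) ≤ L := by linarith
  calc L ^ 2 * (1 + L) ^ (4 * k) ≤ L ^ 2 * (2 * L) ^ (4 * k) := by
        gcongr
        linarith
    _ = (16 : ℝ) ^ k * (L ^ 2 * L ^ (4 * k)) := by
        rw [mul_pow, pow_mul (2 : ℝ) 4 k]
        norm_num
        ring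
    _ ≤ L ^ 6 * (L ^ 2 * L ^ (4 * k)) := by gcongr
    _ = L ^ (4 * k + 8) := by ring

end L1Sx

theorem prf_L1S (hSUP : C_SUP) (hTAU : C_TAU) (hSZ : C_SZ) : C_L1S := by
  intro k
  refine ⟨Real.exp ((16 : ℝ) ^ k), ?_⟩
  intro x hx D0 hD θ hθ0 hθ1 y hy hys
  have h16 : (1 : ℝ) ≤ (16 : ℝ) ^ k := one_le_pow₀ (by norm_num)
  have hx0 : 0 < x := lt_of_lt_of_le (Real.exp_pos _) hx
  have hL : (16 : ℝ) ^ k ≤ Real.log x := by
    rw [Real.le_log_iff_exp_le hx0]; exact hx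
  have hL1 : 1 ≤ Real.log x := h16.trans hL
  have hx1 : 1 ≤ x := by
    have := Real.add_one_le_exp ((16 : ℝ) ^ k)
    linarith
  have hxθ1 : 1 ≤ x ^ θ := Real.one_le_rpow hx1 hθ0
  have hxθ0 : 0 ≤ x ^ θ := by linarith
  obtain ⟨N, hNdef⟩ : ∃ N : ℕ, N = ⌊x ^ θ⌋₊ := ⟨_, rfl⟩
  have hN1 : 1 ≤ N := by
    rw [hNdef]; exact Nat.le_floor (by exact_mod_cast hxθ1)
  have hNle : (N : ℝ) ≤ x ^ θ := by rw [hNdef]; exact Nat.floor_le hxθ0
  have hN1' : (1 : ℝ) ≤ N := by exact_mod_cast hN1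
  have hlogN0 : 0 ≤ Real.log N := Real.log_nonneg hN1'
  have hlogN : Real.log N ≤ Real.log x := by
    refine Real.log_le_log (by linarith) (hNle.trans ?_)
    calc x ^ θ ≤ x ^ (1 : ℝ) := Real.rpow_le_rpow_of_exponent_le hx1 hθ1
      _ = x := Real.rpow_one x
  have hys' : ∀ r, y r ≠ 0 → nrm r ≤ N := by
    intro r hr
    rw [hNdef]
    exact Nat.le_floor (hys r hr)
  have hS1 : ∀ p ∈ Sx D0 x, 1 ≤ p := fun p hp => (L1Sx.mem_Sx hD hp).1.one_lt.le
  have hsup : ∀ d, lam aP y d ≠ 0 → nrm d ≤ N := by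
    intro d hd
    have := ((hSUP (Sx D0 x) k aP hS1 y).1 (N : ℝ) (fun r hr => by exact_mod_cast hys' r hr)).1 d hd
    exact_mod_cast this
  have hM : 0 ≤ Real.log x ^ 2 := by positivity
  have hsz := hSZ (Sx D0 x) k (fun p hp => L1Sx.mem_Sx hD hp) aP (Or.inl rfl) y (Real.log x ^ 2) N hN1
    hM hy hys'
  have htau := (hTAU (Sx D0 x) k 2 (fun p hp => (L1Sx.mem_Sx hD hp).1) N hN1).2
  have e1 : ∑ d, |lam aP y d| = ∑ d ∈ (univ : Finset (Co (Sx D0 x) k)).filter (fun r => nrm r ≤ N),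
      |lam aP y d| := by
    rw [sum_filter]
    refine sum_congr rfl fun d _ => ?_
    split_ifs with h
    · rfl
    · have : lam aP y d = 0 := by
        by_contra h0
        exact h (hsup d h0)
      rw [this, abs_zero]
  have hpow0 : 0 ≤ (1 + Real.log N) ^ (2 * k) := by positivity
  calc ∑ d, |lam aP y d| = ∑ d ∈ (univ : Finset (Co (Sx D0 x) k)).filter (fun r => nrm r ≤ N),
      |lam aP y d| := e1
    _ ≤ ∑ d ∈ (univ : Finset (Co (Sx D0 x) k)).filter (fun r => nrm r ≤ N),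
        Real.log x ^ 2 * (1 + Real.log N) ^ (2 * k) * mw (fun _ => (2 : ℝ)) d := by
        refine sum_le_sum fun d _ => ?_
        calc |lam aP y d| ≤ Real.log x ^ 2 * mw (fun _ => 2) d * (1 + Real.log N) ^ (2 * k) := hsz d
          _ = _ := by ring
    _ = Real.log x ^ 2 * (1 + Real.log N) ^ (2 * k) *
        ∑ d ∈ (univ : Finset (Co (Sx D0 x) k)).filter (fun r => nrm r ≤ N),
          mw (fun _ => (2 : ℝ)) d := by rw [mul_sum]
    _ ≤ Real.log x ^ 2 * (1 + Real.log N) ^ (2 * k) * (N * (1 + Real.log N) ^ (2 * k)) := by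
        refine mul_le_mul_of_nonneg_left ?_ (by positivity)
        simpa using htau
    _ = N * (Real.log x ^ 2 * (1 + Real.log N) ^ (4 * k)) := by
        rw [show 4 * k = 2 * k + 2 * k by ring, pow_add]
        ring
    _ ≤ x ^ θ * (Real.log x ^ 2 * (1 + Real.log x) ^ (4 * k)) := by gcongr
    _ ≤ x ^ θ * Real.log x ^ (4 * k + 8) := by
        refine mul_le_mul_of_nonneg_left (L1Sx.bound k _ hL1 ?_) hxθ0
        calc (16 : ℝ) ^ k ≤ Real.log x := hL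
          _ = Real.log x ^ 1 := (pow_one _).symm
          _ ≤ Real.log x ^ 6 := pow_le_pow_right₀ hL1 (by norm_num)

end MPb51559.BG
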