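import Pool.Agent.Work.MP_b51559_nt.BG.C.Stmts

set_option autoImplicit false

/-!
# Item ONB: the sum of `1/(c rad c)` converges

`c = b^2 a` with `a` squarefree, `rad c ≥ a`, so the term is at most `1/(a^2 b^2)`, and `c` is determined
by `(a, b)`.
-/

namespace MPb51559.BG

open Finset Filter Topology

theorem ONB_rad {a b c : ℕ} (h : b ^ 2 * a = c) (ha : Squarefree a) (hc : c ≠ 0) :
    a ≤ ∏ p ∈ c.primeFactors, p := by
  have h1 : a ∣ c := ⟨b ^ 2, by rw [← h, mul_comm]⟩
  have h2 : a.primeFactors ⊆ c.primeFactors := Nat.primeFactors_mono h1 hc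
  have h3 : ∏ p ∈ a.primeFactors, p = a := Nat.prod_primeFactors_of_squarefree ha
  calc a = ∏ p ∈ a.primeFactors, p := h3.symm
    _ ≤ ∏ p ∈ c.primeFactors, p := by
      refine Finset.prod_le_prod_of_subset_of_one_le' h2 fun p hp _ => ?_
      exact (Nat.prime_of_mem_primeFactors hp).one_le

theorem prf_ONB : C_ONB := by
  unfold C_ONB
  have hex : ∀ c : ℕ, ∃ q : ℕ × ℕ, q.2 ^ 2 * q.1 = c ∧ Squarefree q.1 := by
    intro c
    obtain ⟨a, b, h1, h2⟩ := Nat.sq_mul_squarefree c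
    exact ⟨(a, b), h1, h2⟩
  choose i hi1 hi2 using hex
  have hinj : Function.Injective i := by
    intro c c' h
    rw [← hi1 c, ← hi1 c', h]
  have hs : Summable fun n : ℕ => 1 / (n : ℝ) ^ 2 :=
    Real.summable_one_div_nat_pow.2 (by norm_num)
  have hg : Summable fun q : ℕ × ℕ => (1 / (q.1 : ℝ) ^ 2) * (1 / (q.2 : ℝ) ^ 2) :=
    hs.mul_of_nonneg hs (fun n => by positivity) (fun n => by positivity)
  refine Summable.of_nonneg_of_le (fun c => by positivity) (fun c => ?_) (hg.comp_injective hinj)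
  simp only [Function.comp]
  rcases Nat.eq_zero_or_pos c with h0 | h0
  · rw [h0]
    simp only [Nat.cast_zero, zero_mul, div_zero]
    positivity
  · have hc := hi1 c
    have ha := ONB_rad hc (hi2 c) h0.ne'
    have ha0 : 0 < (i c).1 := Nat.pos_of_ne_zero (hi2 c).ne_zero
    have hb0 : 0 < (i c).2 := by
      rcases Nat.eq_zero_or_pos (i c).2 with h | h
      · rw [h] at hc
        simp at hc
        omega
      · exact h
    have ha1 : (0 : ℝ) < (i c).1 := by exact_mod_cast ha0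
    have hb1 : (0 : ℝ) < (i c).2 := by exact_mod_cast hb0
    have hcr : (c : ℝ) = ((i c).2 : ℝ) ^ 2 * ((i c).1 : ℝ) := by
      have : ((((i c).2 ^ 2 * (i c).1 : ℕ)) : ℝ) = (c : ℝ) := by rw [hc]
      rw [← this]
      push_cast
      ring
    have har : ((i c).1 : ℝ) ≤ ((∏ p ∈ c.primeFactors, p : ℕ) : ℝ) := by exact_mod_cast ha
    rw [one_div_mul_one_div]
    apply one_div_le_one_div_of_le
    · positivity
    · rw [hcr]
      calc ((i c).1 : ℝ) ^ 2 * ((i c).2 : ℝ) ^ 2 =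
          ((i c).2 : ℝ) ^ 2 * ((i c).1 : ℝ) * ((i c).1 : ℝ) := by ring
        _ ≤ ((i c).2 : ℝ) ^ 2 * ((i c).1 : ℝ) * ((∏ p ∈ c.primeFactors, p : ℕ) : ℝ) := by
          gcongr

end MPb51559.BG
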