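import Pool.Agent.Work.MP_b51559_nt.BG.C.Stmts

set_option autoImplicit false

/-!
# Part C: statements, second part (the test function, the asymptotics, the assembly)
-/

namespace MPb51559.BG

open Finset Filter Topology MeasureTheory
open scoped Classical

/-! ## Group 4: functions -/

/-- BVM: variation of a product. -/
def C_BVM : Prop := ∀ (f g : ℝ → ℝ) (Mf Mg : ℝ) (Vf Vg : NNReal), (∀ s, |f s| ≤ Mf) →
  (∀ s, |g s| ≤ Mg) → eVariationOn f Set.univ ≤ Vf → eVariationOn g Set.univ ≤ Vg →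
  eVariationOn (fun s => f s * g s) Set.univ ≤ ENNReal.ofReal (Mf * Vg + Mg * Vf)

/-- MG: marginals. F(update t m u) /= 0 forces 0 ≤ u ≤ T, so the marginal is an integral over [0,T]:
bounded by M T, measurable, and the variation in direction i /= m is at most the integral of the
variations, V T (in direction m it is constant). -/
def C_MG : Prop := ∀ (k : ℕ) (T : ℝ) (F : (Fin k → ℝ) → ℝ), 0 < T → Tst k T F →
  ∃ (M : ℝ) (V : NNReal), 0 ≤ M ∧ ∀ m : Fin k, Measurable (marg F m) ∧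
  (∀ t, |marg F m t| ≤ M) ∧ (∀ t s, marg F m (Function.update t m s) = marg F m t) ∧
  (∀ t, marg F m t ≠ 0 → (∀ j, j ≠ m → 0 ≤ t j) ∧ ∑ j ∈ univ.erase m, t j ≤ T) ∧
  ∀ (t : Fin k → ℝ) (i : Fin k),
    eVariationOn (fun s => marg F m (Function.update t i s)) Set.univ ≤ V

/-- SQ: the square of a test function. USES: C_BVM. -/
def C_SQ : Prop := ∀ (k : ℕ) (T : ℝ) (F : (Fin k → ℝ) → ℝ), 0 < T → Tst k T F →
  ∃ (M : ℝ) (V : NNReal), 0 ≤ M ∧ BVk k T M V (fun t => F t ^ 2)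

/-- step multiplier: sum of c j on the intervals (a j, b j] -/
noncomputable def stp (J : ℕ) (a b c : ℕ → ℝ) (s : ℝ) : ℝ :=
  ∑ j ∈ range J, c j * (if a j < s ∧ s ≤ b j then 1 else 0)

/-- the sum of the variables other than m -/
noncomputable def so {k : ℕ} (m : Fin k) (t : Fin k → ℝ) : ℝ := ∑ j ∈ univ.erase m, t j

/-- PH: the integrands of the norms are of class BVk, uniformly in bounded multipliers. Products of
functions with bounded variation in each variable (BVM, MG); the step multiplier composed with t j ↦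
constant + t j has at most 2 J jumps of size at most J C0; 1/(2-s) may be replaced by
1/(2 - max 0 (min s T)), monotone and bounded by 1/(2-T), since the marginal vanishes for s > T. The cut
in the variable m adds at most twice the bound. Support: t j ≥ 0, sum ≤ T, so t j ≤ T; and t m < 1 < T. USES: C_BVM, C_MG. -/
def C_PH : Prop := ∀ (k : ℕ) (T : ℝ) (F : (Fin k → ℝ) → ℝ), 1 < T → T < 2 →
  Tst k T F → ∀ (C0 : ℝ) (J : ℕ) (a b : ℕ → ℝ), ∃ (M : ℝ) (V : NNReal), 0 ≤ M ∧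
  ∀ (m : Fin k) (c : ℕ → ℝ), (∀ j < J, |c j| ≤ C0) →
  BVk k T M V (cutm m (fun t => stp J a b c (so m t) ^ 2 * marg F m t ^ 2)) ∧
  BVk k T M V (cutm m (fun t => stp J a b c (so m t) ^ 2 * marg F m t ^ 2 / (2 - so m t)))

/-- squared norm of a slice -/
noncomputable def GI {k : ℕ} (F : (Fin k → ℝ) → ℝ) (m : Fin k) (a b : ℝ) : ℝ :=
  ∫ t, cutm m (fun t => if a < so m t ∧ so m t ≤ b then marg F m t ^ 2 else 0) t

/-- upper bound norm of a slice -/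
noncomputable def GK {k : ℕ} (F : (Fin k → ℝ) → ℝ) (m : Fin k) (a b : ℝ) : ℝ :=
  ∫ t, cutm m (fun t => if a < so m t ∧ so m t ≤ b then marg F m t ^ 2 * (4 / (2 - so m t))
    else 0) t

/-- GII: integrals of step multiples over disjoint intervals, comparison of GK and GI. All integrands
are bounded with bounded support (PH gives measurability and bounds). USES: C_BVM, C_MG, C_PH. -/
def C_GII : Prop := ∀ (k : ℕ) (T : ℝ) (F : (Fin k → ℝ) → ℝ), 1 < T →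
  T < 2 → Tst k T F → ∀ m : Fin k, (∀ a b, 0 ≤ GI F m a b ∧ (b ≤ T → 0 ≤ GK F m a b) ∧
    (b < 2 → GK F m a b ≤ 4 / (2 - b) * GI F m a b)) ∧
  ∀ (J : ℕ) (a b c : ℕ → ℝ), (∀ i < J, ∀ j < J, i ≠ j → Disjoint (Set.Ioc (a i) (b i))
    (Set.Ioc (a j) (b j))) →
  (∫ t, cutm m (fun t => stp J a b c (so m t) ^ 2 * marg F m t ^ 2) t =
    ∑ j ∈ range J, c j ^ 2 * GI F m (a j) (b j)) ∧
  (4 * ∫ t, cutm m (fun t => stp J a b c (so m t) ^ 2 * marg F m t ^ 2 / (2 - so m t)) t =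
    ∑ j ∈ range J, c j ^ 2 * GK F m (a j) (b j))

/-- JD: decomposition of the prime form Jm. The sets are disjoint, so m t ≥ 0 where the marginal does
not vanish, and the density is the sum of the pieces. USES: C_BVM, C_MG, C_PH. -/
def C_JD : Prop := ∀ (k : ℕ) (P : Sl) (F : (Fin k → ℝ) → ℝ), P.Ok →
  Tst k P.T F → ∀ m : Fin k, Jm P F m = GI F m (-1) (2 - P.T) + ∑ l ∈ range P.L,
    (P.Lam l / (1 + P.Lam l) * GI F m (2 - P.T + P.z l) (2 - P.T + P.z (l + 1)) -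
      P.Lam l * ((4 - P.T + P.z (l + 1)) / 4) * GK F m (P.T - P.z (l + 1)) (P.T - P.z l))

/-! ## Group 5: asymptotics -/

/-- the size of the main terms: x int w / W (kappa log R)^k log R -/
noncomputable def Nn (w : ℝ → ℝ) (k D0 : ℕ) (δ x : ℝ) : ℝ :=
  x * (∫ u, w u) / (primorial D0 : ℝ) * lk D0 δ x ^ k * Real.log (Rx δ x)

/-- sieve weights of a slice in direction m -/
noncomputable def lsl {k : ℕ} (D0 : ℕ) (δ x : ℝ) (F : (Fin k → ℝ) → ℝ) (m : Fin k) (a b : ℝ) :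
    Co (Sx D0 x) k → ℝ := lam aF (slc (Rx δ x) (Set.Ioc a b) (ym (Rx δ x) F m))

/-- the Gram matrix of slices: all pairs of intervals whose tops add up to at most 2 -/
def GramConcl (w : ℝ → ℝ) {k : ℕ} (h : Fin k → ℕ) (F : (Fin k → ℝ) → ℝ) : Prop :=
  ∀ δ : ℝ, 0 < δ → δ < 1 / 8 → ∀ (a b a' b' : ℝ), b + b' ≤ 2 → ∀ ε : ℝ, 0 < ε →
  Ev fun D0 x => ∀ v0 : ℕ, (∀ i, (v0 + h i).Coprime (primorial D0)) → ∀ m : Fin k,
  (Disjoint (Set.Ioc a b) (Set.Ioc a' b') →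
    |S2 w h D0 v0 x m (lsl D0 δ x F m a b) (lsl D0 δ x F m a' b')| ≤ ε * Nn w k D0 δ x) ∧
  (a = a' → b = b' →
    |S2 w h D0 v0 x m (lsl D0 δ x F m a b) (lsl D0 δ x F m a' b') -
      Nn w k D0 δ x * GI F m a b| ≤ ε * Nn w k D0 δ x)

/-- the upper bound for step multiples of slices -/
def UppConcl (w : ℝ → ℝ) {k : ℕ} (h : Fin k → ℕ) (F : (Fin k → ℝ) → ℝ) : Prop :=
  ∀ δ : ℝ, 0 < δ → δ < 1 / 8 → ∀ (C0 : ℝ) (J : ℕ) (a b : ℕ → ℝ), ∀ ε : ℝ, 0 < ε →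
  Ev fun D0 x => ∀ v0 : ℕ, (∀ i, (v0 + h i).Coprime (primorial D0)) → ∀ m : Fin k,
  ∀ c : ℕ → ℝ, (∀ j < J, |c j| ≤ C0) →
  ∀ y : Co (Sx D0 x) k → ℝ, (∀ r, y r = stp J a b c (sz (Rx δ x) r) * ym (Rx δ x) F m r) →
  S2 w h D0 v0 x m (lam aF y) (lam aF y) ≤ Nn w k D0 δ x * (4 / (1 - 4 * δ) *
    (∫ t, cutm m (fun t => stp J a b c (so m t) ^ 2 * marg F m t ^ 2 / (2 - so m t)) t) + ε)

/-- the supports of ym -/
def YmConcl {k : ℕ} (T : ℝ) (F : (Fin k → ℝ) → ℝ) : Prop :=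
  ∀ δ : ℝ, 0 < δ → δ < 1 / 8 → Ev fun D0 x => ∀ (m : Fin k) (r : Co (Sx D0 x) k),
    ym (Rx δ x) F m r ≠ 0 → NoC m r ∧ sz (Rx δ x) r ≤ T

/-- the first sum -/
def S1Concl (w : ℝ → ℝ) {k : ℕ} (h : Fin k → ℕ) (F : (Fin k → ℝ) → ℝ) : Prop :=
  ∀ δ : ℝ, 0 < δ → δ < 1 / 8 → ∀ ε : ℝ, 0 < ε → Ev fun D0 x => ∀ v0 : ℕ,
  (∀ i, (v0 + h i).Coprime (primorial D0)) → ∀ l : Co (Sx D0 x) k → ℝ,
  l = lam aP (yF (Rx δ x) F) →
  S1 w h D0 v0 x l l * Real.log (Rx δ x) ≤ Nn w k D0 δ x * ((∫ t, F t ^ 2) + ε)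

/-- the prime side -/
def S2Concl (w : ℝ → ℝ) {k : ℕ} (h : Fin k → ℕ) (P : Sl) (F : (Fin k → ℝ) → ℝ) : Prop :=
  ∀ ε : ℝ, 0 < ε → ∃ δ1 : ℝ, 0 < δ1 ∧ δ1 < 1 / 8 ∧ ∀ δ : ℝ, 0 < δ → δ ≤ δ1 → Ev fun D0 x =>
  ∀ v0 : ℕ, (∀ i, (v0 + h i).Coprime (primorial D0)) → ∀ m : Fin k, ∀ l : Co (Sx D0 x) k → ℝ,
  l = lam aP (yF (Rx δ x) F) →
  Nn w k D0 δ x * (Jm P F m - ε) ≤ S2 w h D0 v0 x m l l

/-- YM: the diagonal variables in direction m (use CVA and MSU with f n = F(update (tv r) m (log n/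
log R))). Let |F| ≤ M, sections of variation ≤ V. For r in NoC m
CONV gives ym r = P(r) * (A + B), P(r) = mw (1 - 1/(p-1)^2) r, A = sum over u with dl m u = r of
F(tv u) mw aF r / mw aF u, B = the terms where u/r has a colour other than m:
|B| ≤ M (prod_{p in S} (1 + k/(p-1)^2) - 1) kl (kl bounds the sum over the m part, TOT). A = the sum over
n in SqF S (R^T), n prime to nrm r, of F(update (tv r) m (log n/log R))/phi(n); without the coprimality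
the error is at most M kl times the sum over p | nrm r of 1/(p-1) ≤ M kl (mw (1+1/(p-2)) r - 1); the full
sum is lk (marg F m (tv r) + O((M+V) Δ)) by D1 with c = 1/(phi(n) lk), t = log n/log R, T0 = T,
Δ = 8 eta/kap (ONE), uniformly in r. |P(r) - 1| ≤ mw (1 + 1/(p-2)) r - 1 and all terms are at most
C lk (kl ≤ 8 lk). Support: F(tv u) /= 0 gives sz u ≤ T, and r ≤ u. USES: C_BAS, C_SUP, C_CONV, C_CVA, C_MSU, C_TOT, C_ONE, C_ONA, C_ONB, C_D1. -/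
def C_YM : Prop := ∀ (k : ℕ) (T : ℝ) (F : (Fin k → ℝ) → ℝ), 1 < T → T < 2 → Tst k T F → ∀ δ : ℝ, 0 < δ →
  δ < 1 / 8 → ∃ C : ℝ, 0 ≤ C ∧ ∀ ε : ℝ, 0 < ε → Ev fun D0 x =>
  ∀ (m : Fin k) (r : Co (Sx D0 x) k), |ym (Rx δ x) F m r| ≤ C * lk D0 δ x ∧
  (ym (Rx δ x) F m r ≠ 0 → NoC m r ∧ sz (Rx δ x) r ≤ T) ∧
  (NoC m r → |ym (Rx δ x) F m r - lk D0 δ x * marg F m (tv (Rx δ x) r)| ≤
    lk D0 δ x * (C * (ε + (mw (fun p => 1 + C / ((p : ℝ) - 2)) r - 1))))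

/-- BST: conversion back is almost the identity. CONVB: the term u = r is y r mw (1 + 1/(p(p-2))) r,
the others are at most B mw (1 + 1/(p(p-2))) r (prod_{p in S} (1 + k/(p(p-2))) - 1). USES: C_SUP, C_CONVB. -/
def C_BST : Prop := ∀ k : ℕ, ∃ C : ℝ, 0 ≤ C ∧ ∀ ε : ℝ, 0 < ε → ∃ D1 : ℕ,
  ∀ D0 ≥ D1, ∀ S : Finset ℕ, (∀ p ∈ S, p.Prime ∧ D0 < p) → ∀ (y : Co S k → ℝ) (B : ℝ),
  (∀ r, |y r| ≤ B) → ∀ r, |ytr aP (lam aF y) r| ≤ C * B ∧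
  |ytr aP (lam aF y) r - y r| ≤ C * B * (ε + (mw (fun p => 1 + C / ((p : ℝ) - 2)) r - 1))

/-- GRA: norm of a step multiple of slices on the prime side. With y r = stp (sz r) ym r, QN (a = aF):
the form is sum y^2/mw (p-2) up to sum y^2/mw (p-2) (mw (1 + k/(p-2)) - 1), 1/(p-2) = (1/(p-1)) (1 +
1/(p-2)). Apply APX (T0 = T) to f = y^2 mw (1+1/(p-2))/lk^2, Φ = stp^2 marg^2 (PH, YM); the error by
|y| ≤ C lk and PERT. For r in NoC m, so m (tv r) = sz r. USES: C_BAS, C_SUP, C_CONV, C_TOT, C_ONE, C_D1, C_YM, C_QF, C_QN, C_BVM, C_MG, C_PH, C_APX, C_PERT, C_SUMN, C_KD, C_TUP, C_SUMK. -/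
def C_GRA : Prop := ∀ (k : ℕ) (T : ℝ) (F : (Fin k → ℝ) → ℝ), 1 < T → T < 2 → Tst k T F → ∀ δ : ℝ, 0 < δ →
  δ < 1 / 8 → ∀ (J : ℕ) (a b c : ℕ → ℝ), ∀ ε : ℝ, 0 < ε → Ev fun D0 x => ∀ m : Fin k,
  ∀ y : Co (Sx D0 x) k → ℝ, (∀ r, y r = stp J a b c (sz (Rx δ x) r) * ym (Rx δ x) F m r) →
  |Qf aF (lam aF y) (lam aF y) - lk D0 δ x ^ (k + 1) *
    ∫ t, cutm m (fun t => stp J a b c (so m t) ^ 2 * marg F m t ^ 2) t| ≤
    ε * lk D0 δ x ^ (k + 1)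

/-- KBQ: the form of the extension of a step multiple of slices. EXTQ with Z = R^2, l = lam aF y;
B = ytr aP l, BST, |y| ≤ C lk; Hs (R^2/nrm r) ≥ lk (2 - sz r) - eta log x ≥ lk (2 - sz r)(1 - ε') on
sz r ≤ T (ONE); the product over S is ≤ 1 + ε'. APX with f = B^2 mw(..)/(lk^2 (2 - sz r)), Φ = stp^2
marg^2/(2 - so). (sums over r of f/mw aF = lk^(k-1) (∫Φ + ε), times lk^2/lk.) Uniform in c. USES: C_BAS, C_SUP, C_CONV, C_CONVB, C_TOT, C_ONE, C_D1, C_YM, C_BST, C_INV, C_QF, C_QN, C_VLR, C_EXTQ, C_BVM, C_MG, C_PH, C_APX, C_PERT, C_SUMN, C_KD, C_TUP, C_SUMK. -/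
def C_KBQ : Prop := ∀ (k : ℕ) (T : ℝ) (F : (Fin k → ℝ) → ℝ), 1 < T → T < 2 → Tst k T F → ∀ δ : ℝ, 0 < δ →
  δ < 1 / 8 → ∀ (C0 : ℝ) (J : ℕ) (a b : ℕ → ℝ), ∀ ε : ℝ, 0 < ε → Ev fun D0 x => ∀ m : Fin k,
  ∀ c : ℕ → ℝ, (∀ j < J, |c j| ≤ C0) →
  ∀ y : Co (Sx D0 x) k → ℝ, (∀ r, y r = stp J a b c (sz (Rx δ x) r) * ym (Rx δ x) F m r) →
  Qf aP (lam aP (yext m (Rx δ x ^ 2) (lam aF y))) (lam aP (yext m (Rx δ x ^ 2) (lam aF y))) ≤
    lk D0 δ x ^ k *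
    ((∫ t, cutm m (fun t => stp J a b c (so m t) ^ 2 * marg F m t ^ 2 / (2 - so m t)) t) + ε)

/-- L1S: absolute sums of the weights: |y| ≤ log^2 x, supported on nrm ≤ x^(1/2 - 2δ)... Here for
general level: if |y r| ≤ log^2 x and y r /= 0 implies nrm r ≤ x^θ (θ ≤ 1), then the sum of
|lam aP y d| is at most x^θ (log x)^(4k+8) for x large (SZ, TAU with c = 2). USES: C_SUP, C_TAU, C_SZ. -/
def C_L1S : Prop := ∀ (k : ℕ), ∃ x0 : ℝ, ∀ x ≥ x0, ∀ D0 : ℕ, 3 ≤ D0 →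
  ∀ θ : ℝ, 0 ≤ θ → θ ≤ 1 → ∀ y : Co (Sx D0 x) k → ℝ, (∀ r, |y r| ≤ Real.log x ^ 2) →
  (∀ r, y r ≠ 0 → (nrm r : ℝ) ≤ x ^ θ) → ∑ d, |lam aP y d| ≤ x ^ θ * Real.log x ^ (4 * k + 8)

/-- KB: the upper bound for step multiples of slices on the prime side. l = lam aF y is supported in
NoC m, nrm ≤ R^T; l~ = lam aP (yext) extends l (EXT) and UPB: S2 l l ≤ log(2x) S1 l~ l~, S1E,
KBQ, L1S (|yext| ≤ C lk ≤ log^2 x, level R^2 = x^(1/2-2δ), squared R^4 = x^(1-4δ)), and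
log(2x) ≤ (1+ε') (4/(1-4δ)) log R. USES: C_BAS, C_SUP, C_CONV, C_CONVB, C_TOT, C_ONE, C_D1, C_YM, C_BST, C_INV, C_QF, C_QN, C_VLR, C_EXT, C_EXTQ, C_BVM, C_MG, C_PH, C_APX, C_PERT, C_SUMN, C_KD, C_TUP, C_SUMK, C_KBQ, C_TAU, C_SZ, C_L1S, C_ADJ, C_CRT, C_WPS, C_S1E, C_RS, C_UPB. -/
def C_KB : Prop := ∀ w, Wt w → ∀ (k : ℕ) (h : Fin k → ℕ), 0 < k → Function.Injective h →
  ∀ (T : ℝ) (F : (Fin k → ℝ) → ℝ), 1 < T → T < 2 → Tst k T F → UppConcl w h F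

/-- S1A: the first sum. S1E, L1S (nrm ≤ R^T = x^(T(1/4-δ)), twice: < x^(1-4δ)), QF/QN for aP:
Qf ≤ sum y^2/mw aF (mw (1+k/(p-1)) - 1) + sum y^2/mw aF, PERT and SUMK for Φ = F^2 (SQ). USES: C_BAS, C_SUP, C_TOT, C_ONE, C_D1, C_QF, C_QN, C_BVM, C_SQ, C_PERT, C_KD, C_TUP, C_SUMK, C_TAU, C_SZ, C_L1S, C_ADJ, C_CRT, C_WPS, C_S1E. -/
def C_S1A : Prop := ∀ w, Wt w → ∀ (k : ℕ) (h : Fin k → ℕ), 0 < k → Function.Injective h →
  ∀ (T : ℝ) (F : (Fin k → ℝ) → ℝ), 1 < T → T < 2 → Tst k T F → S1Concl w h F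

/-- GRM: the Gram matrix of slices whose tops add up to at most 2. S2B with s = b, s' = b' (if b < 0
the slice is empty; |ym| ≤ C lk ≤ log^2 x), QO for disjoint slices (same support gives the same sz),
GRA for equal slices, PNTW: thW w x 1 0/phi(W) lk^(k+1) = (1+o(1)) Nn, and x/log x ≤ ε Nn for x large
(lk ≥ kap log x/8, k ≥ 1). USES: C_BAS, C_SUP, C_CONV, C_TOT, C_ONE, C_D1, C_YM, C_QF, C_QN, C_QO, C_BVM, C_MG, C_PH, C_APX, C_PERT, C_SUMN, C_KD, C_TUP, C_SUMK, C_GRA, C_TAU, C_SZ, C_S2E, C_BVS, C_JCT, C_ADJ, C_CRT, C_TMS, C_S2B, BVE, PNTW. -/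
def C_GRM : Prop := ∀ w, Wt w → ∀ (k : ℕ) (h : Fin k → ℕ), 0 < k → Function.Injective h →
  ∀ (T : ℝ) (F : (Fin k → ℝ) → ℝ), 1 < T → T < 2 → Tst k T F → GramConcl w h F

/-! ## Group 6: assembly -/

/-- AL: the core inequality for a positive semidefinite form (abstract, with errors). Write
β = Lam/(1+Lam), mu_i = Lam_i (K_i - 1)/K_i, V = f0 + r + Σ (f_i + o_i), Y = f0 + Σ β_i f_i,
P_i = B (f_i) (Σ_{j ≤ i} o_j), p_i = P_i/N, mh_i = m_i + ε1.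
(1) B V V ≥ 2 B V Y - B Y Y (positivity on V - Y) ≥ N (m0 + Σ (2β_i - β_i²) m_i + 2 Σ β_i p_i - O(η)):
all the other products are at most η N.
(2) 2 β p + Lam p²/mh + β/(1+Lam) mh = (Lam/mh) (p + mh/(1+Lam))² ≥ 0. So
B V V/N ≥ m0 + Σ β_i m_i - Σ β_i ε1 - Σ Lam_i p_i²/mh_i - O(η).
(3) Put O = Σ_{j ≤ l} o_j, a = B O O/N; for i ≤ l, B (f_i) O = N (p_i + O(η)) (f_i, o_j are orthogonal
for i < j). Positivity on O - Σ_{i ≤ l} γ_i f_i with γ_i = p_i/mh_i gives a ≥ Σ p_i²/mh_i - O(η); the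
hypothesis with τ_i = p_i/((K_i - 1) mh_i) gives a ≤ Σ bb_i - Σ p_i²/((K_i-1) mh_i) + O(η)
(2 τ p - τ²(K-1) m ≥ p²/((K-1) mh)). Sum: Σ_{i ≤ l} (K_i/(K_i-1)) p_i²/mh_i ≤ Σ_{i ≤ l} bb_i + O(η).
(4) Abel summation with mu_i nonincreasing: Σ Lam_i p_i²/mh_i ≤ Σ mu_i bb_i + O(η). Boundedness of p_i:
p_i² ≤ (m_i + η)(Σ bb + η) (τ = 0), so C0 and the O constants depend on the data and on ε1 only. -/
def C_AL : Prop := ∀ (L : ℕ) (K Lam : ℕ → ℝ) (m0 : ℝ) (mm bb : ℕ → ℝ), 0 ≤ m0 →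
  (∀ i < L, 1 < K i ∧ 0 ≤ Lam i ∧ 0 ≤ mm i ∧ 0 ≤ bb i) →
  (∀ i, i + 1 < L → Lam (i + 1) * ((K (i + 1) - 1) / K (i + 1)) ≤ Lam i * ((K i - 1) / K i)) →
  ∀ ε : ℝ, 0 < ε → ∃ η C0 : ℝ, 0 < η ∧ 0 ≤ C0 ∧
  ∀ (E : Type) [AddCommGroup E] [Module ℝ E] (B : E →ₗ[ℝ] E →ₗ[ℝ] ℝ),
  (∀ u v, B u v = B v u) → (∀ v, 0 ≤ B v v) → ∀ (N : ℝ), 0 < N → ∀ (f0 r : E) (f o : ℕ → E),
  |B f0 f0 - N * m0| ≤ η * N → (∀ i < L, |B (f i) (f i) - N * mm i| ≤ η * N) →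
  (∀ i < L, |B f0 (f i)| ≤ η * N) → |B f0 r| ≤ η * N → (∀ i < L, |B f0 (o i)| ≤ η * N) →
  (∀ i < L, ∀ j < L, i ≠ j → |B (f i) (f j)| ≤ η * N) → (∀ i < L, |B (f i) r| ≤ η * N) →
  (∀ i < L, ∀ j < L, i < j → |B (f i) (o j)| ≤ η * N) →
  (∀ l < L, ∀ τ : ℕ → ℝ, (∀ i ≤ l, |τ i| ≤ C0) →
    B (∑ j ∈ range (l + 1), (o j + τ j • f j)) (∑ j ∈ range (l + 1), (o j + τ j • f j)) ≤
      N * (∑ j ∈ range (l + 1), (bb j + τ j ^ 2 * (K j * mm j)) + η)) →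
  N * (m0 + ∑ i ∈ range L, (Lam i / (1 + Lam i) * mm i - Lam i * ((K i - 1) / K i) * bb i) - ε) ≤
    B (f0 + r + ∑ i ∈ range L, (f i + o i)) (f0 + r + ∑ i ∈ range L, (f i + o i))

/-- LIN: S2 is a symmetric positive semidefinite bilinear form, lam and slc are linear (x ≥ 1: the
weights tm are nonnegative: log(n + h m) ≥ 0 for a prime). -/
def C_LIN : Prop := ∀ w, Wt w → ∀ (k : ℕ) (h : Fin k → ℕ) (D0 v0 : ℕ) (x : ℝ) (S : Finset ℕ)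
  (m : Fin k), ∃ B : (Co S k → ℝ) →ₗ[ℝ] (Co S k → ℝ) →ₗ[ℝ] ℝ,
  (∀ l l', B l l' = S2 w h D0 v0 x m l l') ∧ (∀ u v, B u v = B v u) ∧ (∀ v, 0 ≤ B v v) ∧
  (∀ (a : ℕ → ℝ) (y y' : Co S k → ℝ) (c : ℝ), lam a (y + y') = lam a y + lam a y' ∧
    lam a (c • y) = c • lam a y)

/-- DEC: decomposition of the diagonal variables into the slices of P: for y supported on 0 ≤ sz ≤ T,
y = core + rest + Σ_l (inner l + outer l). The intervals (-1, 2-T], (2-T+z l, 2-T+z(l+1)],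
(2-T+z L, T-z L], (T-z(l+1), T-z l] are a partition of (-1, T] (z 0 = 0, z increasing, z L ≤ T-1). -/
def C_DEC : Prop := ∀ (S : Finset ℕ) (k : ℕ) (P : Sl), P.Ok → ∀ (R : ℝ) (y : Co S k → ℝ),
  (∀ r, y r ≠ 0 → 0 ≤ sz R r ∧ sz R r ≤ P.T) →
  y = slc R (Set.Ioc (-1) (2 - P.T)) y + slc R (Set.Ioc (2 - P.T + P.z P.L) (P.T - P.z P.L)) y +
    ∑ l ∈ range P.L, (slc R (Set.Ioc (2 - P.T + P.z l) (2 - P.T + P.z (l + 1))) y +
      slc R (Set.Ioc (P.T - P.z (l + 1)) (P.T - P.z l)) y)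

/-- ALD: the inequality with the constants K_l = (1/(1-4δ)) 4/(T - z(l+1)), bb_l = (1/(1-4δ)) GK(outer l)
for small δ: choose δ1 such that the value differs by at most ε/2 from the limit; the monotonicity
of Lam (K-1)/K = Lam (1 - (1-4δ)(T - z(l+1))/4) holds for every δ: it is Lam (4 - T + z(l+1))/4 plus
δ Lam (T - z(l+1)); Lam (4-T+z)/4 is nonincreasing and (4-T+z) increasing so Lam is nonincreasing, and
T - z is decreasing. K > 1: 4/(T - z) ≥ 4/T > 2. -/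
def C_ALD : Prop := ∀ (P : Sl), P.Ok → ∀ (bb : ℕ → ℝ), (∀ l < P.L, 0 ≤ bb l) → ∀ ε : ℝ, 0 < ε →
  ∃ δ1 : ℝ, 0 < δ1 ∧ δ1 < 1 / 8 ∧ ∀ δ : ℝ, 0 < δ → δ ≤ δ1 → ∀ K : ℕ → ℝ,
  (∀ l, K l = 4 / (1 - 4 * δ) / (P.T - P.z (l + 1))) →
  (∀ l < P.L, 1 < K l) ∧
  (∀ l, l + 1 < P.L →
    P.Lam (l + 1) * ((K (l + 1) - 1) / K (l + 1)) ≤ P.Lam l * ((K l - 1) / K l)) ∧
  ∑ l ∈ range P.L, P.Lam l * ((K l - 1) / K l) * (bb l / (1 - 4 * δ)) ≤
    ∑ l ∈ range P.L, P.Lam l * ((4 - P.T + P.z (l + 1)) / 4) * bb l + ε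

/-- S2A: the prime side. S2 l l = S2 (rst m l) (rst m l) (RS) and rst m l = lam aF (ym) (INV, a = aF),
decompose ym (DEC), use LIN and AL with f0 = core, r = rest, f l = inner, o l = outer (m0 = GI core,
mm l = GI inner l, bb l = GK(outer l)/(1-4δ), K l = 4/(1-4δ)/(T - z(l+1))). Gram conditions from
GramConcl: tops: core 2 - T with T; inner l with inner or rest: ≤ 1 + 1 resp. (2-T+z(l+1)) + (T - z L)
≤ 2; inner i with outer j, i < j: 2 - T + z(i+1) + T - z j ≤ 2. The upper bound hypothesis from UppConcl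
with J = 2 (l+1): intervals outer j (c = 1) and inner j (c = τ j), GII: 4 ∫ = Σ GK(outer j) +
Σ τ² GK(inner j), GK(inner j) ≤ 4/(T - z(j+1)) GI(inner j). Then ALD and JD. USES: C_INV, C_RS, C_DEC, C_LIN, C_AL, C_ALD, C_GII, C_JD, C_BVM, C_MG, C_PH. -/
def C_S2A : Prop := ∀ w, Wt w → ∀ (k : ℕ) (h : Fin k → ℕ), 0 < k → ∀ (P : Sl) (F : (Fin k → ℝ) → ℝ),
  P.Ok → Tst k P.T F → GramConcl w h F → UppConcl w h F → YmConcl P.T F → S2Concl w h P F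

/-- POS: if S2 summed over m exceeds log(2x) S1 for one sieve weight l, then there is an n with two
primes: otherwise Σ_m tm n ≤ log(2x) wp n for every n (at most one nonzero term, the prime
n + h m < 15x/8). For that n some w((n + h m)/x) /= 0, so n > x and n + h i < 2x for x large. -/
def C_POS : Prop := ∀ w, Wt w → ∀ (k : ℕ) (h : Fin k → ℕ), 0 < k → Function.Injective h →
  ∃ x0 : ℝ, ∀ x ≥ x0, ∀ (D0 v0 : ℕ) (S : Finset ℕ) (l : Co S k → ℝ),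
  Real.log (2 * x) * S1 w h D0 v0 x l l < ∑ m, S2 w h D0 v0 x m l l →
  ∃ n : ℕ, x < n ∧ (∀ i, (n + h i : ℝ) < 2 * x) ∧
    ∃ i j : Fin k, i ≠ j ∧ (n + h i).Prime ∧ (n + h j).Prime

/-- MAIN: from S1Concl, S2Concl and the criterion to two primes. ε = (Σ Jm - 4 ∫F²)/(small constant
times k), δ small: log(2x) S1 ≤ (1+ε')(4/(1-4δ)) Nn (∫F² + ε) < Nn Σ (Jm - ε). D0 = the maximum of the
two thresholds, v0 from V0, x large (Nn > 0, log R > 0). USES: C_V0, C_POS. -/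
def C_MAIN : Prop := ∀ w, Wt w → ∀ (k : ℕ) (h : Fin k → ℕ), 0 < k → Adm h →
  ∀ (P : Sl) (F : (Fin k → ℝ) → ℝ), P.Ok → Tst k P.T F → Crit P F → S1Concl w h F →
  S2Concl w h P F → TwoPrimes h

end MPb51559.BG
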