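import Pool.Agent.Work.MP_b51559_nt.BG.C.Stmts
import Pool.Agent.Work.MP_b51559_nt.BG.Wex

set_option autoImplicit false

/-!
# Part C, item WPS: sums of the weight of S1 over progressions
-/

namespace MPb51559.BG

open Finset Filter Topology MeasureTheory
open scoped Classical

theorem WPS_close (w : ℝ → ℝ) (L H : ℝ) (hL : ∀ u v, |w u - w v| ≤ L * |u - v|) (hL0 : 0 ≤ L)
    (k : ℕ) (hk : 0 < k) (h : Fin k → ℕ) (hH : ∀ m, (h m : ℝ) ≤ H) (x : ℝ) (hx : 0 < x) (n : ℕ) :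
    |wp w h x n - w ((n : ℝ) / x)| ≤ L * H / x := by
  have hne : Nonempty (Fin k) := ⟨⟨0, hk⟩⟩
  have h1 : ∀ m : Fin k, |w (((n : ℝ) + h m) / x) - w ((n : ℝ) / x)| ≤ L * H / x := by
    intro m
    refine (hL _ _).trans ?_
    have h2 : ((n : ℝ) + h m) / x - (n : ℝ) / x = (h m : ℝ) / x := by ring
    rw [h2, abs_of_nonneg (by positivity), mul_div_assoc]
    exact mul_le_mul_of_nonneg_left (div_le_div_of_nonneg_right (hH m) hx.le) hL0
  have hb : BddAbove (Set.range fun m : Fin k => w (((n : ℝ) + h m) / x)) :=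
    Set.finite_range _ |>.bddAbove
  rw [abs_le]
  constructor
  · have h3 := h1 ⟨0, hk⟩
    have h4 : w (((n : ℝ) + h ⟨0, hk⟩) / x) ≤ wp w h x n := le_ciSup hb ⟨0, hk⟩
    rw [abs_le] at h3
    linarith [h3.1]
  · have h5 : wp w h x n ≤ w ((n : ℝ) / x) + L * H / x := by
      refine ciSup_le fun m => ?_
      have h3 := h1 m
      rw [abs_le] at h3
      linarith [h3.2]
    linarith

theorem prf_WPS : C_WPS := by
  intro w hw k h hk
  obtain ⟨C, hC⟩ := Wt_sum w hw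
  obtain ⟨L, hL⟩ := Wt_lip w hw
  have hL0 : 0 ≤ L := by
    have := hL 1 0
    rw [sub_zero, abs_one, mul_one] at this
    exact (abs_nonneg _).trans this
  obtain ⟨H, hHd⟩ : ∃ H : ℝ, H = ∑ m, (h m : ℝ) := ⟨_, rfl⟩
  have hH : ∀ m, (h m : ℝ) ≤ H := fun m => by
    rw [hHd]
    exact Finset.single_le_sum (f := fun m => (h m : ℝ)) (fun i _ => Nat.cast_nonneg _)
      (Finset.mem_univ m)
  have hH0 : 0 ≤ H := (Nat.cast_nonneg (h ⟨0, hk⟩)).trans (hH ⟨0, hk⟩)
  refine ⟨C + 3 * (L * H), 1, fun x hx => ⟨fun n => Real.iSup_nonneg fun m => hw.nonneg _,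
    fun q a hq => ?_⟩⟩
  have hx0 : 0 < x := by linarith
  have h1 := hC x q a hx hq
  have h2 : |∑ n ∈ (range (⌊2 * x⌋₊ + 1)).filter (fun n => n ≡ a [MOD q]), wp w h x n -
      ∑ n ∈ (range (⌊2 * x⌋₊ + 1)).filter (fun n => n ≡ a [MOD q]), w ((n : ℝ) / x)| ≤
      3 * (L * H) := by
    rw [← Finset.sum_sub_distrib]
    refine (Finset.abs_sum_le_sum_abs _ _).trans ?_
    refine (Finset.sum_le_sum fun n _ => WPS_close w L H hL hL0 k hk h hH x hx0 n).trans ?_
    rw [Finset.sum_const, nsmul_eq_mul]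
    have h3 : (((range (⌊2 * x⌋₊ + 1)).filter (fun n => n ≡ a [MOD q])).card : ℝ) ≤ 3 * x := by
      have h4 : ((range (⌊2 * x⌋₊ + 1)).filter (fun n => n ≡ a [MOD q])).card ≤ ⌊2 * x⌋₊ + 1 :=
        (Finset.card_filter_le _ _).trans (by rw [Finset.card_range])
      have h5 : (((range (⌊2 * x⌋₊ + 1)).filter (fun n => n ≡ a [MOD q])).card : ℝ) ≤
          (⌊2 * x⌋₊ : ℝ) + 1 := by exact_mod_cast h4
      have h6 := Nat.floor_le (show 0 ≤ 2 * x by linarith)
      linarith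
    refine (mul_le_mul_of_nonneg_right h3 (by positivity)).trans (le_of_eq ?_)
    field_simp
  have h7 : ∑ n ∈ (range (⌊2 * x⌋₊ + 1)).filter (fun n => n ≡ a [MOD q]), w ((n : ℝ) / x) =
      ∑ n ∈ (Finset.range (⌊2 * x⌋₊ + 1)).filter (fun n => n % q = a % q), w ((n : ℝ) / x) := by
    refine Finset.sum_congr ?_ fun _ _ => rfl
    ext n
    simp only [Finset.mem_filter, Nat.ModEq]
  rw [h7] at h2
  have h8 := abs_le.1 h1
  have h9 := abs_le.1 h2
  rw [abs_le]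
  constructor <;> linarith [h8.1, h8.2, h9.1, h9.2]

end MPb51559.BG
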